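import Mathlib

section

/-! Rough singular integrals on `A₁` weighted spaces: basic objects. -/

open MeasureTheory Set
open scoped ENNReal FourierTransform RealInnerProductSpace

namespace Pool.Agent.MP_418f02_an

abbrev E (d : ℕ) := EuclideanSpace ℝ (Fin d)

/-- a dyadic cube: level and integer position -/
abbrev Cb (d : ℕ) := ℤ × (Fin d → ℤ)

variable {d : ℕ}

noncomputable section

/-- position of the dyadic cube of side `2 ^ k` containing `x` -/
def ix (k : ℤ) (x : E d) : Fin d → ℤ := fun i => ⌊x i / 2 ^ k⌋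

/-- the dyadic cube of side `2 ^ k` containing `x` -/
def cb (k : ℤ) (x : E d) : Cb d := (k, ix k x)

def cube (c : Cb d) : Set (E d) := {x | ix c.1 x = c.2}

/-- the threefold dilate: the cube and its neighbours of the same level -/
def big (c : Cb d) : Set (E d) := {x | ∀ i, |ix c.1 x i - c.2 i| ≤ 1}

/-- volume of a cube of level `k` -/
def sz (d : ℕ) (k : ℤ) : ℝ := (2 ^ k) ^ d

/-- `S` is a union of cubes of level `k` -/
def LM (k : ℤ) (S : Set (E d)) : Prop := ∀ x y, ix k x = ix k y → x ∈ S → y ∈ S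

/-- pairwise disjoint cubes -/
def Dj (P : Finset (Cb d)) : Prop := (P : Set (Cb d)).PairwiseDisjoint cube

/-- points whose level `j` neighbourhood meets both the cube and its complement -/
def bd (j : ℤ) (c : Cb d) : Set (E d) :=
  {y | (∃ x ∈ big (cb j y), x ∈ cube c) ∧ ∃ x ∈ big (cb j y), x ∉ cube c}

/-- bounded, measurable, with bounded support -/
structure Nice (g : E d → ℝ) : Prop where
  meas : Measurable g
  bdd : ∃ M, ∀ x, |g x| ≤ M
  supp : ∃ R, ∀ x, R < ‖x‖ → g x = 0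

/-- a rough kernel at unit scale -/
structure IsKer (k : E d → ℝ) : Prop where
  meas : Measurable k
  bdd : ∀ y, |k y| ≤ 1
  supp : ∀ y, 2 < ‖y‖ → k y = 0
  zero : ∫ y, k y = 0

/-- the reflected kernel -/
def rf (k : E d → ℝ) : E d → ℝ := fun y => k (-y)

/-- the kernel at scale `l`, averaged over one octave of dilations -/
def KK (k : E d → ℝ) (l : ℝ) (y : E d) : ℝ :=
  ∫ s in (1 : ℝ)..2, ((l * s) ^ d)⁻¹ * k ((l * s)⁻¹ • y) / s

/-- the piece of the operator at level `j` -/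
def cv (k : E d → ℝ) (j : ℤ) (g : E d → ℝ) (x : E d) : ℝ :=
  ∫ y, KK k (2 ^ (j - 2)) (x - y) * g y

/-- sums over a range of levels -/
def ps (φ : ℤ → E d → ℝ) (a b : ℤ) (x : E d) : ℝ := ∑ j ∈ Finset.Icc a b, φ j x

/-- the truncated operator -/
def TT (k : E d → ℝ) (a b : ℤ) (g : E d → ℝ) : E d → ℝ := ps (fun j => cv k j g) a b

/-- the operator truncated along a family of sets -/
def TG (k : E d → ℝ) (G : ℤ → Set (E d)) (a b : ℤ) (g : E d → ℝ) : E d → ℝ :=
  ps (fun j => (G j).indicator (cv k j g)) a b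

/-- a stopping family: unions of cubes, increasing with the level -/
structure Stop (G : ℤ → Set (E d)) : Prop where
  lm : ∀ j, LM j (G j)
  mono : ∀ i j, i ≤ j → G i ⊆ G j

/-- Fourier transform of a real function -/
def FT (f : E d → ℝ) : E d → ℂ := 𝓕 fun y => (f y : ℂ)

/-- the character `exp (-2 π i t)` -/
def ee (t : ℝ) : ℂ := Complex.exp (((-2 * Real.pi * t : ℝ) : ℂ) * Complex.I)

/-- average along rays -/
def ray (D : E d → ℝ) (y : E d) : ℝ := ∫ s in (1 : ℝ)..2, D (s • y) / s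

/-- correlation of two scales of the kernel -/
def Psi (k : E d → ℝ) (l r : ℝ) (a : E d) : ℝ := ∫ z, KK k l z * KK k r (z - a)

/-- Fourier mass of the kernel near the hyperplane orthogonal to `a` -/
def Gam (k : E d → ℝ) (a : E d) (e : ℝ) : ℝ :=
  ∫ ζ, ‖FT k ζ‖ ^ 2 * (1 + |⟪a, ζ⟫| / (‖ζ‖ * e))⁻¹ ^ 2

/-- mean zero atoms on disjoint cubes -/
structure Atoms (P : Finset (Cb d)) (b : Cb d → E d → ℝ) (c : ℝ) : Prop where
  dj : Dj P
  nice : ∀ Q ∈ P, Nice (b Q)
  supp : ∀ Q ∈ P, ∀ x, x ∉ cube Q → b Q x = 0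
  zero : ∀ Q ∈ P, ∫ x, b Q x = 0
  mass : ∀ Q ∈ P, ∫ x, |b Q x| ≤ c * sz d Q.1

/-- the atoms of level below `e` -/
def Bl (P : Finset (Cb d)) (b : Cb d → E d → ℝ) (e : ℤ) (x : E d) : ℝ :=
  ∑ Q ∈ P with Q.1 < e, b Q x

/-- the atoms with level in `[a, e)` -/
def Bw (P : Finset (Cb d)) (b : Cb d → E d → ℝ) (a e : ℤ) (x : E d) : ℝ :=
  ∑ Q ∈ P with a ≤ Q.1 ∧ Q.1 < e, b Q x

/-- the normalised `L^m` norm of `Y` on the cube is at most `B` -/
def Mom (Y : E d → ℝ) (Q : Cb d) (m B : ℝ) : Prop :=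
  ∫⁻ x in cube Q, ENNReal.ofReal |Y x| ^ m ≤ ENNReal.ofReal (B ^ m * sz d Q.1)

/-- a family of cubes in `c₀` on which the delayed sums are large -/
structure Bad (φ : ℤ → E d → ℝ) (j₀ : ℤ) (L : ℕ) (A : ℝ) (c₀ : Cb d) (F : Finset (Cb d)) :
    Prop where
  dj : Dj F
  low : ∀ R ∈ F, j₀ ≤ R.1 + L
  up : ∀ R ∈ F, R.1 + L ≤ c₀.1
  sub : ∀ R ∈ F, cube R ⊆ cube c₀
  ne : ∀ R ∈ F, ∃ y ∈ cube R, φ (R.1 + L) y ≠ 0
  pos : ∀ R ∈ F, 0 < volume {y ∈ cube R | A < |ps φ (R.1 + L) c₀.1 y|}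

/-- the hypothesis of the John-Nirenberg iteration -/
def OneStep (φ : ℤ → E d → ℝ) (j₀ : ℤ) (L : ℕ) (A δ : ℝ) (Q : Cb d) : Prop :=
  ∀ c₀ : Cb d, c₀.1 ≤ Q.1 → cube c₀ ⊆ cube Q → ∀ F, Bad φ j₀ L A c₀ F →
    ∑ R ∈ F, sz d R.1 ≤ δ * sz d c₀.1

/-- average over the dilated cube -/
def av (j : ℤ) (F : E d → ℝ≥0∞) (x : E d) : ℝ≥0∞ :=
  (∫⁻ y in big (cb j x), F y) / ENNReal.ofReal (3 ^ d * sz d j)

/-- maximal function over a range of levels -/
def mx (a b : ℤ) (F : E d → ℝ≥0∞) (x : E d) : ℝ≥0∞ := ⨆ j ∈ Finset.Icc a b, av j F x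

/-- dyadic form of the `A₁` condition -/
structure A1 (w : E d → ℝ) (A : ℝ) : Prop where
  meas : Measurable w
  pos : ∀ x, 0 < w x
  loc : LocallyIntegrable w volume
  one_le : 1 ≤ A
  le : ∀ j : ℤ, ∀ᵐ x, ∫ y in big (cb j x), w y ≤ A * sz d j * w x

/-- on every cube the weight is comparable from above with its mean -/
def Flat (V : E d → ℝ≥0∞) (a b : ℤ) (M : ℝ) : Prop :=
  ∀ W : Cb d, a ≤ W.1 → W.1 ≤ b → ∃ β : ℝ≥0∞, (∀ x ∈ cube W, V x ≤ β) ∧
    β * ENNReal.ofReal (sz d W.1) ≤ ENNReal.ofReal M * ∫⁻ x in cube W, V x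

end

end Pool.Agent.MP_418f02_an

end

section

open MeasureTheory Set
open scoped ENNReal RealInnerProductSpace

namespace Pool.Agent.MP_418f02_an

variable {d : ℕ}

theorem cube_two (k : ℤ) : (0 : ℝ) < 2 ^ k := zpow_pos two_pos k

theorem cube_le_ix {k m : ℤ} {x : E d} {i : Fin d} : m ≤ ix k x i ↔ (m : ℝ) * 2 ^ k ≤ x i := by
  rw [ix, Int.le_floor, le_div_iff₀ (cube_two k)]

theorem cube_ix_lt {k m : ℤ} {x : E d} {i : Fin d} : ix k x i < m ↔ x i < (m : ℝ) * 2 ^ k := by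
  rw [ix, Int.floor_lt, div_lt_iff₀ (cube_two k)]

theorem cube_ix_up (k : ℤ) (n : ℕ) (x : E d) (i : Fin d) :
    ix (k + n) x i = ix k x i / ((2 ^ n : ℕ) : ℤ) := by
  rw [ix, ix, ← Int.floor_div_natCast, zpow_add₀ two_ne_zero, div_div, zpow_natCast]
  push_cast
  rfl

theorem cube_mem {c : Cb d} {x : E d} :
    x ∈ cube c ↔ ∀ i, x i ∈ Ico ((c.2 i : ℝ) * 2 ^ c.1) ((c.2 i + 1) * 2 ^ c.1) := by
  rw [cube, mem_ofPred_eq, funext_iff]
  refine forall_congr' fun i => ?_
  have h1 := cube_le_ix (k := c.1) (m := c.2 i) (x := x) (i := i)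
  have h2 := cube_ix_lt (k := c.1) (m := c.2 i + 1) (x := x) (i := i)
  push_cast at h2
  rw [mem_Ico, ← h1, ← h2]
  omega

theorem cube_mem_big {c : Cb d} {x : E d} :
    x ∈ big c ↔ ∀ i, x i ∈ Ico (((c.2 i : ℝ) - 1) * 2 ^ c.1) ((c.2 i + 2) * 2 ^ c.1) := by
  rw [big, mem_ofPred_eq]
  refine forall_congr' fun i => ?_
  have h1 := cube_le_ix (k := c.1) (m := c.2 i - 1) (x := x) (i := i)
  have h2 := cube_ix_lt (k := c.1) (m := c.2 i + 2) (x := x) (i := i)
  push_cast at h1 h2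
  rw [mem_Ico, ← h1, ← h2, abs_le]
  omega

theorem cube_vol_Ico (a b : Fin d → ℝ) :
    volume {x : E d | ∀ i, x i ∈ Ico (a i) (b i)} = ∏ i, ENNReal.ofReal (b i - a i) := by
  rw [← Real.volume_pi_Ico, ← (PiLp.volume_preserving_ofLp (Fin d)).measure_preimage
    (MeasurableSet.univ_pi fun i => measurableSet_Ico).nullMeasurableSet]
  congr 1
  ext x
  simp

theorem cube_vol_Icc (a b : Fin d → ℝ) :
    volume {x : E d | ∀ i, x i ∈ Icc (a i) (b i)} = ∏ i, ENNReal.ofReal (b i - a i) := by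
  rw [← Real.volume_Icc_pi, ← (PiLp.volume_preserving_ofLp (Fin d)).measure_preimage
    measurableSet_Icc.nullMeasurableSet]
  congr 1
  ext x
  simp only [mem_ofPred_eq, mem_preimage, mem_Icc, Pi.le_def, forall_and]

theorem cube_norm_le {x : E d} {r : ℝ} (hr : 0 ≤ r) (h : ∀ i, |x i| ≤ r) : ‖x‖ ≤ d * r := by
  rw [EuclideanSpace.norm_eq]
  refine Real.sqrt_le_iff.2 ⟨by positivity, ?_⟩
  calc ∑ i, ‖x i‖ ^ 2 ≤ ∑ _i : Fin d, r ^ 2 :=
        Finset.sum_le_sum fun i _ => pow_le_pow_left₀ (norm_nonneg _) (h i) 2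
    _ = d * r ^ 2 := by simp
    _ ≤ (d * r) ^ 2 := by
        rw [mul_pow]
        refine mul_le_mul_of_nonneg_right ?_ (sq_nonneg r)
        exact_mod_cast Nat.le_self_pow two_ne_zero d

theorem sz_pos (k : ℤ) : 0 < sz d k := pow_pos (cube_two k) d

theorem sz_add (k : ℤ) (n : ℕ) : sz d (k + n) = (2 ^ n) ^ d * sz d k := by
  rw [sz, sz, zpow_add₀ two_ne_zero, zpow_natCast, mul_pow, mul_comm]

theorem sz_mono {k l : ℤ} (h : k ≤ l) : sz d k ≤ sz d l :=
  pow_le_pow_left₀ (cube_two k).le (zpow_le_zpow_right₀ one_le_two h) d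

theorem ix_mono {k l : ℤ} {x y : E d} (h : k ≤ l) (e : ix k x = ix k y) : ix l x = ix l y := by
  obtain ⟨n, rfl⟩ := Int.le.dest h
  funext i
  rw [cube_ix_up, cube_ix_up, e]

theorem mem_cube_cb (k : ℤ) (x : E d) : x ∈ cube (cb k x) := rfl

theorem cb_eq_of_mem {c : Cb d} {x : E d} (h : x ∈ cube c) : cb c.1 x = c :=
  Prod.ext rfl h

theorem cube_nonempty (c : Cb d) : (cube c).Nonempty := by
  refine ⟨WithLp.toLp 2 fun i => (c.2 i : ℝ) * 2 ^ c.1, cube_mem.2 fun i => ⟨le_rfl, ?_⟩⟩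
  exact mul_lt_mul_of_pos_right (lt_add_one _) (cube_two _)

theorem cube_subset_big (c : Cb d) : cube c ⊆ big c := by
  intro x hx i
  rw [show ix c.1 x = c.2 from hx]
  simp

theorem lm_cube (c : Cb d) : LM c.1 (cube c) := fun _ _ e hx => e.symm.trans hx

theorem lm_big (c : Cb d) : LM c.1 (big c) := fun _ _ e hx i => by
  rw [← e]; exact hx i

theorem lm_bd (j : ℤ) (c : Cb d) : LM j (bd j c) := fun x y e hx => by
  have : cb j x = cb j y := Prod.ext rfl e
  rw [bd, mem_ofPred_eq] at hx ⊢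
  rwa [← this]

theorem LM.mono {k l : ℤ} {S : Set (E d)} (h : LM l S) (hkl : k ≤ l) : LM k S :=
  fun x y e hx => h x y (ix_mono hkl e) hx

theorem LM.cube_subset {k : ℤ} {S : Set (E d)} (h : LM k S) {c : Cb d} {x : E d} (hc : c.1 ≤ k)
    (hx : x ∈ cube c) (hS : x ∈ S) : cube c ⊆ S :=
  fun y hy => h.mono hc x y (Eq.trans hx (Eq.symm hy)) hS

theorem cube_meas_ix (k : ℤ) : Measurable (ix k : E d → Fin d → ℤ) := by
  refine measurable_pi_lambda _ fun i => ?_
  exact Int.measurable_floor.comp (by fun_prop)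

theorem measurableSet_cube (c : Cb d) : MeasurableSet (cube c) :=
  cube_meas_ix c.1 (measurableSet_singleton c.2)

theorem LM.meas {k : ℤ} {S : Set (E d)} (h : LM k S) : MeasurableSet S := by
  have : S = ix k ⁻¹' (ix k '' S) := by
    ext x
    exact ⟨fun hx => ⟨x, hx, rfl⟩, fun ⟨y, hy, e⟩ => h y x e hy⟩
  rw [this]
  exact cube_meas_ix k (Set.to_countable _).measurableSet

theorem measurableSet_big (c : Cb d) : MeasurableSet (big c) := (lm_big c).meas

theorem measurable_of_ix {β : Type} [MeasurableSpace β] {k : ℤ} {F : E d → β}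
    (h : ∀ x y, ix k x = ix k y → F x = F y) : Measurable F :=
  fun s _ => LM.meas (k := k) fun x y e hx => by
    rw [mem_preimage, ← h x y e]; exact hx

theorem volume_cube (c : Cb d) : volume (cube c) = ENNReal.ofReal (sz d c.1) := by
  have : cube c = {x : E d | ∀ i, x i ∈ Ico ((c.2 i : ℝ) * 2 ^ c.1) ((c.2 i + 1) * 2 ^ c.1)} :=
    Set.ext fun _ => cube_mem
  rw [this, cube_vol_Ico, sz, ENNReal.ofReal_pow (cube_two _).le,
    Finset.prod_congr rfl (g := fun _ => ENNReal.ofReal (2 ^ c.1)) fun i _ => by congr 1; ring]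
  simp

theorem volume_big (c : Cb d) : volume (big c) = ENNReal.ofReal (3 ^ d * sz d c.1) := by
  have : big c =
      {x : E d | ∀ i, x i ∈ Ico (((c.2 i : ℝ) - 1) * 2 ^ c.1) ((c.2 i + 2) * 2 ^ c.1)} :=
    Set.ext fun _ => cube_mem_big
  rw [this, cube_vol_Ico, sz, ← mul_pow,
    ENNReal.ofReal_pow (mul_pos three_pos (cube_two _)).le,
    Finset.prod_congr rfl (g := fun _ => ENNReal.ofReal (3 * 2 ^ c.1)) fun i _ => by
      congr 1; ring]
  simp

theorem cube_ediv {a b N : ℤ} (hN : 0 < N) (h : a - b ≤ 1) : a / N - b / N ≤ 1 := by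
  have h1 : a / N ≤ (b + 1 * N) / N := Int.ediv_le_ediv hN (by omega)
  rw [Int.add_mul_ediv_right _ _ hN.ne'] at h1
  omega

theorem big_mono {k l : ℤ} (h : k ≤ l) (x : E d) : big (cb k x) ⊆ big (cb l x) := by
  obtain ⟨n, rfl⟩ := Int.le.dest h
  intro y hy i
  have h1 : |ix k y i - ix k x i| ≤ 1 := hy i
  change |ix (k + n) y i - ix (k + n) x i| ≤ 1
  rw [cube_ix_up, cube_ix_up]
  have hN : (0 : ℤ) < ((2 ^ n : ℕ) : ℤ) := by positivity
  rw [abs_le] at h1 ⊢
  have h2 := cube_ediv hN h1.2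
  have h3 := cube_ediv (a := ix k x i) (b := ix k y i) hN (by omega)
  omega

theorem big_subset_big {j : ℤ} {c : Cb d} {x : E d} (h : j ≤ c.1) (hx : x ∈ cube c) :
    big (cb j x) ⊆ big c := by
  have := big_mono h x
  rwa [cb_eq_of_mem hx] at this

theorem mem_big_symm {k : ℤ} {x y : E d} : y ∈ big (cb k x) ↔ x ∈ big (cb k y) :=
  forall_congr' fun i => by
    change |ix k y i - ix k x i| ≤ 1 ↔ |ix k x i - ix k y i| ≤ 1
    rw [abs_sub_comm]

theorem mem_big_of_norm {k : ℤ} {x y : E d} (h : ‖x - y‖ ≤ 2 ^ k) : y ∈ big (cb k x) := by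
  refine cube_mem_big.2 fun i => ?_
  have h1 := cube_mem.1 (mem_cube_cb k x) i
  have h2 : |x i - y i| ≤ 2 ^ k := (PiLp.norm_apply_le (x - y) i).trans h
  rw [abs_le] at h2
  change _ ≤ _ ∧ _ < _ at h1
  simp only [cb] at h1 ⊢
  constructor <;> nlinarith [h1.1, h1.2, h2.1, h2.2]

theorem norm_sub_le_of_cube {c : Cb d} {x y : E d} (hx : x ∈ cube c) (hy : y ∈ cube c) :
    ‖x - y‖ ≤ d * 2 ^ c.1 := by
  refine cube_norm_le (cube_two _).le fun i => ?_
  have h1 := cube_mem.1 hx i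
  have h2 := cube_mem.1 hy i
  rw [PiLp.sub_apply, abs_le]
  constructor <;> nlinarith [h1.1, h1.2, h2.1, h2.2]

theorem norm_sub_le_of_big {c : Cb d} {x y : E d} (hx : x ∈ cube c) (hy : y ∈ big c) :
    ‖x - y‖ ≤ 2 * d * 2 ^ c.1 := by
  rw [mul_comm 2, mul_assoc]
  refine cube_norm_le (mul_pos two_pos (cube_two _)).le fun i => ?_
  have h1 := cube_mem.1 hx i
  have h2 := cube_mem_big.1 hy i
  rw [PiLp.sub_apply, abs_le]
  constructor <;> nlinarith [h1.1, h1.2, h2.1, h2.2]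

theorem isBounded_big (c : Cb d) : Bornology.IsBounded (big c) := by
  obtain ⟨x, hx⟩ := cube_nonempty c
  refine (Metric.isBounded_closedBall (x := x) (r := 2 * d * 2 ^ c.1)).subset fun y hy => ?_
  rw [mem_closedBall_iff_norm']
  exact norm_sub_le_of_big hx hy

theorem volume_norm_le (x : E d) {R : ℝ} (hR : 0 ≤ R) :
    volume {y : E d | ‖y - x‖ ≤ R} ≤ ENNReal.ofReal ((2 * R) ^ d) := by
  have : {y : E d | ‖y - x‖ ≤ R} ⊆ {y : E d | ∀ i, y i ∈ Icc (x i - R) (x i + R)} := by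
    intro y hy i
    have h2 : |y i - x i| ≤ R := (PiLp.norm_apply_le (y - x) i).trans hy
    rw [abs_le] at h2
    exact ⟨by linarith [h2.1], by linarith [h2.2]⟩
  refine (measure_mono this).trans (le_of_eq ?_)
  rw [cube_vol_Icc, ENNReal.ofReal_pow (by positivity),
    Finset.prod_congr rfl (g := fun _ => ENNReal.ofReal (2 * R)) fun i _ => by congr 1; ring]
  simp

end Pool.Agent.MP_418f02_an

end

section

open MeasureTheory Set
open scoped ENNReal RealInnerProductSpace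

namespace Pool.Agent.MP_418f02_an

variable {d : ℕ}

theorem nice_zero : Nice (fun _ : E d => (0 : ℝ)) :=
  ⟨measurable_const, ⟨0, fun _ => by simp⟩, ⟨0, fun _ _ => rfl⟩⟩

theorem ker_ball_meas (R : ℝ) : MeasurableSet {y : E d | ‖y‖ ≤ R} :=
  measurableSet_le measurable_norm measurable_const

theorem ker_ball_vol {R : ℝ} (hR : 0 ≤ R) :
    volume {y : E d | ‖y‖ ≤ R} ≤ ENNReal.ofReal ((2 * R) ^ d) := by
  simpa using volume_norm_le (0 : E d) hR

theorem ker_ball_lt (R : ℝ) : volume {y : E d | ‖y‖ ≤ R} < ∞ := by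
  refine lt_of_le_of_lt (measure_mono ?_) (lt_of_le_of_lt (ker_ball_vol (abs_nonneg R))
    ENNReal.ofReal_lt_top)
  intro y hy
  exact le_trans hy (le_abs_self R)

theorem ker_ind_int (R M : ℝ) :
    Integrable ({y : E d | ‖y‖ ≤ R}.indicator fun _ => M) volume :=
  (integrableOn_const (ker_ball_lt R).ne).integrable_indicator (ker_ball_meas R)

theorem ker_le_ind {g : E d → ℝ} {M R : ℝ} (hM : ∀ x, |g x| ≤ M) (hR : ∀ x, R < ‖x‖ → g x = 0)
    (x : E d) : |g x| ≤ {y : E d | ‖y‖ ≤ R}.indicator (fun _ => M) x := by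
  by_cases hx : ‖x‖ ≤ R
  · rw [indicator_of_mem (show x ∈ {y : E d | ‖y‖ ≤ R} from hx)]
    exact hM x
  · rw [indicator_of_notMem (show x ∉ {y : E d | ‖y‖ ≤ R} from hx), hR x (not_le.1 hx)]
    simp

theorem Nice.integrable {g : E d → ℝ} (h : Nice g) : Integrable g := by
  obtain ⟨M, hM⟩ := h.bdd
  obtain ⟨R, hR⟩ := h.supp
  exact (ker_ind_int R M).mono' h.meas.aestronglyMeasurable
    (Filter.Eventually.of_forall fun x => ker_le_ind hM hR x)

theorem ker_abs_int_le {g : E d → ℝ} (hg : Measurable g) {M R : ℝ} (hM : ∀ x, |g x| ≤ M)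
    (hR : ∀ x, R < ‖x‖ → g x = 0) (h0 : 0 ≤ R) : ∫ x, |g x| ≤ M * (2 * R) ^ d := by
  have hn : Nice g := ⟨hg, ⟨M, hM⟩, ⟨R, hR⟩⟩
  have hM0 : 0 ≤ M := le_trans (abs_nonneg _) (hM 0)
  refine le_trans (integral_mono hn.integrable.abs (ker_ind_int R M) (ker_le_ind hM hR)) ?_
  rw [integral_indicator (ker_ball_meas R), setIntegral_const, smul_eq_mul, mul_comm]
  refine mul_le_mul_of_nonneg_left ?_ hM0
  exact ENNReal.toReal_le_of_le_ofReal (by positivity) (ker_ball_vol h0)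

theorem Nice.add {f g : E d → ℝ} (hf : Nice f) (hg : Nice g) : Nice fun x => f x + g x := by
  obtain ⟨M, hM⟩ := hf.bdd
  obtain ⟨R, hR⟩ := hf.supp
  obtain ⟨N, hN⟩ := hg.bdd
  obtain ⟨T, hT⟩ := hg.supp
  refine ⟨hf.meas.add hg.meas, ⟨M + N, fun x => ?_⟩, ⟨max R T, fun x hx => ?_⟩⟩
  · exact le_trans (abs_add_le _ _) (add_le_add (hM x) (hN x))
  · rw [hR x (lt_of_le_of_lt (le_max_left _ _) hx), hT x (lt_of_le_of_lt (le_max_right _ _) hx),
      add_zero]

theorem Nice.sub {f g : E d → ℝ} (hf : Nice f) (hg : Nice g) : Nice fun x => f x - g x := by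
  obtain ⟨M, hM⟩ := hf.bdd
  obtain ⟨R, hR⟩ := hf.supp
  obtain ⟨N, hN⟩ := hg.bdd
  obtain ⟨T, hT⟩ := hg.supp
  refine ⟨hf.meas.sub hg.meas, ⟨M + N, fun x => ?_⟩, ⟨max R T, fun x hx => ?_⟩⟩
  · exact le_trans (abs_sub _ _) (add_le_add (hM x) (hN x))
  · rw [hR x (lt_of_le_of_lt (le_max_left _ _) hx), hT x (lt_of_le_of_lt (le_max_right _ _) hx),
      sub_zero]

theorem Nice.const_mul {g : E d → ℝ} (h : Nice g) (c : ℝ) : Nice fun x => c * g x := by
  obtain ⟨M, hM⟩ := h.bdd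
  obtain ⟨R, hR⟩ := h.supp
  refine ⟨h.meas.const_mul c, ⟨|c| * M, fun x => ?_⟩, ⟨R, fun x hx => ?_⟩⟩
  · rw [abs_mul]
    exact mul_le_mul_of_nonneg_left (hM x) (abs_nonneg c)
  · rw [hR x hx, mul_zero]

theorem Nice.mul {f g : E d → ℝ} (hf : Nice f) (hg : Nice g) : Nice fun x => f x * g x := by
  obtain ⟨M, hM⟩ := hf.bdd
  obtain ⟨R, hR⟩ := hf.supp
  obtain ⟨N, hN⟩ := hg.bdd
  refine ⟨hf.meas.mul hg.meas, ⟨M * N, fun x => ?_⟩, ⟨R, fun x hx => ?_⟩⟩
  · rw [abs_mul]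
    exact mul_le_mul (hM x) (hN x) (abs_nonneg _) (le_trans (abs_nonneg _) (hM x))
  · rw [hR x hx, zero_mul]

theorem Nice.abs {g : E d → ℝ} (h : Nice g) : Nice fun x => |g x| := by
  obtain ⟨M, hM⟩ := h.bdd
  obtain ⟨R, hR⟩ := h.supp
  refine ⟨h.meas.abs, ⟨M, fun x => ?_⟩, ⟨R, fun x hx => ?_⟩⟩
  · rw [abs_abs]
    exact hM x
  · rw [hR x hx, abs_zero]

theorem Nice.sq {g : E d → ℝ} (h : Nice g) : Nice fun x => g x ^ 2 := by
  simpa only [pow_two] using h.mul h

theorem Nice.indicator {g : E d → ℝ} (h : Nice g) {S : Set (E d)} (hS : MeasurableSet S) :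
    Nice (S.indicator g) := by
  obtain ⟨M, hM⟩ := h.bdd
  obtain ⟨R, hR⟩ := h.supp
  refine ⟨h.meas.indicator hS, ⟨M, fun x => ?_⟩, ⟨R, fun x hx => ?_⟩⟩
  · by_cases hx : x ∈ S
    · rw [indicator_of_mem hx]
      exact hM x
    · rw [indicator_of_notMem hx, abs_zero]
      exact le_trans (abs_nonneg _) (hM x)
  · by_cases hs : x ∈ S
    · rw [indicator_of_mem hs, hR x hx]
    · rw [indicator_of_notMem hs]

theorem Nice.shift {g : E d → ℝ} (h : Nice g) (a : E d) : Nice fun z => g (z - a) := by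
  obtain ⟨M, hM⟩ := h.bdd
  obtain ⟨R, hR⟩ := h.supp
  refine ⟨h.meas.comp (measurable_id.sub_const a), ⟨M, fun x => hM _⟩,
    ⟨R + ‖a‖, fun x hx => hR _ ?_⟩⟩
  have := norm_sub_norm_le x a
  linarith

theorem nice_sum {ι : Type} {s : Finset ι} {g : ι → E d → ℝ} (h : ∀ i ∈ s, Nice (g i)) :
    Nice fun x => ∑ i ∈ s, g i x := by
  classical
  induction s using Finset.induction_on with
  | empty => simpa using nice_zero
  | insert a s ha ih =>
    simp only [Finset.sum_insert ha]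
    exact (h a (Finset.mem_insert_self _ _)).add
      (ih fun i hi => h i (Finset.mem_insert_of_mem hi))

theorem nice_indicator {S : Set (E d)} (hS : MeasurableSet S) (hb : Bornology.IsBounded S)
    (c : ℝ) : Nice (S.indicator fun _ => c) := by
  obtain ⟨R, hR⟩ := hb.exists_norm_le
  refine ⟨measurable_const.indicator hS, ⟨|c|, fun x => ?_⟩, ⟨R, fun x hx => ?_⟩⟩
  · by_cases hx : x ∈ S
    · rw [indicator_of_mem hx]
    · rw [indicator_of_notMem hx, abs_zero]
      exact abs_nonneg c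
  · exact indicator_of_notMem (fun hs => absurd (hR x hs) (not_le.2 hx)) _

theorem Nice.cs {f g : E d → ℝ} (hf : Nice f) (hg : Nice g) :
    |∫ x, f x * g x| ≤ √(∫ x, f x ^ 2) * √(∫ x, g x ^ 2) := by
  have hA : 0 ≤ ∫ x, f x ^ 2 := integral_nonneg fun x => sq_nonneg _
  rw [← Real.sqrt_mul hA]
  refine Real.abs_le_sqrt ?_
  have h := discrim_le_zero (a := ∫ x, g x ^ 2) (b := 2 * ∫ x, f x * g x) (c := ∫ x, f x ^ 2)
    (fun t => by
      have e : (∫ x, g x ^ 2) * (t * t) + (2 * ∫ x, f x * g x) * t + ∫ x, f x ^ 2 =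
          ∫ x, (f x + t * g x) ^ 2 := by
        have h1 := (hg.sq.const_mul (t * t)).integrable
        have h2 := ((hf.mul hg).const_mul (2 * t)).integrable
        have h3 := hf.sq.integrable
        have h4 := ((hg.sq.const_mul (t * t)).add ((hf.mul hg).const_mul (2 * t))).integrable
        have e1 : ∀ x, (f x + t * g x) ^ 2 =
            (t * t * g x ^ 2 + 2 * t * (f x * g x)) + f x ^ 2 := fun x => by ring
        simp only [e1]
        rw [integral_add h4 h3, integral_add h1 h2, integral_const_mul,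
          integral_const_mul]
        ring
      rw [e]
      exact integral_nonneg fun x => sq_nonneg _)
  rw [discrim] at h
  nlinarith

theorem IsKer.nice {k : E d → ℝ} (h : IsKer k) : Nice k :=
  ⟨h.meas, ⟨1, h.bdd⟩, ⟨2, h.supp⟩⟩

theorem IsKer.rf {k : E d → ℝ} (h : IsKer k) : IsKer (rf k) := by
  refine ⟨h.meas.comp measurable_neg, fun y => h.bdd _, fun y hy => h.supp _ ?_, ?_⟩
  · rwa [norm_neg]
  · unfold MP_418f02_an.rf
    rw [integral_neg_eq_self k volume]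
    exact h.zero

theorem IsKer.sq_le {k : E d → ℝ} (h : IsKer k) : ∫ y, k y ^ 2 ≤ 4 ^ d := by
  have h1 := ker_abs_int_le (g := fun y => k y ^ 2) (h.meas.pow_const 2) (M := 1) (R := 2)
    (fun x => by
      rw [abs_pow]
      exact pow_le_one₀ (abs_nonneg _) (h.bdd x))
    (fun x hx => by simp [h.supp x hx]) (by norm_num)
  simp only [abs_pow, sq_abs] at h1
  norm_num at h1
  exact h1

theorem ker_term_le {k : E d → ℝ} (h : IsKer k) {l s : ℝ} (hl : 0 < l) (hs : 1 ≤ s) (y : E d) :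
    |((l * s) ^ d)⁻¹ * k ((l * s)⁻¹ • y) / s| ≤ (l ^ d)⁻¹ := by
  have hs0 : 0 < s := lt_of_lt_of_le one_pos hs
  have h1 : ((l * s) ^ d)⁻¹ ≤ (l ^ d)⁻¹ :=
    inv_anti₀ (pow_pos hl d) (pow_le_pow_left₀ hl.le (le_mul_of_one_le_right hl.le hs) d)
  have h0 : 0 ≤ ((l * s) ^ d)⁻¹ := by positivity
  rw [abs_div, abs_mul, abs_of_nonneg h0, abs_of_pos hs0]
  refine le_trans (div_le_self (by positivity) hs) (le_trans ?_ h1)
  exact mul_le_of_le_one_right h0 (h.bdd _)

theorem ker_term_zero {k : E d → ℝ} (h : IsKer k) {l s : ℝ} (hl : 0 < l) (hs : 1 ≤ s)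
    (hs2 : s ≤ 2) {y : E d} (hy : 4 * l < ‖y‖) : k ((l * s)⁻¹ • y) = 0 := by
  have hs0 : 0 < s := lt_of_lt_of_le one_pos hs
  have hp : 0 < l * s := mul_pos hl hs0
  refine h.supp _ ?_
  rw [norm_smul, norm_inv, Real.norm_eq_abs, abs_of_pos hp, inv_mul_eq_div, lt_div_iff₀ hp]
  nlinarith

theorem ker_int_le {F : ℝ → ℝ} {M : ℝ} (h : ∀ s, 1 ≤ s → s ≤ 2 → |F s| ≤ M) :
    |∫ s in (1 : ℝ)..2, F s| ≤ M := by
  have h1 := intervalIntegral.norm_integral_le_of_norm_le_const (a := (1 : ℝ)) (b := 2) (C := M)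
    (f := F) (fun s hs => by
      rw [uIoc_of_le (by norm_num)] at hs
      exact h s hs.1.le hs.2)
  norm_num at h1
  exact h1

theorem ker_int_zero {F : ℝ → ℝ} (h : ∀ s, 1 ≤ s → s ≤ 2 → F s = 0) :
    ∫ s in (1 : ℝ)..2, F s = 0 :=
  abs_nonpos_iff.1 (ker_int_le fun s h1 h2 => by rw [h s h1 h2, abs_zero])

theorem ker_int_meas {F : E d → ℝ → ℝ} (hF : Measurable (Function.uncurry F)) :
    Measurable fun y => ∫ s in (1 : ℝ)..2, F y s := by
  simp only [intervalIntegral.integral_of_le (show (1 : ℝ) ≤ 2 by norm_num)]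
  exact (hF.stronglyMeasurable.integral_prod_right).measurable

/-- Fubini for a bounded function with bounded support -/
theorem ker_swap {F : E d → ℝ → ℝ} (hF : Measurable (Function.uncurry F)) {M R : ℝ}
    (hM : ∀ y s, 1 ≤ s → s ≤ 2 → |F y s| ≤ M)
    (hR : ∀ y s, 1 ≤ s → s ≤ 2 → R < ‖y‖ → F y s = 0) :
    ∫ y, ∫ s in (1 : ℝ)..2, F y s = ∫ s in (1 : ℝ)..2, ∫ y, F y s := by
  simp only [intervalIntegral.integral_of_le (show (1 : ℝ) ≤ 2 by norm_num)]
  refine integral_integral_swap ?_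
  have h1 : Integrable (fun _ : ℝ => (1 : ℝ)) (volume.restrict (Ioc (1 : ℝ) 2)) :=
    integrable_const 1
  have h2 := (ker_ind_int (d := d) R M).mul_prod h1
  refine h2.mono' hF.aestronglyMeasurable ?_
  have h3 : ∀ᵐ p : E d × ℝ ∂(volume.prod (volume.restrict (Ioc (1 : ℝ) 2))),
      p.2 ∈ Ioc (1 : ℝ) 2 :=
    Measure.quasiMeasurePreserving_snd.ae (ae_restrict_mem measurableSet_Ioc)
  filter_upwards [h3] with p hp
  rw [mul_one]
  exact ker_le_ind (g := fun y => F y p.2) (fun y => hM y _ hp.1.le hp.2)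
    (fun y hy => hR y _ hp.1.le hp.2 hy) p.1

theorem ker_term_meas {k : E d → ℝ} (hk : Measurable k) (l : ℝ) :
    Measurable (Function.uncurry fun (y : E d) (s : ℝ) =>
      ((l * s) ^ d)⁻¹ * k ((l * s)⁻¹ • y) / s) := by
  have h1 : Measurable fun p : E d × ℝ => l * p.2 := measurable_snd.const_mul l
  exact (((h1.pow_const d).inv).mul (hk.comp (h1.inv.smul measurable_fst))).div measurable_snd

theorem ker_dil (g : E d → ℝ) {t : ℝ} (ht : 0 < t) :
    ∫ y, (t ^ d)⁻¹ * g (t⁻¹ • y) = ∫ y, g y := by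
  rw [integral_const_mul, Measure.integral_comp_inv_smul_of_nonneg volume g ht.le]
  simp only [finrank_euclideanSpace, Fintype.card_fin, smul_eq_mul]
  rw [← mul_assoc, inv_mul_cancel₀ (pow_pos ht d).ne', one_mul]

theorem KK_le {k : E d → ℝ} (h : IsKer k) {l : ℝ} (hl : 0 < l) (y : E d) :
    |KK k l y| ≤ (l ^ d)⁻¹ :=
  ker_int_le fun _ hs _ => ker_term_le h hl hs y

theorem KK_supp {k : E d → ℝ} (h : IsKer k) {l : ℝ} (hl : 0 < l) {y : E d} (hy : 4 * l < ‖y‖) :
    KK k l y = 0 :=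
  ker_int_zero fun s hs hs2 => by rw [ker_term_zero h hl hs hs2 hy, mul_zero, zero_div]

theorem KK_nice {k : E d → ℝ} (h : IsKer k) {l : ℝ} (hl : 0 < l) : Nice (KK k l) :=
  ⟨ker_int_meas (ker_term_meas h.meas l), ⟨_, KK_le h hl⟩, ⟨4 * l, fun _ hy => KK_supp h hl hy⟩⟩

theorem KK_zero {k : E d → ℝ} (h : IsKer k) {l : ℝ} (hl : 0 < l) : ∫ y, KK k l y = 0 := by
  unfold KK
  rw [ker_swap (ker_term_meas h.meas l) (fun y s hs _ => ker_term_le h hl hs y) (R := 4 * l)
    (fun y s hs hs2 hy => by rw [ker_term_zero h hl hs hs2 hy, mul_zero, zero_div])]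
  refine ker_int_zero fun s hs _ => ?_
  rw [integral_div, ker_dil k (mul_pos hl (lt_of_lt_of_le one_pos hs)), h.zero, zero_div]

theorem KK_l1 {k : E d → ℝ} (h : IsKer k) {l : ℝ} (hl : 0 < l) : ∫ y, |KK k l y| ≤ 8 ^ d := by
  refine le_trans (ker_abs_int_le (KK_nice h hl).meas (KK_le h hl) (R := 4 * l)
    (fun _ hy => KK_supp h hl hy) (by positivity)) (le_of_eq ?_)
  rw [show 2 * (4 * l) = l * 8 by ring, mul_pow, ← mul_assoc, inv_mul_cancel₀ (pow_pos hl d).ne',
    one_mul]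

theorem KK_rf (k : E d → ℝ) (l : ℝ) (y : E d) : KK (rf k) l y = KK k l (-y) := by
  unfold KK MP_418f02_an.rf
  simp only [smul_neg]

theorem KK_scale (k : E d → ℝ) {l : ℝ} (hl : 0 < l) (r : ℝ) (z : E d) :
    KK k (l * r) (l • z) = (l ^ d)⁻¹ * KK k r z := by
  unfold KK
  rw [← intervalIntegral.integral_const_mul]
  refine intervalIntegral.integral_congr fun s _ => ?_
  have e : (l * r * s)⁻¹ * l = (r * s)⁻¹ := by
    rw [mul_assoc, mul_inv, mul_right_comm, inv_mul_cancel₀ hl.ne', one_mul]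
  simp only [smul_smul, e]
  rw [mul_assoc l r s, mul_pow, mul_inv]
  ring

theorem ker_ray_meas {D : E d → ℝ} (h : Measurable D) :
    Measurable (Function.uncurry fun (y : E d) (s : ℝ) => D (s • y) / s) :=
  (h.comp (measurable_snd.smul measurable_fst)).div measurable_snd

theorem ker_ray_le {D : E d → ℝ} {M : ℝ} (hM : ∀ x, |D x| ≤ M) (y : E d) {s : ℝ} (hs : 1 ≤ s) :
    |D (s • y) / s| ≤ M := by
  rw [abs_div, abs_of_pos (lt_of_lt_of_le one_pos hs)]
  exact le_trans (div_le_self (abs_nonneg _) hs) (hM _)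

theorem ray_nice {D : E d → ℝ} (h : Nice D) : Nice (ray D) := by
  obtain ⟨M, hM⟩ := h.bdd
  obtain ⟨R, hR⟩ := h.supp
  refine ⟨ker_int_meas (ker_ray_meas h.meas),
    ⟨M, fun y => ker_int_le fun s hs _ => ker_ray_le hM y hs⟩,
    ⟨R, fun y hy => ker_int_zero fun s hs _ => ?_⟩⟩
  rw [hR, zero_div]
  rw [norm_smul, Real.norm_eq_abs, abs_of_pos (lt_of_lt_of_le one_pos hs)]
  exact lt_of_lt_of_le hy (le_mul_of_one_le_left (norm_nonneg _) hs)

theorem KK_pair {k D : E d → ℝ} (h : IsKer k) (hD : Nice D) :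
    ∫ z, KK k 1 z * D z = ∫ y, k y * ray D y := by
  obtain ⟨M, hM⟩ := hD.bdd
  have hM0 : 0 ≤ M := le_trans (abs_nonneg _) (hM 0)
  unfold KK ray
  simp only [← intervalIntegral.integral_mul_const, ← intervalIntegral.integral_const_mul]
  rw [ker_swap (F := fun (y : E d) (s : ℝ) =>
      ((1 * s) ^ d)⁻¹ * k ((1 * s)⁻¹ • y) / s * D y)
    ((ker_term_meas h.meas 1).mul (hD.meas.comp measurable_fst)) (M := ((1 : ℝ) ^ d)⁻¹ * M)
    (fun y s hs _ => by
      rw [abs_mul]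
      exact mul_le_mul (ker_term_le h one_pos hs y) (hM y) (abs_nonneg _) (by positivity))
    (R := 4 * 1) (fun y s hs hs2 hy => by
      rw [ker_term_zero h one_pos hs hs2 hy, mul_zero, zero_div, zero_mul]),
    ker_swap (F := fun (y : E d) (s : ℝ) => k y * (D (s • y) / s))
    ((h.meas.comp measurable_fst).mul (ker_ray_meas hD.meas)) (M := 1 * M)
    (fun y s hs _ => by
      rw [abs_mul]
      exact mul_le_mul (h.bdd y) (ker_ray_le hM y hs) (abs_nonneg _) zero_le_one)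
    (R := 2) (fun y s _ _ hy => by rw [h.supp y hy, zero_mul])]
  refine intervalIntegral.integral_congr fun s hs => ?_
  rw [uIcc_of_le (by norm_num)] at hs
  have hs0 : 0 < s := lt_of_lt_of_le one_pos hs.1
  simp only [one_mul]
  rw [← ker_dil (fun y => k y * (D (s • y) / s)) hs0]
  refine integral_congr_ae (Filter.Eventually.of_forall fun y => ?_)
  simp only [smul_smul, mul_inv_cancel₀ hs0.ne', one_smul]
  ring

end Pool.Agent.MP_418f02_an

end

section

open MeasureTheory Set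
open scoped ENNReal RealInnerProductSpace

namespace Pool.Agent.MP_418f02_an

variable {d : ℕ}

theorem cv_pos (j : ℤ) : (0 : ℝ) < 2 ^ (j - 2) := zpow_pos (by norm_num) _

theorem cv_four (j : ℤ) : (4 : ℝ) * 2 ^ (j - 2) = 2 ^ j := by
  rw [zpow_sub₀ (by norm_num : (2 : ℝ) ≠ 0)]
  norm_num
  ring

theorem cv_size (j : ℤ) : (((2 : ℝ) ^ (j - 2)) ^ d)⁻¹ = 4 ^ d / sz d j := by
  have h := cv_pos j
  unfold sz
  rw [← cv_four j, mul_pow]
  field_simp

/-- the kernel at level `j` lives in the dilated cube -/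
theorem cv_off {k : E d → ℝ} (h : IsKer k) {j : ℤ} {x y : E d} (hy : y ∉ big (cb j x)) :
    KK k (2 ^ (j - 2)) (x - y) = 0 := by
  apply KK_supp h (cv_pos j)
  rw [cv_four]
  by_contra hn
  exact hy (mem_big_of_norm (not_lt.mp hn))

theorem cv_neg {K : E d → ℝ} (h : Nice K) : Nice fun y => K (-y) := by
  obtain ⟨hm, ⟨M, hM⟩, ⟨R, hR⟩⟩ := h
  refine ⟨hm.comp measurable_neg, ⟨M, fun x => hM _⟩, ⟨R, fun x hx => hR _ ?_⟩⟩
  rwa [norm_neg]

theorem cv_refl {K : E d → ℝ} (h : Nice K) (x : E d) : Nice fun y => K (x - y) := by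
  have h1 := (cv_neg h).shift x
  simpa only [neg_sub] using h1

theorem cv_int {K g : E d → ℝ} (hK : Nice K) (hg : Nice g) (x : E d) :
    Integrable fun y => K (x - y) * g y :=
  ((cv_refl hK x).mul hg).integrable

theorem cv_meas2 {K g : E d → ℝ} (hK : Measurable K) (hg : Measurable g) :
    Measurable fun p : E d × E d => K (p.1 - p.2) * g p.2 :=
  (hK.comp (measurable_fst.sub measurable_snd)).mul (hg.comp measurable_snd)

/-- convolution of nice functions is nice -/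
theorem cv_conv {K g : E d → ℝ} (hK : Nice K) (hg : Nice g) :
    Nice fun x => ∫ y, K (x - y) * g y := by
  have hgi := hg.integrable
  have hi := cv_int hK hg
  obtain ⟨hm, ⟨M, hM⟩, ⟨R, hR⟩⟩ := hK
  obtain ⟨gm, -, ⟨S, hS⟩⟩ := hg
  refine ⟨?_, ⟨∫ y, M * |g y|, fun x => ?_⟩, ⟨R + S, fun x hx => ?_⟩⟩
  · exact ((cv_meas2 hm gm).stronglyMeasurable.integral_prod_right' (ν := volume)).measurable
  · refine (abs_integral_le_integral_abs).trans ?_
    refine integral_mono (hi x).abs (hgi.abs.const_mul M) fun y => ?_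
    show |K (x - y) * g y| ≤ M * |g y|
    rw [abs_mul]
    exact mul_le_mul_of_nonneg_right (hM _) (abs_nonneg _)
  · have h0 : (fun y => K (x - y) * g y) = fun _ => 0 := by
      funext y
      by_cases hy : S < ‖y‖
      · rw [hS y hy, mul_zero]
      · have h1 : ‖x‖ ≤ ‖x - y‖ + ‖y‖ := by
          have := norm_add_le (x - y) y
          rwa [sub_add_cancel] at this
        rw [hR (x - y) (by linarith [not_lt.mp hy]), zero_mul]
    rw [h0, integral_zero]

theorem cv_prod {K f g : E d → ℝ} (hK : Nice K) (hf : Nice f) (hg : Nice g) :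
    Integrable (fun p : E d × E d => K (p.1 - p.2) * f p.2 * g p.1) (volume.prod volume) := by
  have hfi := hf.integrable
  have hgi := hg.integrable
  obtain ⟨M, hM⟩ := hK.bdd
  have hb : Integrable (fun p : E d × E d => M * (|g p.1| * |f p.2|)) (volume.prod volume) :=
    (hgi.abs.mul_prod hfi.abs).const_mul M
  refine hb.mono' ?_ (Filter.Eventually.of_forall fun p => ?_)
  · exact ((cv_meas2 hK.meas hf.meas).mul (hg.meas.comp measurable_fst)).aestronglyMeasurable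
  · rw [Real.norm_eq_abs, abs_mul, abs_mul, mul_assoc, mul_comm |f p.2|]
    exact mul_le_mul_of_nonneg_right (hM _) (mul_nonneg (abs_nonneg _) (abs_nonneg _))

/-- exchange of the order of integration -/
theorem cv_swap {K f g : E d → ℝ} (hK : Nice K) (hf : Nice f) (hg : Nice g) :
    ∫ x, (∫ y, K (x - y) * f y) * g x = ∫ y, f y * ∫ x, K (x - y) * g x := by
  have h1 : ∀ x, (∫ y, K (x - y) * f y) * g x = ∫ y, K (x - y) * f y * g x :=
    fun x => (integral_mul_const _ _).symm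
  have h2 : ∀ y, f y * ∫ x, K (x - y) * g x = ∫ x, K (x - y) * f y * g x := by
    intro y
    rw [← integral_const_mul]
    congr 1
    funext x
    ring
  simp only [h1, h2]
  exact integral_integral_swap (f := fun x y => K (x - y) * f y * g x) (cv_prod hK hf hg)

theorem cv_nice {k g : E d → ℝ} (h : IsKer k) (hg : Nice g) (j : ℤ) : Nice (cv k j g) :=
  cv_conv (KK_nice h (cv_pos j)) hg

theorem cv_congr {k f g : E d → ℝ} (h : IsKer k) {j : ℤ} {x : E d}
    (e : ∀ y ∈ big (cb j x), f y = g y) : cv k j f x = cv k j g x := by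
  unfold cv
  congr 1
  funext y
  by_cases hy : y ∈ big (cb j x)
  · rw [e y hy]
  · rw [cv_off h hy, zero_mul, zero_mul]

theorem cv_le {k g : E d → ℝ} (h : IsKer k) (hg : Nice g) (j : ℤ) (x : E d) :
    |cv k j g x| ≤ 4 ^ d / sz d j * ∫ y in big (cb j x), |g y| := by
  have hi := cv_int (KK_nice h (cv_pos j)) hg x
  have hm := measurableSet_big (cb j x)
  rw [← integral_const_mul, ← integral_indicator hm]
  refine (abs_integral_le_integral_abs).trans ?_
  refine integral_mono hi.abs ((hg.integrable.abs.const_mul _).indicator hm) fun y => ?_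
  show |KK k (2 ^ (j - 2)) (x - y) * g y| ≤ _
  by_cases hy : y ∈ big (cb j x)
  · rw [indicator_of_mem hy, abs_mul, ← cv_size]
    exact mul_le_mul_of_nonneg_right (KK_le h (cv_pos j) _) (abs_nonneg _)
  · rw [indicator_of_notMem hy, cv_off h hy, zero_mul, abs_zero]

theorem cv_add {k f g : E d → ℝ} (h : IsKer k) (hf : Nice f) (hg : Nice g) (j : ℤ) (x : E d) :
    cv k j (fun y => f y + g y) x = cv k j f x + cv k j g x := by
  have hK := KK_nice h (cv_pos j)
  unfold cv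
  rw [← integral_add (cv_int hK hf x) (cv_int hK hg x)]
  simp only [mul_add]

theorem cv_const_mul (k g : E d → ℝ) (c : ℝ) (j : ℤ) (x : E d) :
    cv k j (fun y => c * g y) x = c * cv k j g x := by
  unfold cv
  rw [← integral_const_mul]
  congr 1
  funext y
  ring

theorem cv_sum {ι : Type} {k : E d → ℝ} (h : IsKer k) {s : Finset ι} {g : ι → E d → ℝ}
    (hg : ∀ i ∈ s, Nice (g i)) (j : ℤ) (x : E d) :
    cv k j (fun y => ∑ i ∈ s, g i y) x = ∑ i ∈ s, cv k j (g i) x := by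
  have hK := KK_nice h (cv_pos j)
  unfold cv
  rw [← integral_finsetSum s fun i hi => cv_int hK (hg i hi) x]
  simp only [Finset.mul_sum]

theorem cv_dual {k f g : E d → ℝ} (h : IsKer k) (hf : Nice f) (hg : Nice g) (j : ℤ) :
    ∫ x, cv k j f x * g x = ∫ y, f y * cv (rf k) j g y := by
  unfold cv
  simp only [KK_rf, neg_sub]
  exact cv_swap (KK_nice h (cv_pos j)) hf hg

theorem cv_ind {k : E d → ℝ} (h : IsKer k) (j : ℤ) (c : Cb d) (y : E d) :
    |cv k j ((cube c).indicator fun _ => 1) y| ≤ (bd j c).indicator (fun _ => 8 ^ d) y := by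
  have hK := KK_nice h (cv_pos j)
  by_cases hy : y ∈ bd j c
  · rw [indicator_of_mem hy]
    unfold cv
    refine (abs_integral_le_integral_abs).trans ?_
    have h1 : ∫ z, |KK k (2 ^ (j - 2)) (y - z)| ≤ 8 ^ d := by
      rw [integral_sub_left_eq_self (fun z => |KK k (2 ^ (j - 2)) z|) volume y]
      exact KK_l1 h (cv_pos j)
    refine le_trans (integral_mono_of_nonneg (Filter.Eventually.of_forall fun z => abs_nonneg _)
      (cv_refl hK y).abs.integrable (Filter.Eventually.of_forall fun z => ?_)) h1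
    show |KK k (2 ^ (j - 2)) (y - z) * (cube c).indicator (fun _ => (1 : ℝ)) z| ≤
      |KK k (2 ^ (j - 2)) (y - z)|
    by_cases hz : z ∈ cube c
    · rw [indicator_of_mem hz, mul_one]
    · rw [indicator_of_notMem hz, mul_zero, abs_zero]
      exact abs_nonneg _
  · rw [indicator_of_notMem hy]
    by_cases h1 : ∃ x ∈ big (cb j y), x ∈ cube c
    · have h2 : ∀ x ∈ big (cb j y), x ∈ cube c := by
        intro x hx
        by_contra hn
        exact hy ⟨h1, x, hx, hn⟩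
      rw [cv_congr (g := fun _ => 1) h fun x hx => indicator_of_mem (h2 x hx) _]
      unfold cv
      simp only [mul_one]
      rw [integral_sub_left_eq_self (fun z => KK k (2 ^ (j - 2)) z) volume y,
        KK_zero h (cv_pos j), abs_zero]
    · have h2 : ∀ x ∈ big (cb j y), x ∉ cube c := fun x hx hc => h1 ⟨x, hx, hc⟩
      rw [cv_congr (g := fun _ => 0) h fun x hx => indicator_of_notMem (h2 x hx) _]
      unfold cv
      simp only [mul_zero, integral_zero, abs_zero, le_refl]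

theorem cv_inner {k f g : E d → ℝ} (h : IsKer k) (hf : Nice f) (hg : Nice g) (j i : ℤ) :
    ∫ z, cv k j f z * cv k i g z =
      ∫ x, f x * ∫ a, g a * Psi k (2 ^ (j - 2)) (2 ^ (i - 2)) (a - x) := by
  have hj := KK_nice h (cv_pos j)
  have hi := KK_nice h (cv_pos i)
  have h1 := cv_swap hj hf (cv_nice h hg i)
  refine h1.trans ?_
  congr 1
  funext x
  congr 1
  have h2 := cv_swap hi hg (hj.shift x)
  have h3 : ∀ z, KK k (2 ^ (j - 2)) (z - x) * cv k i g z =
      (∫ y, KK k (2 ^ (i - 2)) (z - y) * g y) * KK k (2 ^ (j - 2)) (z - x) :=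
    fun z => mul_comm _ _
  simp only [h3]
  refine h2.trans ?_
  congr 1
  funext a
  congr 1
  unfold Psi
  rw [← integral_add_right_eq_self
    (fun z => KK k (2 ^ (i - 2)) (z - a) * KK k (2 ^ (j - 2)) (z - x)) x]
  congr 1
  funext z
  rw [add_sub_cancel_right, mul_comm]
  congr 2
  abel

theorem ps_nice {φ : ℤ → E d → ℝ} (h : ∀ j, Nice (φ j)) (a b : ℤ) : Nice (ps φ a b) :=
  nice_sum fun j _ => h j

theorem TT_nice {k g : E d → ℝ} (h : IsKer k) (hg : Nice g) (a b : ℤ) : Nice (TT k a b g) :=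
  ps_nice (fun j => cv_nice h hg j) a b

theorem TG_nice {k g : E d → ℝ} (h : IsKer k) (hg : Nice g) {G : ℤ → Set (E d)} (hG : Stop G)
    (a b : ℤ) : Nice (TG k G a b g) :=
  ps_nice (fun j => (cv_nice h hg j).indicator (hG.lm j).meas) a b

theorem TT_dual {k f g : E d → ℝ} (h : IsKer k) (hf : Nice f) (hg : Nice g) (a b : ℤ) :
    ∫ x, TT k a b f x * g x = ∫ y, f y * TT (rf k) a b g y := by
  unfold TT ps
  simp only [Finset.sum_mul, Finset.mul_sum]
  rw [integral_finsetSum _ fun j _ => ((cv_nice h hf j).mul hg).integrable,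
    integral_finsetSum _ fun j _ => (hf.mul (cv_nice h.rf hg j)).integrable]
  exact Finset.sum_congr rfl fun j _ => cv_dual h hf hg j

theorem TG_eq_TT (k g : E d → ℝ) {G : ℤ → Set (E d)} (hG : Stop G) (a b : ℤ) (x : E d) :
    ∃ a', a ≤ a' ∧ TG k G a b g x = TT k a' b g x := by
  by_cases hx : ∃ j, a ≤ j ∧ x ∈ G j
  · obtain ⟨m, ⟨hm1, hm2⟩, hm3⟩ :=
      Int.exists_least_of_bdd (P := fun j => a ≤ j ∧ x ∈ G j) ⟨a, fun z hz => hz.1⟩ hx
    refine ⟨m, hm1, ?_⟩
    unfold TG TT ps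
    symm
    refine Finset.sum_subset_zero_on_sdiff (Finset.Icc_subset_Icc_left hm1) ?_ ?_
    · intro j hj
      rw [Finset.mem_sdiff, Finset.mem_Icc, Finset.mem_Icc] at hj
      refine indicator_of_notMem (fun hc => hj.2 ⟨hm3 j ⟨hj.1.1, hc⟩, hj.1.2⟩) _
    · intro j hj
      rw [Finset.mem_Icc] at hj
      exact (indicator_of_mem (hG.mono m j hj.1 hm2) _).symm
  · refine ⟨max a (b + 1), le_max_left _ _, ?_⟩
    unfold TG TT ps
    rw [Finset.Icc_eq_empty (a := max a (b + 1)) (by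
      have := le_max_right a (b + 1)
      omega), Finset.sum_empty]
    refine Finset.sum_eq_zero fun j hj => ?_
    rw [Finset.mem_Icc] at hj
    exact indicator_of_notMem (fun hc => hx ⟨j, hj.1, hc⟩) _

theorem TG_add {k f g : E d → ℝ} (h : IsKer k) (hf : Nice f) (hg : Nice g) (G : ℤ → Set (E d))
    (a b : ℤ) (x : E d) :
    TG k G a b (fun y => f y + g y) x = TG k G a b f x + TG k G a b g x := by
  unfold TG ps
  rw [← Finset.sum_add_distrib]
  refine Finset.sum_congr rfl fun j _ => ?_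
  by_cases hx : x ∈ G j
  · simp only [indicator_of_mem hx]
    exact cv_add h hf hg j x
  · simp only [indicator_of_notMem hx, add_zero]

theorem TG_const_mul (k g : E d → ℝ) (c : ℝ) (G : ℤ → Set (E d)) (a b : ℤ) (x : E d) :
    TG k G a b (fun y => c * g y) x = c * TG k G a b g x := by
  unfold TG ps
  rw [Finset.mul_sum]
  refine Finset.sum_congr rfl fun j _ => ?_
  by_cases hx : x ∈ G j
  · simp only [indicator_of_mem hx]
    exact cv_const_mul k g c j x
  · simp only [indicator_of_notMem hx, mul_zero]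

theorem TG_sum {ι : Type} {k : E d → ℝ} (h : IsKer k) {s : Finset ι} {g : ι → E d → ℝ}
    (hg : ∀ i ∈ s, Nice (g i)) (G : ℤ → Set (E d)) (a b : ℤ) (x : E d) :
    TG k G a b (fun y => ∑ i ∈ s, g i y) x = ∑ i ∈ s, TG k G a b (g i) x := by
  unfold TG ps
  rw [Finset.sum_comm]
  refine Finset.sum_congr rfl fun j _ => ?_
  by_cases hx : x ∈ G j
  · simp only [indicator_of_mem hx]
    exact cv_sum h hg j x
  · simp only [indicator_of_notMem hx, Finset.sum_const_zero]

theorem TG_congr {k f g : E d → ℝ} (h : IsKer k) (G : ℤ → Set (E d)) (a : ℤ) {W : Cb d}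
    {x : E d} (hx : x ∈ cube W) (e : ∀ y ∈ big W, f y = g y) :
    TG k G a W.1 f x = TG k G a W.1 g x := by
  unfold TG ps
  refine Finset.sum_congr rfl fun j hj => ?_
  rw [Finset.mem_Icc] at hj
  by_cases hG : x ∈ G j
  · simp only [indicator_of_mem hG]
    exact cv_congr h fun y hy => e y (big_subset_big hj.2 hx hy)
  · simp only [indicator_of_notMem hG]

end Pool.Agent.MP_418f02_an

end

section

open MeasureTheory Set
open scoped ENNReal RealInnerProductSpace

namespace Pool.Agent.MP_418f02_an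

variable {d : ℕ}

section
open FourierTransform
open scoped SchwartzMap ContDiff Convolution

/-- A real test function as a complex Schwartz function. -/
noncomputable def fourS (φ : E d → ℝ) (h₁ : ContDiff ℝ ∞ φ) (h₂ : HasCompactSupport φ) :
    𝓢(E d, ℂ) :=
  HasCompactSupport.toSchwartzMap (f := fun x => (φ x : ℂ))
    (h₂.comp_left (g := fun r : ℝ => (r : ℂ)) (by simp)) (Complex.ofRealCLM.contDiff.comp h₁)

lemma fourS_apply (φ : E d → ℝ) (h₁ : ContDiff ℝ ∞ φ) (h₂ : HasCompactSupport φ) (x : E d) :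
    fourS φ h₁ h₂ x = (φ x : ℂ) := rfl

lemma four_cont {g : E d → ℂ} (hg : Integrable g volume) : Continuous (𝓕 g) := by
  have := VectorFourier.fourierIntegral_continuous (e := Real.fourierChar) (μ := volume)
    (L := innerₗ (E d)) Real.continuous_fourierChar (by
      simp only [innerₗ_apply_apply]; fun_prop) hg
  exact this

/-- On `L¹ ∩ L²` the `L²` Fourier transform is given by the integral. -/
lemma four_ae_eq (g : Lp ℂ 2 (volume : Measure (E d))) (hg : Integrable (g : E d → ℂ) volume) :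
    ((𝓕 g : Lp ℂ 2 (volume : Measure (E d))) : E d → ℂ) =ᵐ[volume] 𝓕 (g : E d → ℂ) := by
  have hc : Continuous (𝓕 (g : E d → ℂ)) := four_cont hg
  refine ae_eq_of_integral_contDiff_smul_eq
    ((Lp.memLp _).locallyIntegrable (by norm_num)) hc.locallyIntegrable ?_
  intro φ h₁ h₂
  have key := Lp.fourier_toTemperedDistribution_eq g
  have k2 := congrArg (fun T : 𝓢'(E d, ℂ) => T (fourS φ h₁ h₂)) key
  simp only [TemperedDistribution.fourier_apply, Lp.toTemperedDistribution_apply,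
    fourS_apply] at k2
  have k3 := VectorFourier.integral_fourierIntegral_smul_eq_flip (e := Real.fourierChar)
    (μ := volume) (ν := volume) (L := innerₗ (E d)) (f := (fourS φ h₁ h₂ : E d → ℂ))
    (g := (g : E d → ℂ)) Real.continuous_fourierChar (by
        simp only [innerₗ_apply_apply]; fun_prop)
    (fourS φ h₁ h₂).integrable hg
  have hflip : (innerₗ (E d)).flip = innerₗ (E d) := by
    ext x y; simp
  rw [hflip] at k3
  have e1 : ∀ x, φ x • (𝓕 g : Lp ℂ 2 (volume : Measure (E d))) x =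
      (φ x : ℂ) • (𝓕 g : Lp ℂ 2 (volume : Measure (E d))) x := fun x => by simp
  have e2 : ∀ x, φ x • 𝓕 (g : E d → ℂ) x = (φ x : ℂ) • 𝓕 (g : E d → ℂ) x := fun x => by simp
  simp_rw [e1, e2]
  rw [← k2, SchwartzMap.fourier_coe]
  exact k3

lemma four_norm_sq (F : Lp ℂ 2 (volume : Measure (E d))) : ∫ x, ‖F x‖ ^ 2 = ‖F‖ ^ 2 := by
  have h := @L2.inner_def (E d) ℂ ℂ _ _ volume _ _ F F
  have h2 : ∀ x, (inner ℂ (F x) (F x) : ℂ) = ((‖F x‖ ^ 2 : ℝ) : ℂ) := fun x => by
    rw [inner_self_eq_norm_sq_to_K]; push_cast; rfl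
  simp_rw [h2] at h
  rw [integral_complex_ofReal, inner_self_eq_norm_sq_to_K] at h
  apply Complex.ofReal_injective
  rw [← h]; push_cast; rfl

theorem FT_apply (f : E d → ℝ) (η : E d) : FT f η = ∫ y, ee ⟪y, η⟫ * f y := by
  unfold FT ee
  rw [Real.fourier_eq']
  rfl

theorem FT_cont {f : E d → ℝ} (h : Nice f) : Continuous (FT f) :=
  four_cont h.integrable.ofReal

theorem planch {f : E d → ℝ} (h : Nice f) :
    Integrable (fun ξ => ‖FT f ξ‖ ^ 2) ∧ ∫ ξ, ‖FT f ξ‖ ^ 2 = ∫ x, f x ^ 2 := by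
  have hi : Integrable (fun y => (f y : ℂ)) volume := h.integrable.ofReal
  have hm : MemLp (fun y => (f y : ℂ)) 2 volume := by
    refine (memLp_two_iff_integrable_sq_norm hi.aestronglyMeasurable).2 ?_
    refine h.sq.integrable.congr (Filter.Eventually.of_forall fun y => ?_)
    simp
  set g := hm.toLp _ with hg
  have hgf : (g : E d → ℂ) =ᵐ[volume] fun y => (f y : ℂ) := hm.coeFn_toLp
  have h1 := four_ae_eq g (hi.congr hgf.symm)
  have h2 : ∀ ξ, 𝓕 (g : E d → ℂ) ξ = FT f ξ := fun ξ => Real.fourier_congr_ae hgf ξ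
  have h3 : (fun ξ => ‖(𝓕 g : Lp ℂ 2 (volume : Measure (E d))) ξ‖ ^ 2) =ᵐ[volume]
      fun ξ => ‖FT f ξ‖ ^ 2 := by
    filter_upwards [h1] with ξ hξ
    rw [hξ, h2]
  refine ⟨?_, ?_⟩
  · refine Integrable.congr ?_ h3
    exact (memLp_two_iff_integrable_sq_norm (Lp.aestronglyMeasurable _)).1 (Lp.memLp _)
  · rw [← integral_congr_ae h3, four_norm_sq, Lp.norm_fourier_eq, ← four_norm_sq]
    refine integral_congr_ae ?_
    filter_upwards [hgf] with x hx
    rw [hx]; simp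

lemma four_ee_norm (t : ℝ) : ‖ee t‖ = 1 := Complex.norm_exp_ofReal_mul_I _

lemma four_ee_cont : Continuous ee := by
  unfold ee; fun_prop

lemma four_ee_add (s t : ℝ) : ee (s + t) = ee s * ee t := by
  unfold ee
  rw [← Complex.exp_add]
  congr 1
  push_cast; ring

lemma four_int {f : E d → ℝ} (h : Integrable f) (η : E d) :
    Integrable fun y => ee ⟪y, η⟫ * (f y : ℂ) := by
  refine Integrable.bdd_mul (c := 1) h.ofReal ?_ (Filter.Eventually.of_forall fun y => ?_)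
  · exact (four_ee_cont.comp (by fun_prop)).aestronglyMeasurable
  · exact (four_ee_norm _).le

theorem FT_sub {f g : E d → ℝ} (hf : Nice f) (hg : Nice g) (η : E d) :
    FT (fun x => f x - g x) η = FT f η - FT g η := by
  simp only [FT_apply]
  rw [← integral_sub (four_int hf.integrable η) (four_int hg.integrable η)]
  congr 1; funext y; push_cast; ring

theorem FT_sum {ι : Type} {s : Finset ι} {g : ι → E d → ℝ} (h : ∀ i ∈ s, Nice (g i)) (η : E d) :
    FT (fun x => ∑ i ∈ s, g i x) η = ∑ i ∈ s, FT (g i) η := by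
  simp only [FT_apply]
  rw [← integral_finsetSum _ fun i hi => four_int (h i hi).integrable η]
  congr 1; funext y; push_cast; rw [Finset.mul_sum]

theorem FT_shift (f : E d → ℝ) (a η : E d) : FT (fun z => f (z - a)) η = ee ⟪a, η⟫ * FT f η := by
  simp only [FT_apply]
  rw [← integral_const_mul,
    ← integral_add_right_eq_self (fun y => ee ⟪y, η⟫ * (f (y - a) : ℂ)) a]
  congr 1; funext y
  rw [inner_add_left, four_ee_add, add_sub_cancel_right]; ring

lemma four_const (c : ℝ) (f : E d → ℝ) (η : E d) :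
    FT (fun y => c * f y) η = c * FT f η := by
  simp only [FT_apply]
  rw [← integral_const_mul]
  congr 1; funext y; push_cast; ring

lemma four_scale (f : E d → ℝ) {t : ℝ} (ht : 0 < t) (η : E d) :
    FT (fun y => f (t • y)) η = ((t ^ d)⁻¹ : ℝ) * FT f (t⁻¹ • η) := by
  simp only [FT_apply]
  have h := Measure.integral_comp_smul (volume : Measure (E d))
    (fun z => ee ⟪z, t⁻¹ • η⟫ * (f z : ℂ)) t
  rw [finrank_euclideanSpace_fin, abs_of_pos (by positivity), Complex.real_smul] at h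
  rw [← h]
  congr 1; funext y
  rw [real_inner_smul_left, real_inner_smul_right, ← mul_assoc, mul_inv_cancel₀ ht.ne', one_mul]

lemma four_fubini {F : ℝ → E d → ℝ} (hm : Measurable (Function.uncurry F)) {M R : ℝ}
    (hb : ∀ s ∈ Ioc (1 : ℝ) 2, ∀ y, |F s y| ≤ M)
    (hs : ∀ s ∈ Ioc (1 : ℝ) 2, ∀ y, R < ‖y‖ → F s y = 0) (η : E d) :
    FT (fun y => ∫ s in (1 : ℝ)..2, F s y) η = ∫ s in (1 : ℝ)..2, FT (F s) η := by
  simp only [FT_apply, intervalIntegral.integral_of_le (by norm_num : (1 : ℝ) ≤ 2)]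
  have e : ∀ y : E d, ee ⟪y, η⟫ * ((∫ s in Ioc (1 : ℝ) 2, F s y : ℝ) : ℂ) =
      ∫ s in Ioc (1 : ℝ) 2, ee ⟪y, η⟫ * (F s y : ℂ) := fun y => by
    rw [integral_const_mul, integral_complex_ofReal]
  simp_rw [e]
  refine (integral_integral_swap (f := fun s y => ee ⟪y, η⟫ * (F s y : ℂ)) ?_).symm
  have hI : Integrable ((Metric.closedBall (0 : E d) R).indicator fun _ => M) volume :=
    (nice_indicator Metric.isClosed_closedBall.measurableSet Metric.isBounded_closedBall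
      M).integrable
  have hc : Integrable (fun _ : ℝ => (1 : ℝ)) (volume.restrict (Ioc (1 : ℝ) 2)) :=
    integrable_const _
  refine (hc.mul_prod hI).mono' ?_ ?_
  · refine Measurable.aestronglyMeasurable ?_
    refine Measurable.mul ?_ (Complex.measurable_ofReal.comp hm)
    exact (four_ee_cont.comp (by fun_prop)).measurable
  · have hmem : ∀ᵐ p : ℝ × E d ∂((volume.restrict (Ioc (1 : ℝ) 2)).prod volume),
        p.1 ∈ Ioc (1 : ℝ) 2 :=
      Measure.quasiMeasurePreserving_fst.ae (ae_restrict_mem measurableSet_Ioc)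
    filter_upwards [hmem] with p hp
    simp only [Function.uncurry, norm_mul, four_ee_norm, one_mul, Complex.norm_real,
      Real.norm_eq_abs]
    by_cases hy : p.2 ∈ Metric.closedBall (0 : E d) R
    · rw [indicator_of_mem hy]; exact hb _ hp _
    · rw [indicator_of_notMem hy, hs _ hp _ (by simpa using hy), abs_zero]

theorem FT_KK {k : E d → ℝ} (h : IsKer k) {l : ℝ} (hl : 0 < l) (η : E d) :
    FT (KK k l) η = ∫ s in (1 : ℝ)..2, FT k ((l * s) • η) / s := by
  have hk := h.meas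
  have h1 := four_fubini (F := fun s y => ((l * s) ^ d)⁻¹ * k ((l * s)⁻¹ • y) / s)
    (M := (l ^ d)⁻¹) (R := 4 * l) (by unfold Function.uncurry; fun_prop) ?_ ?_ η
  · refine h1.trans ?_
    refine intervalIntegral.integral_congr fun s hs => ?_
    rw [uIcc_of_le (by norm_num)] at hs
    have hs0 : 0 < s := by linarith [hs.1]
    have hls : 0 < l * s := by positivity
    have e : (fun y => ((l * s) ^ d)⁻¹ * k ((l * s)⁻¹ • y) / s) =
        fun y => (((l * s) ^ d)⁻¹ / s) * k ((l * s)⁻¹ • y) := by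
      funext y; ring
    simp only [e]
    rw [four_const, four_scale k (inv_pos.2 hls), inv_inv, inv_pow, inv_inv]
    have : ((l * s) ^ d : ℝ) ≠ 0 := by positivity
    have h2 : (((l * s) ^ d : ℝ) : ℂ) ≠ 0 := by exact_mod_cast this
    have h3 : (s : ℂ) ≠ 0 := by exact_mod_cast hs0.ne'
    rw [Complex.ofReal_div, Complex.ofReal_inv]
    field_simp
  · intro s hs y
    have hs0 : 0 < s := by linarith [hs.1]
    have h2 : ((l * s) ^ d)⁻¹ ≤ (l ^ d)⁻¹ := by
      refine inv_anti₀ (by positivity) (pow_le_pow_left₀ hl.le ?_ _)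
      nlinarith [hs.1]
    rw [abs_div, abs_mul, abs_of_pos hs0, abs_of_pos (by positivity), div_le_iff₀ hs0]
    have h3 := h.bdd ((l * s)⁻¹ • y)
    have h4 : (0 : ℝ) ≤ (l ^ d)⁻¹ := by positivity
    calc _ ≤ (l ^ d)⁻¹ * 1 := mul_le_mul h2 h3 (abs_nonneg _) h4
      _ ≤ _ := mul_le_mul_of_nonneg_left hs.1.le h4
  · intro s hs y hy
    have hs0 : 0 < s := by linarith [hs.1]
    have hls : 0 < l * s := by positivity
    rw [h.supp, mul_zero, zero_div]
    rw [norm_smul, Real.norm_eq_abs, abs_of_pos (inv_pos.2 hls), ← div_eq_inv_mul,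
      lt_div_iff₀ hls]
    nlinarith [hs.2]

theorem FT_ray {D : E d → ℝ} (h : Nice D) (η : E d) :
    FT (ray D) η = ∫ s in (1 : ℝ)..2, ((s ^ d)⁻¹ : ℝ) * FT D (s⁻¹ • η) / s := by
  have hk := h.meas
  obtain ⟨M, hM⟩ := h.bdd
  obtain ⟨R, hR⟩ := h.supp
  have h1 := four_fubini (F := fun s y => D (s • y) / s)
    (M := M) (R := R) (by unfold Function.uncurry; fun_prop) ?_ ?_ η
  · refine h1.trans ?_
    refine intervalIntegral.integral_congr fun s hs => ?_
    rw [uIcc_of_le (by norm_num)] at hs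
    have hs0 : 0 < s := by linarith [hs.1]
    have e : (fun y => D (s • y) / s) = fun y => s⁻¹ * D (s • y) := by
      funext y; ring
    simp only [e]
    rw [four_const, four_scale D hs0, Complex.ofReal_inv s]
    ring
  · intro s hs y
    have hs0 : 0 < s := by linarith [hs.1]
    rw [abs_div, abs_of_pos hs0, div_le_iff₀ hs0]
    have h3 := hM (s • y)
    have h4 : 0 ≤ M := (abs_nonneg _).trans h3
    nlinarith [hs.1]
  · intro s hs y hy
    have hs0 : 0 < s := by linarith [hs.1]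
    rw [hR, zero_div]
    rw [norm_smul, Real.norm_eq_abs, abs_of_pos hs0]
    nlinarith [hs.1, norm_nonneg y]

theorem FT_cv {k g : E d → ℝ} (h : IsKer k) (hg : Nice g) (j : ℤ) (η : E d) :
    FT (cv k j g) η = FT (KK k (2 ^ (j - 2))) η * FT g η := by
  have hK : Nice (KK k (2 ^ (j - 2))) := KK_nice h (by positivity)
  have h1 := Real.fourier_mul_convolution_eq (f₁ := fun y => (g y : ℂ))
    (f₂ := fun y => (KK k (2 ^ (j - 2)) y : ℂ)) hg.integrable.ofReal hK.integrable.ofReal η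
  rw [mul_comm]
  refine Eq.trans ?_ h1
  unfold FT
  refine congrArg (fun f : E d → ℂ => 𝓕 f η) (funext fun x => ?_)
  rw [convolution_def]
  unfold cv
  rw [← integral_complex_ofReal]
  congr 1; funext y
  simp [mul_comm]

end

end Pool.Agent.MP_418f02_an

end

section

open MeasureTheory Set
open scoped ENNReal RealInnerProductSpace

namespace Pool.Agent.MP_418f02_an

variable {d : ℕ}

theorem geo_pos {u : E d} (hu : ‖u‖ = 1) : 1 ≤ d := by
  rcases Nat.eq_zero_or_pos d with rfl | h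
  · rw [Subsingleton.elim u 0, norm_zero] at hu
    exact absurd hu zero_ne_one
  · exact h

/-- a rotation taking a unit vector to a coordinate vector -/
theorem geo_rot {u : E d} (hu : ‖u‖ = 1) (i₀ : Fin d) :
    ∃ T : E d ≃ₗᵢ[ℝ] E d, T u = EuclideanSpace.single i₀ 1 ∧ ∀ y, T y i₀ = ⟪y, u⟫ := by
  have h : ‖u‖ = ‖(EuclideanSpace.single i₀ (1 : ℝ) : E d)‖ := by simp [hu]
  refine ⟨_, Submodule.reflection_sub h, fun y => ?_⟩
  have h1 := Submodule.reflection_sub h
  generalize Submodule.reflection (ℝ ∙ (u - EuclideanSpace.single i₀ (1 : ℝ)))ᗮ = T at h1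
  rw [← T.inner_map_map y u, h1, EuclideanSpace.inner_single_right]
  simp

theorem geo_box (T : E d ≃ₗᵢ[ℝ] E d) (i₀ : Fin d) (c : Fin d → ℝ) {p q : ℝ} (hp : 0 ≤ p)
    (hq : 0 ≤ q) : volume {y : E d | |T y i₀ - c i₀| ≤ p ∧ ∀ i, i ≠ i₀ → |T y i - c i| ≤ q} =
      ENNReal.ofReal (2 * p * (2 * q) ^ (d - 1)) := by
  set r : Fin d → ℝ := fun i => if i = i₀ then p else q with hr
  have h1 : {y : E d | |T y i₀ - c i₀| ≤ p ∧ ∀ i, i ≠ i₀ → |T y i - c i| ≤ q} =
      T ⁻¹' (WithLp.ofLp ⁻¹' Icc (fun i => c i - r i) (fun i => c i + r i)) := by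
    ext y
    simp only [mem_ofPred_eq, mem_preimage, mem_Icc, Pi.le_def]
    constructor
    · rintro ⟨h0, h⟩
      have key : ∀ i, |T y i - c i| ≤ r i := fun i => by
        by_cases hi : i = i₀
        · rw [hi]; simpa [hr] using h0
        · simpa [hr, hi] using h i hi
      exact ⟨fun i => by linarith [(abs_le.1 (key i)).1], fun i => by linarith [(abs_le.1 (key i)).2]⟩
    · rintro ⟨h1, h2⟩
      have key : ∀ i, |T y i - c i| ≤ r i := fun i => abs_le.2 ⟨by linarith [h1 i], by linarith [h2 i]⟩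
      exact ⟨by simpa [hr] using key i₀, fun i hi => by simpa [hr, hi] using key i⟩
  have hm : MeasurableSet (Icc (fun i => c i - r i) (fun i => c i + r i)) := measurableSet_Icc
  rw [h1, T.measurePreserving.measure_preimage
    ((PiLp.volume_preserving_ofLp (Fin d)).measurable hm).nullMeasurableSet,
    (PiLp.volume_preserving_ofLp (Fin d)).measure_preimage hm.nullMeasurableSet, Real.volume_Icc_pi,
    ← Finset.mul_prod_erase _ _ (Finset.mem_univ i₀),
    Finset.prod_congr rfl (g := fun _ => ENNReal.ofReal (2 * q)) fun i hi => by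
      rw [hr]; simp only [if_neg (Finset.ne_of_mem_erase hi)]; congr 1; ring,
    Finset.prod_const, Finset.card_erase_of_mem (Finset.mem_univ _), Finset.card_univ,
    Fintype.card_fin, ENNReal.ofReal_mul (p := 2 * p) (by positivity),
    ENNReal.ofReal_pow (by positivity)]
  congr 2
  simp only [hr, if_true]; ring

theorem geo_coord (y : E d) (i : Fin d) : |y i| ≤ ‖y‖ := by
  simpa using PiLp.norm_apply_le y i

theorem geo_norm (y : E d) {t : ℝ} (ht : 0 ≤ t) (h : ∀ i, |y i| ≤ t) : ‖y‖ ≤ d * t := by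
  rw [EuclideanSpace.norm_eq, Real.sqrt_le_left (by positivity)]
  calc ∑ i, ‖y i‖ ^ 2 ≤ ∑ _i : Fin d, t ^ 2 :=
        Finset.sum_le_sum fun i _ => pow_le_pow_left₀ (norm_nonneg _) (h i) 2
    _ = d * t ^ 2 := by simp
    _ ≤ (d * t) ^ 2 := by
        rw [mul_pow]
        refine mul_le_mul_of_nonneg_right ?_ (by positivity)
        exact_mod_cast Nat.le_self_pow two_ne_zero d

theorem slab_le {u : E d} (hu : ‖u‖ = 1) {ρ R : ℝ} (hρ : 0 ≤ ρ) (hR : 0 ≤ R) :
    volume {y : E d | ‖y‖ ≤ R ∧ |⟪y, u⟫| ≤ ρ} ≤ ENNReal.ofReal (2 * ρ * (2 * R) ^ (d - 1)) := by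
  obtain ⟨T, -, hT⟩ := geo_rot hu ⟨0, geo_pos hu⟩
  rw [← geo_box T ⟨0, geo_pos hu⟩ 0 hρ hR]
  refine measure_mono fun y hy => ⟨?_, fun i _ => ?_⟩
  · rw [Pi.zero_apply, sub_zero, hT]; exact hy.2
  · rw [Pi.zero_apply, sub_zero]
    exact (geo_coord _ i).trans ((T.norm_map y).le.trans hy.1)

theorem slab_ge {u a : E d} (hu : ‖u‖ = 1) {e ρ : ℝ} (he : 0 < e) (heρ : e ≤ ρ)
    (ha : |⟪a, u⟫| ≤ ρ) : ENNReal.ofReal (e * ρ ^ (d - 1) / d ^ d) ≤
      volume {y : E d | ‖y - a‖ ≤ 2 * ρ ∧ |⟪y, u⟫| ≤ e} := by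
  have hd := geo_pos hu
  have hd' : (1 : ℝ) ≤ d := by exact_mod_cast hd
  have hρ : 0 < ρ := he.trans_le heρ
  set i₀ : Fin d := ⟨0, hd⟩
  obtain ⟨T, hTu, hT⟩ := geo_rot hu i₀
  have hb := geo_box T i₀ (fun i => if i = i₀ then 0 else T a i) (p := e / d) (q := ρ / d)
    (by positivity) (by positivity)
  refine le_trans (ENNReal.ofReal_le_ofReal ?_) (hb.symm.le.trans (measure_mono ?_))
  · obtain ⟨n, rfl⟩ : ∃ n, d = n + 1 := ⟨d - 1, by omega⟩
    rw [Nat.add_sub_cancel, mul_pow, div_pow, pow_succ, mul_comm (((n + 1 : ℕ) : ℝ) ^ n),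
      ← div_mul_div_comm]
    have h1 : (1 : ℝ) ≤ 2 ^ n := one_le_pow₀ one_le_two
    have h2 : 0 ≤ e / ((n + 1 : ℕ) : ℝ) * (ρ ^ n / ((n + 1 : ℕ) : ℝ) ^ n) := by positivity
    nlinarith
  · rintro y ⟨h0, h⟩
    simp only [if_true, sub_zero] at h0
    have h1 : e / d ≤ e := div_le_self he.le hd'
    have h2 : e / d ≤ ρ / d := by gcongr
    refine ⟨?_, by rw [← hT]; exact h0.trans h1⟩
    have h3 : ‖T (y - a + ⟪a, u⟫ • u)‖ ≤ d * (ρ / d) := by
      refine geo_norm _ (by positivity) fun i => ?_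
      rw [map_add, map_sub, map_smul, hTu, ← hT a]
      by_cases hi : i = i₀
      · rw [hi]; simpa using h0.trans h2
      · have := h i hi
        simpa [hi] using this
    rw [T.norm_map, mul_div_cancel₀ _ (by positivity)] at h3
    have h4 : ‖⟪a, u⟫ • u‖ ≤ ρ := by rw [norm_smul, hu, mul_one]; exact ha
    calc ‖y - a‖ = ‖(y - a + ⟪a, u⟫ • u) - ⟪a, u⟫ • u‖ := by rw [add_sub_cancel_right]
      _ ≤ ρ + ρ := (norm_sub_le _ _).trans (add_le_add h3 h4)
      _ = 2 * ρ := by ring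

theorem tube_le (hd : 1 ≤ d) (a : E d) {ρ : ℝ} (hρ : 0 ≤ ρ) :
    volume {y : E d | ∃ s ∈ Icc (1 : ℝ) 2, ‖s • y - a‖ ≤ ρ} ≤
      ENNReal.ofReal (2 * (‖a‖ + ρ) * (2 * ρ) ^ (d - 1)) := by
  set i₀ : Fin d := ⟨0, hd⟩
  obtain ⟨u, hu, hau⟩ : ∃ u : E d, ‖u‖ = 1 ∧ a = ‖a‖ • u := by
    by_cases ha : a = 0
    · exact ⟨EuclideanSpace.single i₀ 1, by simp, by simp [ha]⟩
    · have h := norm_ne_zero_iff.2 ha
      exact ⟨‖a‖⁻¹ • a, by simp [norm_smul, h], by rw [smul_smul, mul_inv_cancel₀ h, one_smul]⟩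
  obtain ⟨T, hTu, -⟩ := geo_rot hu i₀
  rw [← geo_box T i₀ 0 (by positivity) hρ]
  refine measure_mono ?_
  rintro y ⟨s, hs, hy⟩
  have key : ∀ i, |T y i| ≤ |T a i| + ρ := fun i => by
    have h1 : |s * T y i - T a i| ≤ ρ := by
      have := (geo_coord (T (s • y - a)) i).trans ((T.norm_map _).le.trans hy)
      simpa using this
    have h2 : |T y i| ≤ |s * T y i| := by
      rw [abs_mul, abs_of_pos (a := s) (by linarith [hs.1])]
      exact le_mul_of_one_le_left (abs_nonneg _) hs.1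
    have h3 := abs_sub_abs_le_abs_sub (s * T y i) (T a i)
    linarith
  refine ⟨?_, fun i hi => ?_⟩
  · rw [Pi.zero_apply, sub_zero]
    have := (geo_coord (T a) i₀).trans (T.norm_map a).le
    linarith [key i₀]
  · rw [Pi.zero_apply, sub_zero]
    have h1 : T a i = 0 := by
      rw [hau, map_smul, hTu]; simp [hi]
    simpa [h1] using key i

end Pool.Agent.MP_418f02_an

end

section

open MeasureTheory Set
open scoped ENNReal RealInnerProductSpace

namespace Pool.Agent.MP_418f02_an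

variable {d : ℕ}

theorem cube2_ix_add (j : ℤ) (n : ℕ) (x : E d) (i : Fin d) :
    ix (j + n) x i = ix j x i / ((2 ^ n : ℕ) : ℤ) := by
  unfold ix
  rw [← Int.floor_div_natCast]
  congr 1
  rw [zpow_add₀ (by norm_num : (2 : ℝ) ≠ 0), zpow_natCast, div_div]
  push_cast
  rfl

theorem cube2_ediv_iff {N m a : ℤ} (hN : 0 < N) : m / N = a ↔ a * N ≤ m ∧ m < a * N + N := by
  constructor
  · rintro rfl
    refine ⟨Int.ediv_mul_le m hN.ne', ?_⟩
    have := Int.lt_ediv_add_one_mul_self m hN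
    linarith
  · rintro ⟨h1, h2⟩
    have h3 : a ≤ m / N := (Int.le_ediv_iff_mul_le hN).2 h1
    have h4 : m / N < a + 1 := (Int.ediv_lt_iff_lt_mul hN).2 (by linarith)
    omega

theorem cube2_disjoint {k : ℤ} {m m' : Fin d → ℤ} (h : m ≠ m') :
    Disjoint (cube ((k, m) : Cb d)) (cube (k, m')) := by
  rw [Set.disjoint_left]
  intro x hx hx'
  exact h ((show ix k x = m from hx).symm.trans (show ix k x = m' from hx'))

theorem LM.lintegral_le {k : ℤ} {S : Set (E d)} (h : LM k S) {F H : E d → ℝ≥0∞}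
    (hle : ∀ c : Cb d, c.1 = k → cube c ⊆ S → ∫⁻ x in cube c, F x ≤ ∫⁻ x in cube c, H x) :
    ∫⁻ x in S, F x ≤ ∫⁻ x in S, H x := by
  have hS : S = ⋃ m ∈ {m : Fin d → ℤ | cube ((k, m) : Cb d) ⊆ S}, cube ((k, m) : Cb d) := by
    apply Subset.antisymm
    · intro x hx
      refine mem_iUnion₂.2 ⟨ix k x, ?_, rfl⟩
      exact h.cube_subset (c := (k, ix k x)) le_rfl rfl hx
    · exact iUnion₂_subset fun m hm => hm
  have hd : {m : Fin d → ℤ | cube ((k, m) : Cb d) ⊆ S}.PairwiseDisjoint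
      fun m => cube ((k, m) : Cb d) := fun m _ m' _ hne => cube2_disjoint hne
  have hc : {m : Fin d → ℤ | cube ((k, m) : Cb d) ⊆ S}.Countable := Set.to_countable _
  have key : ∀ G : E d → ℝ≥0∞, ∫⁻ x in S, G x =
      ∑' m : {m : Fin d → ℤ | cube ((k, m) : Cb d) ⊆ S}, ∫⁻ x in cube ((k, m.1) : Cb d), G x := by
    intro G
    conv_lhs => rw [hS]
    exact lintegral_biUnion hc (fun m _ => measurableSet_cube _) hd G
  rw [key F, key H]
  exact ENNReal.tsum_le_tsum fun m => hle (k, m.1) rfl m.2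

theorem LM.integral_le {k : ℤ} {S : Set (E d)} (h : LM k S) (hS : volume S ≠ ∞) {F : E d → ℝ}
    (hF : Integrable F) {c : ℝ} (hc : 0 ≤ c)
    (hle : ∀ Q : Cb d, Q.1 = k → ∫ x in cube Q, |F x| ≤ c * sz d k) :
    ∫ x in S, |F x| ≤ c * (volume S).toReal := by
  have e : ∀ T : Set (E d), ENNReal.ofReal (∫ x in T, |F x|) =
      ∫⁻ x in T, ENNReal.ofReal |F x| := fun T =>
    ofReal_integral_eq_lintegral_ofReal hF.abs.integrableOn
      (Filter.Eventually.of_forall fun x => abs_nonneg _)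
  have h1 : ∫⁻ x in S, ENNReal.ofReal |F x| ≤ ∫⁻ _ in S, ENNReal.ofReal c := by
    refine h.lintegral_le fun Q hQ _ => ?_
    rw [← e, setLIntegral_const, volume_cube, ← ENNReal.ofReal_mul hc, hQ]
    exact ENNReal.ofReal_le_ofReal (hle Q hQ)
  rw [← e, setLIntegral_const, ← ENNReal.ofReal_toReal hS, ← ENNReal.ofReal_mul hc] at h1
  exact (ENNReal.ofReal_le_ofReal_iff (mul_nonneg hc ENNReal.toReal_nonneg)).1 h1

theorem cube2_eq_of_level {c c' : Cb d} (h : c.1 = c'.1) (hs : cube c ⊆ cube c') : c' = c := by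
  obtain ⟨x, hx⟩ := cube_nonempty c
  rw [← cb_eq_of_mem hx, ← cb_eq_of_mem (hs hx), h]

theorem exists_maximal (S : Set (Cb d)) (b : ℤ) (hb : ∀ c ∈ S, c.1 ≤ b) :
    ∃ T ⊆ S, T.PairwiseDisjoint cube ∧ (∀ c ∈ S, ∃ c' ∈ T, c.1 ≤ c'.1 ∧ cube c ⊆ cube c') ∧
      ∀ c ∈ T, ∀ c' ∈ S, c.1 ≤ c'.1 → cube c ⊆ cube c' → c' = c := by
  refine ⟨{c ∈ S | ∀ c' ∈ S, c.1 ≤ c'.1 → cube c ⊆ cube c' → c' = c}, fun c hc => hc.1, ?_, ?_,
    fun c hc => hc.2⟩
  · intro c hc c' hc' hne
    change Disjoint (cube c) (cube c')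
    rw [Set.disjoint_left]
    intro x hx hx'
    rcases le_total c.1 c'.1 with hl | hl
    · exact hne (hc.2 c' hc'.1 hl ((lm_cube c').cube_subset hl hx hx')).symm
    · exact hne (hc'.2 c hc.1 hl ((lm_cube c).cube_subset hl hx' hx))
  · intro c hc
    obtain ⟨l, ⟨c', hc'S, hl1, hsub, rfl⟩, hmax⟩ := Int.exists_greatest_of_bdd
      (P := fun l => ∃ c' ∈ S, c.1 ≤ c'.1 ∧ cube c ⊆ cube c' ∧ c'.1 = l)
      ⟨b, by rintro z ⟨c', hc', -, -, rfl⟩; exact hb c' hc'⟩
      ⟨c.1, c, hc, le_rfl, Subset.rfl, rfl⟩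
    refine ⟨c', ⟨hc'S, fun c'' hc'' hl hs => ?_⟩, hl1, hsub⟩
    have := hmax c''.1 ⟨c'', hc'', hl1.trans hl, hsub.trans hs, rfl⟩
    exact cube2_eq_of_level (le_antisymm hl this) hs

theorem finite_sub (a : ℤ) (c₀ : Cb d) :
    {c : Cb d | a ≤ c.1 ∧ c.1 ≤ c₀.1 ∧ cube c ⊆ big c₀}.Finite := by
  have hfin : (⋃ l ∈ Icc a c₀.1, ({l} : Set ℤ) ×ˢ {m : Fin d → ℤ | ∀ i, m i ∈
      Icc ((c₀.2 i - 1) * ((2 ^ (c₀.1 - l).toNat : ℕ) : ℤ))
        ((c₀.2 i + 2) * ((2 ^ (c₀.1 - l).toNat : ℕ) : ℤ))}).Finite :=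
    (finite_Icc a c₀.1).biUnion fun l _ =>
      (finite_singleton l).prod (Set.Finite.pi' fun i => finite_Icc _ _)
  refine hfin.subset ?_
  rintro ⟨l, m⟩ ⟨h1, h2, h3⟩
  refine mem_iUnion₂.2 ⟨l, ⟨h1, h2⟩, rfl, fun i => ?_⟩
  obtain ⟨x, hx⟩ := cube_nonempty ((l, m) : Cb d)
  have hb := h3 hx i
  have hx' : ix l x = m := hx
  have e : c₀.1 = l + ((c₀.1 - l).toNat : ℤ) := by
    simp only at h2
    omega
  set n := (c₀.1 - l).toNat
  rw [e, cube2_ix_add, hx'] at hb
  have hN : (0 : ℤ) < ((2 ^ n : ℕ) : ℤ) := by positivity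
  set N : ℤ := ((2 ^ n : ℕ) : ℤ)
  obtain ⟨h4, h5⟩ := (cube2_ediv_iff (m := m i) hN).1 rfl
  obtain ⟨h6, h7⟩ := abs_le.1 hb
  constructor
  · show (c₀.2 i - 1) * N ≤ m i
    nlinarith
  · show m i ≤ (c₀.2 i + 2) * N
    nlinarith

theorem Dj.sum_sz {P : Finset (Cb d)} (h : Dj P) :
    ENNReal.ofReal (∑ c ∈ P, sz d c.1) = volume (⋃ c ∈ P, cube c) := by
  rw [measure_biUnion_finset h fun c _ => measurableSet_cube c,
    ENNReal.ofReal_sum_of_nonneg fun c _ => (sz_pos c.1).le]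
  exact Finset.sum_congr rfl fun c _ => (volume_cube c).symm

theorem Dj.sum_le {P : Finset (Cb d)} (h : Dj P) {S : Set (E d)} {v : ℝ} (hv : 0 ≤ v)
    (hS : volume S ≤ ENNReal.ofReal v) (hP : ∀ c ∈ P, cube c ⊆ S) : ∑ c ∈ P, sz d c.1 ≤ v := by
  rw [← ENNReal.ofReal_le_ofReal_iff hv, h.sum_sz]
  exact (measure_mono (iUnion₂_subset hP)).trans hS

theorem Dj.subset {P P' : Finset (Cb d)} (h : Dj P) (hP : P' ⊆ P) : Dj P' :=
  Set.PairwiseDisjoint.subset h (Finset.coe_subset.2 hP)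

theorem exists_nbrs (c : Cb d) : ∃ N : Finset (Cb d), N.card = 3 ^ d ∧ Dj N ∧
    (∀ c' ∈ N, c'.1 = c.1) ∧ big c = ⋃ c' ∈ N, cube c' := by
  classical
  refine ⟨(Fintype.piFinset fun i => Finset.Icc (c.2 i - 1) (c.2 i + 1)).image
    fun m => (c.1, m), ?_, ?_, ?_, ?_⟩
  · rw [Finset.card_image_of_injective _ (Prod.mk_right_injective c.1), Fintype.card_piFinset]
    have : ∀ i, (Finset.Icc (c.2 i - 1) (c.2 i + 1)).card = 3 := by
      intro i
      rw [Int.card_Icc]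
      omega
    simp [this]
  · intro p hp q hq hne
    obtain ⟨m, -, rfl⟩ := Finset.mem_image.1 hp
    obtain ⟨m', -, rfl⟩ := Finset.mem_image.1 hq
    exact cube2_disjoint fun e => hne (by rw [e])
  · intro p hp
    obtain ⟨m, -, rfl⟩ := Finset.mem_image.1 hp
    rfl
  · ext x
    simp only [mem_iUnion, Finset.mem_image, Fintype.mem_piFinset, Finset.mem_Icc]
    constructor
    · intro hx
      refine ⟨(c.1, ix c.1 x), ⟨ix c.1 x, fun i => ?_, rfl⟩, rfl⟩
      obtain ⟨h1, h2⟩ := abs_le.1 (hx i)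
      constructor <;> omega
    · rintro ⟨p, ⟨m, hm, rfl⟩, hx⟩ i
      have hx' : ix c.1 x = m := hx
      rw [hx', abs_le]
      obtain ⟨h1, h2⟩ := hm i
      constructor <;> omega

theorem cube2_volume_le (j : ℤ) (M : Finset (Fin d → ℤ)) :
    volume {x : E d | ix j x ∈ M} ≤ ENNReal.ofReal (M.card * sz d j) := by
  have : {x : E d | ix j x ∈ M} ⊆ ⋃ m ∈ M, cube ((j, m) : Cb d) := fun x hx =>
    mem_iUnion₂.2 ⟨ix j x, hx, rfl⟩
  refine (measure_mono this).trans ((measure_biUnion_finset_le M _).trans ?_)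
  simp only [volume_cube, Finset.sum_const, nsmul_eq_mul]
  rw [ENNReal.ofReal_mul (Nat.cast_nonneg _), ENNReal.ofReal_natCast]

theorem cube2_card_le (T : Fin d → Finset ℤ) (i : Fin d) (B : ℕ) (hi : (T i).card ≤ 4)
    (hT : ∀ l, l ≠ i → (T l).card ≤ B) : (Fintype.piFinset T).card * B ≤ 4 * B ^ d := by
  classical
  rw [Fintype.card_piFinset, ← Finset.mul_prod_erase Finset.univ _ (Finset.mem_univ i)]
  have h1 : ∏ l ∈ Finset.univ.erase i, (T l).card ≤ B ^ (Finset.univ.erase i).card :=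
    Finset.prod_le_pow_card _ _ _ fun l hl => hT l (Finset.ne_of_mem_erase hl)
  have h2 : (Finset.univ.erase i).card + 1 = d := by
    rw [Finset.card_erase_add_one (Finset.mem_univ i)]
    simp
  calc (T i).card * (∏ l ∈ Finset.univ.erase i, (T l).card) * B
      ≤ 4 * B ^ (Finset.univ.erase i).card * B := by gcongr
    _ = 4 * B ^ d := by rw [mul_assoc, ← pow_succ, h2]

theorem volume_bd : ∃ C : ℝ, 0 < C ∧ ∀ (j : ℤ) (c : Cb d), j ≤ c.1 →
    volume (bd j c) ≤ ENNReal.ofReal (C * 2 ^ (j - c.1) * sz d c.1) := by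
  classical
  refine ⟨(d + 1) * (4 * 3 ^ d), by positivity, fun j c hj => ?_⟩
  obtain ⟨n, e⟩ : ∃ n : ℕ, c.1 = j + n := ⟨(c.1 - j).toNat, by omega⟩
  have hN : (0 : ℤ) < ((2 ^ n : ℕ) : ℤ) := by positivity
  have hmem : ∀ x : E d, x ∈ cube c ↔ ∀ i, c.2 i * ((2 ^ n : ℕ) : ℤ) ≤ ix j x i ∧
      ix j x i < c.2 i * ((2 ^ n : ℕ) : ℤ) + ((2 ^ n : ℕ) : ℤ) := by
    intro x
    change ix c.1 x = c.2 ↔ _
    rw [funext_iff]
    refine forall_congr' fun i => ?_
    rw [e, cube2_ix_add, cube2_ediv_iff hN]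
  set N : ℤ := ((2 ^ n : ℕ) : ℤ) with hNdef
  let T : Fin d → Fin d → Finset ℤ := fun i l =>
    if l = i then {c.2 l * N - 1, c.2 l * N, c.2 l * N + N - 1, c.2 l * N + N}
    else Finset.Icc (c.2 l * N - 1) (c.2 l * N + N)
  have hsub : bd j c ⊆ ⋃ i, {x : E d | ix j x ∈ Fintype.piFinset (T i)} := by
    rintro y ⟨⟨x, hx, hxc⟩, ⟨z, hz, hzc⟩⟩
    rw [hmem] at hxc hzc
    obtain ⟨i, hi⟩ := not_forall.1 hzc
    refine mem_iUnion.2 ⟨i, Fintype.mem_piFinset.2 fun l => ?_⟩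
    have h1 : |ix j x l - ix j y l| ≤ 1 := hx l
    have h2 : |ix j z l - ix j y l| ≤ 1 := hz l
    obtain ⟨h3, h4⟩ := abs_le.1 h1
    obtain ⟨h5, h6⟩ := abs_le.1 h2
    obtain ⟨h7, h8⟩ := hxc l
    by_cases hl : l = i
    · subst hl
      simp only [T, if_true, Finset.mem_insert, Finset.mem_singleton]
      omega
    · simp only [T, if_neg hl, Finset.mem_Icc]
      omega
  have hcard : ∀ i, (Fintype.piFinset (T i)).card * (3 * 2 ^ n) ≤ 4 * (3 * 2 ^ n) ^ d := by
    intro i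
    apply cube2_card_le (T i) i
    · simp only [T, if_true]
      exact Finset.card_le_four
    · intro l hl
      simp only [T, if_neg hl, Int.card_Icc]
      have : (1 : ℕ) ≤ 2 ^ n := Nat.one_le_two_pow
      omega
  have hz : (2 : ℝ) ^ (j - c.1) = ((2 : ℝ) ^ n)⁻¹ := by
    rw [e, show j - (j + n) = -(n : ℤ) by ring, zpow_neg, zpow_natCast]
  have hp : (0 : ℝ) < 2 ^ n := by positivity
  have hone : ∀ i, ((Fintype.piFinset (T i)).card : ℝ) * sz d j ≤
      4 * 3 ^ d * 2 ^ (j - c.1) * sz d c.1 := by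
    intro i
    have h1 : ((Fintype.piFinset (T i)).card : ℝ) * (3 * 2 ^ n) ≤ 4 * (3 * 2 ^ n) ^ d := by
      exact_mod_cast hcard i
    have h2 : ((Fintype.piFinset (T i)).card : ℝ) ≤ 4 * 3 ^ d * (2 ^ n)⁻¹ * (2 ^ n) ^ d := by
      rw [mul_pow] at h1
      have h0 : (0 : ℝ) ≤ (Fintype.piFinset (T i)).card := Nat.cast_nonneg _
      rw [mul_right_comm, ← div_eq_mul_inv, le_div_iff₀ hp]
      nlinarith
    rw [hz]
    conv_rhs => rw [e, sz_add]
    have := sz_pos (d := d) j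
    calc ((Fintype.piFinset (T i)).card : ℝ) * sz d j
        ≤ 4 * 3 ^ d * (2 ^ n)⁻¹ * (2 ^ n) ^ d * sz d j := by gcongr
      _ = _ := by ring
  have hnn : (0 : ℝ) ≤ 4 * 3 ^ d * 2 ^ (j - c.1) * sz d c.1 := by
    have := sz_pos (d := d) c.1
    positivity
  calc volume (bd j c) ≤ ∑ i, volume {x : E d | ix j x ∈ Fintype.piFinset (T i)} :=
        (measure_mono hsub).trans (measure_iUnion_fintype_le _ _)
    _ ≤ ∑ _i : Fin d, ENNReal.ofReal (4 * 3 ^ d * 2 ^ (j - c.1) * sz d c.1) :=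
        Finset.sum_le_sum fun i _ => (cube2_volume_le j _).trans (ENNReal.ofReal_le_ofReal (hone i))
    _ = ENNReal.ofReal (d * (4 * 3 ^ d * 2 ^ (j - c.1) * sz d c.1)) := by
        simp only [Finset.sum_const, Finset.card_univ, Fintype.card_fin, nsmul_eq_mul]
        rw [ENNReal.ofReal_mul (Nat.cast_nonneg _), ENNReal.ofReal_natCast]
    _ ≤ _ := ENNReal.ofReal_le_ofReal (by nlinarith)

end Pool.Agent.MP_418f02_an

end

section

open MeasureTheory Set
open scoped ENNReal RealInnerProductSpace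

namespace Pool.Agent.MP_418f02_an

variable {d : ℕ}

theorem av_congr {j : ℤ} (F : E d → ℝ≥0∞) {x y : E d} (h : ix j x = ix j y) :
    av j F x = av j F y := by
  unfold av cb
  rw [h]

theorem mx_congr {a : ℤ} (b : ℤ) (F : E d → ℝ≥0∞) {x y : E d} (h : ix a x = ix a y) :
    mx a b F x = mx a b F y := by
  unfold mx
  exact biSup_congr fun j hj => av_congr F (ix_mono (Finset.mem_Icc.1 hj).1 h)

theorem mx_meas (a b : ℤ) (F : E d → ℝ≥0∞) : Measurable (mx a b F) :=
  measurable_of_ix (k := a) fun _ _ h => mx_congr b F h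

theorem av_le_mx {a b j : ℤ} (ha : a ≤ j) (hb : j ≤ b) (F : E d → ℝ≥0∞) (x : E d) :
    av j F x ≤ mx a b F x :=
  le_iSup₂ (f := fun j (_ : j ∈ Finset.Icc a b) => av j F x) j (Finset.mem_Icc.2 ⟨ha, hb⟩)

theorem mx_le_iff {a b : ℤ} {F : E d → ℝ≥0∞} {x : E d} {t : ℝ≥0∞} :
    mx a b F x ≤ t ↔ ∀ j, a ≤ j → j ≤ b → av j F x ≤ t := by
  simp [mx, iSup₂_le_iff]

theorem mx_anti {a a' : ℤ} (h : a ≤ a') (b : ℤ) (F : E d → ℝ≥0∞) (x : E d) :
    mx a' b F x ≤ mx a b F x :=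
  mx_le_iff.2 fun _ h1 h2 => av_le_mx (h.trans h1) h2 F x

theorem stop_mx (b : ℤ) (F : E d → ℝ≥0∞) (t : ℝ≥0∞) : Stop fun j => {x | mx j b F x ≤ t} := by
  refine ⟨fun j x y h hx => ?_, fun i j h x hx => (mx_anti h b F x).trans hx⟩
  show mx j b F y ≤ t
  rw [← mx_congr b F h]
  exact hx

lemma weak_vol_ne (j : ℤ) : ENNReal.ofReal (3 ^ d * sz d j) ≠ 0 :=
  (ENNReal.ofReal_pos.2 (mul_pos (by positivity) (sz_pos j))).ne'

lemma weak_vol_eq (j : ℤ) : ENNReal.ofReal (3 ^ d * sz d j) = 3 ^ d * ENNReal.ofReal (sz d j) := by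
  rw [ENNReal.ofReal_mul (by positivity), ENNReal.ofReal_pow (by norm_num)]
  norm_num

lemma weak_nbr {j : ℤ} {F : E d → ℝ≥0∞} {x : E d} {t : ℝ≥0∞} (h : t < av j F x) :
    ∃ Q : Cb d, Q.1 = j ∧ x ∈ big Q ∧ t * ENNReal.ofReal (sz d Q.1) < ∫⁻ y in cube Q, F y := by
  obtain ⟨N, h1, h2, h3, h4⟩ := exists_nbrs (cb j x)
  by_contra hne
  push Not at hne
  refine absurd h (not_lt.2 (ENNReal.div_le_of_le_mul ?_))
  rw [h4, lintegral_biUnion_finset h2 fun c _ => measurableSet_cube c, weak_vol_eq]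
  have h5 : ∀ Q ∈ N, ∫⁻ y in cube Q, F y ≤ t * ENNReal.ofReal (sz d j) := fun Q hQ => by
    have e : Q.1 = j := h3 Q hQ
    obtain ⟨y, hy⟩ := cube_nonempty Q
    have h6 : y ∈ big (cb j x) := h4 ▸ mem_biUnion hQ hy
    have h7 := mem_big_symm.1 h6
    rw [← e, cb_eq_of_mem hy] at h7
    exact e ▸ hne Q e h7
  refine (Finset.sum_le_card_nsmul _ _ _ h5).trans (le_of_eq ?_)
  rw [h1, nsmul_eq_mul]
  push_cast
  ring

theorem mx_weak (a b : ℤ) (F : E d → ℝ≥0∞) (t : ℝ≥0∞) :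
    t * volume {x | t < mx a b F x} ≤ 3 ^ d * ∫⁻ x, F x := by
  obtain ⟨T, h1, h2, h3, -⟩ := exists_maximal
    {Q : Cb d | Q.1 ≤ b ∧ t * ENNReal.ofReal (sz d Q.1) < ∫⁻ y in cube Q, F y} b fun c hc => hc.1
  have hT : T.Countable := Set.to_countable T
  have h4 : {x | t < mx a b F x} ⊆ ⋃ Q ∈ T, big Q := by
    intro x hx
    obtain ⟨j, -, hj, h5⟩ : ∃ j, a ≤ j ∧ j ≤ b ∧ t < av j F x := by
      by_contra hne
      push Not at hne
      exact absurd hx (not_lt.2 (mx_le_iff.2 hne))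
    obtain ⟨Q, e, h6, h7⟩ := weak_nbr h5
    obtain ⟨Q', hQ', h8, h9⟩ := h3 Q ⟨e ▸ hj, h7⟩
    obtain ⟨y, hy⟩ := cube_nonempty Q
    refine mem_biUnion hQ' (big_subset_big h8 (h9 hy) ?_)
    rwa [cb_eq_of_mem hy]
  calc t * volume {x | t < mx a b F x} ≤ t * ∑' Q : T, volume (big (Q : Cb d)) :=
        mul_le_mul_right ((measure_mono h4).trans (measure_biUnion_le _ hT _)) _
    _ ≤ 3 ^ d * ∑' Q : T, ∫⁻ y in cube (Q : Cb d), F y := by
        rw [← ENNReal.tsum_mul_left, ← ENNReal.tsum_mul_left]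
        refine ENNReal.tsum_le_tsum fun Q => ?_
        rw [volume_big, weak_vol_eq, mul_left_comm]
        exact mul_le_mul_right (h1 Q.2).2.le _
    _ ≤ 3 ^ d * ∫⁻ x, F x := by
        rw [← lintegral_biUnion hT (fun c _ => measurableSet_cube c) h2]
        exact mul_le_mul_right (setLIntegral_le_lintegral _ _) _

lemma weak_layer_fin {r : ℝ} (hr : 0 < r) {v : ℝ} (hv : 0 ≤ v) :
    ∫⁻ t in Ioo (0 : ℝ) v, ENNReal.ofReal (r * t ^ (r - 1)) = ENNReal.ofReal v ^ r := by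
  have h1 : IntervalIntegrable (fun t : ℝ => r * t ^ (r - 1)) volume 0 v :=
    (intervalIntegral.intervalIntegrable_rpow' (by linarith)).const_mul r
  rw [← ofReal_integral_eq_lintegral_ofReal
    ((intervalIntegrable_iff_integrableOn_Ioo_of_le hv).1 h1)
    ((ae_restrict_iff' measurableSet_Ioo).2 (Filter.Eventually.of_forall fun t ht =>
      mul_nonneg hr.le (Real.rpow_nonneg ht.1.le _))),
    ← integral_Ioc_eq_integral_Ioo, ← intervalIntegral.integral_of_le hv,
    intervalIntegral.integral_const_mul, integral_rpow (Or.inl (by linarith)),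
    ENNReal.ofReal_rpow_of_nonneg hv hr.le, sub_add_cancel, Real.zero_rpow hr.ne', sub_zero,
    mul_div_cancel₀ _ hr.ne']

lemma weak_layer {r : ℝ} (hr : 0 < r) (u : ℝ≥0∞) :
    ∫⁻ t in Ioi (0 : ℝ), (if ENNReal.ofReal t < u then ENNReal.ofReal (r * t ^ (r - 1)) else 0) =
      u ^ r := by
  rcases eq_or_ne u ∞ with rfl | hu
  · simp only [ENNReal.ofReal_lt_top, if_true, ENNReal.top_rpow_of_pos hr]
    refine ENNReal.eq_top_of_forall_nnreal_le fun c => ?_
    have h := weak_layer_fin hr (v := (c : ℝ) ^ r⁻¹) (by positivity)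
    rw [ENNReal.ofReal_rpow_of_nonneg (by positivity) hr.le,
      Real.rpow_inv_rpow c.coe_nonneg hr.ne', ENNReal.ofReal_coe_nnreal] at h
    rw [← h]
    exact lintegral_mono_set Ioo_subset_Ioi_self
  · obtain ⟨v, hv, rfl⟩ : ∃ v : ℝ, 0 ≤ v ∧ u = ENNReal.ofReal v :=
      ⟨u.toReal, ENNReal.toReal_nonneg, (ENNReal.ofReal_toReal hu).symm⟩
    rw [← weak_layer_fin hr hv, ← lintegral_indicator measurableSet_Ioi,
      ← lintegral_indicator measurableSet_Ioo]
    refine lintegral_congr fun t => ?_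
    by_cases h0 : 0 < t
    · by_cases h1 : t < v
      · rw [indicator_of_mem (mem_Ioi.2 h0), indicator_of_mem (show t ∈ Ioo 0 v from ⟨h0, h1⟩),
          if_pos ((ENNReal.ofReal_lt_ofReal_iff_of_nonneg h0.le).2 h1)]
      · rw [indicator_of_mem (mem_Ioi.2 h0), indicator_of_notMem (fun h : t ∈ Ioo 0 v => h1 h.2),
          if_neg fun h => h1 ((ENNReal.ofReal_lt_ofReal_iff_of_nonneg h0.le).1 h)]
    · rw [indicator_of_notMem (fun h => h0 (mem_Ioi.1 h)),
        indicator_of_notMem fun h : t ∈ Ioo 0 v => h0 h.1]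

lemma weak_meas {G : E d → ℝ≥0∞} (hG : Measurable G) (r : ℝ) :
    Measurable fun z : E d × ℝ =>
      if ENNReal.ofReal z.2 < G z.1 then ENNReal.ofReal (r * z.2 ^ (r - 1)) else 0 :=
  Measurable.ite (measurableSet_lt (by fun_prop) (by fun_prop)) (by fun_prop) measurable_const

lemma weak_split (a b : ℤ) (F : E d → ℝ≥0∞) (τ : ℝ≥0∞) (x : E d) :
    mx a b F x ≤ τ + mx a b (fun y => if 2 * τ < 2 * F y then F y else 0) x := by
  refine mx_le_iff.2 fun j h1 h2 => le_trans ?_ (add_le_add_right (av_le_mx h1 h2 _ x) _)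
  unfold av
  have h3 : ∫⁻ y in big (cb j x), F y ≤ τ * ENNReal.ofReal (3 ^ d * sz d j) +
      ∫⁻ y in big (cb j x), if 2 * τ < 2 * F y then F y else 0 := by
    have e : volume (big (cb j x)) = ENNReal.ofReal (3 ^ d * sz d j) := volume_big _
    rw [← e, ← setLIntegral_const, ← lintegral_add_left measurable_const]
    refine lintegral_mono fun y => ?_
    simp only
    split_ifs with h
    · exact le_add_self
    · rw [add_zero]
      exact (ENNReal.mul_le_mul_iff_right two_ne_zero ENNReal.ofNat_ne_top).1 (not_lt.1 h)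
  refine (ENNReal.div_le_div_right h3 _).trans (le_of_eq ?_)
  rw [ENNReal.add_div, ENNReal.mul_div_cancel_right (weak_vol_ne j) ENNReal.ofReal_ne_top]

theorem mx_strong (a b : ℤ) {F : E d → ℝ≥0∞} (hF : Measurable F) {s : ℝ} (hs : 1 < s) :
    ∫⁻ x, mx a b F x ^ s ≤ ENNReal.ofReal (3 ^ d * 2 ^ s * (s / (s - 1))) * ∫⁻ x, F x ^ s := by
  have hs0 : 0 < s := by linarith
  have hs1 : 0 < s - 1 := by linarith
  have hF2 : Measurable fun x => 2 * F x := hF.const_mul 2
  have key : ∀ t ∈ Ioi (0 : ℝ), ∫⁻ x, (if ENNReal.ofReal t < mx a b F x then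
      ENNReal.ofReal (s * t ^ (s - 1)) else 0) ≤ ENNReal.ofReal (2 * (s / (s - 1))) * 3 ^ d *
      ∫⁻ x, (if ENNReal.ofReal t < 2 * F x then ENNReal.ofReal ((s - 1) * t ^ (s - 1 - 1))
        else 0) * F x := by
    intro t ht
    have ht0 : 0 < t := ht
    have e1 : ENNReal.ofReal t = 2 * ENNReal.ofReal (t / 2) := by
      rw [← ENNReal.ofReal_ofNat, ← ENNReal.ofReal_mul (by norm_num)]
      congr 1
      ring
    have e2 : ENNReal.ofReal (s * t ^ (s - 1)) = ENNReal.ofReal (2 * (s / (s - 1))) *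
        ENNReal.ofReal ((s - 1) * t ^ (s - 1 - 1)) * ENNReal.ofReal (t / 2) := by
      rw [← ENNReal.ofReal_mul (by positivity), ← ENNReal.ofReal_mul (by positivity)]
      congr 1
      rw [Real.rpow_sub_one ht0.ne' (s - 1)]
      field_simp
    have h1 := mx_weak a b (fun y => if 2 * ENNReal.ofReal (t / 2) < 2 * F y then F y else 0)
      (ENNReal.ofReal (t / 2))
    have h2 : {x | ENNReal.ofReal t < mx a b F x} ⊆ {x | ENNReal.ofReal (t / 2) < mx a b
        (fun y => if 2 * ENNReal.ofReal (t / 2) < 2 * F y then F y else 0) x} := by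
      intro x hx
      by_contra h
      refine absurd hx (not_lt.2 ((weak_split a b F (ENNReal.ofReal (t / 2)) x).trans ?_))
      rw [e1, two_mul (ENNReal.ofReal (t / 2))]
      rw [two_mul (ENNReal.ofReal (t / 2))] at h
      exact add_le_add_right (not_lt.1 h) _
    have e3 : ∫⁻ x, (if ENNReal.ofReal t < mx a b F x then ENNReal.ofReal (s * t ^ (s - 1))
        else 0) = ENNReal.ofReal (s * t ^ (s - 1)) *
          volume {x | ENNReal.ofReal t < mx a b F x} := by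
      rw [← lintegral_indicator_const (measurableSet_lt measurable_const (mx_meas a b F))]
      refine lintegral_congr fun x => ?_
      simp [indicator_apply]
    have e4 : ∫⁻ x, (if ENNReal.ofReal t < 2 * F x then
        ENNReal.ofReal ((s - 1) * t ^ (s - 1 - 1)) else 0) * F x =
        ENNReal.ofReal ((s - 1) * t ^ (s - 1 - 1)) *
          ∫⁻ y, if 2 * ENNReal.ofReal (t / 2) < 2 * F y then F y else 0 := by
      rw [← lintegral_const_mul' _ _ ENNReal.ofReal_ne_top, ← e1]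
      refine lintegral_congr fun x => ?_
      split_ifs <;> simp
    rw [e3, e4, e2]
    calc _ ≤ ENNReal.ofReal (2 * (s / (s - 1))) * ENNReal.ofReal ((s - 1) * t ^ (s - 1 - 1)) *
          (3 ^ d * ∫⁻ y, if 2 * ENNReal.ofReal (t / 2) < 2 * F y then F y else 0) := by
          rw [mul_assoc _ (ENNReal.ofReal (t / 2))]
          exact mul_le_mul_right ((mul_le_mul_right (measure_mono h2) _).trans h1) _
      _ = _ := by ring
  have hc : ENNReal.ofReal (2 * (s / (s - 1))) * 3 ^ d ≠ ∞ :=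
    ENNReal.mul_ne_top ENNReal.ofReal_ne_top (ENNReal.pow_ne_top ENNReal.ofNat_ne_top)
  calc ∫⁻ x, mx a b F x ^ s = ∫⁻ x, ∫⁻ t in Ioi (0 : ℝ), (if ENNReal.ofReal t < mx a b F x then
        ENNReal.ofReal (s * t ^ (s - 1)) else 0) := lintegral_congr fun x => (weak_layer hs0 _).symm
    _ = ∫⁻ t in Ioi (0 : ℝ), ∫⁻ x, (if ENNReal.ofReal t < mx a b F x then
        ENNReal.ofReal (s * t ^ (s - 1)) else 0) :=
        lintegral_lintegral_swap (weak_meas (mx_meas a b F) s).aemeasurable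
    _ ≤ ∫⁻ t in Ioi (0 : ℝ), ENNReal.ofReal (2 * (s / (s - 1))) * 3 ^ d *
        ∫⁻ x, (if ENNReal.ofReal t < 2 * F x then ENNReal.ofReal ((s - 1) * t ^ (s - 1 - 1))
          else 0) * F x := setLIntegral_mono' measurableSet_Ioi key
    _ = ENNReal.ofReal (2 * (s / (s - 1))) * 3 ^ d * ∫⁻ x, (2 * F x) ^ (s - 1) * F x := by
        rw [lintegral_const_mul' _ _ hc, ← lintegral_lintegral_swap
          ((weak_meas hF2 (s - 1)).mul (hF.comp measurable_fst)).aemeasurable]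
        congr 1
        refine lintegral_congr fun x => ?_
        rw [← weak_layer hs1, ← lintegral_mul_const]
        exact (weak_meas hF2 (s - 1)).comp (measurable_prodMk_left (x := x))
    _ = _ := by
        have e : ∀ x, (2 * F x) ^ (s - 1) * F x = 2 ^ (s - 1) * F x ^ s := fun x => by
          rw [ENNReal.mul_rpow_of_nonneg _ _ hs1.le, mul_assoc]
          congr 1
          conv_rhs => rw [show s = (s - 1) + 1 by ring]
          rw [ENNReal.rpow_add_of_nonneg _ _ hs1.le zero_le_one, ENNReal.rpow_one]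
        simp only [e]
        rw [lintegral_const_mul' _ _ (ENNReal.rpow_ne_top_of_nonneg hs1.le ENNReal.ofNat_ne_top),
          ← mul_assoc]
        congr 1
        rw [← ENNReal.ofReal_ofNat 3, ← ENNReal.ofReal_ofNat 2,
          ← ENNReal.ofReal_pow (by norm_num), ENNReal.ofReal_rpow_of_pos two_pos,
          ← ENNReal.ofReal_mul (by positivity), ← ENNReal.ofReal_mul (by positivity),
          Real.rpow_sub_one two_ne_zero]
        congr 1
        ring

end Pool.Agent.MP_418f02_an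

end

section

open MeasureTheory Set
open scoped ENNReal RealInnerProductSpace

namespace Pool.Agent.MP_418f02_an

variable {d : ℕ}

/-- directions almost orthogonal to `a` -/
def gamS (a : E d) (ρ : ℝ) : Set (E d) := {ζ | |⟪a, ζ⟫| ≤ ρ * ‖ζ‖}

theorem gam_measT (ρ : ℝ) : MeasurableSet {p : E d × E d | |⟪p.1, p.2⟫| ≤ ρ * ‖p.2‖} := by
  apply IsClosed.measurableSet
  apply isClosed_le
  · exact (continuous_fst.inner continuous_snd).abs
  · exact continuous_const.mul continuous_snd.norm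

theorem gam_measS (a : E d) (ρ : ℝ) : MeasurableSet (gamS a ρ) := by
  apply IsClosed.measurableSet
  apply isClosed_le
  · exact (continuous_const.inner continuous_id).abs
  · exact continuous_const.mul continuous_norm

theorem gam_swap (μ : Measure (E d)) [SFinite μ] (B : Set (E d)) (ρ : ℝ) :
    ∫⁻ y in B, μ (gamS y ρ) = ∫⁻ ζ, volume ({y | |⟪y, ζ⟫| ≤ ρ * ‖ζ‖} ∩ B) ∂μ := by
  have h1 := Measure.prod_apply (μ := (volume : Measure (E d)).restrict B) (ν := μ) (gam_measT ρ)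
  have h2 := Measure.prod_apply_symm (μ := (volume : Measure (E d)).restrict B) (ν := μ)
    (gam_measT ρ)
  have h3 : ∫⁻ y in B, μ (gamS y ρ) = ∫⁻ y in B,
      μ (Prod.mk y ⁻¹' {p : E d × E d | |⟪p.1, p.2⟫| ≤ ρ * ‖p.2‖}) := rfl
  rw [h3, ← h1, h2]
  apply lintegral_congr
  intro ζ
  rw [Measure.restrict_apply]
  · rfl
  · exact measurable_prodMk_right (gam_measT ρ)

theorem gam_unit {ζ : E d} (h : ζ ≠ 0) (y : E d) (ρ : ℝ) :
    |⟪y, ζ⟫| ≤ ρ * ‖ζ‖ ↔ |⟪y, (‖ζ‖⁻¹ : ℝ) • ζ⟫| ≤ ρ := by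
  have hp : 0 < ‖ζ‖ := norm_pos_iff.2 h
  rw [real_inner_smul_right, abs_mul, abs_of_pos (inv_pos.2 hp), inv_mul_le_iff₀ hp, mul_comm]

theorem gam_norm_unit {ζ : E d} (h : ζ ≠ 0) : ‖(‖ζ‖⁻¹ : ℝ) • ζ‖ = 1 := by
  have hp : 0 < ‖ζ‖ := norm_pos_iff.2 h
  rw [norm_smul, Real.norm_eq_abs, abs_of_pos (inv_pos.2 hp), inv_mul_cancel₀ hp.ne']

theorem gam_upper (μ : Measure (E d)) [SFinite μ] (h0 : ∀ᵐ ζ ∂μ, ζ ≠ 0) {e R : ℝ} (he : 0 ≤ e)
    (hR : 0 ≤ R) : ∫⁻ y in {y : E d | ‖y‖ ≤ R}, μ (gamS y e) ≤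
      ENNReal.ofReal (2 * e * (2 * R) ^ (d - 1)) * μ univ := by
  rw [gam_swap, ← lintegral_const]
  apply lintegral_mono_ae
  filter_upwards [h0] with ζ hζ
  refine le_trans (measure_mono ?_) (slab_le (gam_norm_unit hζ) he hR)
  intro y hy
  exact ⟨hy.2, (gam_unit hζ y e).1 hy.1⟩

theorem gam_lower (μ : Measure (E d)) [SFinite μ] (h0 : ∀ᵐ ζ ∂μ, ζ ≠ 0) {e ρ : ℝ} (he : 0 < e)
    (heρ : e ≤ ρ) (a : E d) : ENNReal.ofReal (e * ρ ^ (d - 1) / d ^ d) * μ (gamS a ρ) ≤
      ∫⁻ y in {y : E d | ‖y - a‖ ≤ 2 * ρ}, μ (gamS y e) := by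
  rw [gam_swap, ← lintegral_indicator_const (gam_measS a ρ)]
  apply lintegral_mono_ae
  filter_upwards [h0] with ζ hζ
  by_cases hs : ζ ∈ gamS a ρ
  · rw [indicator_of_mem hs]
    refine le_trans (slab_ge (gam_norm_unit hζ) he heρ ((gam_unit hζ a ρ).1 hs))
      (measure_mono ?_)
    intro y hy
    exact ⟨(gam_unit hζ y e).2 hy.2, hy.1⟩
  · rw [indicator_of_notMem hs]
    exact zero_le

theorem gam_level {x : ℝ} (hx : 0 ≤ x) : ∃ n : ℕ, x ≤ 2 ^ n ∧ (1 + x)⁻¹ ^ 2 ≤ 4 / 4 ^ n := by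
  by_cases h : x ≤ 1
  · refine ⟨0, by simpa using h, ?_⟩
    have h1 : (1 + x)⁻¹ ≤ 1 := inv_le_one_of_one_le₀ (by linarith)
    have h2 : 0 ≤ (1 + x)⁻¹ := by positivity
    have : (1 + x)⁻¹ ^ 2 ≤ 1 := pow_le_one₀ h2 h1
    norm_num at this ⊢
    linarith
  · obtain ⟨n, h1, h2⟩ := exists_nat_pow_near (le_of_lt (not_le.1 h)) (one_lt_two (α := ℝ))
    refine ⟨n + 1, h2.le, ?_⟩
    have hp : (0 : ℝ) < 2 ^ n := by positivity
    have h3 : (1 + x)⁻¹ ≤ ((2 : ℝ) ^ n)⁻¹ := inv_anti₀ hp (by linarith)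
    have h4 : (1 + x)⁻¹ ^ 2 ≤ (((2 : ℝ) ^ n)⁻¹) ^ 2 := pow_le_pow_left₀ (by positivity) h3 2
    refine h4.trans (le_of_eq ?_)
    have h5 : (4 : ℝ) ^ n = (2 ^ n) ^ 2 := by
      rw [← pow_mul, mul_comm, pow_mul]; norm_num
    rw [pow_succ (4 : ℝ) n, h5]
    field_simp

theorem gam_point (a ζ : E d) {e : ℝ} (he : 0 < e) :
    ENNReal.ofReal ((1 + |⟪a, ζ⟫| / (‖ζ‖ * e))⁻¹ ^ 2) ≤
      ∑' n : ℕ, (gamS a (2 ^ n * e)).indicator (fun _ => ENNReal.ofReal (4 / 4 ^ n)) ζ := by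
  obtain ⟨n, h1, h2⟩ := gam_level (x := |⟪a, ζ⟫| / (‖ζ‖ * e)) (by positivity)
  refine le_trans ?_ (ENNReal.le_tsum n)
  have hm : ζ ∈ gamS a (2 ^ n * e) := by
    by_cases hζ : ζ = 0
    · simp [gamS, hζ]
    · have hp : 0 < ‖ζ‖ * e := mul_pos (norm_pos_iff.2 hζ) he
      rw [div_le_iff₀ hp] at h1
      show |⟪a, ζ⟫| ≤ 2 ^ n * e * ‖ζ‖
      calc _ ≤ _ := h1
        _ = _ := by ring
  rw [indicator_of_mem hm]
  exact ENNReal.ofReal_le_ofReal h2

/-- the Fourier mass measure -/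
noncomputable def gamM (k : E d → ℝ) : Measure (E d) :=
  volume.withDensity fun ζ => ENNReal.ofReal (‖FT k ζ‖ ^ 2)

theorem gam_dens {k : E d → ℝ} (h : IsKer k) :
    Measurable fun ζ => ENNReal.ofReal (‖FT k ζ‖ ^ 2) :=
  (((FT_cont h.nice).norm.pow 2).measurable).ennreal_ofReal

theorem gamM_univ {k : E d → ℝ} (h : IsKer k) : gamM k univ ≤ ENNReal.ofReal (4 ^ d) := by
  obtain ⟨h1, h2⟩ := planch h.nice
  rw [gamM, withDensity_apply _ MeasurableSet.univ, Measure.restrict_univ,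
    ← ofReal_integral_eq_lintegral_ofReal h1 (Filter.Eventually.of_forall fun _ => by positivity),
    h2]
  exact ENNReal.ofReal_le_ofReal h.sq_le

theorem gamM_zero (hd : 1 ≤ d) (k : E d → ℝ) : ∀ᵐ ζ ∂gamM k, ζ ≠ 0 := by
  have : Nonempty (Fin d) := ⟨⟨0, hd⟩⟩
  have h : ∀ᵐ ζ ∂(volume : Measure (E d)), ζ ≠ 0 := by
    rw [ae_iff]
    simp
  exact (withDensity_absolutelyContinuous _ _).ae_le h

theorem gam_le_sum {k : E d → ℝ} (h : IsKer k) (a : E d) {e : ℝ} (he : 0 < e) :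
    ENNReal.ofReal (Gam k a e) ≤
      ∑' n : ℕ, ENNReal.ofReal (4 / 4 ^ n) * gamM k (gamS a (2 ^ n * e)) := by
  have h1 : ENNReal.ofReal (Gam k a e) ≤ ∫⁻ ζ, ENNReal.ofReal (‖FT k ζ‖ ^ 2) *
      ∑' n : ℕ, (gamS a (2 ^ n * e)).indicator (fun _ => ENNReal.ofReal (4 / 4 ^ n)) ζ := by
    calc ENNReal.ofReal (Gam k a e) ≤ ‖Gam k a e‖ₑ := by
          rw [Real.enorm_eq_ofReal_abs]
          exact ENNReal.ofReal_le_ofReal (le_abs_self _)
      _ ≤ ∫⁻ ζ, ‖‖FT k ζ‖ ^ 2 * (1 + |⟪a, ζ⟫| / (‖ζ‖ * e))⁻¹ ^ 2‖ₑ :=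
          enorm_integral_le_lintegral_enorm _
      _ ≤ _ := by
          apply lintegral_mono
          intro ζ
          dsimp only
          rw [Real.enorm_eq_ofReal (by positivity), ENNReal.ofReal_mul (by positivity)]
          exact mul_le_mul_right (gam_point a ζ he) _
  refine h1.trans (le_of_eq ?_)
  have hm : ∀ n : ℕ, Measurable
      ((gamS a (2 ^ n * e)).indicator (fun _ => ENNReal.ofReal (4 / 4 ^ n))) :=
    fun n => measurable_const.indicator (gam_measS _ _)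
  have h2 := lintegral_withDensity_eq_lintegral_mul (volume : Measure (E d)) (gam_dens h)
    (Measurable.ennreal_tsum hm)
  have h3 : ∫⁻ ζ, ENNReal.ofReal (‖FT k ζ‖ ^ 2) *
      ∑' n : ℕ, (gamS a (2 ^ n * e)).indicator (fun _ => ENNReal.ofReal (4 / 4 ^ n)) ζ =
      ∫⁻ ζ, ∑' n : ℕ, (gamS a (2 ^ n * e)).indicator (fun _ => ENNReal.ofReal (4 / 4 ^ n)) ζ
        ∂gamM k := h2.symm
  rw [h3, lintegral_tsum fun n => (hm n).aemeasurable]
  congr 1
  funext n
  rw [lintegral_indicator_const (gam_measS _ _)]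

theorem gam_pick {k : E d → ℝ} (h : IsKer k) (a : E d) {e s : ℝ} (he : 0 < e) (hs : 0 < s)
    (hG : s * e < Gam k a e) :
    ∃ ρ, e ≤ ρ ∧ ENNReal.ofReal (s / 8 * ρ) < gamM k (gamS a ρ) := by
  by_contra hc
  have hc' : ∀ ρ, e ≤ ρ → gamM k (gamS a ρ) ≤ ENNReal.ofReal (s / 8 * ρ) := by
    intro ρ hρ
    by_contra h'
    exact hc ⟨ρ, hρ, not_le.1 h'⟩
  have h1 := gam_le_sum h a he
  have h2 : ∑' n : ℕ, ENNReal.ofReal (4 / 4 ^ n) * gamM k (gamS a (2 ^ n * e)) ≤
      ∑' n : ℕ, ENNReal.ofReal (s * e / 2 / 2 ^ n) := by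
    apply ENNReal.tsum_le_tsum
    intro n
    have h1n : (1 : ℝ) ≤ 2 ^ n := one_le_pow₀ one_le_two
    refine (mul_le_mul_right (hc' _ (by nlinarith)) _).trans (le_of_eq ?_)
    rw [← ENNReal.ofReal_mul (by positivity)]
    congr 1
    have h5 : (4 : ℝ) ^ n = 2 ^ n * 2 ^ n := by
      rw [← mul_pow]; norm_num
    rw [h5]
    field_simp
    norm_num
  have h3 : ∑' n : ℕ, ENNReal.ofReal (s * e / 2 / 2 ^ n) = ENNReal.ofReal (s * e) := by
    rw [← ENNReal.ofReal_tsum_of_nonneg (fun n => by positivity) (summable_geometric_two' _),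
      tsum_geometric_two']
  have h4 := h1.trans (h2.trans h3.le)
  rw [ENNReal.ofReal_le_ofReal_iff (by positivity)] at h4
  linarith

theorem gam_av (hd : 1 ≤ d) (μ : Measure (E d)) [SFinite μ] (h0 : ∀ᵐ ζ ∂μ, ζ ≠ 0)
    {e ρ s R : ℝ} (he : 0 < e) (heρ : e ≤ ρ) (hs : 0 < s) (a : E d) (hR : ‖a‖ + 2 * ρ ≤ R)
    (hm : ENNReal.ofReal (s * ρ) ≤ μ (gamS a ρ)) {j : ℤ} (h1 : 2 * ρ ≤ 2 ^ j)
    (h2 : 2 ^ j ≤ 4 * ρ) : ENNReal.ofReal (s * e / (d ^ d * 12 ^ d)) ≤
      av j ({y : E d | ‖y‖ ≤ R}.indicator fun y => μ (gamS y e)) a := by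
  have hρ : 0 < ρ := he.trans_le heρ
  have hdp : (0 : ℝ) < d := by exact_mod_cast hd
  have hsz : 0 < 3 ^ d * sz d j := mul_pos (by positivity) (sz_pos j)
  have hB : MeasurableSet {y : E d | ‖y - a‖ ≤ 2 * ρ} :=
    (isClosed_le (continuous_id.sub continuous_const).norm continuous_const).measurableSet
  have hl : ∫⁻ y in {y : E d | ‖y - a‖ ≤ 2 * ρ}, μ (gamS y e) ≤
      ∫⁻ y in big (cb j a), ({y : E d | ‖y‖ ≤ R}.indicator fun y => μ (gamS y e)) y := by
    calc _ = ∫⁻ y in {y : E d | ‖y - a‖ ≤ 2 * ρ},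
          ({y : E d | ‖y‖ ≤ R}.indicator fun y => μ (gamS y e)) y := by
          apply setLIntegral_congr_fun hB
          intro y hy
          have hy' : ‖y - a‖ ≤ 2 * ρ := hy
          have : y ∈ {y : E d | ‖y‖ ≤ R} := by
            have h3 : ‖y‖ ≤ ‖a‖ + ‖y - a‖ := by
              calc ‖y‖ = ‖a + (y - a)‖ := by simp
                _ ≤ _ := norm_add_le _ _
            show ‖y‖ ≤ R
            linarith
          simp only [indicator_of_mem this]
      _ ≤ _ := by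
          apply lintegral_mono_set
          intro y hy
          have hy' : ‖y - a‖ ≤ 2 * ρ := hy
          apply mem_big_of_norm
          rw [norm_sub_rev]
          linarith
  have hl2 := (mul_le_mul_right hm _).trans ((gam_lower μ h0 he heρ a).trans hl)
  rw [av, ENNReal.le_div_iff_mul_le (Or.inl (by simpa using hsz)) (Or.inl ENNReal.ofReal_ne_top)]
  refine le_trans ?_ hl2
  rw [← ENNReal.ofReal_mul (by positivity), ← ENNReal.ofReal_mul (by positivity)]
  apply ENNReal.ofReal_le_ofReal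
  have h3 : sz d j ≤ (4 * ρ) ^ d := pow_le_pow_left₀ (by positivity) h2 d
  have h4 : ρ ^ d = ρ ^ (d - 1) * ρ := by
    rw [← pow_succ, Nat.sub_add_cancel hd]
  have h5 : (12 : ℝ) ^ d = 3 ^ d * 4 ^ d := by
    rw [← mul_pow]; norm_num
  calc s * e / (d ^ d * 12 ^ d) * (3 ^ d * sz d j)
      ≤ s * e / (d ^ d * 12 ^ d) * (3 ^ d * (4 * ρ) ^ d) := by gcongr
    _ = e * ρ ^ (d - 1) / d ^ d * (s * ρ) := by
      rw [mul_pow, h4, h5]
      field_simp

theorem gam_bad (hd : 1 ≤ d) : ∃ C : ℝ, 0 < C ∧ ∀ k : E d → ℝ, IsKer k → ∀ l t e₀ : ℝ,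
    0 < l → 0 < t → 0 < e₀ →
    volume {a : E d | ‖a‖ ≤ (8 + 4 * d) * l ∧ ∃ e, e₀ ≤ e ∧ t * e / l < Gam k a e} ≤
      ENNReal.ofReal (C * l ^ d / t) := by
  have hdp : (0 : ℝ) < d := by exact_mod_cast hd
  set C1 : ℝ := (2 * (8 + 4 * d)) ^ d * (8 * 4 ^ d) with hC1
  set C2 : ℝ := 3 ^ d * (2 * (2 * (10 + 4 * d)) ^ (d - 1) * 4 ^ d) * (16 * (d ^ d * 12 ^ d))
    with hC2
  have hC1p : 0 < C1 := by positivity
  have hC2p : 0 < C2 := by positivity
  refine ⟨C1 + C2, by positivity, ?_⟩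
  intro k hk l t e₀ hl ht he₀
  by_cases hts : t ≤ 8 * 4 ^ d
  · have h1 := volume_norm_le (0 : E d) (R := (8 + 4 * d) * l) (by positivity)
    refine le_trans (measure_mono ?_) (h1.trans (ENNReal.ofReal_le_ofReal ?_))
    · intro a ha
      simpa using ha.1
    · rw [le_div_iff₀ ht]
      calc (2 * ((8 + 4 * d) * l)) ^ d * t ≤ (2 * ((8 + 4 * d) * l)) ^ d * (8 * 4 ^ d) := by
            gcongr
        _ = C1 * l ^ d := by
            rw [hC1, ← mul_assoc 2 _ l, mul_pow _ l]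
            ring
        _ ≤ (C1 + C2) * l ^ d := by
            gcongr
            linarith
  · have hts' : 8 * 4 ^ d < t := not_le.1 hts
    have : IsFiniteMeasure (gamM k) := ⟨(gamM_univ hk).trans_lt ENNReal.ofReal_lt_top⟩
    obtain ⟨a0, ha0, -⟩ := exists_mem_Ico_zpow (x := 2 * e₀) (y := (2 : ℝ)) (by positivity)
      one_lt_two
    obtain ⟨b0, -, hb0⟩ := exists_mem_Ico_zpow (x := 4 * l) (y := (2 : ℝ)) (by positivity)
      one_lt_two
    set R : ℝ := (10 + 4 * d) * l with hR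
    set φ : E d → ℝ≥0∞ := {y : E d | ‖y‖ ≤ R}.indicator fun y => gamM k (gamS y e₀) with hφ
    set τ : ℝ := t / l / 8 * e₀ / (d ^ d * 12 ^ d) / 2 with hτ
    have hτp : 0 < τ := by positivity
    have hsub : {a : E d | ‖a‖ ≤ (8 + 4 * d) * l ∧ ∃ e, e₀ ≤ e ∧ t * e / l < Gam k a e} ⊆
        {a | ENNReal.ofReal τ < mx a0 (b0 + 1) φ a} := by
      rintro a ⟨ha, e, he, hG⟩
      have hep : 0 < e := he₀.trans_le he
      have hG' : t / l * e < Gam k a e := by
        rw [div_mul_eq_mul_div]; exact hG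
      obtain ⟨ρ, heρ, hρ⟩ := gam_pick hk a hep (by positivity) hG'
      have hρp : 0 < ρ := hep.trans_le heρ
      have hρl : ρ ≤ l := by
        have h1 := hρ.trans_le ((measure_mono (subset_univ _)).trans (gamM_univ hk))
        rw [ENNReal.ofReal_lt_ofReal_iff (by positivity)] at h1
        by_contra hc
        have hc' : l < ρ := not_le.1 hc
        have h2 : t / 8 ≤ t / l / 8 * ρ := by
          calc t / 8 = t / l / 8 * l := by field_simp
            _ ≤ _ := by gcongr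
        linarith
      obtain ⟨n, hn1, hn2⟩ := exists_mem_Ioc_zpow (x := 2 * ρ) (y := (2 : ℝ)) (by positivity)
        one_lt_two
      have hn3 : (2 : ℝ) ^ (n + 1) ≤ 4 * ρ := by
        rw [zpow_add_one₀ two_ne_zero]; linarith
      have hav := gam_av hd (gamM k) (gamM_zero hd k) he₀ (he.trans heρ)
        (s := t / l / 8) (R := R) (by positivity) a (by rw [hR]; nlinarith) hρ.le hn2 hn3
      have hj1 : a0 ≤ n + 1 := by
        rw [← zpow_le_zpow_iff_right₀ (one_lt_two (α := ℝ))]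
        linarith
      have hj2 : n + 1 ≤ b0 + 1 := by
        rw [← zpow_le_zpow_iff_right₀ (one_lt_two (α := ℝ))]
        linarith
      refine lt_of_lt_of_le ?_ (hav.trans (av_le_mx hj1 hj2 φ a))
      rw [ENNReal.ofReal_lt_ofReal_iff (by positivity), hτ]
      exact half_lt_self (by positivity)
    have hB : MeasurableSet {y : E d | ‖y‖ ≤ R} :=
      (isClosed_le continuous_norm continuous_const).measurableSet
    have hint : ∫⁻ y, φ y ≤ ENNReal.ofReal (2 * e₀ * (2 * R) ^ (d - 1) * 4 ^ d) := by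
      rw [hφ, lintegral_indicator hB, ENNReal.ofReal_mul (by positivity)]
      exact (gam_upper (gamM k) (gamM_zero hd k) he₀.le (by positivity)).trans
        (mul_le_mul_right (gamM_univ hk) _)
    have hw := (mx_weak a0 (b0 + 1) φ (ENNReal.ofReal τ)).trans (mul_le_mul_right hint _)
    refine (measure_mono hsub).trans ?_
    have h3 : (3 : ℝ≥0∞) ^ d = ENNReal.ofReal (3 ^ d) := by
      rw [ENNReal.ofReal_pow (by norm_num)]; simp
    rw [h3, ← ENNReal.ofReal_mul (by positivity), mul_comm,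
      ← ENNReal.le_div_iff_mul_le (Or.inl (by simpa using hτp)) (Or.inl ENNReal.ofReal_ne_top),
      ← ENNReal.ofReal_div_of_pos hτp] at hw
    refine hw.trans (ENNReal.ofReal_le_ofReal ?_)
    have h4 : l ^ d = l ^ (d - 1) * l := by
      rw [← pow_succ, Nat.sub_add_cancel hd]
    calc 3 ^ d * (2 * e₀ * (2 * R) ^ (d - 1) * 4 ^ d) / τ = C2 * l ^ d / t := by
          rw [hτ, hC2, hR, h4, ← mul_assoc 2 _ l, mul_pow _ l]
          field_simp
          norm_num
      _ ≤ (C1 + C2) * l ^ d / t := by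
          gcongr
          linarith

end Pool.Agent.MP_418f02_an

end

section

open MeasureTheory Set
open scoped ENNReal RealInnerProductSpace

namespace Pool.Agent.MP_418f02_an

variable {d : ℕ}

open scoped Classical

theorem Atoms.subset {P P' : Finset (Cb d)} {b : Cb d → E d → ℝ} {c : ℝ} (h : Atoms P b c)
    (hP : P' ⊆ P) : Atoms P' b c := by
  exact ⟨h.dj.subset hP, fun Q hQ => h.nice Q (hP hQ), fun Q hQ => h.supp Q (hP hQ),
    fun Q hQ => h.zero Q (hP hQ), fun Q hQ => h.mass Q (hP hQ)⟩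

theorem Atoms.nice_Bl {P : Finset (Cb d)} {b : Cb d → E d → ℝ} {c : ℝ} (h : Atoms P b c)
    (e : ℤ) : Nice (Bl P b e) := by
  exact nice_sum (fun Q hQ => h.nice Q (Finset.mem_filter.1 hQ).1)

theorem Atoms.nice_Bw {P : Finset (Cb d)} {b : Cb d → E d → ℝ} {c : ℝ} (h : Atoms P b c)
    (a e : ℤ) : Nice (Bw P b a e) := by
  exact nice_sum (fun Q hQ => h.nice Q (Finset.mem_filter.1 hQ).1)

theorem Bl_split (P : Finset (Cb d)) (b : Cb d → E d → ℝ) {a e : ℤ} (h : a ≤ e) (x : E d) :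
    Bl P b e x = Bw P b a e x + Bl P b a x := by
  unfold Bl Bw
  simp only [Finset.sum_filter]
  rw [← Finset.sum_add_distrib]
  refine Finset.sum_congr rfl (fun Q _ => ?_)
  by_cases h1 : Q.1 < a
  · rw [if_pos (by omega), if_neg (by omega), if_pos h1, zero_add]
  · by_cases h2 : Q.1 < e
    · rw [if_pos h2, if_pos ⟨by omega, h2⟩, if_neg h1, add_zero]
    · rw [if_neg h2, if_neg (by omega), if_neg h1, add_zero]

theorem Atoms.abs_sum_le {P : Finset (Cb d)} {b : Cb d → E d → ℝ} {c M : ℝ} (h : Atoms P b c)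
    (hM : 0 ≤ M) (hb : ∀ Q ∈ P, ∀ x, |b Q x| ≤ M) (x : E d) : |∑ Q ∈ P, b Q x| ≤ M := by
  by_cases hx : ∃ Q ∈ P, x ∈ cube Q
  · obtain ⟨Q, hQ, hxQ⟩ := hx
    rw [Finset.sum_eq_single Q]
    · exact hb Q hQ x
    · intro Q' hQ' hne
      refine h.supp Q' hQ' x (fun hx' => ?_)
      exact Set.disjoint_left.1 (h.dj hQ' hQ hne) hx' hxQ
    · intro hn
      exact absurd hQ hn
  · push Not at hx
    rw [Finset.sum_eq_zero (fun Q hQ => h.supp Q hQ x (hx Q hQ)), abs_zero]
    exact hM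

theorem Atoms.mass_lm {P : Finset (Cb d)} {b : Cb d → E d → ℝ} {c : ℝ} (h : Atoms P b c)
    (hc : 0 ≤ c) {j : ℤ} {S : Set (E d)} (hS : LM j S) (hP : ∀ Q ∈ P, Q.1 ≤ j) :
    ∫ x in S, |∑ Q ∈ P, b Q x| ≤ c * ∑ Q ∈ P with (cube Q ∩ S).Nonempty, sz d Q.1 := by
  have _ := hc
  have _ := hP
  have hi : ∀ Q ∈ P, Integrable (fun x => |b Q x|) := fun Q hQ => (h.nice Q hQ).abs.integrable
  calc ∫ x in S, |∑ Q ∈ P, b Q x| ≤ ∫ x in S, ∑ Q ∈ P, |b Q x| := by
        refine integral_mono (nice_sum h.nice).abs.integrable.integrableOn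
          (integrable_finset_sum _ (fun Q hQ => (hi Q hQ).integrableOn)) (fun x => ?_)
        exact Finset.abs_sum_le_sum_abs _ _
    _ = ∑ Q ∈ P, ∫ x in S, |b Q x| :=
        integral_finset_sum _ (fun Q hQ => (hi Q hQ).integrableOn)
    _ ≤ ∑ Q ∈ P, if (cube Q ∩ S).Nonempty then c * sz d Q.1 else 0 := by
        refine Finset.sum_le_sum (fun Q hQ => ?_)
        split_ifs with hn
        · refine le_trans ?_ (h.mass Q hQ)
          exact setIntegral_le_integral (hi Q hQ) (Filter.Eventually.of_forall fun x => abs_nonneg _)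
        · refine le_of_eq (setIntegral_eq_zero_of_forall_eq_zero (fun x hx => ?_))
          rw [h.supp Q hQ x (fun hx' => hn ⟨x, hx', hx⟩), abs_zero]
    _ = c * ∑ Q ∈ P with (cube Q ∩ S).Nonempty, sz d Q.1 := by
        rw [Finset.mul_sum, Finset.sum_filter]

theorem atom_mass {P : Finset (Cb d)} {b : Cb d → E d → ℝ} {c : ℝ} (h : Atoms P b c)
    (hc : 0 ≤ c) {e j : ℤ} {S : Set (E d)} (hS : LM j S) (he : e ≤ j) {v : ℝ} (hv : 0 ≤ v)
    (hvol : volume S ≤ ENNReal.ofReal v) : ∫ x in S, |Bl P b e x| ≤ c * v := by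
  have hsub : P.filter (fun Q => Q.1 < e) ⊆ P := Finset.filter_subset _ _
  have h1 := (h.subset hsub).mass_lm hc hS (fun Q hQ => by
    have := (Finset.mem_filter.1 hQ).2
    omega)
  refine h1.trans (mul_le_mul_of_nonneg_left ?_ hc)
  refine (h.dj.subset ((Finset.filter_subset _ _).trans hsub)).sum_le hv hvol (fun Q hQ => ?_)
  obtain ⟨hQ1, x, hx1, hx2⟩ := Finset.mem_filter.1 hQ
  have := (Finset.mem_filter.1 hQ1).2
  exact hS.cube_subset (by omega) hx1 hx2

theorem Atoms.mass_Bl {P : Finset (Cb d)} {b : Cb d → E d → ℝ} {c : ℝ} (h : Atoms P b c)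
    (hc : 0 ≤ c) {e : ℤ} {Q : Cb d} (he : e ≤ Q.1) : ∫ x in cube Q, |Bl P b e x| ≤ c * sz d Q.1 := by
  exact atom_mass h hc (lm_cube Q) he (sz_pos _).le (volume_cube Q).le

theorem Atoms.cv_Bl_le {P : Finset (Cb d)} {b : Cb d → E d → ℝ} {c : ℝ} (h : Atoms P b c)
    (hc : 0 ≤ c) {k : E d → ℝ} (hk : IsKer k) {e j : ℤ} (he : e ≤ j) (x : E d) :
    |cv k j (Bl P b e) x| ≤ 12 ^ d * c := by
  have h1 := cv_le hk (h.nice_Bl e) j x
  have h0 := sz_pos (d := d) j
  have h2 : ∫ y in big (cb j x), |Bl P b e y| ≤ c * (3 ^ d * sz d j) :=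
    atom_mass h hc (lm_big (cb j x)) he (by positivity) (volume_big (cb j x)).le
  refine h1.trans ((mul_le_mul_of_nonneg_left h2 (by positivity)).trans (le_of_eq ?_))
  rw [show (12 : ℝ) = 4 * 3 by norm_num, mul_pow]
  field_simp

theorem Atoms.cv_eq_Bl {P : Finset (Cb d)} {b : Cb d → E d → ℝ} {c : ℝ} (h : Atoms P b c)
    {k : E d → ℝ} (hk : IsKer k) {j : ℤ} {x : E d}
    (hx : ∀ Q ∈ P, (cube Q ∩ big (cb j x)).Nonempty → Q.1 < j) :
    cv k j (fun y => ∑ Q ∈ P, b Q y) x = cv k j (Bl P b j) x := by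
  refine cv_congr hk (fun y hy => ?_)
  unfold Bl
  rw [Finset.sum_filter]
  refine Finset.sum_congr rfl (fun Q hQ => ?_)
  split_ifs with hj
  · rfl
  · exact h.supp Q hQ y (fun hy' => hj (hx Q hQ ⟨y, hy', hy⟩))

theorem cz {g : E d → ℝ} (hg : Nice g) {W : Cb d} {j₀ : ℤ} {μ : ℝ} (hj : j₀ ≤ W.1) (hμ : 0 < μ)
    (hW : ∫ x in big W, |g x| ≤ μ * (3 ^ d * sz d W.1)) :
    ∃ P : Finset (Cb d), Dj P ∧ big W = ⋃ Q ∈ P, cube Q ∧
      (∀ Q ∈ P, ∫ x in cube Q, |g x| ≤ 6 ^ d * μ * sz d Q.1) ∧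
      ∀ Q ∈ P, Q.1 < W.1 ∧ (j₀ ≤ Q.1 → μ * (3 ^ d * sz d Q.1) < ∫ x in cube Q, |g x|) := by
  have hi : Integrable (fun x => |g x|) := hg.abs.integrable
  have hmono : ∀ {A B : Set (E d)}, A ⊆ B → ∫ x in A, |g x| ≤ ∫ x in B, |g x| := fun hAB =>
    setIntegral_mono_set hi.integrableOn (Filter.Eventually.of_forall fun x => abs_nonneg _)
      hAB.eventuallyLE
  let S : Set (Cb d) := {c | (j₀ - 1 ≤ c.1 ∧ c.1 ≤ W.1 ∧ cube c ⊆ big W) ∧
    (c.1 = j₀ - 1 ∨ μ * (3 ^ d * sz d c.1) < ∫ x in cube c, |g x|)}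
  have hSf : S.Finite := (finite_sub (j₀ - 1) W).subset (fun c hc => hc.1)
  obtain ⟨T, hTS, hTd, hT1, hT2⟩ := exists_maximal S W.1 (fun c hc => hc.1.2.1)
  have hTf : T.Finite := hSf.subset hTS
  have hlt : ∀ c ∈ S, c.1 < W.1 := by
    intro c hc
    refine lt_of_le_of_ne hc.1.2.1 (fun he => ?_)
    rcases hc.2 with h1 | h1
    · omega
    · rw [he] at h1
      exact absurd (h1.trans_le ((hmono hc.1.2.2).trans hW)) (lt_irrefl _)
  refine ⟨hTf.toFinset, ?_, ?_, ?_, ?_⟩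
  · unfold Dj
    rw [hTf.coe_toFinset]
    exact hTd
  · ext x
    simp only [mem_iUnion, hTf.mem_toFinset, exists_prop]
    constructor
    · intro hx
      have h1 : cb (j₀ - 1) x ∈ S := by
        refine ⟨⟨le_rfl, by simp only [cb]; omega, ?_⟩, Or.inl rfl⟩
        exact (lm_big W).cube_subset (by simp only [cb]; omega) (mem_cube_cb _ x) hx
      obtain ⟨c', hc', -, h2⟩ := hT1 _ h1
      exact ⟨c', hc', h2 (mem_cube_cb _ x)⟩
    · rintro ⟨Q, hQ, hx⟩
      exact (hTS hQ).1.2.2 hx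
  · intro Q hQ
    rw [hTf.mem_toFinset] at hQ
    have hQS := hTS hQ
    have hQW := hlt Q hQS
    obtain ⟨x, hx⟩ := cube_nonempty Q
    have hl : (cb (Q.1 + 1) x).1 = Q.1 + 1 := rfl
    have hsub : cube Q ⊆ cube (cb (Q.1 + 1) x) :=
      (lm_cube (cb (Q.1 + 1) x)).cube_subset (by omega) hx (mem_cube_cb _ x)
    have hin : cube (cb (Q.1 + 1) x) ⊆ big W :=
      (lm_big W).cube_subset (by omega) (mem_cube_cb _ x) (hQS.1.2.2 hx)
    have hle : ∫ y in cube (cb (Q.1 + 1) x), |g y| ≤ μ * (3 ^ d * sz d (Q.1 + 1)) := by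
      by_contra hc
      have h1 : cb (Q.1 + 1) x ∈ S :=
        ⟨⟨by have := hQS.1.1; omega, by omega, hin⟩, Or.inr (not_le.1 hc)⟩
      have h2 := congrArg Prod.fst (hT2 Q hQ _ h1 (by omega) hsub)
      omega
    refine (hmono hsub).trans (hle.trans (le_of_eq ?_))
    have h3 := sz_add (d := d) Q.1 1
    rw [Nat.cast_one] at h3
    rw [h3, show (6 : ℝ) = 3 * 2 ^ 1 by norm_num, mul_pow]
    ring
  · intro Q hQ
    rw [hTf.mem_toFinset] at hQ
    have hQS := hTS hQ
    exact ⟨hlt Q hQS, fun h1 => hQS.2.resolve_left (by omega)⟩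

end Pool.Agent.MP_418f02_an

end

section

open MeasureTheory Set
open scoped ENNReal RealInnerProductSpace

namespace Pool.Agent.MP_418f02_an

variable {d : ℕ}

theorem mom_iff {Y : E d → ℝ} {Q : Cb d} {m B : ℝ} (hm : 0 < m) (hB : 0 ≤ B) :
    Mom Y Q m B ↔ (∫⁻ x in cube Q, ENNReal.ofReal |Y x| ^ m) ^ (1 / m) ≤
      ENNReal.ofReal (B * sz d Q.1 ^ (1 / m)) := by
  have hs := (sz_pos (d := d) Q.1).le
  have e : ENNReal.ofReal (B * sz d Q.1 ^ (1 / m)) =
      ENNReal.ofReal (B ^ m * sz d Q.1) ^ (1 / m) := by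
    rw [ENNReal.ofReal_rpow_of_nonneg (by positivity) (by positivity),
      Real.mul_rpow (by positivity) hs, ← Real.rpow_mul hB, mul_one_div_cancel hm.ne',
      Real.rpow_one]
  rw [e, ENNReal.rpow_le_rpow_iff (by positivity)]
  rfl

theorem Mom.mono {Y Z : E d → ℝ} {Q : Cb d} {m B B' : ℝ} (h : Mom Y Q m B) (hm : 0 ≤ m)
    (hB : 0 ≤ B) (hB' : B ≤ B') (hZ : ∀ x ∈ cube Q, |Z x| ≤ |Y x|) : Mom Z Q m B' := by
  have hs := (sz_pos (d := d) Q.1).le
  refine (setLIntegral_mono' (measurableSet_cube Q) fun x hx =>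
    ENNReal.rpow_le_rpow (ENNReal.ofReal_le_ofReal (hZ x hx)) hm).trans (le_trans h ?_)
  exact ENNReal.ofReal_le_ofReal (mul_le_mul_of_nonneg_right (Real.rpow_le_rpow hB hB' hm) hs)

theorem Mom.const_mul {Y : E d → ℝ} {Q : Cb d} {m B : ℝ} (h : Mom Y Q m B) (hm : 0 ≤ m)
    (hB : 0 ≤ B) {c : ℝ} (hc : 0 ≤ c) : Mom (fun x => c * Y x) Q m (c * B) := by
  have e : ∀ x, ENNReal.ofReal |c * Y x| ^ m =
      ENNReal.ofReal (c ^ m) * ENNReal.ofReal |Y x| ^ m := fun x => by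
    rw [abs_mul, abs_of_nonneg hc, ENNReal.ofReal_mul hc, ENNReal.mul_rpow_of_nonneg _ _ hm,
      ENNReal.ofReal_rpow_of_nonneg hc hm]
  unfold Mom
  simp only [e]
  rw [lintegral_const_mul' _ _ ENNReal.ofReal_ne_top, Real.mul_rpow hc hB, mul_assoc,
    ENNReal.ofReal_mul (by positivity)]
  exact mul_le_mul_right h _

theorem Mom.add {Y Z : E d → ℝ} {Q : Cb d} {m B B' : ℝ} (h : Mom Y Q m B) (h' : Mom Z Q m B')
    (hY : Measurable Y) (hZ : Measurable Z) (hm : 1 ≤ m) (hB : 0 ≤ B) (hB' : 0 ≤ B') :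
    Mom (fun x => Y x + Z x) Q m (B + B') := by
  have hm0 : 0 < m := by linarith
  have hs := (sz_pos (d := d) Q.1).le
  rw [mom_iff hm0 hB] at h
  rw [mom_iff hm0 hB'] at h'
  rw [mom_iff hm0 (add_nonneg hB hB'), add_mul, ENNReal.ofReal_add (by positivity) (by positivity)]
  have k := ENNReal.lintegral_Lp_add_le (μ := volume.restrict (cube Q))
    (f := fun x => ENNReal.ofReal |Y x|) (g := fun x => ENNReal.ofReal |Z x|)
    hY.abs.ennreal_ofReal.aemeasurable hZ.abs.ennreal_ofReal.aemeasurable hm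
  refine le_trans ?_ (k.trans (add_le_add h h'))
  refine ENNReal.rpow_le_rpow (lintegral_mono fun x => ENNReal.rpow_le_rpow ?_ hm0.le)
    (by positivity)
  simp only [Pi.add_apply]
  rw [← ENNReal.ofReal_add (abs_nonneg _) (abs_nonneg _)]
  exact ENNReal.ofReal_le_ofReal (abs_add_le _ _)

theorem mom_zero {Y : E d → ℝ} {Q : Cb d} {m B : ℝ} (hm : 0 < m) (hY : ∀ x ∈ cube Q, Y x = 0) :
    Mom Y Q m B := by
  refine (setLIntegral_mono' (g := fun _ => 0) (measurableSet_cube Q) fun x hx => ?_).trans ?_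
  · rw [hY x hx, abs_zero, ENNReal.ofReal_zero, ENNReal.zero_rpow_of_pos hm]
  · simp

theorem mom_sum {ι : Type} {s : Finset ι} {Y : ι → E d → ℝ} {B : ι → ℝ} {Q : Cb d} {m : ℝ}
    (h : ∀ i ∈ s, Mom (Y i) Q m (B i)) (hY : ∀ i ∈ s, Measurable (Y i)) (hm : 1 ≤ m)
    (hB : ∀ i ∈ s, 0 ≤ B i) : Mom (fun x => ∑ i ∈ s, Y i x) Q m (∑ i ∈ s, B i) := by
  classical
  induction s using Finset.induction_on with
  | empty => exact mom_zero (by linarith) fun x _ => Finset.sum_empty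
  | insert a s ha ih =>
    simp only [Finset.sum_insert ha]
    have mem : ∀ i ∈ s, i ∈ insert a s := fun i hi => Finset.mem_insert_of_mem hi
    exact (h a (Finset.mem_insert_self a s)).add
      (ih (fun i hi => h i (mem i hi)) (fun i hi => hY i (mem i hi)) fun i hi => hB i (mem i hi))
      (hY a (Finset.mem_insert_self a s)) (Finset.measurable_sum _ fun i hi => hY i (mem i hi)) hm
      (hB a (Finset.mem_insert_self a s)) (Finset.sum_nonneg fun i hi => hB i (mem i hi))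

theorem Mom.holder {Y : E d → ℝ} {Q : Cb d} {m B v : ℝ} (h : Mom Y Q m B) (hY : Nice Y)
    (hm : 1 ≤ m) (hB : 0 ≤ B) {F : Set (E d)} (hF : MeasurableSet F) (hFQ : F ⊆ cube Q)
    (hv : 0 < v) (hvF : volume F = ENNReal.ofReal v) :
    ∫ x in F, |Y x| ≤ B * v * (sz d Q.1 / v) ^ (1 / m) := by
  have _ := hF
  have hm0 : 0 < m := by linarith
  have hs := (sz_pos (d := d) Q.1).le
  rw [mom_iff hm0 hB] at h
  have k := eLpNorm'_le_eLpNorm'_mul_rpow_measure_univ (μ := volume.restrict F) (f := Y)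
    one_pos hm hY.meas.aestronglyMeasurable
  simp only [eLpNorm'_eq_lintegral_enorm, Real.enorm_eq_ofReal_abs, ENNReal.rpow_one, div_one,
    Measure.restrict_apply_univ, hvF] at k
  have h1 : 0 ≤ 1 - 1 / m := by
    rw [sub_nonneg, div_le_one hm0]; exact hm
  have k2 : (∫⁻ x in F, ENNReal.ofReal |Y x| ^ m) ^ (1 / m) ≤
      ENNReal.ofReal (B * sz d Q.1 ^ (1 / m)) :=
    (ENNReal.rpow_le_rpow (lintegral_mono_set hFQ) (by positivity)).trans h
  have k3 := k.trans (mul_le_mul_left k2 _)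
  rw [ENNReal.ofReal_rpow_of_nonneg hv.le h1, ← ENNReal.ofReal_mul (by positivity)] at k3
  rw [integral_eq_lintegral_of_nonneg_ae (Filter.Eventually.of_forall fun x => abs_nonneg _)
    hY.meas.abs.aestronglyMeasurable]
  refine (ENNReal.toReal_le_of_le_ofReal (by positivity) k3).trans (le_of_eq ?_)
  rw [Real.div_rpow hs hv.le, Real.rpow_sub hv, Real.rpow_one]
  ring

theorem mom_term {B l m : ℝ} (hB : 0 ≤ B) (hl : 1 ≤ l) (hm : 1 ≤ m) (n : ℕ) :
    ((n + 1) * B) ^ m * Real.exp (-l) ^ n ≤ (4 * B * (1 + m / l)) ^ m * (2 / 3) ^ n := by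
  have hm0 : 0 < m := by linarith
  have hl0 : 0 < l := by linarith
  have hn : (0 : ℝ) ≤ n := Nat.cast_nonneg n
  have h1 : (n + 1 : ℝ) ≤ 4 * (1 + m / l) * Real.exp (l * n / (2 * m)) := by
    have a := Real.add_one_le_exp (l * n / (2 * m))
    have b : m / l * (l * n / (2 * m)) = n / 2 := by field_simp
    have c : 0 ≤ m / l := by positivity
    have e : 0 ≤ l * n / (2 * m) := by positivity
    have f := mul_le_mul_of_nonneg_left a (show 0 ≤ 4 * (1 + m / l) by positivity)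
    nlinarith
  have h2 : ((n + 1) * B) ^ m ≤ (4 * B * (1 + m / l)) ^ m * Real.exp (l * n / 2) := by
    have a : (n + 1) * B ≤ 4 * B * (1 + m / l) * Real.exp (l * n / (2 * m)) := by
      nlinarith [mul_le_mul_of_nonneg_right h1 hB]
    refine (Real.rpow_le_rpow (by positivity) a hm0.le).trans (le_of_eq ?_)
    rw [Real.mul_rpow (by positivity) (by positivity), ← Real.exp_mul]
    congr 2
    field_simp
  have h3 : Real.exp (l * n / 2) * Real.exp (-l) ^ n ≤ (2 / 3) ^ n := by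
    have a : Real.exp (l * n / 2) * Real.exp (-l) ^ n = Real.exp (-(l / 2)) ^ n := by
      rw [← Real.exp_nat_mul, ← Real.exp_nat_mul, ← Real.exp_add]
      congr 1
      ring
    rw [a]
    refine pow_le_pow_left₀ (Real.exp_pos _).le ?_ n
    rw [Real.exp_neg, inv_le_comm₀ (Real.exp_pos _) (by norm_num)]
    linarith [Real.add_one_le_exp (l / 2)]
  calc ((n + 1) * B) ^ m * Real.exp (-l) ^ n
      ≤ (4 * B * (1 + m / l)) ^ m * Real.exp (l * n / 2) * Real.exp (-l) ^ n := by gcongr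
    _ = (4 * B * (1 + m / l)) ^ m * (Real.exp (l * n / 2) * Real.exp (-l) ^ n) := by ring
    _ ≤ _ := by gcongr

theorem mom_of_tail {Y : E d → ℝ} {Q : Cb d} {B l m : ℝ} (hB : 0 ≤ B) (hl : 1 ≤ l) (hm : 1 ≤ m)
    (h : ∀ n : ℕ, volume {x ∈ cube Q | n * B < |Y x|} ≤
      ENNReal.ofReal (Real.exp (-l) ^ n * sz d Q.1)) : Mom Y Q m (12 * B * (1 + m / l)) := by
  have hm0 : 0 < m := by linarith
  have hl0 : 0 < l := by linarith
  have hs := (sz_pos (d := d) Q.1).le
  obtain ⟨S, hS⟩ : ∃ S : ℕ → Set (E d), ∀ n, S n = toMeasurable volume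
    {x ∈ cube Q | n * B < |Y x|} := ⟨_, fun _ => rfl⟩
  have mS : ∀ n, MeasurableSet (S n) := fun n => hS n ▸ measurableSet_toMeasurable _ _
  have vS : ∀ n, volume (S n) ≤ ENNReal.ofReal (Real.exp (-l) ^ n * sz d Q.1) := fun n => by
    rw [hS, measure_toMeasurable]; exact h n
  have null : volume {x | x ∈ cube Q ∧ ∀ n : ℕ, n * B < |Y x|} = 0 := by
    have t : Filter.Tendsto (fun n : ℕ => ENNReal.ofReal (Real.exp (-l) ^ n * sz d Q.1))
        Filter.atTop (nhds (ENNReal.ofReal (0 * sz d Q.1))) :=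
      ENNReal.tendsto_ofReal ((tendsto_pow_atTop_nhds_zero_of_lt_one (Real.exp_pos _).le
        (Real.exp_lt_one_iff.2 (by linarith))).mul_const _)
    rw [zero_mul, ENNReal.ofReal_zero] at t
    refine le_zero_iff.1 (ge_of_tendsto' t fun n => le_trans (measure_mono ?_) (h n))
    exact fun x hx => ⟨hx.1, hx.2 n⟩
  have pt : ∀ᵐ x ∂(volume.restrict (cube Q)), ENNReal.ofReal |Y x| ^ m ≤
      ∑' n : ℕ, (S n).indicator (fun _ => ENNReal.ofReal (((n + 1) * B) ^ m)) x := by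
    rw [ae_restrict_iff' (measurableSet_cube Q)]
    filter_upwards [measure_eq_zero_iff_ae_notMem.1 null] with x hx hQ
    have ex : ∃ n : ℕ, |Y x| ≤ n * B := by
      by_contra hc
      push Not at hc
      exact hx ⟨hQ, hc⟩
    classical
    have k1 := Nat.find_spec ex
    rcases e : Nat.find ex with _ | n
    · rw [e, Nat.cast_zero, zero_mul] at k1
      rw [ENNReal.ofReal_of_nonpos k1, ENNReal.zero_rpow_of_pos hm0]
      exact zero_le
    · have k2 := Nat.find_min ex (m := n) (by omega)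
      rw [e] at k1
      push_cast at k1
      refine le_trans ?_ (ENNReal.le_tsum n)
      have mem : x ∈ S n := by
        rw [hS]
        exact subset_toMeasurable _ _ ⟨hQ, not_le.1 k2⟩
      rw [indicator_of_mem mem, ENNReal.ofReal_rpow_of_nonneg (abs_nonneg _) hm0.le]
      exact ENNReal.ofReal_le_ofReal (Real.rpow_le_rpow (abs_nonneg _) k1 hm0.le)
  refine (lintegral_mono_ae pt).trans ((lintegral_mono' Measure.restrict_le_self le_rfl).trans ?_)
  rw [lintegral_tsum fun n => (measurable_const.indicator (mS n)).aemeasurable]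
  obtain ⟨K, hK⟩ : ∃ K, K = (4 * B * (1 + m / l)) ^ m * sz d Q.1 := ⟨_, rfl⟩
  have K0 : 0 ≤ K := by rw [hK]; positivity
  have tm : ∀ n : ℕ, ∫⁻ x, (S n).indicator (fun _ => ENNReal.ofReal (((n + 1) * B) ^ m)) x ≤
      ENNReal.ofReal (K * (2 / 3) ^ n) := fun n => by
    rw [lintegral_indicator_const (mS n)]
    refine (mul_le_mul_right (vS n) _).trans ?_
    rw [← ENNReal.ofReal_mul (by positivity)]
    refine ENNReal.ofReal_le_ofReal ?_
    have := mul_le_mul_of_nonneg_right (mom_term hB hl hm n) hs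
    rw [hK]
    linarith
  refine (ENNReal.tsum_le_tsum tm).trans ?_
  have g := hasSum_geometric_of_lt_one (r := 2 / 3) (by norm_num) (by norm_num)
  rw [← ENNReal.ofReal_tsum_of_nonneg (fun n => by positivity) (g.mul_left K).summable,
    (g.mul_left K).tsum_eq]
  refine ENNReal.ofReal_le_ofReal ?_
  have a : (3 : ℝ) ≤ 3 ^ m := by
    simpa using Real.rpow_le_rpow_of_exponent_le (by norm_num : (1 : ℝ) ≤ 3) hm
  rw [show 12 * B * (1 + m / l) = 3 * (4 * B * (1 + m / l)) by ring,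
    Real.mul_rpow (by norm_num) (by positivity), mul_assoc, ← hK]
  norm_num
  nlinarith

end Pool.Agent.MP_418f02_an

end

section

open MeasureTheory Set
open scoped ENNReal RealInnerProductSpace

namespace Pool.Agent.MP_418f02_an

variable {d : ℕ}

theorem jn_ps_zero (φ : ℤ → E d → ℝ) {a b : ℤ} (h : b < a) (x : E d) : ps φ a b x = 0 := by
  rw [ps, Finset.Icc_eq_empty (not_le.2 h), Finset.sum_empty]

theorem jn_ps_succ (φ : ℤ → E d → ℝ) {a b : ℤ} (h : a ≤ b) (x : E d) :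
    ps φ a b x = φ a x + ps φ (a + 1) b x := by
  have : Finset.Icc a b = insert a (Finset.Icc (a + 1) b) := by
    ext j; simp only [Finset.mem_insert, Finset.mem_Icc]; omega
  rw [ps, this, Finset.sum_insert (by simp), ps]

theorem jn_ps_split (φ : ℤ → E d → ℝ) {a r c : ℤ} {L : ℕ} (h1 : a ≤ r + L) (h2 : r + L ≤ c)
    (x : E d) {C₀ : ℝ} (hC : 0 ≤ C₀) (hφ : ∀ j, a ≤ j → j ≤ c → |φ j x| ≤ C₀) :
    |ps φ a c x| ≤ |ps φ a r x| + C₀ * L + |ps φ (r + L + 1) c x| := by
  have e : Finset.Icc a c = (Finset.Icc a r ∪ Finset.Icc (max a (r + 1)) (r + L)) ∪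
      Finset.Icc (r + L + 1) c := by
    ext j; simp only [Finset.mem_union, Finset.mem_Icc]; omega
  have e2 : ps φ a c x = ps φ a r x + ∑ j ∈ Finset.Icc (max a (r + 1)) (r + L), φ j x +
      ps φ (r + L + 1) c x := by
    rw [ps, e, Finset.sum_union, Finset.sum_union, ps, ps] <;>
      (rw [Finset.disjoint_left]; intro j; simp only [Finset.mem_union, Finset.mem_Icc]; omega)
  have e3 : |∑ j ∈ Finset.Icc (max a (r + 1)) (r + L), φ j x| ≤ C₀ * L := by
    refine (Finset.abs_sum_le_sum_abs _ _).trans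
      ((Finset.sum_le_card_nsmul _ _ C₀ fun j hj => ?_).trans ?_)
    · rw [Finset.mem_Icc] at hj
      exact hφ j (by omega) (by omega)
    · rw [nsmul_eq_mul, mul_comm]
      refine mul_le_mul_of_nonneg_left (Nat.cast_le.2 ?_) hC
      rw [Int.card_Icc]; omega
  rw [e2]
  exact (abs_add_three _ _ _).trans (by linarith)

theorem jn_step {φ : ℤ → E d → ℝ} {j₀ : ℤ} {L : ℕ} {A C₀ : ℝ} {c₀ : Cb d}
    (hA : 0 ≤ A) (hC : 0 ≤ C₀) (hφ : ∀ j, j₀ ≤ j → j ≤ c₀.1 → ∀ x ∈ cube c₀, |φ j x| ≤ C₀) :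
    ∃ F N, Bad φ j₀ L A c₀ F ∧ volume N = 0 ∧ ∀ x ∈ cube c₀, x ∉ N → ∀ a, j₀ ≤ a →
      A < |ps φ a c₀.1 x| → ∃ R ∈ F, x ∈ cube R ∧
        |ps φ a c₀.1 x| ≤ |ps φ a R.1 x| + (A + C₀ * L) := by
  let U : Cb d → Set (E d) := fun R => {y ∈ cube R | A < |ps φ (R.1 + L) c₀.1 y|}
  let S : Set (Cb d) :=
    {R | cube R ⊆ cube c₀ ∧ j₀ ≤ R.1 + L ∧ R.1 + L ≤ c₀.1 ∧ 0 < volume (U R)}
  have hSf : S.Finite := (finite_sub (j₀ - L) c₀).subset fun R hR =>
    ⟨by have := hR.2.1; omega, by have := hR.2.2.1; omega, hR.1.trans (cube_subset_big _)⟩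
  obtain ⟨T, hTS, hTd, hcov, hmax⟩ := exists_maximal S c₀.1 fun R hR => by
    have := hR.2.2.1; omega
  have hTf := hSf.subset hTS
  have hpar : ∀ R ∈ T, ∀ x ∈ cube R, cb (R.1 + 1) x ∉ S := fun R hR x hx hm => by
    have := congrArg Prod.fst (hmax R hR _ hm (by simp [cb])
      ((lm_cube _).cube_subset (by simp [cb]) hx (mem_cube_cb _ _)))
    simp [cb] at this
  have hle : ∀ a x, A < |ps φ a c₀.1 x| → a ≤ c₀.1 := fun a x h => by
    by_contra hc
    rw [jn_ps_zero φ (not_le.1 hc), abs_zero] at h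
    exact absurd h (not_lt.2 hA)
  refine ⟨hTf.toFinset, ⋃ R : {R // volume (U R) = 0}, U R, ⟨?_, ?_, ?_, ?_, ?_, ?_⟩,
    measure_iUnion_null fun R => R.2, ?_⟩
  · simpa [Dj] using hTd
  · exact fun R hR => (hTS (hTf.mem_toFinset.1 hR)).2.1
  · exact fun R hR => (hTS (hTf.mem_toFinset.1 hR)).2.2.1
  · exact fun R hR => (hTS (hTf.mem_toFinset.1 hR)).1
  · intro R hR
    rw [hTf.mem_toFinset] at hR
    obtain ⟨h1, h2, h3, h4⟩ := hTS hR
    by_contra hc
    push Not at hc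
    have e : ∀ y ∈ U R, A < |ps φ (R.1 + 1 + L) c₀.1 y| := fun y hy => by
      have := hy.2
      rwa [jn_ps_succ φ h3, hc y hy.1, zero_add, add_right_comm] at this
    obtain ⟨x, hx⟩ := nonempty_of_measure_ne_zero h4.ne'
    have h5 := hle _ _ (e x hx)
    refine hpar R hR x hx.1 ⟨(lm_cube _).cube_subset (by simp only [cb]; omega) (mem_cube_cb _ _)
      (h1 hx.1), by simp only [cb]; omega, h5, h4.trans_le (measure_mono fun y hy => ⟨?_, e y hy⟩)⟩
    exact (lm_cube _).cube_subset (by simp [cb]) hx.1 (mem_cube_cb _ _) hy.1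
  · exact fun R hR => (hTS (hTf.mem_toFinset.1 hR)).2.2.2
  intro x hx hN
  have key : ∀ k : ℤ, j₀ ≤ k + L → A < |ps φ (k + L) c₀.1 x| → cb k x ∈ S := fun k hk h => by
    have h5 := hle _ _ h
    refine ⟨(lm_cube _).cube_subset (by simp only [cb]; omega) (mem_cube_cb _ _) hx, hk, h5,
      pos_iff_ne_zero.2 fun h0 => hN (mem_iUnion.2 ⟨⟨_, h0⟩, mem_cube_cb _ _, h⟩)⟩
  intro a ha h
  obtain ⟨R, hR, h1, h2⟩ := hcov _ (key (a - L) (by omega) (by rwa [sub_add_cancel]))
  have hxR := h2 (mem_cube_cb _ _)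
  obtain ⟨-, h3, h4, -⟩ := hTS hR
  refine ⟨R, hTf.mem_toFinset.2 hR, hxR, ?_⟩
  have h5 : |ps φ (R.1 + L + 1) c₀.1 x| ≤ A := not_lt.1 fun h5 =>
    hpar R hR x hxR (key _ (by omega) (by rwa [add_right_comm]))
  have := jn_ps_split φ (a := a) (by simp only [cb] at h1; omega) h4 x hC
    fun j h6 h7 => hφ j (ha.trans h6) h7 x hx
  linarith

theorem jn_tail {φ : ℤ → E d → ℝ} {j₀ : ℤ} {L : ℕ} {A δ C₀ : ℝ} {Q : Cb d} (hL : 1 ≤ L)
    (hA : 0 ≤ A) (hδ : 0 ≤ δ) (hC : 0 ≤ C₀)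
    (hφ : ∀ j, j₀ ≤ j → j ≤ Q.1 → ∀ x ∈ cube Q, |φ j x| ≤ C₀) (h : OneStep φ j₀ L A δ Q)
    (n : ℕ) : volume {x ∈ cube Q | ∃ a, j₀ ≤ a ∧ n * (A + C₀ * L) < |ps φ a Q.1 x|} ≤
      ENNReal.ofReal (δ ^ n * sz d Q.1) := by
  have hB : 0 ≤ C₀ * L := by positivity
  suffices H : ∀ c₀ : Cb d, c₀.1 ≤ Q.1 → cube c₀ ⊆ cube Q →
      volume {x ∈ cube c₀ | ∃ a, j₀ ≤ a ∧ n * (A + C₀ * L) < |ps φ a c₀.1 x|} ≤
        ENNReal.ofReal (δ ^ n * sz d c₀.1) from H Q le_rfl subset_rfl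
  induction n with
  | zero =>
    intro c₀ _ _
    rw [pow_zero, one_mul, ← volume_cube]
    exact measure_mono fun x hx => hx.1
  | succ n ih =>
    intro c₀ h1 h2
    obtain ⟨F, N, hF, hN, hx⟩ := jn_step (φ := φ) (j₀ := j₀) (L := L) (c₀ := c₀) hA hC
      fun j h3 h4 x hx => hφ j h3 (h4.trans h1) x (h2 hx)
    have hsub : {x ∈ cube c₀ | ∃ a, j₀ ≤ a ∧ (n + 1 : ℕ) * (A + C₀ * L) < |ps φ a c₀.1 x|} ⊆
        N ∪ ⋃ R ∈ F, {x ∈ cube R | ∃ a, j₀ ≤ a ∧ n * (A + C₀ * L) < |ps φ a R.1 x|} := by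
      rintro x ⟨hx0, a, ha, hlt⟩
      by_cases hxN : x ∈ N
      · exact Or.inl hxN
      rw [Nat.cast_succ, add_one_mul] at hlt
      have : 0 ≤ n * (A + C₀ * L) := by positivity
      obtain ⟨R, hR, h3, h4⟩ := hx x hx0 hxN a ha (by linarith)
      exact Or.inr (mem_iUnion₂.2 ⟨R, hR, h3, a, ha, by linarith⟩)
    refine (measure_mono hsub).trans ((measure_union_le _ _).trans ?_)
    rw [hN, zero_add]
    refine (measure_biUnion_finset_le _ _).trans ((Finset.sum_le_sum fun R hR =>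
      ih R (by have := hF.up R hR; omega) ((hF.sub R hR).trans h2)).trans ?_)
    rw [← ENNReal.ofReal_sum_of_nonneg fun R _ => mul_nonneg (pow_nonneg hδ n) (sz_pos _).le,
      ← Finset.mul_sum, pow_succ, mul_assoc]
    exact ENNReal.ofReal_le_ofReal (mul_le_mul_of_nonneg_left (h c₀ h1 h2 F hF) (pow_nonneg hδ n))

theorem jn_mom {φ : ℤ → E d → ℝ} {j₀ : ℤ} {L : ℕ} {A l C₀ m : ℝ} {Q : Cb d} (hL : 1 ≤ L)
    (hA : 0 ≤ A) (hl : 1 ≤ l) (hC : 0 ≤ C₀) (hm : 1 ≤ m)
    (hφ : ∀ j, j₀ ≤ j → j ≤ Q.1 → ∀ x ∈ cube Q, |φ j x| ≤ C₀)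
    (h : OneStep φ j₀ L A (Real.exp (-l)) Q) {Y : E d → ℝ}
    (hY : ∀ x ∈ cube Q, ∃ a, j₀ ≤ a ∧ |Y x| ≤ |ps φ a Q.1 x|) :
    Mom Y Q m (12 * (A + C₀ * L) * (1 + m / l)) := by
  refine mom_of_tail (by positivity) hl hm fun n => le_trans (measure_mono fun x hx => ?_)
    (jn_tail hL hA (Real.exp_pos _).le hC hφ h n)
  obtain ⟨a, ha, h1⟩ := hY x hx.1
  exact ⟨hx.1, a, ha, hx.2.trans_le h1⟩

end Pool.Agent.MP_418f02_an

end

section

open MeasureTheory Set
open scoped ENNReal RealInnerProductSpace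

namespace Pool.Agent.MP_418f02_an

variable {d : ℕ}

open scoped Classical

/-- the local mass of the atoms in a window of levels -/
noncomputable def run2f (P : Finset (Cb d)) (b : Cb d → E d → ℝ) (s : ℕ) (j : ℤ) (x : E d) : ℝ :=
  4 ^ d / sz d j * ∫ y in big (cb j x), |Bw P b (j - s) j y|

theorem run2f_nonneg (P : Finset (Cb d)) (b : Cb d → E d → ℝ) (s : ℕ) (j : ℤ) (x : E d) :
    0 ≤ run2f P b s j x :=
  mul_nonneg (div_nonneg (by positivity) (sz_pos j).le) (integral_nonneg fun _ => abs_nonneg _)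

theorem run2f_congr (P : Finset (Cb d)) (b : Cb d → E d → ℝ) (s : ℕ) {j : ℤ} {x y : E d}
    (e : ix j x = ix j y) : run2f P b s j x = run2f P b s j y := by
  unfold run2f cb
  rw [e]

theorem run2_mass {P : Finset (Cb d)} {b : Cb d → E d → ℝ} (h : Atoms P b 1) (a : ℤ) {j : ℤ}
    {c : Cb d} (hj : j ≤ c.1) : ∫ y in big c, |Bw P b a j y| ≤
      ∑ Q ∈ P with (Q.1 ≤ c.1 ∧ (cube Q ∩ big c).Nonempty),
        if a ≤ Q.1 ∧ Q.1 < j then sz d Q.1 else 0 := by
  have h1 := (h.subset (Finset.filter_subset (fun Q => a ≤ Q.1 ∧ Q.1 < j) P)).mass_lm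
    zero_le_one (lm_big c) (fun Q hQ => ((Finset.mem_filter.mp hQ).2.2.le.trans hj))
  rw [one_mul] at h1
  refine h1.trans (le_of_eq ?_)
  rw [← Finset.sum_filter]
  refine Finset.sum_congr ?_ fun _ _ => rfl
  ext Q
  simp only [Finset.mem_filter]
  constructor
  · rintro ⟨⟨h2, h3, h4⟩, h5⟩
    exact ⟨⟨h2, h4.le.trans hj, h5⟩, h3, h4⟩
  · rintro ⟨⟨h2, -, h5⟩, h3, h4⟩
    exact ⟨⟨h2, h3, h4⟩, h5⟩

theorem run2_tot {P : Finset (Cb d)} (h : Dj P) (c : Cb d) :
    ∑ Q ∈ P with (Q.1 ≤ c.1 ∧ (cube Q ∩ big c).Nonempty), sz d Q.1 ≤ 3 ^ d * sz d c.1 := by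
  refine (h.subset (Finset.filter_subset _ P)).sum_le (S := big c)
    (mul_nonneg (by positivity) (sz_pos _).le) (volume_big c).le fun Q hQ => ?_
  obtain ⟨-, h1, x, h2, h3⟩ := Finset.mem_filter.mp hQ
  exact (lm_big c).cube_subset h1 h2 h3

theorem run2f_le {P : Finset (Cb d)} {b : Cb d → E d → ℝ} (h : Atoms P b 1) (s : ℕ) (j : ℤ)
    (x : E d) : run2f P b s j x ≤ 12 ^ d := by
  have h1 := run2_mass h (j - s) (j := j) (c := cb j x) le_rfl
  have h2 := run2_tot h.dj (cb j x)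
  have h3 : ∫ y in big (cb j x), |Bw P b (j - s) j y| ≤ 3 ^ d * sz d j := by
    refine h1.trans (le_trans (Finset.sum_le_sum fun Q _ => ?_) h2)
    split_ifs
    · exact le_rfl
    · exact (sz_pos _).le
  have h4 := sz_pos (d := d) j
  unfold run2f
  calc 4 ^ d / sz d j * ∫ y in big (cb j x), |Bw P b (j - s) j y|
      ≤ 4 ^ d / sz d j * (3 ^ d * sz d j) :=
        mul_le_mul_of_nonneg_left h3 (div_nonneg (by positivity) h4.le)
    _ = 12 ^ d := by
        rw [show (12 : ℝ) = 4 * 3 by norm_num, mul_pow]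
        field_simp

theorem run2_set (j : ℤ) : MeasurableSet {p : E d × E d | p.2 ∈ big (cb j p.1)} := by
  have hm : Measurable (ix (d := d) j) := measurable_of_ix (k := j) fun _ _ e => e
  have h1 : Measurable fun p : E d × E d => (ix j p.1, ix j p.2) :=
    (hm.comp measurable_fst).prodMk (hm.comp measurable_snd)
  exact h1 (t := {q : (Fin d → ℤ) × (Fin d → ℤ) | ∀ i, |q.2 i - q.1 i| ≤ 1})
    (Set.to_countable _).measurableSet

/-- averaging over neighbourhoods costs only the volume of a neighbourhood -/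
theorem run2_ton {G : E d → ℝ≥0∞} (hG : Measurable G) {j : ℤ} {c : Cb d} (hj : j ≤ c.1) :
    ∫⁻ x in cube c, ∫⁻ y in big (cb j x), G y ≤
      ENNReal.ofReal (3 ^ d * sz d j) * ∫⁻ y in big c, G y := by
  obtain ⟨H, hH, e1⟩ : ∃ H : E d × E d → ℝ≥0∞, Measurable H ∧
      ∀ x y, H (x, y) = if y ∈ big (cb j x) then G y else 0 :=
    ⟨fun p => if p.2 ∈ big (cb j p.1) then G p.2 else 0,
      Measurable.ite (run2_set j) (hG.comp measurable_snd) measurable_const, fun _ _ => rfl⟩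
  have h1 : ∫⁻ x in cube c, ∫⁻ y in big (cb j x), G y =
      ∫⁻ x in cube c, ∫⁻ y in big c, H (x, y) := by
    refine setLIntegral_congr_fun (measurableSet_cube c) fun x hx => ?_
    have e : ∀ y, H (x, y) = (big (cb j x)).indicator G y := by
      intro y
      rw [e1, indicator_apply]
    show _ = ∫⁻ y in big c, H (x, y)
    simp only [e]
    rw [lintegral_indicator (measurableSet_big _),
      Measure.restrict_restrict (measurableSet_big _),
      inter_eq_left.mpr (big_subset_big hj hx)]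
  rw [h1, lintegral_lintegral_swap (f := fun x y => H (x, y)) hH.aemeasurable,
    ← lintegral_const_mul _ hG]
  refine lintegral_mono fun y => ?_
  have e : ∀ x, H (x, y) = (big (cb j y)).indicator (fun _ => G y) x := by
    intro x
    rw [e1, indicator_apply]
    exact if_congr mem_big_symm rfl rfl
  show ∫⁻ x in cube c, H (x, y) ≤ _
  simp only [e]
  refine (setLIntegral_le_lintegral _ _).trans (le_of_eq ?_)
  rw [lintegral_indicator_const (measurableSet_big _), volume_big, mul_comm]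
  rfl

theorem run2_abs {g : E d → ℝ} (hg : Nice g) (S : Set (E d)) :
    ENNReal.ofReal (∫ y in S, |g y|) = ∫⁻ y in S, ENNReal.ofReal |g y| :=
  ofReal_integral_eq_lintegral_ofReal hg.integrable.abs.integrableOn
    (Filter.Eventually.of_forall fun _ => abs_nonneg _)

theorem run2_one {P : Finset (Cb d)} {b : Cb d → E d → ℝ} (h : Atoms P b 1) (s : ℕ) {j : ℤ}
    {c : Cb d} (hj : j ≤ c.1) : ∫⁻ x in cube c, ENNReal.ofReal (run2f P b s j x) ≤
      ENNReal.ofReal (12 ^ d * ∑ Q ∈ P with (Q.1 ≤ c.1 ∧ (cube Q ∩ big c).Nonempty),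
        if j - s ≤ Q.1 ∧ Q.1 < j then sz d Q.1 else 0) := by
  have hg := h.nice_Bw (j - s) j
  have h4 := sz_pos (d := d) j
  have h5 : (0 : ℝ) ≤ 4 ^ d / sz d j := div_nonneg (by positivity) h4.le
  have h6 : (0 : ℝ) ≤ 3 ^ d * sz d j := mul_nonneg (by positivity) h4.le
  have hG : Measurable fun y => ENNReal.ofReal |Bw P b (j - s) j y| :=
    hg.abs.meas.ennreal_ofReal
  unfold run2f
  simp only [ENNReal.ofReal_mul h5, run2_abs hg]
  rw [lintegral_const_mul' _ _ ENNReal.ofReal_ne_top]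
  refine (mul_le_mul_right (run2_ton hG hj) _).trans ?_
  rw [← run2_abs hg, ← ENNReal.ofReal_mul h6, ← ENNReal.ofReal_mul h5]
  refine ENNReal.ofReal_le_ofReal ?_
  rw [← mul_assoc]
  have e : (4 : ℝ) ^ d / sz d j * (3 ^ d * sz d j) = 12 ^ d := by
    rw [show (12 : ℝ) = 4 * 3 by norm_num, mul_pow]
    field_simp
  rw [e]
  exact mul_le_mul_of_nonneg_left (run2_mass h (j - s) hj) (by positivity)

theorem run2_count (T : Finset (Cb d)) (I : Finset ℤ) (s : ℕ) :
    ∑ j ∈ I, ∑ Q ∈ T, (if j - s ≤ Q.1 ∧ Q.1 < j then sz d Q.1 else 0) ≤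
      s * ∑ Q ∈ T, sz d Q.1 := by
  rw [Finset.sum_comm, Finset.mul_sum]
  refine Finset.sum_le_sum fun Q _ => ?_
  rw [← Finset.sum_filter, Finset.sum_const, nsmul_eq_mul]
  refine mul_le_mul_of_nonneg_right ?_ (sz_pos _).le
  have h1 : I.filter (fun j => j - s ≤ Q.1 ∧ Q.1 < j) ⊆ Finset.Icc (Q.1 + 1) (Q.1 + s) := by
    intro j hj
    obtain ⟨-, h2, h3⟩ := Finset.mem_filter.mp hj
    rw [Finset.mem_Icc]
    constructor <;> omega
  have h2 := Finset.card_le_card h1
  rw [Int.card_Icc] at h2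
  have h3 : (Q.1 + s + 1 - (Q.1 + 1)).toNat = s := by
    rw [show Q.1 + s + 1 - (Q.1 + 1) = (s : ℤ) by ring]
    exact Int.toNat_natCast s
  rw [h3] at h2
  exact_mod_cast h2

theorem run2_all {P : Finset (Cb d)} {b : Cb d → E d → ℝ} (h : Atoms P b 1) (s : ℕ) (a : ℤ)
    (c : Cb d) : ∫⁻ x in cube c, ENNReal.ofReal (ps (run2f P b s) a c.1 x) ≤
      ENNReal.ofReal (36 ^ d * s * sz d c.1) := by
  unfold ps
  have h1 : ∀ x, ENNReal.ofReal (∑ j ∈ Finset.Icc a c.1, run2f P b s j x) =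
      ∑ j ∈ Finset.Icc a c.1, ENNReal.ofReal (run2f P b s j x) :=
    fun x => ENNReal.ofReal_sum_of_nonneg fun j _ => run2f_nonneg P b s j x
  simp only [h1]
  rw [lintegral_finsetSum _ fun j _ =>
    (measurable_of_ix (k := j) fun _ _ e => run2f_congr P b s e).ennreal_ofReal]
  refine (Finset.sum_le_sum fun j hj => run2_one h s (Finset.mem_Icc.mp hj).2).trans ?_
  rw [← ENNReal.ofReal_sum_of_nonneg fun j _ => mul_nonneg (by positivity)
    (Finset.sum_nonneg fun Q _ => by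
      split_ifs
      · exact (sz_pos _).le
      · exact le_rfl)]
  refine ENNReal.ofReal_le_ofReal ?_
  rw [← Finset.mul_sum]
  have h2 := run2_count (P.filter fun Q => Q.1 ≤ c.1 ∧ (cube Q ∩ big c).Nonempty)
    (Finset.Icc a c.1) s
  have h3 := mul_le_mul_of_nonneg_left (run2_tot h.dj c) (Nat.cast_nonneg (α := ℝ) s)
  calc _ ≤ (12 : ℝ) ^ d * (s * (3 ^ d * sz d c.1)) :=
        mul_le_mul_of_nonneg_left (h2.trans h3) (by positivity)
    _ = 36 ^ d * s * sz d c.1 := by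
        rw [show (36 : ℝ) = 12 * 3 by norm_num, mul_pow]
        ring

theorem run2_step {P : Finset (Cb d)} {b : Cb d → E d → ℝ} (h : Atoms P b 1) (s : ℕ) (a : ℤ)
    (W : Cb d) : OneStep (run2f P b s) a 1 (3 * 36 ^ d * (s + 1)) (Real.exp (-1)) W := by
  intro c _ _ F hF
  have hz := sz_pos (d := d) c.1
  have hA : (0 : ℝ) < 3 * 36 ^ d * (s + 1) := by positivity
  have hv : 0 ≤ ∑ R ∈ F, sz d R.1 := Finset.sum_nonneg fun R _ => (sz_pos _).le
  have hU : (⋃ R ∈ F, cube R) ⊆ cube c := iUnion₂_subset fun R hR => hF.sub R hR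
  have hUm : MeasurableSet (⋃ R ∈ F, cube R) :=
    Finset.measurableSet_biUnion F fun R _ => measurableSet_cube R
  have h1 : ∀ x ∈ ⋃ R ∈ F, cube R, 3 * 36 ^ d * (s + 1) ≤ ps (run2f P b s) a c.1 x := by
    intro x hx
    obtain ⟨R, hR, hxR⟩ := mem_iUnion₂.mp hx
    obtain ⟨y, hy, hyA⟩ := nonempty_of_measure_ne_zero (hF.pos R hR).ne'
    have h2 : ps (run2f P b s) (R.1 + (1 : ℕ)) c.1 y = ps (run2f P b s) (R.1 + (1 : ℕ)) c.1 x := by
      unfold ps
      refine Finset.sum_congr rfl fun j hj => run2f_congr P b s ?_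
      have h3 := (Finset.mem_Icc.mp hj).1
      have h4 : ix R.1 y = ix R.1 x := Eq.trans hy (Eq.symm hxR)
      exact ix_mono (by push_cast at h3; omega) h4
    have h5 : 0 ≤ ps (run2f P b s) (R.1 + (1 : ℕ)) c.1 x :=
      Finset.sum_nonneg fun j _ => run2f_nonneg P b s j x
    rw [h2, abs_of_nonneg h5] at hyA
    refine hyA.le.trans ?_
    exact Finset.sum_le_sum_of_subset_of_nonneg (Finset.Icc_subset_Icc_left (hF.low R hR))
      fun j _ _ => run2f_nonneg P b s j x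
  have h6 : ENNReal.ofReal (3 * 36 ^ d * (s + 1) * ∑ R ∈ F, sz d R.1) ≤
      ENNReal.ofReal (36 ^ d * s * sz d c.1) := by
    rw [ENNReal.ofReal_mul hA.le, hF.dj.sum_sz, ← setLIntegral_const]
    refine le_trans ?_ (run2_all h s a c)
    refine le_trans ?_ (lintegral_mono_set hU)
    exact setLIntegral_mono' hUm fun x hx => ENNReal.ofReal_le_ofReal (h1 x hx)
  rw [ENNReal.ofReal_le_ofReal_iff (by positivity)] at h6
  have h7 : (1 : ℝ) / 3 ≤ Real.exp (-1) := by
    rw [Real.exp_neg, one_div]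
    exact inv_anti₀ (Real.exp_pos 1) (by linarith [Real.exp_one_lt_d9])
  have h8 : ∑ R ∈ F, sz d R.1 ≤ 1 / 3 * sz d c.1 := by
    have h9 : (0 : ℝ) < 36 ^ d := by positivity
    have h10 : (36 : ℝ) ^ d * s * sz d c.1 ≤ 3 * 36 ^ d * (s + 1) * (1 / 3 * sz d c.1) := by
      nlinarith [mul_pos h9 hz]
    exact le_of_mul_le_mul_left (h6.trans h10) hA
  exact h8.trans (mul_le_mul_of_nonneg_right h7 hz.le)

theorem run2 : ∃ C : ℝ, 0 < C ∧ ∀ k : E d → ℝ, IsKer k →
    ∀ (P : Finset (Cb d)) (b : Cb d → E d → ℝ), Atoms P b 1 →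
    ∀ (s₀ : ℕ) (W : Cb d) (j₀ : ℤ) (m : ℝ), 1 ≤ m →
    Mom (ps (fun j x => |cv k j (Bw P b (j - s₀) j) x|) j₀ W.1) W m (C * (s₀ + 1) * m) := by
  refine ⟨24 * (3 * 36 ^ d + 12 ^ d), by positivity, fun k hk P b h s W a m hm => ?_⟩
  have h1 := jn_mom (φ := run2f P b s) (j₀ := a) (L := 1) (A := 3 * 36 ^ d * (s + 1)) (l := 1)
    (C₀ := 12 ^ d) (m := m) (Q := W) le_rfl (by positivity) le_rfl (by positivity) hm
    (fun j _ _ x _ => by
      rw [abs_of_nonneg (run2f_nonneg P b s j x)]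
      exact run2f_le h s j x)
    (run2_step h s a W) (Y := ps (fun j x => |cv k j (Bw P b (j - s) j) x|) a W.1)
    (fun x _ => ⟨a, le_rfl, by
      unfold ps
      rw [abs_of_nonneg (Finset.sum_nonneg fun j _ => abs_nonneg _),
        abs_of_nonneg (Finset.sum_nonneg fun j _ => run2f_nonneg P b s j x)]
      exact Finset.sum_le_sum fun j _ => cv_le hk (h.nice_Bw _ _) j x⟩)
  refine h1.mono (by linarith) (by positivity) ?_ fun _ _ => le_rfl
  have h2 : (0 : ℝ) ≤ s := Nat.cast_nonneg s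
  have h3 : (0 : ℝ) < 36 ^ d := by positivity
  have h4 : (0 : ℝ) < 12 ^ d := by positivity
  have h5 : (3 : ℝ) * 36 ^ d * (s + 1) + 12 ^ d * ((1 : ℕ) : ℝ) ≤
      (3 * 36 ^ d + 12 ^ d) * (s + 1) := by
    push_cast
    nlinarith [mul_nonneg h4.le h2]
  have h6 : 1 + m / 1 ≤ 2 * m := by
    rw [div_one]
    linarith
  calc _ ≤ 12 * ((3 * 36 ^ d + 12 ^ d) * (s + 1)) * (2 * m) :=
        mul_le_mul (mul_le_mul_of_nonneg_left h5 (by norm_num)) h6 (by positivity)
          (by positivity)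
    _ = _ := by ring

end Pool.Agent.MP_418f02_an

end

section

open MeasureTheory Set
open scoped ENNReal RealInnerProductSpace

namespace Pool.Agent.MP_418f02_an

variable {d : ℕ}

theorem cube_diff {w : E d → ℝ} (hw : LocallyIntegrable w volume) :
    ∀ᵐ x : E d, Filter.Tendsto (fun n : ℕ => (∫ y in cube (cb (-n) x), w y) / sz d (-n))
      Filter.atTop (nhds (w x)) := by
  filter_upwards [IsUnifLocDoublingMeasure.ae_tendsto_average_norm_sub volume hw 1] with x hx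
  have hδ : Filter.Tendsto (fun n : ℕ => ((d : ℝ) + 1) * 2 ^ (-(n : ℤ))) Filter.atTop
      (nhdsWithin 0 (Ioi 0)) := by
    refine tendsto_nhdsWithin_iff.2 ⟨?_, Filter.Eventually.of_forall fun n => ?_⟩
    · have := (tendsto_pow_atTop_nhds_zero_of_lt_one (r := (2 : ℝ)⁻¹) (by norm_num)
        (by norm_num)).const_mul ((d : ℝ) + 1)
      simpa using this
    · exact mem_Ioi.2 (by positivity)
  have h1 := (hx (fun _ => x) _ hδ (Filter.Eventually.of_forall fun n =>
    Metric.mem_closedBall_self (by positivity))).const_mul ((2 * ((d : ℝ) + 1)) ^ d)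
  rw [mul_zero] at h1
  rw [tendsto_iff_norm_sub_tendsto_zero]
  refine squeeze_zero (fun _ => norm_nonneg _) (fun n => ?_) h1
  set ρ : ℝ := ((d : ℝ) + 1) * 2 ^ (-(n : ℤ)) with hρ
  have hρ0 : 0 < ρ := by positivity
  have hs := sz_pos (d := d) (-(n : ℤ))
  have hsub : cube (cb (-(n : ℤ)) x) ⊆ Metric.closedBall x ρ := fun y hy => by
    have := norm_sub_le_of_cube hy (mem_cube_cb _ x)
    rw [mem_closedBall_iff_norm]
    refine this.trans ?_
    simp only [cb, hρ]
    gcongr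
    linarith
  have hi : IntegrableOn w (Metric.closedBall x ρ) :=
    hw.integrableOn_isCompact (isCompact_closedBall x ρ)
  have hc : IntegrableOn (fun _ => w x) (Metric.closedBall x ρ) :=
    integrableOn_const measure_closedBall_lt_top.ne
  have hv : volume.real (cube (cb (-(n : ℤ)) x)) = sz d (-(n : ℤ)) := by
    rw [Measure.real, volume_cube, ENNReal.toReal_ofReal (sz_pos _).le]
    rfl
  have hb0 : 0 < volume.real (Metric.closedBall x ρ) :=
    ENNReal.toReal_pos (Metric.measure_closedBall_pos _ _ hρ0).ne' measure_closedBall_lt_top.ne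
  have hb1 : volume.real (Metric.closedBall x ρ) ≤ (2 * ((d : ℝ) + 1)) ^ d * sz d (-(n : ℤ)) := by
    refine ENNReal.toReal_le_of_le_ofReal (by positivity) ?_
    have := volume_norm_le x hρ0.le
    rw [sz, ← mul_pow, mul_assoc]
    simpa only [Metric.closedBall, dist_eq_norm] using this
  have e1 : (∫ y in cube (cb (-(n : ℤ)) x), w y) / sz d (-(n : ℤ)) - w x =
      (∫ y in cube (cb (-(n : ℤ)) x), (w y - w x)) / sz d (-(n : ℤ)) := by
    rw [integral_sub (hi.mono_set hsub) (hc.mono_set hsub), setIntegral_const, hv, smul_eq_mul]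
    field_simp
  have e2 : ‖∫ y in cube (cb (-(n : ℤ)) x), (w y - w x)‖ ≤
      ∫ y in Metric.closedBall x ρ, ‖w y - w x‖ :=
    (norm_integral_le_integral_norm _).trans (setIntegral_mono_set (hi.sub hc).norm
      (Filter.Eventually.of_forall fun _ => norm_nonneg _) hsub.eventuallyLE)
  have e3 : 0 ≤ ∫ y in Metric.closedBall x ρ, ‖w y - w x‖ := integral_nonneg fun _ => norm_nonneg _
  rw [e1, norm_div, Real.norm_of_nonneg hs.le, setAverage_eq, smul_eq_mul, div_le_iff₀ hs]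
  refine e2.trans ?_
  calc _ = volume.real (Metric.closedBall x ρ) * ((volume.real (Metric.closedBall x ρ))⁻¹ *
        ∫ y in Metric.closedBall x ρ, ‖w y - w x‖) := by field_simp
    _ ≤ (2 * ((d : ℝ) + 1)) ^ d * sz d (-(n : ℤ)) * ((volume.real (Metric.closedBall x ρ))⁻¹ *
        ∫ y in Metric.closedBall x ρ, ‖w y - w x‖) := by gcongr
    _ = _ := by ring

theorem rh_int {w : E d → ℝ} {A : ℝ} (h : A1 w A) (c : Cb d) {S : Set (E d)} (hS : S ⊆ big c) :
    IntegrableOn w S :=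
  (h.loc.integrableOn_isCompact (isBounded_big c).isCompact_closure).mono_set
    (hS.trans subset_closure)

theorem rh_ofReal {w : E d → ℝ} {A : ℝ} (h : A1 w A) (c : Cb d) :
    ENNReal.ofReal (∫ x in cube c, w x) = ∫⁻ x in cube c, ENNReal.ofReal (w x) :=
  ofReal_integral_eq_lintegral_ofReal (rh_int h c (cube_subset_big c))
    (Filter.Eventually.of_forall fun y => (h.pos y).le)

theorem rh_level {w : E d → ℝ} {A : ℝ} (h : A1 w A) (c : Cb d) {t : ℝ}
    (ht : ∫ x in cube c, w x ≤ t * sz d c.1) :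
    ∫⁻ x in {x ∈ cube c | t < w x}, ENNReal.ofReal (w x) ≤
      ENNReal.ofReal (2 ^ d * t) * volume {x ∈ cube c | t < A * w x} := by
  obtain ⟨T, hTS, hdj, hcov, hmax⟩ := exists_maximal
    {P : Cb d | P.1 ≤ c.1 ∧ cube P ⊆ cube c ∧ t * sz d P.1 < ∫ x in cube P, w x} c.1
    fun P hP => hP.1
  have hTc : T.Countable := T.to_countable
  have h1 : {x ∈ cube c | t < w x} ≤ᵐ[volume] ⋃ P ∈ T, cube P := by
    filter_upwards [cube_diff h.loc] with x hx hxc
    obtain ⟨n, hn1, hn2⟩ := ((hx.eventually (lt_mem_nhds hxc.2)).and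
      (Filter.eventually_ge_atTop (-c.1).toNat)).exists
    have hl : -(n : ℤ) ≤ c.1 := by omega
    obtain ⟨P, hP, -, hsub⟩ := hcov (cb (-n) x)
      ⟨hl, (lm_cube c).cube_subset hl (mem_cube_cb _ x) hxc.1, (lt_div_iff₀ (sz_pos _)).1 hn1⟩
    exact mem_biUnion hP (hsub (mem_cube_cb _ x))
  have h2 : ∀ P ∈ T, ∫ x in cube P, w x ≤ 2 ^ d * t * sz d P.1 := fun P hP => by
    obtain ⟨x, hx⟩ := cube_nonempty P
    obtain ⟨l1, l2, l3⟩ := hTS hP
    have hlt : P.1 + 1 ≤ c.1 := by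
      refine lt_of_le_of_ne l1 fun e => ?_
      have : P = c := by rw [← cb_eq_of_mem hx, e, cb_eq_of_mem (l2 hx)]
      rw [this] at l3
      exact l3.not_ge ht
    have hsub : cube P ⊆ cube (cb (P.1 + 1) x) :=
      (lm_cube (cb (P.1 + 1) x)).cube_subset (by simp [cb]) hx (mem_cube_cb _ x)
    have hn : ∫ y in cube (cb (P.1 + 1) x), w y ≤ t * sz d (P.1 + 1) := by
      by_contra hn
      have := hmax P hP (cb (P.1 + 1) x) ⟨hlt, (lm_cube c).cube_subset hlt (mem_cube_cb _ x) (l2 hx),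
        not_le.1 hn⟩ (by simp [cb]) hsub
      have := congrArg Prod.fst this
      simp [cb] at this
    have e := sz_add (d := d) P.1 1
    rw [Nat.cast_one, pow_one] at e
    refine (setIntegral_mono_set (rh_int h _ (cube_subset_big _))
      (Filter.Eventually.of_forall fun y => (h.pos y).le) hsub.eventuallyLE).trans (hn.trans_eq ?_)
    rw [e]
    ring
  have h3 : (⋃ P ∈ T, cube P) ≤ᵐ[volume] {x ∈ cube c | t < A * w x} := by
    filter_upwards [ae_all_iff.2 h.le] with x hx hxT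
    obtain ⟨P, hP, hxP⟩ := mem_iUnion₂.1 hxT
    obtain ⟨-, l2, l3⟩ := hTS hP
    refine ⟨l2 hxP, lt_of_mul_lt_mul_right ?_ (sz_pos (d := d) P.1).le⟩
    have e := hx P.1
    rw [cb_eq_of_mem hxP] at e
    have := setIntegral_mono_set (rh_int h P subset_rfl)
      (Filter.Eventually.of_forall fun y => (h.pos y).le) (cube_subset_big P).eventuallyLE
    linarith
  have ht0 : 0 ≤ t := by
    have := (integral_nonneg fun y => (h.pos y).le).trans ht
    exact nonneg_of_mul_nonneg_left this (sz_pos _)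
  calc _ ≤ ∫⁻ x in ⋃ P ∈ T, cube P, ENNReal.ofReal (w x) := lintegral_mono_set' h1
    _ = ∑' P : T, ∫⁻ x in cube P.1, ENNReal.ofReal (w x) :=
        lintegral_biUnion hTc (fun P _ => measurableSet_cube P) hdj _
    _ ≤ ∑' P : T, ENNReal.ofReal (2 ^ d * t) * volume (cube P.1) := by
        refine ENNReal.tsum_le_tsum fun P => ?_
        rw [← rh_ofReal h, volume_cube, ← ENNReal.ofReal_mul (by positivity)]
        exact ENNReal.ofReal_le_ofReal (h2 P.1 P.2)
    _ = ENNReal.ofReal (2 ^ d * t) * volume (⋃ P ∈ T, cube P) := by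
        rw [ENNReal.tsum_mul_left, measure_biUnion hTc hdj fun P _ => measurableSet_cube P]
    _ ≤ _ := mul_le_mul_right (measure_mono_ae h3) _

theorem rh_const {A : ℝ} (hA : 1 ≤ A) :
    1 / (2 ^ (d + 2) * A) * 2 ^ d * A ^ (1 + 1 / (2 ^ (d + 2) * A)) ≤ 1 / 2 := by
  have h0 : 0 < A := zero_lt_one.trans_le hA
  have h1 : A ^ (1 / (2 ^ (d + 2) * A)) ≤ 2 := by
    have e1 : Real.log A * (1 / (2 ^ (d + 2) * A)) ≤ 1 / 2 := by
      rw [mul_one_div, div_le_iff₀ (by positivity)]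
      have := Real.log_le_sub_one_of_pos h0
      have h2 : (1 : ℝ) ≤ 2 ^ d := one_le_pow₀ one_le_two
      rw [pow_add]
      nlinarith
    rw [Real.rpow_def_of_pos h0]
    refine (Real.exp_le_exp.2 e1).trans ?_
    have := Real.exp_one_lt_d9
    have e2 : Real.exp (1 / 2) * Real.exp (1 / 2) = Real.exp 1 := by
      rw [← Real.exp_add]
      norm_num
    nlinarith [Real.exp_pos (1 / 2)]
  rw [Real.rpow_add h0, Real.rpow_one]
  calc _ = A ^ (1 / (2 ^ (d + 2) * A)) / 4 := by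
        field_simp
        ring
    _ ≤ _ := by linarith

theorem rh_trunc {w : E d → ℝ} {A : ℝ} (h : A1 w A) (c : Cb d) {M : ℝ} (hM : 0 ≤ M) :
    ∫⁻ x in cube c, ENNReal.ofReal (w x) * ENNReal.ofReal (min (w x) M ^ (1 / (2 ^ (d + 2) * A))) ≤
      ENNReal.ofReal
        (2 * ((∫ x in cube c, w x) / sz d c.1) ^ (1 + 1 / (2 ^ (d + 2) * A)) * sz d c.1) := by
  have hA : 0 < A := zero_lt_one.trans_le h.one_le
  have hc := rh_const (d := d) h.one_le
  set ε : ℝ := 1 / (2 ^ (d + 2) * A) with hε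
  have hε0 : 0 < ε := by positivity
  have hs := sz_pos (d := d) c.1
  set a : ℝ := (∫ x in cube c, w x) / sz d c.1 with ha
  have ha0 : 0 ≤ a := div_nonneg (integral_nonneg fun y => (h.pos y).le) hs.le
  have haw : ∫ x in cube c, w x = a * sz d c.1 := (div_mul_cancel₀ _ hs.ne').symm
  have hwm := h.meas.ennreal_ofReal
  set ν : Measure (E d) := volume.restrict (cube c) with hν
  set μ : Measure (E d) := ν.withDensity fun x => ENNReal.ofReal (w x) with hμ
  have hμu : μ univ = ENNReal.ofReal (a * sz d c.1) := by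
    rw [hμ, withDensity_apply _ MeasurableSet.univ, Measure.restrict_univ, ← rh_ofReal h, haw]
  have hm1 : Measurable fun x => min (w x) M := h.meas.min measurable_const
  have hm2 : Measurable fun x => min (A * w x) M := (h.meas.const_mul A).min measurable_const
  have hp1 : ∀ x, 0 ≤ min (w x) M := fun x => le_min (h.pos x).le hM
  have hp2 : ∀ x, 0 ≤ min (A * w x) M := fun x => le_min (mul_pos hA (h.pos x)).le hM
  set J := ∫⁻ x, ENNReal.ofReal (w x) * ENNReal.ofReal (min (w x) M ^ ε) ∂ν with hJ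
  have hJμ : J = ∫⁻ x, ENNReal.ofReal (min (w x) M ^ ε) ∂μ :=
    (lintegral_withDensity_eq_lintegral_mul _ hwm (hm1.pow_const _).ennreal_ofReal).symm
  have hJt : J ≠ ∞ := by
    refine ne_top_of_le_ne_top (b := ∫⁻ _, ENNReal.ofReal (M ^ ε) ∂μ) ?_ ?_
    · rw [lintegral_const, hμu]
      exact ENNReal.mul_ne_top ENNReal.ofReal_ne_top ENNReal.ofReal_ne_top
    · rw [hJμ]
      exact lintegral_mono fun x => ENNReal.ofReal_le_ofReal
        (Real.rpow_le_rpow (hp1 x) (min_le_right _ _) hε0.le)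
  have l1 := lintegral_rpow_eq_lintegral_meas_lt_mul μ (Filter.Eventually.of_forall hp1)
    hm1.aemeasurable hε0
  have l2 := lintegral_rpow_eq_lintegral_meas_lt_mul μ (f := fun _ => a)
    (Filter.Eventually.of_forall fun _ => ha0) aemeasurable_const hε0
  have l3 := lintegral_rpow_eq_lintegral_meas_lt_mul ν (Filter.Eventually.of_forall hp2)
    hm2.aemeasurable (p := 1 + ε) (by linarith)
  have key : ∀ t ∈ Ioi (0 : ℝ), μ {x | t < min (w x) M} * ENNReal.ofReal (t ^ (ε - 1)) ≤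
      μ {_x | t < a} * ENNReal.ofReal (t ^ (ε - 1)) + ENNReal.ofReal (2 ^ d) *
        (ν {x | t < min (A * w x) M} * ENNReal.ofReal (t ^ (1 + ε - 1))) := fun t ht => by
    have ht0 : 0 < t := ht
    rcases lt_or_ge t a with h1 | h1
    · refine le_add_right (mul_le_mul_left (measure_mono fun x _ => h1) _)
    rcases lt_or_ge t M with h2 | h2
    · have e1 := rh_level h c (t := t) (haw ▸ mul_le_mul_of_nonneg_right h1 hs.le)
      have e2 : μ {x | t < min (w x) M} =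
          ∫⁻ x in {x ∈ cube c | t < w x}, ENNReal.ofReal (w x) := by
        rw [hμ, withDensity_apply _ (measurableSet_lt measurable_const hm1), hν,
          Measure.restrict_restrict (measurableSet_lt measurable_const hm1)]
        congr 2
        ext x
        simp [h2, and_comm]
      have e3 : ν {x | t < min (A * w x) M} = volume {x ∈ cube c | t < A * w x} := by
        rw [hν, Measure.restrict_apply (measurableSet_lt measurable_const hm2)]
        congr 1
        ext x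
        simp [h2, and_comm]
      have e4 : ENNReal.ofReal (t ^ (1 + ε - 1)) = ENNReal.ofReal t * ENNReal.ofReal (t ^ (ε - 1)) := by
        rw [← ENNReal.ofReal_mul ht0.le, show 1 + ε - 1 = 1 + (ε - 1) by ring, Real.rpow_add ht0,
          Real.rpow_one]
      refine le_add_left ?_
      rw [e2, e3, e4]
      refine (mul_le_mul_left e1 _).trans_eq ?_
      rw [ENNReal.ofReal_mul (by positivity)]
      ring
    · have : {x | t < min (w x) M} = ∅ :=
        eq_empty_of_forall_notMem fun x hx => (lt_min_iff.1 hx).2.not_ge h2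
      rw [this, measure_empty, zero_mul]
      exact zero_le
  have l4 : ∫⁻ x, ENNReal.ofReal (min (A * w x) M ^ (1 + ε)) ∂ν ≤
      ENNReal.ofReal (A ^ (1 + ε)) * J := by
    rw [hJ, ← lintegral_const_mul' _ _ ENNReal.ofReal_ne_top]
    refine lintegral_mono fun x => ?_
    rw [← ENNReal.ofReal_mul (h.pos x).le, ← ENNReal.ofReal_mul (by positivity)]
    refine ENNReal.ofReal_le_ofReal ?_
    have e1 : min (A * w x) M ≤ A * min (w x) M := by
      rw [mul_min_of_nonneg _ _ hA.le]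
      exact min_le_min le_rfl (le_mul_of_one_le_left hM h.one_le)
    rw [Real.rpow_add' (hp2 x) (by linarith), Real.rpow_add hA, Real.rpow_one, Real.rpow_one]
    calc _ ≤ A * w x * (A * min (w x) M) ^ ε :=
          mul_le_mul (min_le_left _ _) (Real.rpow_le_rpow (hp2 x) e1 hε0.le)
            (Real.rpow_nonneg (hp2 x) _) (mul_pos hA (h.pos x)).le
      _ = _ := by
          rw [Real.mul_rpow hA.le (hp1 x)]
          ring
  have l5 : J ≤ ENNReal.ofReal (a ^ (1 + ε) * sz d c.1) + ENNReal.ofReal (1 / 2) * J := by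
    have hma : Measurable fun t : ℝ => μ {_x | t < a} * ENNReal.ofReal (t ^ (ε - 1)) := by
      refine Measurable.mul (Antitone.measurable fun s t hst => measure_mono fun x hx => ?_)
        (measurable_id.pow_const _).ennreal_ofReal
      exact lt_of_le_of_lt hst hx
    calc J = _ := hJμ
      _ = _ := l1
      _ ≤ ENNReal.ofReal ε * ∫⁻ t in Ioi (0 : ℝ), (μ {_x | t < a} * ENNReal.ofReal (t ^ (ε - 1)) +
          ENNReal.ofReal (2 ^ d) *
            (ν {x | t < min (A * w x) M} * ENNReal.ofReal (t ^ (1 + ε - 1)))) :=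
          mul_le_mul_right (setLIntegral_mono' measurableSet_Ioi key) _
      _ = ∫⁻ _, ENNReal.ofReal (a ^ ε) ∂μ + ENNReal.ofReal ε * ENNReal.ofReal (2 ^ d) *
          ∫⁻ t in Ioi (0 : ℝ), ν {x | t < min (A * w x) M} * ENNReal.ofReal (t ^ (1 + ε - 1)) := by
          rw [lintegral_add_left hma, lintegral_const_mul' _ _ ENNReal.ofReal_ne_top, mul_add, l2,
            mul_assoc]
      _ ≤ ENNReal.ofReal (a ^ (1 + ε) * sz d c.1) + ENNReal.ofReal ε * ENNReal.ofReal (2 ^ d) *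
          (ENNReal.ofReal (A ^ (1 + ε)) * J) := by
          refine add_le_add (le_of_eq ?_) (mul_le_mul_right (le_trans ?_ l4) _)
          · rw [lintegral_const, hμu, ← ENNReal.ofReal_mul (Real.rpow_nonneg ha0 _),
              Real.rpow_add' ha0 (by linarith), Real.rpow_one]
            congr 1
            ring
          · rw [l3]
            exact le_mul_of_one_le_left' (ENNReal.one_le_ofReal.2 (by linarith))
      _ ≤ _ := by
          rw [← mul_assoc, ← ENNReal.ofReal_mul hε0.le, ← ENNReal.ofReal_mul (by positivity)]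
          exact add_le_add le_rfl (mul_le_mul_left (ENNReal.ofReal_le_ofReal hc) _)
  have l6 := ENNReal.toReal_mono (ENNReal.add_ne_top.2 ⟨ENNReal.ofReal_ne_top,
    ENNReal.mul_ne_top ENNReal.ofReal_ne_top hJt⟩) l5
  rw [ENNReal.toReal_add ENNReal.ofReal_ne_top (ENNReal.mul_ne_top ENNReal.ofReal_ne_top hJt),
    ENNReal.toReal_mul, ENNReal.toReal_ofReal (by positivity),
    ENNReal.toReal_ofReal (by norm_num)] at l6
  rw [← ENNReal.ofReal_toReal hJt]
  exact ENNReal.ofReal_le_ofReal (by linarith)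

theorem rh {w : E d → ℝ} {A : ℝ} (h : A1 w A) (c : Cb d) :
    ∫⁻ x in cube c, ENNReal.ofReal (w x) ^ (1 + 1 / (2 ^ (d + 2) * A)) ≤ ENNReal.ofReal
      (2 * ((∫ x in cube c, w x) / sz d c.1) ^ (1 + 1 / (2 ^ (d + 2) * A)) * sz d c.1) := by
  have hA : 0 < A := zero_lt_one.trans_le h.one_le
  have e : ∀ x, ENNReal.ofReal (w x) ^ (1 + 1 / (2 ^ (d + 2) * A)) = Filter.liminf (fun n : ℕ =>
      ENNReal.ofReal (w x) * ENNReal.ofReal (min (w x) n ^ (1 / (2 ^ (d + 2) * A))))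
      Filter.atTop := fun x => by
    refine (Filter.Tendsto.liminf_eq (tendsto_const_nhds.congr' ?_)).symm
    filter_upwards [Filter.eventually_ge_atTop ⌈w x⌉₊] with n hn
    rw [min_eq_left (Nat.ceil_le.1 hn), ENNReal.ofReal_rpow_of_pos (h.pos x),
      Real.rpow_add (h.pos x), Real.rpow_one, ENNReal.ofReal_mul (h.pos x).le]
  simp only [e]
  refine (lintegral_liminf_le fun n => ?_).trans (Filter.liminf_le_of_frequently_le'
    (Filter.Frequently.of_forall fun n => rh_trunc h c (Nat.cast_nonneg n)))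
  exact h.meas.ennreal_ofReal.mul ((h.meas.min measurable_const).pow_const _).ennreal_ofReal

end Pool.Agent.MP_418f02_an

end

section

open MeasureTheory Set
open scoped ENNReal RealInnerProductSpace

namespace Pool.Agent.MP_418f02_an

variable {d : ℕ}

theorem wt2_vol_pos (j : ℤ) : (0 : ℝ) < 3 ^ d * sz d j := mul_pos (by positivity) (sz_pos j)

theorem wt2_holder {F H : E d → ℝ≥0∞} (hF : Measurable F) (hH : Measurable H) {p q : ℝ}
    (hpq : p.HolderConjugate q) (j : ℤ) (x : E d) :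
    av j (fun y => F y * H y) x ≤
      av j (fun y => F y ^ p) x ^ (1 / p) * av j (fun y => H y ^ q) x ^ (1 / q) := by
  unfold av
  set V : ℝ≥0∞ := ENNReal.ofReal (3 ^ d * sz d j) with hV
  have hV0 : V ≠ 0 := by
    rw [hV]; exact (ENNReal.ofReal_pos.2 (wt2_vol_pos j)).ne'
  have hVt : V ≠ ∞ := ENNReal.ofReal_ne_top
  have hp : 0 ≤ 1 / p := by have := hpq.pos; positivity
  have hq : 0 ≤ 1 / q := by have := hpq.symm.pos; positivity
  have h := ENNReal.lintegral_mul_le_Lp_mul_Lq (volume.restrict (big (cb j x))) hpq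
    hF.aemeasurable hH.aemeasurable
  have hVV : V ^ (1 / p) * V ^ (1 / q) = V := by
    rw [← ENNReal.rpow_add _ _ hV0 hVt, one_div, one_div, hpq.inv_add_inv_eq_one,
      ENNReal.rpow_one]
  rw [ENNReal.div_rpow_of_nonneg _ _ hp, ENNReal.div_rpow_of_nonneg _ _ hq]
  have h1 : V ^ (1 / p) ≠ 0 := (ENNReal.rpow_pos (pos_iff_ne_zero.2 hV0) hVt).ne'
  have h2 : V ^ (1 / p) ≠ ∞ := ENNReal.rpow_ne_top_of_nonneg hp hVt
  generalize (1 / p) = a at *
  generalize (1 / q) = b at *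
  rw [div_eq_mul_inv, div_eq_mul_inv, div_eq_mul_inv, mul_mul_mul_comm,
    ← ENNReal.mul_inv (Or.inl h1) (Or.inl h2), hVV]
  exact mul_le_mul_left h _

theorem wt2_av_w {w : E d → ℝ} {A : ℝ} (h : A1 w A) (j : ℤ) (x : E d) :
    av j (fun y => ENNReal.ofReal (w y) ^ (1 + 1 / (2 ^ (d + 2) * A))) x ≤
      2 * (3 ^ d * av j (fun y => ENNReal.ofReal (w y)) x) ^ (1 + 1 / (2 ^ (d + 2) * A)) := by
  have hA : 0 < A := lt_of_lt_of_le one_pos h.one_le
  set γ : ℝ := 1 + 1 / (2 ^ (d + 2) * A) with hγ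
  have hγ0 : 0 ≤ γ := by positivity
  have hint : IntegrableOn w (big (cb j x)) volume :=
    (h.loc.integrableOn_isCompact (isBounded_big (cb j x)).isCompact_closure).mono_set
      subset_closure
  set I : ℝ := ∫ y in big (cb j x), w y with hI
  have hI0 : 0 ≤ I := integral_nonneg fun y => (h.pos y).le
  have hs := sz_pos (d := d) j
  have hl : ∫⁻ y in big (cb j x), ENNReal.ofReal (w y) = ENNReal.ofReal I :=
    (ofReal_integral_eq_lintegral_ofReal hint
      (Filter.Eventually.of_forall fun y => (h.pos y).le)).symm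
  have hav : 3 ^ d * av j (fun y => ENNReal.ofReal (w y)) x = ENNReal.ofReal (I / sz d j) := by
    unfold av
    rw [hl, ← ENNReal.ofReal_div_of_pos (wt2_vol_pos j)]
    have : (3 : ℝ≥0∞) ^ d = ENNReal.ofReal (3 ^ d) := by
      rw [ENNReal.ofReal_pow (by norm_num)]; norm_num
    rw [this, ← ENNReal.ofReal_mul (by positivity)]
    congr 1
    field_simp
  obtain ⟨N, hc, -, hlev, hb⟩ := exists_nbrs (cb j x)
  have hlev' : ∀ c ∈ N, c.1 = j := hlev
  have hsum : ∫⁻ y in big (cb j x), ENNReal.ofReal (w y) ^ γ ≤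
      ∑ c ∈ N, ∫⁻ y in cube c, ENNReal.ofReal (w y) ^ γ := by
    rw [hb]
    have e : (⋃ c ∈ N, cube c) = ⋃ c : N, cube (c : Cb d) := by
      ext y; simp
    rw [e]
    refine (lintegral_iUnion_le _ _).trans ?_
    rw [tsum_fintype, Finset.sum_coe_sort N
      (fun c => ∫⁻ y in cube c, ENNReal.ofReal (w y) ^ γ)]
  have hone : ∀ c ∈ N, ∫⁻ y in cube c, ENNReal.ofReal (w y) ^ γ ≤
      ENNReal.ofReal (2 * (I / sz d j) ^ γ * sz d j) := by
    intro c hcN
    refine (rh h c).trans (ENNReal.ofReal_le_ofReal ?_)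
    rw [hlev' c hcN]
    have hsub : cube c ⊆ big (cb j x) := by
      rw [hb]; exact subset_biUnion_of_mem (u := fun c => cube c) (Finset.mem_coe.2 hcN)
    have hle : ∫ y in cube c, w y ≤ I :=
      setIntegral_mono_set hint (Filter.Eventually.of_forall fun y => (h.pos y).le)
        hsub.eventuallyLE
    have h0 : 0 ≤ ∫ y in cube c, w y := integral_nonneg fun y => (h.pos y).le
    gcongr
  have htot := hsum.trans (Finset.sum_le_card_nsmul N _ _ hone)
  rw [hc] at htot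
  rw [hav, ENNReal.ofReal_rpow_of_nonneg (by positivity) hγ0]
  unfold av
  have hV0 : ENNReal.ofReal (3 ^ d * sz d j) ≠ 0 := (ENNReal.ofReal_pos.2 (wt2_vol_pos j)).ne'
  refine ENNReal.div_le_of_le_mul (htot.trans (le_of_eq ?_))
  have e2 : (2 : ℝ≥0∞) = ENNReal.ofReal 2 := by norm_num
  rw [nsmul_eq_mul, e2, ← ENNReal.ofReal_natCast, ← ENNReal.ofReal_mul (by positivity),
    ← ENNReal.ofReal_mul (by positivity), ← ENNReal.ofReal_mul (by positivity)]
  congr 1
  push_cast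
  ring

theorem wt2_cancel (M : ℝ≥0∞) {y : ℝ} (hy : 0 < y) : M ^ y * M ^ (-y) ≤ 1 := by
  rcases eq_or_ne M 0 with rfl | h0
  · rw [ENNReal.zero_rpow_of_pos hy]; simp
  rcases eq_or_ne M ∞ with rfl | ht
  · rw [ENNReal.top_rpow_of_neg (neg_lt_zero.2 hy)]; simp
  rw [← ENNReal.rpow_add _ _ h0 ht]; simp

/-- the pointwise estimate -/
theorem wt2_point {w : E d → ℝ} {A : ℝ} (h : A1 w A) {g : E d → ℝ} (hg : Measurable g)
    {q u v κ γ : ℝ} (hq : 1 < q) (hu : 0 < u) (hv : 0 < v)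
    (hγ : γ = 1 + 1 / (2 ^ (d + 2) * A)) (hκ : κ = v * γ) (hκq : κ * q = q - 1)
    (a b : ℤ) (x : E d) :
    mx a b (fun y => ENNReal.ofReal |g y| ^ (u + v)⁻¹) x ^ (q / (u + v)⁻¹) *
        mx a b (fun y => ENNReal.ofReal (w y)) x ^ (-(q - 1)) ≤
      (2 ^ (v * q) * (3 ^ d) ^ (q - 1)) *
        mx a b (fun y => (ENNReal.ofReal |g y| * ENNReal.ofReal (w y) ^ (-κ)) ^ u⁻¹) x ^
          (u * q) := by
  have hA : 0 < A := lt_of_lt_of_le one_pos h.one_le
  have hγ0 : 0 < γ := by rw [hγ]; positivity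
  have hρ : 0 < u + v := by positivity
  set G : E d → ℝ≥0∞ := fun y => ENNReal.ofReal |g y| * ENNReal.ofReal (w y) ^ (-κ) with hG
  have hw : Measurable fun y => ENNReal.ofReal (w y) := h.meas.ennreal_ofReal
  have hGm : Measurable G := (hg.abs.ennreal_ofReal).mul (hw.pow_const _)
  set M := mx a b (fun y => ENNReal.ofReal (w y)) x with hM
  set X := mx a b (fun y => G y ^ u⁻¹) x with hX
  have hconj : ((u + v) / u).HolderConjugate ((u + v) / v) := by
    rw [Real.holderConjugate_iff]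
    refine ⟨(one_lt_div hu).2 (by linarith), ?_⟩
    field_simp
  have hsplit : (fun y => ENNReal.ofReal |g y| ^ (u + v)⁻¹) =
      fun y => G y ^ (u + v)⁻¹ * (ENNReal.ofReal (w y) ^ κ) ^ (u + v)⁻¹ := by
    funext y
    have h0 : ENNReal.ofReal (w y) ≠ 0 := (ENNReal.ofReal_pos.2 (h.pos y)).ne'
    rw [← ENNReal.mul_rpow_of_nonneg _ _ (by positivity), hG]
    dsimp only
    rw [mul_assoc, ← ENNReal.rpow_add _ _ h0 ENNReal.ofReal_ne_top]
    simp
  have hbound : mx a b (fun y => ENNReal.ofReal |g y| ^ (u + v)⁻¹) x ≤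
      X ^ (u / (u + v)) * (2 * (3 ^ d * M) ^ γ) ^ (v / (u + v)) := by
    rw [mx_le_iff]
    intro j ha hb
    rw [hsplit]
    refine (wt2_holder (hGm.pow_const _) ((hw.pow_const _).pow_const _) hconj j x).trans ?_
    have e1 : (fun y => (G y ^ (u + v)⁻¹) ^ ((u + v) / u)) = fun y => G y ^ u⁻¹ := by
      funext y
      rw [← ENNReal.rpow_mul]
      congr 1
      field_simp
    have e2 : (fun y => ((ENNReal.ofReal (w y) ^ κ) ^ (u + v)⁻¹) ^ ((u + v) / v)) =
        fun y => ENNReal.ofReal (w y) ^ γ := by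
      funext y
      rw [← ENNReal.rpow_mul, ← ENNReal.rpow_mul, hκ]
      congr 1
      field_simp
    rw [e1, e2, one_div_div, one_div_div]
    have h1 := av_le_mx ha hb (fun y => G y ^ u⁻¹) x
    have h2 := av_le_mx ha hb (fun y => ENNReal.ofReal (w y)) x
    have h3 := wt2_av_w h j x
    rw [← hγ] at h3
    have h4 : av j (fun y => ENNReal.ofReal (w y) ^ γ) x ≤ 2 * (3 ^ d * M) ^ γ := by
      refine h3.trans ?_
      gcongr
    gcongr
  have hq0 : 0 ≤ q / (u + v)⁻¹ := by positivity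
  have hpow : mx a b (fun y => ENNReal.ofReal |g y| ^ (u + v)⁻¹) x ^ (q / (u + v)⁻¹) ≤
      X ^ (u * q) * (2 ^ (v * q) * ((3 ^ d) ^ (q - 1) * M ^ (q - 1))) := by
    refine (ENNReal.rpow_le_rpow hbound hq0).trans (le_of_eq ?_)
    have e1 : u / (u + v) * (q / (u + v)⁻¹) = u * q := by field_simp
    have e2 : v / (u + v) * (q / (u + v)⁻¹) = v * q := by field_simp
    have e3 : γ * (v * q) = q - 1 := by rw [← hκq, hκ]; ring
    rw [ENNReal.mul_rpow_of_nonneg _ _ hq0, ← ENNReal.rpow_mul, ← ENNReal.rpow_mul, e1, e2,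
      ENNReal.mul_rpow_of_nonneg _ _ (by positivity), ← ENNReal.rpow_mul, e3,
      ENNReal.mul_rpow_of_nonneg _ _ (by linarith)]
  calc _ ≤ X ^ (u * q) * (2 ^ (v * q) * ((3 ^ d) ^ (q - 1) * M ^ (q - 1))) * M ^ (-(q - 1)) :=
        mul_le_mul_left hpow _
    _ = (2 ^ (v * q) * (3 ^ d) ^ (q - 1)) * X ^ (u * q) * (M ^ (q - 1) * M ^ (-(q - 1))) := by
        ring
    _ ≤ (2 ^ (v * q) * (3 ^ d) ^ (q - 1)) * X ^ (u * q) * 1 :=
        mul_le_mul_right (wt2_cancel M (by linarith)) _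
    _ = _ := mul_one _

theorem mx_chain : ∃ C : ℝ, 0 < C ∧ ∀ (w : E d → ℝ) (A q : ℝ), A1 w A → 2 ≤ q →
    ∃ N r : ℝ, 1 ≤ N ∧ N ≤ C * A ∧ 1 + 1 / N ≤ r ∧ ∀ g : E d → ℝ, Measurable g → ∀ a b : ℤ,
    ∫⁻ x, mx a b (fun y => ENNReal.ofReal |g y| ^ r) x ^ (q / r) *
        mx a b (fun y => ENNReal.ofReal (w y)) x ^ (-(q - 1)) ≤
      ENNReal.ofReal (C ^ q * A) *
        ∫⁻ x, ENNReal.ofReal |g x| ^ q * ENNReal.ofReal (w x) ^ (-(q - 1)) := by
  set T : ℝ := 2 ^ (d + 2) with hT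
  set S : ℝ := 3 ^ d with hS
  have hT1 : 1 ≤ T := one_le_pow₀ (by norm_num)
  have hS1 : 1 ≤ S := one_le_pow₀ (by norm_num)
  set D : ℝ := S * (3 + 2 * T) with hD
  have hD1 : 1 ≤ D := by nlinarith
  refine ⟨4 * S * D, by positivity, fun w A q h hq => ?_⟩
  have hA1 := h.one_le
  set B : ℝ := T * A with hB
  have hB1 : 1 ≤ B := by nlinarith
  have hq0 : 0 < q := by linarith
  -- eta = 1 / (B + 1)
  set η : ℝ := 1 / (B + 1) with hη
  have hη0 : 0 < η := by positivity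
  have hη1 : η ≤ 1 / 2 := by
    rw [hη]; exact one_div_le_one_div_of_le (by norm_num) (by linarith)
  have hηB : η * (B + 1) = 1 := by rw [hη]; field_simp
  set u : ℝ := (1 + η * (3 * q / 4 - 1)) / q with hu
  set v : ℝ := (q - 1) / q * (1 - η) with hv
  have huq : u * q = 1 + η * (3 * q / 4 - 1) := by rw [hu]; field_simp
  have hvq : v * q = (q - 1) * (1 - η) := by rw [hv]; field_simp
  have hs1 : 1 + η / 2 ≤ u * q := by rw [huq]; nlinarith
  have hs2 : u * q ≤ q := by rw [huq]; nlinarith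
  have hu0 : 0 < u := by
    rw [hu]; apply div_pos _ hq0; nlinarith
  have hv0 : 0 < v := by
    rw [hv]; apply mul_pos (div_pos (by linarith) hq0); linarith
  have huv : u + v = 1 - η / 4 := by rw [hu, hv]; field_simp; ring
  have hκ : (q - 1) / q = v * (1 + 1 / (2 ^ (d + 2) * A)) := by
    rw [hv, ← hT, ← hB, hη]; field_simp; ring
  refine ⟨8 * B, (u + v)⁻¹, by linarith, ?_, ?_, fun g hg a b => ?_⟩
  · have : 2 * T ≤ S * D := by nlinarith
    nlinarith
  · rw [huv, le_inv_comm₀ (by positivity) (by linarith), inv_eq_one_div,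
      le_div_iff₀ (by positivity)]
    have e : 1 / (8 * B) ≤ η / 4 := by
      rw [hη, div_div, one_div_le_one_div (by positivity) (by positivity)]; linarith
    have e0 : 0 < 1 / (8 * B) := by positivity
    nlinarith
  set κ : ℝ := (q - 1) / q with hκd
  have hκq : κ * q = q - 1 := by rw [hκd]; field_simp
  set F : E d → ℝ≥0∞ :=
    fun y => (ENNReal.ofReal |g y| * ENNReal.ofReal (w y) ^ (-κ)) ^ u⁻¹ with hF
  have hFm : Measurable F :=
    ((hg.abs.ennreal_ofReal).mul (h.meas.ennreal_ofReal.pow_const _)).pow_const _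
  have hs : 1 < u * q := by linarith
  have hFs : ∀ y, F y ^ (u * q) = ENNReal.ofReal |g y| ^ q * ENNReal.ofReal (w y) ^ (-(q - 1)) := by
    intro y
    rw [hF]
    dsimp only
    rw [← ENNReal.rpow_mul, show u⁻¹ * (u * q) = q by field_simp,
      ENNReal.mul_rpow_of_nonneg _ _ hq0.le, ← ENNReal.rpow_mul, neg_mul, hκq]
  have hK : (2 : ℝ≥0∞) ^ (v * q) * (3 ^ d) ^ (q - 1) = ENNReal.ofReal (2 ^ (v * q) * S ^ (q - 1)) := by
    have e2 : (2 : ℝ≥0∞) = ENNReal.ofReal 2 := by norm_num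
    have e3 : (3 : ℝ≥0∞) ^ d = ENNReal.ofReal S := by
      rw [hS, ENNReal.ofReal_pow (by norm_num)]; norm_num
    rw [e2, e3, ENNReal.ofReal_rpow_of_pos (by norm_num), ENNReal.ofReal_rpow_of_pos (by linarith),
      ← ENNReal.ofReal_mul (by positivity)]
  have hconst : 2 ^ (v * q) * S ^ (q - 1) * (3 ^ d * 2 ^ (u * q) * (u * q / (u * q - 1))) ≤
      (4 * S * D) ^ q * A := by
    have h1 : (2 : ℝ) ^ (v * q) ≤ 2 ^ q :=
      Real.rpow_le_rpow_of_exponent_le (by norm_num) (by rw [hvq]; nlinarith)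
    have h2 : S ^ (q - 1) ≤ S ^ q := Real.rpow_le_rpow_of_exponent_le hS1 (by linarith)
    have h3 : (2 : ℝ) ^ (u * q) ≤ 2 ^ q := Real.rpow_le_rpow_of_exponent_le (by norm_num) hs2
    have h4 : u * q / (u * q - 1) ≤ (3 + 2 * T) * A := by
      rw [div_le_iff₀ (by linarith)]
      have h5 : 2 * B + 3 ≤ (3 + 2 * T) * A := by rw [hB]; nlinarith
      have h6 : (2 * B + 3) * (u * q - 1) ≤ (3 + 2 * T) * A * (u * q - 1) :=
        mul_le_mul_of_nonneg_right h5 (by linarith)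
      have h7 : (B + 1) * η ≤ (B + 1) * (2 * (u * q - 1)) :=
        mul_le_mul_of_nonneg_left (by linarith) (by linarith)
      nlinarith
    have h5 : D ≤ D ^ q := by
      conv_lhs => rw [← Real.rpow_one D]
      exact Real.rpow_le_rpow_of_exponent_le hD1 (by linarith)
    have h6 : (4 * S * D) ^ q = 2 ^ q * 2 ^ q * S ^ q * D ^ q := by
      rw [← Real.mul_rpow (by norm_num) (by norm_num), ← Real.mul_rpow (by norm_num) (by linarith),
        ← Real.mul_rpow (by positivity) (by linarith)]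
      norm_num
    have h7 : 0 ≤ u * q / (u * q - 1) := div_nonneg (by linarith) (by linarith)
    calc _ ≤ 2 ^ q * S ^ q * (S * 2 ^ q * ((3 + 2 * T) * A)) := by gcongr
      _ = 2 ^ q * 2 ^ q * S ^ q * D * A := by rw [hD]; ring
      _ ≤ 2 ^ q * 2 ^ q * S ^ q * D ^ q * A := by gcongr
      _ = _ := by rw [h6]
  calc _ ≤ ∫⁻ x, ENNReal.ofReal (2 ^ (v * q) * S ^ (q - 1)) * mx a b F x ^ (u * q) := by
        refine lintegral_mono fun x => ?_
        rw [← hK]
        exact wt2_point h hg (by linarith) hu0 hv0 rfl hκ hκq a b x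
    _ = ENNReal.ofReal (2 ^ (v * q) * S ^ (q - 1)) * ∫⁻ x, mx a b F x ^ (u * q) :=
        lintegral_const_mul' _ _ ENNReal.ofReal_ne_top
    _ ≤ ENNReal.ofReal (2 ^ (v * q) * S ^ (q - 1)) *
          (ENNReal.ofReal (3 ^ d * 2 ^ (u * q) * (u * q / (u * q - 1))) * ∫⁻ x, F x ^ (u * q)) :=
        mul_le_mul_right (mx_strong a b hFm hs) _
    _ ≤ _ := by
        rw [← mul_assoc, ← ENNReal.ofReal_mul (by positivity)]
        simp only [hFs]
        exact mul_le_mul_left (ENNReal.ofReal_le_ofReal hconst) _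

end Pool.Agent.MP_418f02_an

end

section

open MeasureTheory Set
open scoped ENNReal RealInnerProductSpace

namespace Pool.Agent.MP_418f02_an

variable {d : ℕ}

theorem dual_abs {p : ℝ} (hp : 1 < p) (t : ℝ) : |t * |t| ^ (p - 2)| = |t| ^ (p - 1) := by
  rcases eq_or_ne t 0 with rfl | ht
  · simp [Real.zero_rpow (by linarith : p - 1 ≠ 0)]
  · rw [abs_mul, abs_of_nonneg (Real.rpow_nonneg (abs_nonneg t) _),
      show p - 1 = 1 + (p - 2) by ring, Real.rpow_add (abs_pos.2 ht), Real.rpow_one]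

theorem dual_mul {p : ℝ} (hp : 1 < p) (t : ℝ) : t * (t * |t| ^ (p - 2)) = |t| ^ p := by
  rcases eq_or_ne t 0 with rfl | ht
  · simp [Real.zero_rpow (by linarith : p ≠ 0)]
  · rw [← mul_assoc, ← abs_mul_abs_self, ← sq, ← Real.rpow_two, ← Real.rpow_add (abs_pos.2 ht)]
    congr 1
    ring

theorem dual_cancel {p q : ℝ} (hpq : p.HolderConjugate q) {I F B : ℝ≥0∞} (hI : I ≠ ∞)
    (h : I ≤ F ^ (1 / p) * (B ^ q * I) ^ (1 / q)) : I ≤ B ^ p * F := by
  have hp := hpq.pos
  have hq := hpq.symm.pos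
  rcases eq_or_ne I 0 with rfl | h0
  · exact zero_le
  have h1 : I = I ^ (1 / p) * I ^ (1 / q) := by
    rw [← ENNReal.rpow_add _ _ h0 hI, one_div, one_div, hpq.inv_add_inv_eq_one, ENNReal.rpow_one]
  rw [ENNReal.mul_rpow_of_nonneg _ _ (by positivity), ← ENNReal.rpow_mul,
    mul_one_div_cancel hq.ne', ENNReal.rpow_one, ← mul_assoc] at h
  nth_rewrite 1 [h1] at h
  have h2 : I ^ (1 / p) ≤ F ^ (1 / p) * B :=
    (ENNReal.mul_le_mul_iff_left (by simp [h0, hI]) (by simp [h0, hI])).1 h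
  have h3 := ENNReal.rpow_le_rpow h2 hp.le
  rwa [ENNReal.mul_rpow_of_nonneg _ _ hp.le, ← ENNReal.rpow_mul, ← ENNReal.rpow_mul,
    one_div_mul_cancel hp.ne', ENNReal.rpow_one, ENNReal.rpow_one, mul_comm] at h3

theorem dual_holder {w f T : E d → ℝ} {p q : ℝ} (hpq : p.HolderConjugate q)
    (hw : Measurable w) (hpos : ∀ x, 0 < w x) (hf : Measurable f) (hT : Measurable T) :
    ENNReal.ofReal (∫ x, f x * T x) ≤
      (∫⁻ x, ENNReal.ofReal |f x| ^ p * ENNReal.ofReal (w x)) ^ (1 / p) *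
        (∫⁻ x, ENNReal.ofReal |T x| ^ q * ENNReal.ofReal (w x) ^ (-(q - 1))) ^ (1 / q) := by
  have hp := hpq.pos
  have hq := hpq.symm.pos
  have h0 : ∀ x, ENNReal.ofReal (w x) ≠ 0 := fun x => by simpa using hpos x
  have h1 := ENNReal.lintegral_mul_le_Lp_mul_Lq (volume : Measure (E d)) hpq
    (f := fun x => ENNReal.ofReal |f x| * ENNReal.ofReal (w x) ^ (1 / p))
    (g := fun x => ENNReal.ofReal |T x| * ENNReal.ofReal (w x) ^ (-(1 / p)))
    (by fun_prop) (by fun_prop)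
  refine (Real.ofReal_le_enorm _).trans ((enorm_integral_le_lintegral_enorm _).trans ?_)
  refine (lintegral_congr fun x => ?_).le.trans (h1.trans_eq ?_)
  · rw [Pi.mul_apply, mul_mul_mul_comm, ← ENNReal.rpow_add _ _ (h0 x) ENNReal.ofReal_ne_top,
      add_neg_cancel, ENNReal.rpow_zero, mul_one, enorm_mul, Real.enorm_eq_ofReal_abs,
      Real.enorm_eq_ofReal_abs]
  · congr 2
    · refine lintegral_congr fun x => ?_
      rw [ENNReal.mul_rpow_of_nonneg _ _ hp.le, ← ENNReal.rpow_mul, one_div_mul_cancel hp.ne',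
        ENNReal.rpow_one]
    · refine lintegral_congr fun x => ?_
      rw [ENNReal.mul_rpow_of_nonneg _ _ hq.le, ← ENNReal.rpow_mul]
      congr 2
      have := hpq.symm.sub_one_mul_conj
      field_simp
      linarith

theorem dual_bound {k w : E d → ℝ} {A p B : ℝ} (hk : IsKer k) (hw : A1 w A) (hp : 1 < p)
    (hB : 0 ≤ B) (a b : ℤ) (h : ∀ g : E d → ℝ, Nice g →
      ∫⁻ x, ENNReal.ofReal |TT (rf k) a b g x| ^ (p / (p - 1)) *
          ENNReal.ofReal (w x) ^ (-(p / (p - 1) - 1)) ≤ ENNReal.ofReal (B ^ (p / (p - 1))) *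
        ∫⁻ x, ENNReal.ofReal |g x| ^ (p / (p - 1)) * ENNReal.ofReal (w x) ^ (-(p / (p - 1) - 1)))
    {f : E d → ℝ} (hf : Nice f) :
    ∫⁻ x, ENNReal.ofReal |TT k a b f x| ^ p * ENNReal.ofReal (w x) ≤
      ENNReal.ofReal (B ^ p) * ∫⁻ x, ENNReal.ofReal |f x| ^ p * ENNReal.ofReal (w x) := by
  have hpq : p.HolderConjugate (p / (p - 1)) := Real.HolderConjugate.conjExponent hp
  set q := p / (p - 1) with hqdef
  have hp0 := hpq.pos
  have hq0 := hpq.symm.pos
  have hu := TT_nice hk hf a b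
  set u := TT k a b f with hudef
  have hum := hu.meas
  have hwm := hw.meas
  have hS : ∀ M : ℕ, MeasurableSet {x | w x ≤ M} := fun M => measurableSet_le hwm measurable_const
  have key : ∀ M : ℕ, ∫⁻ x, {x | w x ≤ M}.indicator
      (fun x => ENNReal.ofReal |u x| ^ p * ENNReal.ofReal (w x)) x ≤
      ENNReal.ofReal (B ^ p) * ∫⁻ x, ENNReal.ofReal |f x| ^ p * ENNReal.ofReal (w x) := by
    intro M
    let g : E d → ℝ := {x | w x ≤ M}.indicator fun x => u x * |u x| ^ (p - 2) * w x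
    have hg : Nice g := by
      obtain ⟨C, hC⟩ := hu.bdd
      obtain ⟨R, hR⟩ := hu.supp
      refine ⟨Measurable.indicator (by fun_prop) (hS M), ⟨C ^ (p - 1) * M, fun x => ?_⟩,
        ⟨R, fun x hx => ?_⟩⟩
      · have hC0 : 0 ≤ C := (abs_nonneg _).trans (hC x)
        by_cases hx : x ∈ {x | w x ≤ M}
        · rw [show g x = u x * |u x| ^ (p - 2) * w x from indicator_of_mem hx _, abs_mul,
            dual_abs hp, abs_of_pos (hw.pos x)]
          have := hw.pos x
          have := hC x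
          have : w x ≤ M := hx
          have : 0 ≤ p - 1 := by linarith
          gcongr
        · rw [show g x = 0 from indicator_of_notMem hx _, abs_zero]
          positivity
      · simp [g, indicator, hR x hx]
    have h1 : ∀ x, ENNReal.ofReal (u x * g x) = {x | w x ≤ M}.indicator
        (fun x => ENNReal.ofReal |u x| ^ p * ENNReal.ofReal (w x)) x := by
      intro x
      by_cases hx : x ∈ {x | w x ≤ M}
      · rw [show g x = u x * |u x| ^ (p - 2) * w x from indicator_of_mem hx _, ← mul_assoc,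
          dual_mul hp, indicator_of_mem hx, ENNReal.ofReal_mul (by positivity),
          ENNReal.ofReal_rpow_of_nonneg (abs_nonneg _) hp0.le]
      · rw [show g x = 0 from indicator_of_notMem hx _, indicator_of_notMem hx]
        simp
    have h2 : ∀ x, ENNReal.ofReal |g x| ^ q * ENNReal.ofReal (w x) ^ (-(q - 1)) =
        {x | w x ≤ M}.indicator (fun x => ENNReal.ofReal |u x| ^ p * ENNReal.ofReal (w x)) x := by
      intro x
      by_cases hx : x ∈ {x | w x ≤ M}
      · have h0 : ENNReal.ofReal (w x) ≠ 0 := by simpa using hw.pos x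
        rw [show g x = u x * |u x| ^ (p - 2) * w x from indicator_of_mem hx _, abs_mul,
          dual_abs hp, abs_of_pos (hw.pos x), indicator_of_mem hx,
          ENNReal.ofReal_mul (by positivity), ENNReal.mul_rpow_of_nonneg _ _ hq0.le,
          ← ENNReal.ofReal_rpow_of_nonneg (abs_nonneg _) (by linarith), ← ENNReal.rpow_mul,
          hpq.sub_one_mul_conj, mul_assoc, ← ENNReal.rpow_add _ _ h0 ENNReal.ofReal_ne_top,
          show q + -(q - 1) = 1 by ring, ENNReal.rpow_one]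
      · rw [show g x = 0 from indicator_of_notMem hx _, indicator_of_notMem hx]
        simp [hq0]
    have h3 : ENNReal.ofReal (∫ x, u x * g x) = ∫⁻ x, {x | w x ≤ M}.indicator
        (fun x => ENNReal.ofReal |u x| ^ p * ENNReal.ofReal (w x)) x := by
      rw [ofReal_integral_eq_lintegral_ofReal (hu.mul hg).integrable]
      · exact lintegral_congr h1
      · refine Filter.Eventually.of_forall fun x => ?_
        by_cases hx : x ∈ {x | w x ≤ M}
        · have := hw.pos x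
          change 0 ≤ u x * g x
          rw [show g x = u x * |u x| ^ (p - 2) * w x from indicator_of_mem hx _, ← mul_assoc,
            dual_mul hp]
          positivity
        · change 0 ≤ u x * g x
          rw [show g x = 0 from indicator_of_notMem hx _, mul_zero]
    have h4 := h g hg
    rw [lintegral_congr h2, ← h3, ← ENNReal.ofReal_rpow_of_nonneg hB hq0.le] at h4
    rw [← h3, ← ENNReal.ofReal_rpow_of_nonneg hB hp0.le]
    refine dual_cancel hpq ENNReal.ofReal_ne_top ?_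
    have h5 := dual_holder hpq hwm hw.pos hf.meas (TT_nice hk.rf hg a b).meas
    rw [← TT_dual hk hf hg a b] at h5
    refine h5.trans ?_
    gcongr
  have h6 : ∀ x, ENNReal.ofReal |u x| ^ p * ENNReal.ofReal (w x) = ⨆ M : ℕ,
      {x | w x ≤ M}.indicator (fun x => ENNReal.ofReal |u x| ^ p * ENNReal.ofReal (w x)) x := by
    intro x
    refine le_antisymm ?_ (iSup_le fun M => indicator_le_self _ _ x)
    obtain ⟨M, hM⟩ := exists_nat_ge (w x)
    refine le_iSup_of_le M ?_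
    rw [indicator_of_mem (s := {x | w x ≤ M}) hM]
  rw [lintegral_congr h6, lintegral_iSup]
  · exact iSup_le key
  · exact fun M => Measurable.indicator (by fun_prop) (hS M)
  · intro M N hMN x
    refine indicator_le_indicator_of_subset (fun y (hy : w y ≤ M) => ?_) (fun _ => zero_le) x
    exact hy.trans (Nat.cast_le.2 hMN)

end Pool.Agent.MP_418f02_an

end

section

open MeasureTheory Set
open scoped ENNReal RealInnerProductSpace

namespace Pool.Agent.MP_418f02_an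

variable {d : ℕ}

/-- the unit scale kernel of `Ω` -/
noncomputable def kO (Ω : E d → ℝ) (M : ℝ) : E d → ℝ :=
  {y : E d | 1 ≤ ‖y‖ ∧ ‖y‖ ≤ 2}.indicator fun y => Ω (‖y‖⁻¹ • y) / M

theorem lim_meas {Ω : E d → ℝ} (hΩ : Measurable Ω) : Measurable fun y : E d => Ω (‖y‖⁻¹ • y) :=
  hΩ.comp (measurable_norm.inv.smul measurable_id)

theorem isKer_kO {Ω : E d → ℝ} {M : ℝ} (hΩ : Measurable Ω) (hM : 0 < M) (hb : ∀ x, |Ω x| ≤ M)
    (h0 : ∫ y in {y : E d | 1 ≤ ‖y‖ ∧ ‖y‖ ≤ 2}, Ω (‖y‖⁻¹ • y) = 0) : IsKer (kO Ω M) := by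
  have hS : MeasurableSet {y : E d | 1 ≤ ‖y‖ ∧ ‖y‖ ≤ 2} :=
    (measurableSet_le measurable_const measurable_norm).inter
      (measurableSet_le measurable_norm measurable_const)
  refine ⟨((lim_meas hΩ).div_const M).indicator hS, fun y => ?_, fun y hy => ?_, ?_⟩
  · unfold kO
    by_cases hy : y ∈ {y : E d | 1 ≤ ‖y‖ ∧ ‖y‖ ≤ 2}
    · rw [indicator_of_mem hy, abs_div, abs_of_pos hM, div_le_one hM]; exact hb _
    · rw [indicator_of_notMem hy]; simp
  · exact indicator_of_notMem (fun h => absurd h.2 (not_le.2 hy)) _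
  · unfold kO
    rw [integral_indicator hS, integral_div, h0, zero_div]

theorem lim_ind {F g : ℝ → ℝ} {a b : ℝ} (h1 : 1 ≤ a) (hab : a ≤ b) (h2 : b ≤ 2)
    (hF : ∀ t ∈ Ioo a b, F t = g t) (h0 : ∀ t ∈ Icc (1 : ℝ) 2, t < a ∨ b < t → F t = 0) :
    ∫ t in (1 : ℝ)..2, F t = ∫ t in a..b, g t := by
  rw [intervalIntegral.integral_of_le one_le_two, intervalIntegral.integral_of_le hab,
    integral_Ioc_eq_integral_Ioo, integral_Ioc_eq_integral_Ioo,
    ← setIntegral_congr_fun measurableSet_Ioo hF]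
  refine setIntegral_eq_of_subset_of_ae_sdiff_eq_zero measurableSet_Ioo.nullMeasurableSet
    (Ioo_subset_Ioo h1 h2) ?_
  filter_upwards [compl_mem_ae_iff.2 (measure_singleton a),
    compl_mem_ae_iff.2 (measure_singleton b)] with t ha hb ht
  refine h0 t (Ioo_subset_Icc_self ht.1) ?_
  by_contra hc
  push Not at hc
  exact ht.2 ⟨lt_of_le_of_ne hc.1 (Ne.symm ha), lt_of_le_of_ne hc.2 hb⟩

theorem lim_ab {ρ : ℝ} : ∃ a b : ℝ, 1 ≤ a ∧ a ≤ b ∧ b ≤ 2 ∧ (a = b ∨ a * b = ρ) ∧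
    (∀ t ∈ Ioo a b, ρ < 2 * t ∧ t < ρ) ∧
    ∀ t ∈ Icc (1 : ℝ) 2, t < a ∨ b < t → 2 * t < ρ ∨ ρ < t := by
  rcases le_total ρ 1 with h1 | h1
  · exact ⟨1, 1, le_rfl, le_rfl, one_le_two, Or.inl rfl, fun t ht => by
      constructor <;> linarith [ht.1, ht.2], fun t ht h => by
      rcases h with h | h
      · linarith [ht.1]
      · right; linarith⟩
  rcases le_total ρ 2 with h2 | h2
  · exact ⟨1, ρ, le_rfl, h1, h2, Or.inr (one_mul _), fun t ht => by
      constructor <;> linarith [ht.1, ht.2], fun t ht h => by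
      rcases h with h | h
      · linarith [ht.1]
      · right; linarith⟩
  rcases le_total ρ 4 with h4 | h4
  · exact ⟨ρ / 2, 2, by linarith, by linarith, le_rfl, Or.inr (by ring), fun t ht => by
      constructor <;> linarith [ht.1, ht.2], fun t ht h => by
      rcases h with h | h
      · left; linarith
      · linarith [ht.2]⟩
  · exact ⟨2, 2, one_le_two, le_rfl, le_rfl, Or.inl rfl, fun t ht => by
      constructor <;> linarith [ht.1, ht.2], fun t ht h => by
      rcases h with h | h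
      · left; linarith
      · linarith [ht.2]⟩

theorem lim_pow (n : ℕ) {a b : ℝ} (ha : 0 < a) (hab : a ≤ b) :
    ∫ t in a..b, t ^ (n + 1) / t = (b ^ (n + 1) - a ^ (n + 1)) / (n + 1) := by
  rw [← integral_pow]
  refine intervalIntegral.integral_congr fun t ht => ?_
  rw [uIcc_of_le hab] at ht
  have : t ≠ 0 := (ha.trans_le ht.1).ne'
  rw [pow_succ, mul_div_cancel_right₀ _ this]

theorem lim_inv (n : ℕ) {a b : ℝ} (ha : 0 < a) (hab : a ≤ b) :
    ∫ t in a..b, (t ^ (n + 1))⁻¹ / t = (b ^ (n + 1) - a ^ (n + 1)) / (n + 1) / (a * b) ^ (n + 1) := by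
  have hb := ha.trans_le hab
  have h1 : ∫ t in a..b, (t ^ (n + 1))⁻¹ / t = ∫ t in a..b, t ^ (-(n + 2 : ℤ)) := by
    refine intervalIntegral.integral_congr fun t _ => ?_
    rw [zpow_neg, show (n + 2 : ℤ) = ((n + 2 : ℕ) : ℤ) by push_cast; ring, zpow_natCast,
      div_eq_mul_inv, ← mul_inv, ← pow_succ]
  rw [h1, integral_zpow (Or.inr ⟨by omega, by
    rw [uIcc_of_le hab]; exact fun h => absurd h.1 (not_le.2 ha)⟩),
    show -(n + 2 : ℤ) + 1 = -((n + 1 : ℕ) : ℤ) by push_cast; ring, zpow_neg, zpow_neg,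
    zpow_natCast, zpow_natCast]
  push_cast
  have h2 : (-((n : ℝ) + 2) + 1) = -(n + 1) := by ring
  rw [h2, mul_pow]
  field_simp
  ring

theorem KK_kO (Ω : E d → ℝ) (M : ℝ) {l : ℝ} (hl : 0 < l) {y : E d} (hy : y ≠ 0) :
    KK (kO Ω M) l y = Ω (‖y‖⁻¹ • y) / ‖y‖ ^ d / M * ∫ t in (1 : ℝ)..2,
      t ^ d / t * ((if l * t < ‖y‖ then 1 else 0) - if 2 * l * t < ‖y‖ then 1 else 0) := by
  obtain ⟨n, rfl⟩ : ∃ n, d = n + 1 := by
    rcases d with _ | n
    · exact absurd (Subsingleton.elim _ _) hy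
    · exact ⟨n, rfl⟩
  have hy0 : 0 < ‖y‖ := norm_pos_iff.2 hy
  obtain ⟨a, b, h1, hab, h2, h3, h4, h5⟩ := lim_ab (ρ := ‖y‖ / l)
  have ha : 0 < a := one_pos.trans_le h1
  have hn : ∀ s : ℝ, 0 < s → ‖(l * s)⁻¹ • y‖ = ‖y‖ / l / s := fun s hs => by
    rw [norm_smul, norm_inv, Real.norm_of_nonneg (by positivity)]; field_simp
  have e1 : KK (kO Ω M) l y = ∫ s in a..b,
      Ω (‖y‖⁻¹ • y) / M / l ^ (n + 1) * ((s ^ (n + 1))⁻¹ / s) := by
    refine lim_ind h1 hab h2 (fun s hs => ?_) fun s hs h => ?_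
    · have hs0 : 0 < s := ha.trans hs.1
      obtain ⟨k1, k2⟩ := h4 s hs
      have hm : (l * s)⁻¹ • y ∈ {y : E (n + 1) | 1 ≤ ‖y‖ ∧ ‖y‖ ≤ 2} := by
        constructor
        · rw [hn s hs0, le_div_iff₀ hs0]; linarith
        · rw [hn s hs0, div_le_iff₀ hs0]; linarith
      rw [kO, indicator_of_mem hm, hn s hs0, smul_smul,
        show (‖y‖ / l / s)⁻¹ * (l * s)⁻¹ = ‖y‖⁻¹ by field_simp, mul_pow]
      field_simp
    · have hs0 : 0 < s := one_pos.trans_le hs.1
      have hm : (l * s)⁻¹ • y ∉ {y : E (n + 1) | 1 ≤ ‖y‖ ∧ ‖y‖ ≤ 2} := by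
        rintro ⟨k1, k2⟩
        rw [hn s hs0, le_div_iff₀ hs0] at k1
        rw [hn s hs0, div_le_iff₀ hs0] at k2
        rcases h5 s hs h with h | h <;> linarith
      rw [kO, indicator_of_notMem hm]; simp
  have e2 : ∫ t in (1 : ℝ)..2, t ^ (n + 1) / t *
      ((if l * t < ‖y‖ then 1 else 0) - if 2 * l * t < ‖y‖ then 1 else 0) =
      ∫ t in a..b, t ^ (n + 1) / t := by
    refine lim_ind h1 hab h2 (fun s hs => ?_) fun s hs h => ?_
    · obtain ⟨k1, k2⟩ := h4 s hs
      rw [div_lt_iff₀ hl] at k1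
      rw [lt_div_iff₀ hl] at k2
      rw [if_pos (by linarith), if_neg (by linarith)]; simp
    · have hs0 : 0 < l * s := mul_pos hl (one_pos.trans_le hs.1)
      rcases h5 s hs h with k | k
      · rw [lt_div_iff₀ hl] at k
        rw [if_pos (by linarith), if_pos (by linarith)]; simp
      · rw [div_lt_iff₀ hl] at k
        rw [if_neg (by linarith), if_neg (by linarith)]; simp
  rw [e1, e2, intervalIntegral.integral_const_mul, lim_pow n ha hab, lim_inv n ha hab]
  rcases h3 with rfl | h3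
  · simp
  · rw [h3, div_pow]
    field_simp

/-- the integrand of the smoothly truncated integral -/
noncomputable def limH (d : ℕ) (G : E d → ℝ) (l t : ℝ) (y : E d) : ℝ :=
  t ^ d / t * (if l * t < ‖y‖ then 1 else 0) * G y

theorem lim_int {Ω f : E d → ℝ} {M : ℝ} (hΩ : Measurable Ω) (hb : ∀ x, |Ω x| ≤ M) (hf : Nice f)
    (x : E d) {l : ℝ} (hl : 0 < l) :
    Integrable (Function.uncurry (limH d (fun y => Ω (‖y‖⁻¹ • y) / ‖y‖ ^ d * f (x - y)) l))
      ((volume.restrict (Ioc (1 : ℝ) 2)).prod volume) := by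
  have hM : 0 ≤ M := (abs_nonneg _).trans (hb 0)
  have hi : Integrable fun y => |f (x - y)| := (hf.integrable.comp_sub_left x).abs
  have hc : Integrable (fun _ : ℝ => 2 ^ d * (M / l ^ d)) (volume.restrict (Ioc (1 : ℝ) 2)) :=
    integrable_const _
  refine (hc.mul_prod hi).mono' (Measurable.aestronglyMeasurable ?_) ?_
  · refine Measurable.mul (Measurable.mul (by fun_prop) ?_) ?_
    · exact Measurable.ite (measurableSet_lt (by fun_prop) (by fun_prop)) measurable_const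
        measurable_const
    · exact ((((lim_meas hΩ).div (measurable_norm.pow_const d)).mul
        (hf.meas.comp (measurable_const.sub measurable_id))).comp measurable_snd)
  · filter_upwards [Measure.quasiMeasurePreserving_fst.ae (ae_restrict_mem measurableSet_Ioc)]
      with p hp
    obtain ⟨t, y⟩ := p
    have ht0 : 0 < t := one_pos.trans hp.1
    simp only [Function.uncurry_apply_pair, limH]
    split_ifs with h
    · have h1 : l ≤ ‖y‖ := (le_mul_of_one_le_right hl.le hp.1.le).trans h.le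
      rw [mul_one, Real.norm_eq_abs, abs_mul, abs_mul, ← mul_assoc, abs_of_pos (by positivity),
        abs_div, abs_pow, abs_norm]
      have h2 : t ^ d / t ≤ 2 ^ d :=
        (div_le_self (by positivity) hp.1.le).trans (pow_le_pow_left₀ ht0.le hp.2 d)
      gcongr
      exact hb _
    · rw [mul_zero, zero_mul, norm_zero]; positivity

theorem lim_inner (G : E d → ℝ) (l t : ℝ) :
    ∫ y, limH d G l t y = t ^ d / t * ∫ y in {y : E d | l * t < ‖y‖}, G y := by
  rw [← integral_indicator (measurableSet_lt measurable_const measurable_norm),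
    ← integral_const_mul]
  refine integral_congr_ae (Filter.Eventually.of_forall fun y => ?_)
  simp only [limH, indicator, mem_ofPred_eq]
  split_ifs <;> simp

theorem lim_ii (c r : ℝ) : IntervalIntegrable
    (fun t : ℝ => t ^ d / t * if c * t < r then (1 : ℝ) else 0) volume 1 2 := by
  rw [intervalIntegrable_iff_integrableOn_Ioc_of_le one_le_two]
  refine Measure.integrableOn_of_bounded (M := 2 ^ d) measure_Ioc_lt_top.ne
    (Measurable.aestronglyMeasurable ?_) ?_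
  · exact Measurable.mul (by fun_prop) (Measurable.ite
      (measurableSet_lt (by fun_prop) measurable_const) measurable_const measurable_const)
  · filter_upwards [ae_restrict_mem measurableSet_Ioc] with t ht
    have ht0 : 0 < t := one_pos.trans ht.1
    split_ifs
    · rw [mul_one, Real.norm_of_nonneg (by positivity)]
      exact (div_le_self (by positivity) ht.1.le).trans (pow_le_pow_left₀ ht0.le ht.2 d)
    · rw [mul_zero, norm_zero]; positivity

theorem lim_cv (hd : 1 ≤ d) {Ω f : E d → ℝ} {M : ℝ} (hΩ : Measurable Ω) (hb : ∀ x, |Ω x| ≤ M)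
    (hf : Nice f) (x : E d) {l : ℝ} (hl : 0 < l) :
    ∫ y, KK (kO Ω M) l (x - y) * f y = M⁻¹ *
      ((∫ t in Ioc (1 : ℝ) 2, ∫ y, limH d (fun y => Ω (‖y‖⁻¹ • y) / ‖y‖ ^ d * f (x - y)) l t y) -
      ∫ t in Ioc (1 : ℝ) 2, ∫ y,
        limH d (fun y => Ω (‖y‖⁻¹ • y) / ‖y‖ ^ d * f (x - y)) (2 * l) t y) := by
  have i1 := lim_int hΩ hb hf x hl
  have i2 := lim_int hΩ hb hf x (l := 2 * l) (by positivity)
  have : Nonempty (Fin d) := ⟨⟨0, hd⟩⟩
  have j1 := i1.integral_prod_right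
  have j2 := i2.integral_prod_right
  simp only [Function.uncurry_apply_pair] at j1 j2
  rw [integral_integral_swap i1, integral_integral_swap i2,
    ← integral_sub j1 j2, ← integral_const_mul,
    ← integral_sub_left_eq_self _ volume x]
  refine integral_congr_ae ?_
  filter_upwards [compl_mem_ae_iff.2 (measure_singleton (0 : E d))] with y hy
  rw [sub_sub_cancel, KK_kO Ω M hl hy]
  simp only [limH, integral_mul_const, mul_sub]
  rw [intervalIntegral.integral_sub (lim_ii _ _) (lim_ii _ _),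
    intervalIntegral.integral_of_le one_le_two, intervalIntegral.integral_of_le one_le_two]
  ring

theorem lim_tele (S : ℤ → ℝ) (J : ℕ) :
    ∑ j ∈ Finset.Icc (-J : ℤ) J, (S j - S (j + 1)) = S (-J) - S (J + 1) := by
  induction J with
  | zero => simp
  | succ J ih =>
    have : Finset.Icc (-(J + 1 : ℕ) : ℤ) (J + 1 : ℕ) =
        insert (-(J + 1 : ℤ)) (insert (J + 1 : ℤ) (Finset.Icc (-J : ℤ) J)) := by
      ext j; simp only [Finset.mem_Icc, Finset.mem_insert]; omega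
    rw [this, Finset.sum_insert (by simp only [Finset.mem_Icc, Finset.mem_insert]; omega),
      Finset.sum_insert (by simp only [Finset.mem_Icc]; omega), ih]
    push_cast
    rw [show -((J : ℤ) + 1) + 1 = -J by ring]
    ring

theorem TT_tendsto (hd : 1 ≤ d) {Ω f : E d → ℝ} {M T : ℝ} (hΩ : Measurable Ω)
    (hb : ∀ x, |Ω x| ≤ M) (hk : IsKer (kO Ω M)) (hf : Nice f) (x : E d)
    (hT : Filter.Tendsto (fun ε : ℝ => ∫ y in {y : E d | ε < ‖y‖},
      Ω (‖y‖⁻¹ • y) / ‖y‖ ^ d * f (x - y)) (nhdsWithin 0 (Ioi 0)) (nhds T)) :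
    Filter.Tendsto (fun J : ℕ => TT (kO Ω M) (-J) J f x) Filter.atTop
      (nhds ((2 ^ d - 1) / d / M * T)) := by
  have _ := hk
  set G : E d → ℝ := fun y => Ω (‖y‖⁻¹ • y) / ‖y‖ ^ d * f (x - y) with hG
  set S : ℤ → ℝ := fun j => ∫ t in Ioc (1 : ℝ) 2, ∫ y, limH d G (2 ^ (j - 2)) t y with hS
  have e1 : ∀ J : ℕ, TT (kO Ω M) (-J) J f x = M⁻¹ * (S (-J) - S (J + 1)) := fun J => by
    rw [← lim_tele, Finset.mul_sum, TT, ps]
    refine Finset.sum_congr rfl fun j _ => ?_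
    rw [cv, lim_cv hd hΩ hb hf x (by positivity), hS]
    simp only
    rw [show j + 1 - 2 = 1 + (j - 2) by ring, zpow_add₀ two_ne_zero, zpow_one]
  have t1 : Filter.Tendsto (fun J : ℕ => S (J + 1)) Filter.atTop (nhds 0) := by
    obtain ⟨R, hR⟩ := hf.supp
    refine tendsto_const_nhds.congr' ?_
    have h2 : Filter.Tendsto (fun J : ℕ => (2 : ℝ) ^ J) Filter.atTop Filter.atTop :=
      tendsto_pow_atTop_atTop_of_one_lt one_lt_two
    filter_upwards [h2.eventually_ge_atTop (2 * (R + ‖x‖))] with J hJ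
    refine (setIntegral_eq_zero_of_forall_eq_zero fun t ht => ?_).symm
    rw [lim_inner, setIntegral_eq_zero_of_forall_eq_zero fun y hy => ?_, mul_zero]
    have h3 : (2 : ℝ) ^ ((J : ℤ) + 1 - 2) = 2 ^ J / 2 := by
      rw [show (J : ℤ) + 1 - 2 = J - 1 by ring, zpow_sub₀ two_ne_zero, zpow_natCast, zpow_one]
    have h4 : (2 : ℝ) ^ J / 2 < ‖y‖ := by
      have h5 : (2 : ℝ) ^ ((J : ℤ) + 1 - 2) * t < ‖y‖ := hy
      rw [h3] at h5
      exact (le_mul_of_one_le_right (by positivity) ht.1.le).trans_lt h5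
    have h6 := norm_sub_norm_le y x
    rw [hG]
    simp only
    rw [hR _ (by rw [norm_sub_rev]; linarith), mul_zero]
  have t2 : Filter.Tendsto (fun J : ℕ => S (-J)) Filter.atTop
      (nhds (∫ t in Ioc (1 : ℝ) 2, t ^ d / t * T)) := by
    have hl : Filter.Tendsto (fun J : ℕ => (2 : ℝ) ^ (-(J : ℤ) - 2)) Filter.atTop (nhds 0) := by
      have h2 := (tendsto_pow_atTop_nhds_zero_of_lt_one (r := (2 : ℝ)⁻¹) (by norm_num)
        (by norm_num)).div_const 4
      rw [zero_div] at h2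
      refine h2.congr fun J => ?_
      rw [zpow_sub₀ two_ne_zero, zpow_neg, zpow_natCast, inv_pow]; norm_num
    refine tendsto_integral_filter_of_dominated_convergence (fun _ => 2 ^ d * (|T| + 1))
      (Filter.Eventually.of_forall fun J =>
        (lim_int hΩ hb hf x (by positivity)).integral_prod_left.aestronglyMeasurable) ?_
      (integrable_const _) ?_
    · have h1 := hT.eventually (Metric.ball_mem_nhds T one_pos)
      rw [eventually_nhdsWithin_iff, Metric.eventually_nhds_iff] at h1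
      obtain ⟨δ, hδ, h1⟩ := h1
      filter_upwards [hl.eventually_lt_const (half_pos hδ)] with J hJ
      filter_upwards [ae_restrict_mem measurableSet_Ioc] with t ht
      have ht0 : 0 < t := one_pos.trans ht.1
      have hp : (0 : ℝ) < 2 ^ (-(J : ℤ) - 2) := by positivity
      have h3 := h1 (y := 2 ^ (-(J : ℤ) - 2) * t) (by
        rw [Real.dist_eq, sub_zero, abs_of_pos (by positivity)]
        nlinarith [ht.2]) (mul_pos hp ht0)
      rw [lim_inner, norm_mul, Real.norm_of_nonneg (by positivity), Real.norm_eq_abs]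
      have h2 : t ^ d / t ≤ 2 ^ d :=
        (div_le_self (by positivity) ht.1.le).trans (pow_le_pow_left₀ ht0.le ht.2 d)
      rw [Real.dist_eq] at h3
      have h4 := abs_sub_abs_le_abs_sub
        (∫ y in {y : E d | 2 ^ (-(J : ℤ) - 2) * t < ‖y‖}, G y) T
      gcongr
      linarith
    · filter_upwards [ae_restrict_mem measurableSet_Ioc] with t ht
      have ht0 : 0 < t := one_pos.trans ht.1
      simp only [lim_inner]
      refine (hT.comp (tendsto_nhdsWithin_iff.2 ⟨?_, Filter.Eventually.of_forall fun J => ?_⟩)).const_mul _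
      · simpa using hl.mul_const t
      · exact mul_pos (by positivity) ht0
  have e2 : (2 ^ d - 1) / d / M * T = M⁻¹ * ((∫ t in Ioc (1 : ℝ) 2, t ^ d / t * T) - 0) := by
    obtain ⟨n, rfl⟩ : ∃ n, d = n + 1 := ⟨d - 1, by omega⟩
    rw [integral_mul_const, ← intervalIntegral.integral_of_le one_le_two,
      lim_pow n one_pos one_le_two]
    push_cast
    ring
  rw [e2]
  simp only [e1]
  exact (t2.sub t1).const_mul _

end Pool.Agent.MP_418f02_an

end
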