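import Pool.Agent.Mg.F418f02.G50f601

section

open MeasureTheory Set
open scoped ENNReal RealInnerProductSpace

namespace Pool.Agent.MP_418f02_an

variable {d : ℕ}

theorem osc_norm_ee (t : ℝ) : ‖ee t‖ = 1 := Complex.norm_exp_ofReal_mul_I _

theorem osc_ee_add (s t : ℝ) : ee (s + t) = ee s * ee t := by
  unfold ee
  rw [← Complex.exp_add]
  congr 1
  push_cast
  ring

theorem osc_ee_deriv (l t : ℝ) :
    HasDerivAt (fun t : ℝ => ee (l * t)) (((-2 * Real.pi * l : ℝ) : ℂ) * Complex.I * ee (l * t)) t := by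
  have h1 : HasDerivAt (fun t : ℝ => -2 * Real.pi * (l * t)) (-2 * Real.pi * l) t := by
    simpa using ((hasDerivAt_id t).const_mul l).const_mul (-2 * Real.pi)
  have h2 := (h1.ofReal_comp.mul_const Complex.I).cexp
  unfold ee
  convert h2 using 1
  ring

theorem osc_ee_cont (l : ℝ) : Continuous fun t : ℝ => ee (l * t) :=
  continuous_iff_continuousAt.2 fun t => (osc_ee_deriv l t).continuousAt

theorem osc_ee_sub (t : ℝ) : ‖ee t - 1‖ ≤ 2 * Real.pi * |t| := by
  unfold ee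
  rw [mul_comm]
  refine Real.norm_exp_I_mul_ofReal_sub_one_le.trans (le_of_eq ?_)
  rw [Real.norm_eq_abs, abs_mul, abs_mul, abs_neg, abs_of_pos Real.pi_pos]
  norm_num

theorem osc_norm_c (l : ℝ) :
    ‖((-2 * Real.pi * l : ℝ) : ℂ) * Complex.I‖ = 2 * Real.pi * |l| := by
  rw [norm_mul, Complex.norm_I, mul_one, Complex.norm_real, Real.norm_eq_abs, abs_mul, abs_mul,
    abs_neg, abs_of_pos Real.pi_pos]
  norm_num

theorem osc_parts {φ φ' : ℝ → ℂ} {β : ℝ} (hd : ∀ t ∈ Icc (1 / 2 : ℝ) 1, HasDerivAt φ (φ' t) t)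
    (hc : ContinuousOn φ' (Icc (1 / 2 : ℝ) 1)) (h0 : ∀ t ∈ Icc (1 / 2 : ℝ) 1, ‖φ t‖ ≤ β)
    (h1 : ∫ t in (1 / 2 : ℝ)..1, ‖φ' t‖ ≤ β) (l : ℝ) :
    ‖∫ t in (1 / 2 : ℝ)..1, φ t * ee (l * t)‖ ≤ 2 * β * (1 + |l|)⁻¹ := by
  have h12 : (1 / 2 : ℝ) ≤ 1 := by norm_num
  have hβ : 0 ≤ β := (norm_nonneg _).trans (h0 1 ⟨h12, le_rfl⟩)
  have hl0 := abs_nonneg l
  have hpos : 0 < 1 + |l| := by linarith
  rw [← div_eq_mul_inv, le_div_iff₀ hpos]
  by_cases hl : |l| ≤ 3
  · have h2 : ‖∫ t in (1 / 2 : ℝ)..1, φ t * ee (l * t)‖ ≤ β * |1 - 1 / 2| := by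
      refine intervalIntegral.norm_integral_le_of_norm_le_const fun t ht => ?_
      rw [uIoc_of_le h12] at ht
      rw [norm_mul, osc_norm_ee, mul_one]
      exact h0 t (Ioc_subset_Icc_self ht)
    have h3 : |(1 : ℝ) - 1 / 2| = 1 / 2 := by norm_num [abs_of_pos]
    rw [h3] at h2
    calc _ ≤ β * (1 / 2) * (1 + |l|) := by gcongr
      _ ≤ β * (1 / 2) * 4 := by gcongr; linarith
      _ = 2 * β := by ring
  · push Not at hl
    set c : ℂ := ((-2 * Real.pi * l : ℝ) : ℂ) * Complex.I with hcdef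
    have hcn : ‖c‖ = 2 * Real.pi * |l| := osc_norm_c l
    have hI := intervalIntegral.integral_mul_deriv_eq_deriv_mul (a := (1 / 2 : ℝ)) (b := 1)
      (u := φ) (u' := φ') (v := fun t : ℝ => ee (l * t)) (v' := fun t => c * ee (l * t))
      (by rw [uIcc_of_le h12]; exact hd) (fun t _ => osc_ee_deriv l t)
      (hc.intervalIntegrable_of_Icc h12)
      ((continuous_const.mul (osc_ee_cont l)).intervalIntegrable _ _)
    have hL : ∫ t in (1 / 2 : ℝ)..1, φ t * (c * ee (l * t)) =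
        c * ∫ t in (1 / 2 : ℝ)..1, φ t * ee (l * t) := by
      rw [← intervalIntegral.integral_const_mul]
      congr 1; funext t; ring
    rw [hL] at hI
    have h4 : ‖∫ t in (1 / 2 : ℝ)..1, φ' t * ee (l * t)‖ ≤ β := by
      refine (intervalIntegral.norm_integral_le_integral_norm h12).trans ?_
      simpa only [norm_mul, osc_norm_ee, mul_one] using h1
    have h5 : ‖c * ∫ t in (1 / 2 : ℝ)..1, φ t * ee (l * t)‖ ≤ 3 * β := by
      rw [hI]
      have a1 : ‖φ 1 * ee (l * 1)‖ ≤ β := by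
        rw [norm_mul, osc_norm_ee, mul_one]; exact h0 1 ⟨h12, le_rfl⟩
      have a2 : ‖φ (1 / 2) * ee (l * (1 / 2))‖ ≤ β := by
        rw [norm_mul, osc_norm_ee, mul_one]; exact h0 _ ⟨le_rfl, h12⟩
      calc _ ≤ ‖φ 1 * ee (l * 1) - φ (1 / 2) * ee (l * (1 / 2))‖ + _ := norm_sub_le _ _
        _ ≤ (β + β) + β := add_le_add ((norm_sub_le _ _).trans (add_le_add a1 a2)) h4
        _ = 3 * β := by ring
    rw [norm_mul, hcn] at h5
    have hπ := Real.pi_gt_three
    have hN := norm_nonneg (∫ t in (1 / 2 : ℝ)..1, φ t * ee (l * t))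
    set N := ‖∫ t in (1 / 2 : ℝ)..1, φ t * ee (l * t)‖
    have h6 : 6 * |l| * N ≤ 2 * Real.pi * |l| * N := by gcongr; linarith
    nlinarith [mul_nonneg hN (sub_nonneg.2 hl.le)]

/-- the hypotheses of `osc_parts` -/
structure oscGood (φ φ' : ℝ → ℂ) (β : ℝ) : Prop where
  hd : ∀ t ∈ Icc (1 / 2 : ℝ) 1, HasDerivAt φ (φ' t) t
  hc : ContinuousOn φ' (Icc (1 / 2 : ℝ) 1)
  h0 : ∀ t ∈ Icc (1 / 2 : ℝ) 1, ‖φ t‖ ≤ β
  h1 : ∫ t in (1 / 2 : ℝ)..1, ‖φ' t‖ ≤ β

theorem oscGood.cont {φ φ' : ℝ → ℂ} {β : ℝ} (h : oscGood φ φ' β) :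
    ContinuousOn φ (Icc (1 / 2 : ℝ) 1) :=
  fun t ht => (h.hd t ht).continuousAt.continuousWithinAt

theorem oscGood.mul {φ φ' ψ ψ' : ℝ → ℂ} {β γ : ℝ} (h : oscGood φ φ' β)
    (hd : ∀ t ∈ Icc (1 / 2 : ℝ) 1, HasDerivAt ψ (ψ' t) t)
    (hc : ContinuousOn ψ' (Icc (1 / 2 : ℝ) 1)) (h0 : ∀ t ∈ Icc (1 / 2 : ℝ) 1, ‖ψ t‖ ≤ γ)
    (h1 : ∀ t ∈ Icc (1 / 2 : ℝ) 1, ‖ψ' t‖ ≤ γ) :
    oscGood (fun t => φ t * ψ t) (fun t => φ' t * ψ t + φ t * ψ' t) (2 * β * γ) := by
  have h12 : (1 / 2 : ℝ) ≤ 1 := by norm_num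
  have hβ : 0 ≤ β := (norm_nonneg _).trans (h.h0 1 ⟨h12, le_rfl⟩)
  have hγ : 0 ≤ γ := (norm_nonneg _).trans (h0 1 ⟨h12, le_rfl⟩)
  have hψ : ContinuousOn ψ (Icc (1 / 2 : ℝ) 1) :=
    fun t ht => (hd t ht).continuousAt.continuousWithinAt
  have hcc : ContinuousOn (fun t => φ' t * ψ t + φ t * ψ' t) (Icc (1 / 2 : ℝ) 1) :=
    (h.hc.mul hψ).add (h.cont.mul hc)
  have hbg := mul_nonneg hβ hγ
  refine ⟨fun t ht => (h.hd t ht).mul (hd t ht), hcc, fun t ht => ?_, ?_⟩
  · rw [norm_mul]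
    have := mul_le_mul (h.h0 t ht) (h0 t ht) (norm_nonneg _) hβ
    linarith
  · have hi : IntervalIntegrable (fun t => ‖φ' t‖) volume (1 / 2 : ℝ) 1 :=
      h.hc.norm.intervalIntegrable_of_Icc h12
    have h2 : ∫ t in (1 / 2 : ℝ)..1, ‖φ' t * ψ t + φ t * ψ' t‖ ≤
        ∫ t in (1 / 2 : ℝ)..1, (‖φ' t‖ * γ + β * γ) := by
      refine intervalIntegral.integral_mono_on h12 (hcc.norm.intervalIntegrable_of_Icc h12)
        ((hi.mul_const γ).add intervalIntegrable_const) fun t ht => ?_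
      refine (norm_add_le _ _).trans (add_le_add ?_ ?_)
      · rw [norm_mul]; exact mul_le_mul_of_nonneg_left (h0 t ht) (norm_nonneg _)
      · rw [norm_mul]; exact mul_le_mul (h.h0 t ht) (h1 t ht) (norm_nonneg _) hβ
    rw [intervalIntegral.integral_add (hi.mul_const γ) intervalIntegrable_const,
      intervalIntegral.integral_mul_const, intervalIntegral.integral_const, smul_eq_mul] at h2
    have h3 := mul_le_mul_of_nonneg_right h.h1 hγ
    linarith

theorem osc_kap {u : ℝ → ℂ} (hu : Continuous u) : ∃ κ κ' : ℝ → ℂ,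
    oscGood κ κ' (2 * ∫ σ in (1 / 2 : ℝ)..2, ‖u σ‖) ∧
      ∀ t ∈ Icc (1 / 2 : ℝ) 1, ∫ σ in (1 : ℝ)..2, u (σ * t) / σ = κ t := by
  set g : ℝ → ℂ := fun x => u x / ((max x (1 / 2) : ℝ) : ℂ) with hg
  have hm : ∀ x : ℝ, 0 < max x (1 / 2) := fun x => lt_max_of_lt_right (by norm_num)
  have hgc : Continuous g := by
    refine hu.div (Complex.continuous_ofReal.comp (continuous_id.max continuous_const)) fun x => ?_
    exact_mod_cast (hm x).ne'
  have hgb : ∀ x, ‖g x‖ ≤ 2 * ‖u x‖ := fun x => by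
    rw [hg]
    simp only
    rw [norm_div, Complex.norm_real, Real.norm_eq_abs, abs_of_pos (hm x), div_le_iff₀ (hm x)]
    have := le_max_right x (1 / 2 : ℝ)
    nlinarith [norm_nonneg (u x)]
  have hB : ∫ x in (1 / 2 : ℝ)..2, ‖g x‖ ≤ 2 * ∫ σ in (1 / 2 : ℝ)..2, ‖u σ‖ := by
    rw [← intervalIntegral.integral_const_mul]
    exact intervalIntegral.integral_mono_on (by norm_num) (hgc.norm.intervalIntegrable _ _)
      ((continuous_const.mul hu.norm).intervalIntegrable _ _) fun x _ => hgb x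
  set G : ℝ → ℂ := fun t => ∫ x in (0 : ℝ)..t, g x with hG
  have hGd : ∀ t, HasDerivAt G (g t) t := fun t => (hgc.integral_hasStrictDerivAt 0 t).hasDerivAt
  have hGs : ∀ t, G (2 * t) - G t = ∫ x in t..2 * t, g x := fun t =>
    intervalIntegral.integral_interval_sub_left (hgc.intervalIntegrable _ _)
      (hgc.intervalIntegrable _ _)
  have h2g : Continuous fun t : ℝ => g (2 * t) := hgc.comp (continuous_const.mul continuous_id)
  have h2c : Continuous fun t : ℝ => (2 : ℝ) • g (2 * t) := h2g.const_smul (2 : ℝ)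
  have h2n : Continuous fun t : ℝ => (2 : ℝ) • ‖g (2 * t)‖ := h2g.norm.const_smul (2 : ℝ)
  refine ⟨fun t => G (2 * t) - G t, fun t => (2 : ℝ) • g (2 * t) - g t, ⟨fun t _ => ?_, ?_,
    fun t ht => ?_, ?_⟩, fun t ht => ?_⟩
  · have h1 : HasDerivAt (fun t : ℝ => 2 * t) 2 t := by simpa using (hasDerivAt_id t).const_mul 2
    exact ((hGd (2 * t)).scomp t h1).sub (hGd t)
  · exact (h2c.sub hgc).continuousOn
  · rw [hGs]
    refine (intervalIntegral.norm_integral_le_integral_norm (by linarith [ht.1])).trans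
      (le_trans ?_ hB)
    exact intervalIntegral.integral_mono_interval ht.1 (by linarith [ht.1]) (by linarith [ht.2])
      (Filter.Eventually.of_forall fun x => norm_nonneg _) (hgc.norm.intervalIntegrable _ _)
  · refine le_trans ?_ hB
    have h3 : ∫ t in (1 / 2 : ℝ)..1, ‖(2 : ℝ) • g (2 * t) - g t‖ ≤
        ∫ t in (1 / 2 : ℝ)..1, ((2 : ℝ) • ‖g (2 * t)‖ + ‖g t‖) := by
      refine intervalIntegral.integral_mono_on (by norm_num)
        ((h2c.sub hgc).norm.intervalIntegrable _ _)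
        ((h2n.add hgc.norm).intervalIntegrable _ _) fun t _ => ?_
      refine (norm_sub_le _ _).trans (le_of_eq ?_)
      rw [norm_smul]; simp
    refine h3.trans (le_of_eq ?_)
    rw [intervalIntegral.integral_add (h2n.intervalIntegrable _ _)
      (hgc.norm.intervalIntegrable _ _), intervalIntegral.integral_smul,
      intervalIntegral.smul_integral_comp_mul_left (fun x => ‖g x‖), add_comm]
    have e1 : (2 : ℝ) * (1 / 2) = 1 := by norm_num
    rw [e1, mul_one]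
    exact intervalIntegral.integral_add_adjacent_intervals (hgc.norm.intervalIntegrable _ _)
      (hgc.norm.intervalIntegrable _ _)
  · simp only
    rw [hGs]
    have h4 := intervalIntegral.smul_integral_comp_mul_right (a := 1) (b := 2) g t
    rw [one_mul] at h4
    rw [← h4, ← intervalIntegral.integral_smul]
    refine intervalIntegral.integral_congr fun σ hσ => ?_
    rw [uIcc_of_le (by norm_num)] at hσ
    have ht0 : 0 < t := by linarith [ht.1]
    have hσ0 : 0 < σ := by linarith [hσ.1]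
    have h5 : max (σ * t) (1 / 2) = σ * t := max_eq_left (by nlinarith [ht.1, hσ.1])
    simp only [hg, h5, Complex.real_smul]
    have a1 : (t : ℂ) ≠ 0 := by exact_mod_cast ht0.ne'
    have a2 : (σ : ℂ) ≠ 0 := by exact_mod_cast hσ0.ne'
    push_cast
    field_simp

theorem osc_pow (d : ℕ) {κ κ' : ℝ → ℂ} {β : ℝ} (h : oscGood κ κ' β) : ∃ φ' : ℝ → ℂ,
    oscGood (fun t => κ t * ((t ^ d * t⁻¹ : ℝ) : ℂ)) φ' (2 * β * (2 * d + 4)) := by
  refine ⟨_, h.mul (ψ' := fun t => ((d * t ^ (d - 1) * t⁻¹ + t ^ d * (-(t ^ 2)⁻¹) : ℝ) : ℂ))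
    (fun t ht => ?_) ?_ (fun t ht => ?_) fun t ht => ?_⟩
  · have ht0 : t ≠ 0 := by have := ht.1; intro h; rw [h] at this; norm_num at this
    exact ((hasDerivAt_pow d t).mul (hasDerivAt_inv ht0)).ofReal_comp
  · refine Complex.continuous_ofReal.comp_continuousOn ?_
    have ht0 : ∀ t ∈ Icc (1 / 2 : ℝ) 1, t ≠ 0 := fun t ht h => by
      have := ht.1; rw [h] at this; norm_num at this
    refine ContinuousOn.add (ContinuousOn.mul (by fun_prop) (continuousOn_id.inv₀ ht0))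
      (ContinuousOn.mul (by fun_prop) (ContinuousOn.neg (ContinuousOn.inv₀ (by fun_prop) ?_)))
    exact fun t ht => pow_ne_zero _ (ht0 t ht)
  · have ht0 : 0 < t := by linarith [ht.1]
    have a1 : t ^ d ≤ 1 := pow_le_one₀ ht0.le ht.2
    have a2 : t⁻¹ ≤ 2 := by rw [inv_le_comm₀ ht0 (by norm_num)]; linarith [ht.1]
    rw [Complex.norm_real, Real.norm_eq_abs, abs_of_nonneg (by positivity)]
    have := mul_le_mul a1 a2 (by positivity) zero_le_one
    have : (0 : ℝ) ≤ d := Nat.cast_nonneg d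
    linarith
  · have ht0 : 0 < t := by linarith [ht.1]
    have a1 : t ^ d ≤ 1 := pow_le_one₀ ht0.le ht.2
    have a1' : t ^ (d - 1) ≤ 1 := pow_le_one₀ ht0.le ht.2
    have a2 : t⁻¹ ≤ 2 := by rw [inv_le_comm₀ ht0 (by norm_num)]; linarith [ht.1]
    have a3 : (t ^ 2)⁻¹ ≤ 4 := by
      rw [inv_le_comm₀ (by positivity) (by norm_num)]; nlinarith [ht.1]
    have hd0 : (0 : ℝ) ≤ d := Nat.cast_nonneg d
    have b1 := mul_le_mul a1' a2 (by positivity) zero_le_one
    have b2 := mul_le_mul a1 a3 (by positivity) zero_le_one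
    have b3 := mul_le_mul_of_nonneg_left b1 hd0
    have b4 : 0 ≤ d * (t ^ (d - 1) * t⁻¹) := by positivity
    have b5 : 0 ≤ t ^ d * (t ^ 2)⁻¹ := by positivity
    rw [Complex.norm_real, Real.norm_eq_abs, abs_le]
    constructor <;> nlinarith

theorem osc_core (d : ℕ) {φ φ' : ℝ → ℂ} {β : ℝ} (h : oscGood φ φ' β) {r l₀ l₁ : ℝ} (hr : 0 < r)
    (hl : |l₁ - l₀| ≤ d * r) :
    ‖∫ t in (1 / 2 : ℝ)..1, φ t * (ee (l₁ * t) - ee (l₀ * t))‖ ≤
      (34 * d + 4) * β * (1 + |l₀| / r)⁻¹ := by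
  have h12 : (1 / 2 : ℝ) ≤ 1 := by norm_num
  have hβ : 0 ≤ β := (norm_nonneg _).trans (h.h0 1 ⟨h12, le_rfl⟩)
  have hd0 : (0 : ℝ) ≤ d := Nat.cast_nonneg d
  have hl0 := abs_nonneg l₀
  have hl1 := abs_nonneg l₁
  have hx : 0 < 1 + |l₀| / r := by positivity
  rcases le_total 1 r with h1 | h1
  · have hi : ∀ l : ℝ, IntervalIntegrable (fun t => φ t * ee (l * t)) volume (1 / 2 : ℝ) 1 :=
      fun l => (h.cont.mul (osc_ee_cont l).continuousOn).intervalIntegrable_of_Icc h12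
    simp only [mul_sub]
    rw [intervalIntegral.integral_sub (hi l₁) (hi l₀)]
    have a0 := osc_parts h.hd h.hc h.h0 h.h1 l₀
    have a1 := osc_parts h.hd h.hc h.h0 h.h1 l₁
    have b0 : (1 + |l₀|)⁻¹ ≤ (1 + |l₀| / r)⁻¹ := by
      refine inv_anti₀ hx ?_
      have := div_le_self hl0 h1
      linarith
    have b1 : (1 + |l₁|)⁻¹ ≤ (1 + d) * (1 + |l₀| / r)⁻¹ := by
      rw [← div_eq_mul_inv, le_div_iff₀ hx, inv_mul_le_iff₀ (by positivity)]
      have c1 : |l₀| ≤ |l₁| + d * r := by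
        have := abs_sub_abs_le_abs_sub l₀ l₁
        rw [abs_sub_comm] at this
        linarith
      have c2 : |l₀| / r ≤ |l₁| + d := by
        rw [div_le_iff₀ hr]
        nlinarith
      nlinarith [mul_nonneg hl1 hd0]
    have hy : 0 ≤ (1 + |l₀| / r)⁻¹ := by positivity
    set y := (1 + |l₀| / r)⁻¹
    have e0 := mul_le_mul_of_nonneg_left b0 (by positivity : 0 ≤ 2 * β)
    have e1 := mul_le_mul_of_nonneg_left b1 (by positivity : 0 ≤ 2 * β)
    have e2 : 0 ≤ d * (β * y) := by positivity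
    refine (norm_sub_le _ _).trans ?_
    nlinarith
  · set δ := l₁ - l₀ with hδ
    have hg := h.mul (ψ := fun t => ee (δ * t) - 1)
      (ψ' := fun t => ((-2 * Real.pi * δ : ℝ) : ℂ) * Complex.I * ee (δ * t))
      (γ := 2 * Real.pi * |δ|) (fun t _ => (osc_ee_deriv δ t).sub_const 1)
      (continuous_const.mul (osc_ee_cont δ)).continuousOn
      (fun t ht => (osc_ee_sub _).trans (by
        rw [abs_mul, abs_of_nonneg (by linarith [ht.1] : 0 ≤ t)]
        have := mul_le_of_le_one_right (abs_nonneg δ) ht.2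
        have := Real.pi_pos
        gcongr))
      fun t _ => by rw [norm_mul, osc_norm_ee, mul_one, osc_norm_c]
    have a0 := osc_parts hg.hd hg.hc hg.h0 hg.h1 l₀
    have e : ∀ t, φ t * (ee (l₁ * t) - ee (l₀ * t)) = φ t * (ee (δ * t) - 1) * ee (l₀ * t) := by
      intro t
      have : l₁ * t = δ * t + l₀ * t := by rw [hδ]; ring
      rw [this, osc_ee_add]; ring
    simp only [e]
    refine a0.trans ?_
    have b0 : r * (1 + |l₀|)⁻¹ ≤ (1 + |l₀| / r)⁻¹ := by
      rw [← div_eq_mul_inv, ← one_div, div_le_div_iff₀ (by positivity) hx, mul_add,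
        mul_div_cancel₀ _ hr.ne']
      linarith
    have hπ := Real.pi_le_four
    have hz : 0 ≤ (1 + |l₀|)⁻¹ := by positivity
    have hy : 0 ≤ (1 + |l₀| / r)⁻¹ := by positivity
    calc 2 * (2 * β * (2 * Real.pi * |δ|)) * (1 + |l₀|)⁻¹
        ≤ 2 * (2 * β * (2 * 4 * (d * r))) * (1 + |l₀|)⁻¹ := by gcongr
      _ = 32 * d * β * (r * (1 + |l₀|)⁻¹) := by ring
      _ ≤ (34 * d + 4) * β * (1 + |l₀| / r)⁻¹ := by gcongr; linarith

theorem osc_main (d : ℕ) : ∃ C : ℝ, 0 < C ∧ ∀ u : ℝ → ℂ, Continuous u → ∀ ρ e l₀ l₁ : ℝ,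
    0 < ρ → 0 < e → |l₁ - l₀| ≤ d * e * ρ →
    ‖∫ s in (1 : ℝ)..2, ((s ^ d)⁻¹ : ℝ) *
        ((∫ σ in (1 : ℝ)..2, u (σ / s) / σ) * (ee (l₁ / s) - ee (l₀ / s))) / s‖ ≤
      C * (∫ σ in (1 / 2 : ℝ)..2, ‖u σ‖) * (1 + |l₀| / (ρ * e))⁻¹ := by
  refine ⟨(34 * d + 4) * (4 * (2 * d + 4)), by positivity, fun u hu ρ e l₀ l₁ hρ he hl => ?_⟩
  obtain ⟨κ, κ', hκ, hk⟩ := osc_kap hu
  obtain ⟨φ', hφ⟩ := osc_pow d hκ
  have hc := osc_core d hφ (r := ρ * e) (l₀ := l₀) (l₁ := l₁) (by positivity) (by linarith)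
  have hs := intervalIntegral.integral_deriv_smul_comp_of_deriv_nonpos (a := 1) (b := 2)
    (f := fun s : ℝ => s⁻¹) (f' := fun s => -(s ^ 2)⁻¹)
    (g := fun t : ℝ => κ t * ((t ^ d * t⁻¹ : ℝ) : ℂ) * (ee (l₁ * t) - ee (l₀ * t)))
    (continuousOn_id.inv₀ fun s hs => by
      rw [uIcc_of_le (by norm_num)] at hs
      exact (zero_lt_one.trans_le hs.1).ne')
    (fun s hs => hasDerivAt_inv (by
      have := hs.1
      rw [min_eq_left (by norm_num)] at this
      exact (zero_lt_one.trans this).ne'))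
    fun s _ => neg_nonpos.2 (by positivity)
  simp only [inv_one] at hs
  rw [← one_div, intervalIntegral.integral_symm (1 / 2) 1] at hs
  have key : ∫ s in (1 : ℝ)..2, ((s ^ d)⁻¹ : ℝ) *
        ((∫ σ in (1 : ℝ)..2, u (σ / s) / σ) * (ee (l₁ / s) - ee (l₀ / s))) / s =
      ∫ t in (1 / 2 : ℝ)..1, κ t * ((t ^ d * t⁻¹ : ℝ) : ℂ) * (ee (l₁ * t) - ee (l₀ * t)) := by
    rw [← neg_inj, ← hs, ← intervalIntegral.integral_neg]
    refine intervalIntegral.integral_congr fun s hs => ?_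
    rw [uIcc_of_le (by norm_num)] at hs
    have hs0 : 0 < s := zero_lt_one.trans_le hs.1
    have hm : s⁻¹ ∈ Icc (1 / 2 : ℝ) 1 :=
      ⟨by rw [one_div]; exact inv_anti₀ hs0 hs.2, inv_le_one_of_one_le₀ hs.1⟩
    have a1 : (s : ℂ) ≠ 0 := by exact_mod_cast hs0.ne'
    simp only [Function.comp_apply, Complex.real_smul]
    rw [← hk _ hm]
    simp only [← div_eq_mul_inv]
    push_cast
    rw [inv_pow]
    field_simp
  rw [key]
  refine hc.trans (le_of_eq ?_)
  ring

end Pool.Agent.MP_418f02_an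

end

section

open MeasureTheory Set
open scoped ENNReal RealInnerProductSpace

namespace Pool.Agent.MP_418f02_an

variable {d : ℕ}

theorem gam_nonneg (k : E d → ℝ) (a : E d) (e : ℝ) : 0 ≤ Gam k a e := by
  unfold Gam
  exact integral_nonneg fun ζ => mul_nonneg (sq_nonneg _) (sq_nonneg _)

theorem psi_le {k : E d → ℝ} (h : IsKer k) {l r : ℝ} (hl : 0 < l) (hr : 0 < r) (a : E d) :
    |Psi k l r a| ≤ 8 ^ d * (l ^ d)⁻¹ := by
  unfold Psi
  have hn : Nice fun z => KK k r (z - a) := (KK_nice h hr).shift a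
  have h1 : |∫ z, KK k l z * KK k r (z - a)| ≤ ∫ z, (l ^ d)⁻¹ * |KK k r (z - a)| := by
    rw [← Real.norm_eq_abs]
    refine norm_integral_le_of_norm_le (hn.abs.const_mul _).integrable
      (Filter.Eventually.of_forall fun z => ?_)
    rw [Real.norm_eq_abs, abs_mul]
    exact mul_le_mul_of_nonneg_right (KK_le h hl z) (abs_nonneg _)
  refine h1.trans ?_
  rw [integral_const_mul, integral_sub_right_eq_self (fun z => |KK k r z|) a, mul_comm]
  exact mul_le_mul_of_nonneg_right (KK_l1 h hr) (by positivity)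

theorem psi_supp {k : E d → ℝ} (h : IsKer k) {l r : ℝ} (hr : 0 < r) (hrl : r ≤ l) {a : E d}
    (ha : 8 * l < ‖a‖) : Psi k l r a = 0 := by
  unfold Psi
  have hl : 0 < l := hr.trans_le hrl
  have : ∀ z : E d, KK k l z * KK k r (z - a) = 0 := by
    intro z
    by_cases hz : 4 * l < ‖z‖
    · rw [KK_supp h hl hz, zero_mul]
    · have h2 : ‖a‖ ≤ ‖z‖ + ‖z - a‖ := by
        calc ‖a‖ = ‖z - (z - a)‖ := by rw [sub_sub_cancel]
          _ ≤ _ := norm_sub_le _ _
      rw [KK_supp h hr (y := z - a) (by linarith), mul_zero]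
  simp [this]

theorem psi_nice {k : E d → ℝ} (h : IsKer k) {l r : ℝ} (hr : 0 < r) (hrl : r ≤ l) :
    Nice (Psi k l r) := by
  have hl : 0 < l := hr.trans_le hrl
  refine ⟨?_, ⟨_, psi_le h hl hr⟩, ⟨8 * l, fun a ha => psi_supp h hr hrl ha⟩⟩
  have hm : Measurable fun p : E d × E d => KK k l p.2 * KK k r (p.2 - p.1) :=
    ((KK_nice h hl).meas.comp measurable_snd).mul
      ((KK_nice h hr).meas.comp (measurable_snd.sub measurable_fst))
  exact (hm.stronglyMeasurable.integral_prod_right' (ν := volume)).measurable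

/-- Cauchy-Schwarz on the interval `[1/2, 2]` -/
theorem psi_cs {f : ℝ → ℝ} (hf : Continuous f) :
    (∫ σ in (1 / 2 : ℝ)..2, f σ) ^ 2 ≤ 3 / 2 * ∫ σ in (1 / 2 : ℝ)..2, f σ ^ 2 := by
  set I := ∫ σ in (1 / 2 : ℝ)..2, f σ with hI
  have h0 : 0 ≤ ∫ σ in (1 / 2 : ℝ)..2, (f σ - 2 / 3 * I) ^ 2 :=
    intervalIntegral.integral_nonneg (by norm_num) fun _ _ => sq_nonneg _
  have e : ∀ σ, (f σ - 2 / 3 * I) ^ 2 = f σ ^ 2 - (4 / 3 * I) * f σ + 4 / 9 * I ^ 2 := by
    intro σ; ring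
  have i1 : IntervalIntegrable (fun σ => f σ ^ 2) volume (1 / 2) 2 :=
    (hf.pow 2).intervalIntegrable _ _
  have i2 : IntervalIntegrable (fun σ => (4 / 3 * I) * f σ) volume (1 / 2) 2 :=
    (continuous_const.mul hf).intervalIntegrable _ _
  simp only [e] at h0
  rw [intervalIntegral.integral_add (i1.sub i2) intervalIntegrable_const,
    intervalIntegral.integral_sub i1 i2, intervalIntegral.integral_const_mul,
    intervalIntegral.integral_const, ← hI, smul_eq_mul] at h0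
  nlinarith

/-- the weight in `Gam` -/
noncomputable def psiWt (a : E d) (e : ℝ) (ζ : E d) : ℝ := (1 + |⟪a, ζ⟫| / (‖ζ‖ * e))⁻¹ ^ 2

theorem psi_wt_smul (a : E d) (e : ℝ) {c : ℝ} (hc : 0 < c) (ζ : E d) :
    psiWt a e (c • ζ) = psiWt a e ζ := by
  unfold psiWt
  rw [real_inner_smul_right, abs_mul, norm_smul, Real.norm_eq_abs, mul_assoc,
    mul_div_mul_left _ _ (abs_pos.2 hc.ne').ne']

theorem psi_wt_meas (a : E d) (e : ℝ) : Measurable (psiWt a e) := by
  unfold psiWt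
  have h1 : Measurable fun ζ : E d => ⟪a, ζ⟫ := (continuous_const.inner continuous_id).measurable
  have h2 : Measurable fun ζ : E d => |⟪a, ζ⟫| := continuous_abs.measurable.comp h1
  exact ((measurable_const.add (h2.div (measurable_norm.mul_const e))).inv).pow_const 2

theorem psi_wt_le (a : E d) {e : ℝ} (he : 0 < e) (ζ : E d) : psiWt a e ζ ≤ 1 := by
  unfold psiWt
  have h0 : 0 ≤ |⟪a, ζ⟫| / (‖ζ‖ * e) := by positivity
  exact pow_le_one₀ (by positivity) (inv_le_one_of_one_le₀ (by linarith))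

theorem psi_G_int {k : E d → ℝ} (h : IsKer k) (a : E d) {e : ℝ} (he : 0 < e) :
    Integrable fun ζ => ‖FT k ζ‖ ^ 2 * psiWt a e ζ := by
  have hm : Measurable fun ζ => ‖FT k ζ‖ ^ 2 * psiWt a e ζ :=
    (((FT_cont h.nice).norm.pow 2).measurable).mul (psi_wt_meas a e)
  refine (planch h.nice).1.mono' hm.aestronglyMeasurable (Filter.Eventually.of_forall fun ζ => ?_)
  have h0 : 0 ≤ psiWt a e ζ := sq_nonneg _
  rw [Real.norm_eq_abs, abs_of_nonneg (by positivity)]
  exact mul_le_of_le_one_right (sq_nonneg _) (psi_wt_le a he ζ)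

/-- Fubini and the change of variables -/
theorem psi_fub {G : E d → ℝ} (hm : Measurable G) (hG : Integrable G) (h0 : ∀ x, 0 ≤ G x)
    {r : ℝ} (hr : 0 < r) :
    Integrable (fun η : E d => ∫ σ in Ioc (1 / 2 : ℝ) 2, G ((r * σ) • η)) ∧
      ∫ η : E d, ∫ σ in Ioc (1 / 2 : ℝ) 2, G ((r * σ) • η) ≤
        3 / 2 * 2 ^ d * (r ^ d)⁻¹ * ∫ x, G x := by
  have hI : 0 ≤ ∫ x, G x := integral_nonneg h0
  have hH : Measurable fun p : ℝ × E d => G ((r * p.1) • p.2) :=
    hm.comp ((measurable_fst.const_mul r).smul measurable_snd)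
  have hval : ∀ σ ∈ Ioc (1 / 2 : ℝ) 2,
      ∫ η : E d, G ((r * σ) • η) ≤ 2 ^ d * (r ^ d)⁻¹ * ∫ x, G x := by
    intro σ hσ
    have hσ0 : 0 < σ := by linarith [hσ.1]
    rw [Measure.integral_comp_smul, finrank_euclideanSpace_fin, smul_eq_mul,
      abs_of_nonneg (by positivity)]
    refine mul_le_mul_of_nonneg_right ?_ hI
    rw [mul_pow, mul_inv, mul_comm]
    refine mul_le_mul_of_nonneg_right ?_ (by positivity)
    rw [← inv_pow]
    refine pow_le_pow_left₀ (by positivity) ?_ d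
    rw [inv_le_comm₀ hσ0 (by norm_num)]
    linarith [hσ.1]
  have hint : Integrable (fun p : ℝ × E d => G ((r * p.1) • p.2))
      ((volume.restrict (Ioc (1 / 2 : ℝ) 2)).prod volume) := by
    rw [integrable_prod_iff hH.aestronglyMeasurable]
    constructor
    · filter_upwards [ae_restrict_mem measurableSet_Ioc] with σ hσ
      have hσ0 : 0 < σ := by linarith [hσ.1]
      exact hG.comp_smul (by positivity)
    · refine Integrable.of_bound
        (hH.norm.stronglyMeasurable.integral_prod_right' (ν := volume)).aestronglyMeasurable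
        (2 ^ d * (r ^ d)⁻¹ * ∫ x, G x) ?_
      filter_upwards [ae_restrict_mem measurableSet_Ioc] with σ hσ
      have e : ∀ η : E d, ‖G ((r * σ) • η)‖ = G ((r * σ) • η) := fun η =>
        Real.norm_of_nonneg (h0 _)
      simp only [e]
      rw [Real.norm_of_nonneg (integral_nonneg fun η => h0 _)]
      exact hval σ hσ
  refine ⟨hint.integral_prod_right, ?_⟩
  rw [← integral_integral_swap (f := fun (σ : ℝ) (η : E d) => G ((r * σ) • η)) hint]
  have h2 : ∫ σ in Ioc (1 / 2 : ℝ) 2, ∫ η : E d, G ((r * σ) • η) ≤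
      ∫ _σ in Ioc (1 / 2 : ℝ) 2, 2 ^ d * (r ^ d)⁻¹ * ∫ x, G x :=
    setIntegral_mono_on hint.integral_prod_left (integrable_const _) measurableSet_Ioc hval
  refine h2.trans (le_of_eq ?_)
  rw [setIntegral_const, smul_eq_mul, Real.volume_real_Ioc_of_le (by norm_num)]
  ring

theorem psi_FT {k : E d → ℝ} (h : IsKer k) {r : ℝ} (hr : 0 < r) (a a₀ η : E d) :
    FT (ray fun z => KK k r (z - a) - KK k r (z - a₀)) η =
      ∫ s in (1 : ℝ)..2, ((s ^ d)⁻¹ : ℝ) *
        ((∫ σ in (1 : ℝ)..2, FT k ((r * (σ / s)) • η) / σ) *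
          (ee (⟪a, η⟫ / s) - ee (⟪a₀, η⟫ / s))) / s := by
  have n1 : Nice fun z => KK k r (z - a) := (KK_nice h hr).shift a
  have n0 : Nice fun z => KK k r (z - a₀) := (KK_nice h hr).shift a₀
  rw [FT_ray (n1.sub n0)]
  refine intervalIntegral.integral_congr fun s _ => ?_
  have e1 : ∀ b : E d, ⟪b, s⁻¹ • η⟫ = ⟪b, η⟫ / s := fun b => by
    rw [real_inner_smul_right, div_eq_inv_mul]
  have e2 : ∀ σ : ℝ, (r * σ) • s⁻¹ • η = (r * (σ / s)) • η := fun σ => by
    rw [smul_smul, div_eq_mul_inv, mul_assoc]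
  rw [FT_sub n1 n0, FT_shift, FT_shift, FT_KK h hr, e1, e1]
  simp only [e2]
  ring

theorem ray_l2 (hd : 1 ≤ d) : ∃ C : ℝ, 0 < C ∧ ∀ k : E d → ℝ, IsKer k → ∀ (r e : ℝ) (a a₀ : E d),
    0 < r → 0 < e → ‖a - a₀‖ ≤ d * e →
    ∫ y, ray (fun z => KK k r (z - a) - KK k r (z - a₀)) y ^ 2 ≤ C * (r ^ d)⁻¹ * Gam k a₀ e := by
  obtain ⟨C, hC, hosc⟩ := osc_main d
  refine ⟨C ^ 2 * (3 / 2) * (3 / 2 * 2 ^ d), by positivity, fun k h r e a a₀ hr he ha => ?_⟩
  have n1 : Nice fun z => KK k r (z - a) := (KK_nice h hr).shift a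
  have n0 : Nice fun z => KK k r (z - a₀) := (KK_nice h hr).shift a₀
  have hm : Measurable fun ζ => ‖FT k ζ‖ ^ 2 * psiWt a₀ e ζ :=
    (((FT_cont h.nice).norm.pow 2).measurable).mul (psi_wt_meas a₀ e)
  obtain ⟨hi, hle⟩ := psi_fub hm (psi_G_int h a₀ he)
    (fun x => mul_nonneg (sq_nonneg _) (sq_nonneg _)) hr
  rw [← (planch (ray_nice (n1.sub n0))).2]
  have hne : ∀ᵐ η : E d, η ≠ 0 := by
    have : Nonempty (Fin d) := ⟨⟨0, hd⟩⟩
    exact Measure.ae_ne volume 0
  have hpt : ∀ᵐ η : E d, ‖FT (ray fun z => KK k r (z - a) - KK k r (z - a₀)) η‖ ^ 2 ≤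
      C ^ 2 * (3 / 2) * ∫ σ in Ioc (1 / 2 : ℝ) 2,
        ‖FT k ((r * σ) • η)‖ ^ 2 * psiWt a₀ e ((r * σ) • η) := by
    filter_upwards [hne] with η hη
    have hρ : 0 < ‖η‖ := norm_pos_iff.2 hη
    have hu : Continuous fun t : ℝ => FT k ((r * t) • η) :=
      (FT_cont h.nice).comp ((continuous_const.mul continuous_id).smul continuous_const)
    have hl : |⟪a, η⟫ - ⟪a₀, η⟫| ≤ d * e * ‖η‖ := by
      rw [← inner_sub_left]
      exact (abs_real_inner_le_norm _ _).trans (mul_le_mul_of_nonneg_right ha hρ.le)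
    have h1 := hosc (fun t => FT k ((r * t) • η)) hu ‖η‖ e ⟪a₀, η⟫ ⟪a, η⟫ hρ he hl
    rw [← psi_FT h hr] at h1
    have h2 := pow_le_pow_left₀ (norm_nonneg _) h1 2
    refine h2.trans ?_
    have h3 := psi_cs hu.norm
    have h4 : ∫ σ in Ioc (1 / 2 : ℝ) 2, ‖FT k ((r * σ) • η)‖ ^ 2 * psiWt a₀ e ((r * σ) • η) =
        (∫ σ in (1 / 2 : ℝ)..2, ‖FT k ((r * σ) • η)‖ ^ 2) * psiWt a₀ e η := by
      rw [intervalIntegral.integral_of_le (by norm_num), ← integral_mul_const]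
      refine setIntegral_congr_fun measurableSet_Ioc fun σ hσ => ?_
      have hσ0 : 0 < σ := by linarith [hσ.1]
      rw [psi_wt_smul _ _ (by positivity)]
    rw [h4, mul_pow, mul_pow]
    have h5 : 0 ≤ psiWt a₀ e η := sq_nonneg _
    calc C ^ 2 * (∫ σ in (1 / 2 : ℝ)..2, ‖FT k ((r * σ) • η)‖) ^ 2 * psiWt a₀ e η
        ≤ C ^ 2 * (3 / 2 * ∫ σ in (1 / 2 : ℝ)..2, ‖FT k ((r * σ) • η)‖ ^ 2) * psiWt a₀ e η := by
          gcongr
      _ = _ := by ring
  have h6 := integral_mono_ae (planch (ray_nice (n1.sub n0))).1 (hi.const_mul _) hpt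
  refine h6.trans ?_
  rw [integral_const_mul]
  calc _ ≤ C ^ 2 * (3 / 2) * (3 / 2 * 2 ^ d * (r ^ d)⁻¹ *
        ∫ x, ‖FT k x‖ ^ 2 * psiWt a₀ e x) := by gcongr
    _ = _ := by unfold Gam psiWt; ring

theorem psi_scale (k : E d → ℝ) {l : ℝ} (hl : 0 < l) (r : ℝ) (a : E d) :
    Psi k l r a = (l ^ d)⁻¹ * Psi k 1 (r / l) (l⁻¹ • a) := by
  unfold Psi
  have h1 := Measure.integral_comp_smul (volume : Measure (E d))
    (fun z => KK k l z * KK k r (z - a)) l
  rw [finrank_euclideanSpace_fin, smul_eq_mul, abs_of_nonneg (by positivity)] at h1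
  have e : ∀ w : E d, KK k l (l • w) * KK k r (l • w - a) =
      (l ^ d)⁻¹ * ((l ^ d)⁻¹ * (KK k 1 w * KK k (r / l) (w - l⁻¹ • a))) := by
    intro w
    have e1 := KK_scale k hl 1 w
    have e2 := KK_scale k hl (r / l) (w - l⁻¹ • a)
    rw [mul_one] at e1
    rw [mul_div_cancel₀ _ hl.ne', smul_sub, smul_inv_smul₀ hl.ne'] at e2
    rw [e1, e2]; ring
  simp only [e] at h1
  rw [integral_const_mul, integral_const_mul] at h1
  exact (mul_left_cancel₀ (by positivity) h1).symm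

theorem psi_gam_scale (k : E d → ℝ) {l : ℝ} (hl : 0 < l) (a : E d) (e : ℝ) :
    Gam k (l⁻¹ • a) (e / l) = Gam k a e := by
  unfold Gam
  congr 1
  ext ζ
  rw [real_inner_smul_left, abs_mul, abs_of_pos (inv_pos.2 hl), div_eq_inv_mul e l,
    mul_left_comm, mul_div_mul_left _ _ (inv_pos.2 hl).ne']

theorem psi_tube_cpt (a : E d) (ρ : ℝ) :
    IsCompact {y : E d | ∃ s ∈ Icc (1 : ℝ) 2, ‖s • y - a‖ ≤ ρ} := by
  have e : {y : E d | ∃ s ∈ Icc (1 : ℝ) 2, ‖s • y - a‖ ≤ ρ} =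
      (fun p : ℝ × E d => p.1 • p.2) '' (Icc (1 / 2 : ℝ) 1 ×ˢ Metric.closedBall a ρ) := by
    ext y
    constructor
    · rintro ⟨s, hs, h⟩
      have hs0 : 0 < s := by linarith [hs.1]
      refine ⟨(s⁻¹, s • y), ⟨⟨?_, inv_le_one_of_one_le₀ hs.1⟩, ?_⟩, inv_smul_smul₀ hs0.ne' y⟩
      · rw [one_div]; exact inv_anti₀ hs0 hs.2
      · rwa [mem_closedBall_iff_norm]
    · rintro ⟨⟨t, x⟩, ⟨ht, hx⟩, rfl⟩
      have ht0 : 0 < t := by linarith [ht.1]
      refine ⟨t⁻¹, ⟨(one_le_inv₀ ht0).2 ht.2, ?_⟩, ?_⟩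
      · rw [inv_le_comm₀ ht0 (by norm_num)]; linarith [ht.1]
      · rw [inv_smul_smul₀ ht0.ne']; rwa [mem_closedBall_iff_norm] at hx
  rw [e]
  exact (isCompact_Icc.prod (isCompact_closedBall a ρ)).image (continuous_fst.smul continuous_snd)

theorem psi_diff_one (hd : 1 ≤ d) : ∃ C : ℝ, 0 < C ∧ ∀ k : E d → ℝ, IsKer k →
    ∀ (r e : ℝ) (a a₀ : E d), 0 < r → r ≤ 1 → 0 < e → e ≤ 4 * r → ‖a₀‖ ≤ 8 + 4 * d →
    ‖a - a₀‖ ≤ d * e → |Psi k 1 r a - Psi k 1 r a₀| ≤ C * √(Gam k a₀ e / r) := by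
  obtain ⟨C, hC, hray⟩ := ray_l2 hd
  set B : ℝ := 2 * (12 + 8 * d) * (2 * (4 + 4 * d)) ^ (d - 1) with hB
  have hB0 : 0 < B := by positivity
  refine ⟨√(B * C), by positivity, fun k h r e a a₀ hr hr1 he her ha₀ ha => ?_⟩
  have hd0 : (0 : ℝ) ≤ d := Nat.cast_nonneg d
  have n1 : Nice fun z => KK k r (z - a) := (KK_nice h hr).shift a
  have n0 : Nice fun z => KK k r (z - a₀) := (KK_nice h hr).shift a₀
  have nK := KK_nice h one_pos
  set T := {y : E d | ∃ s ∈ Icc (1 : ℝ) 2, ‖s • y - a₀‖ ≤ (4 + 4 * d) * r} with hT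
  have hTc : IsCompact T := psi_tube_cpt _ _
  have hTm : MeasurableSet T := hTc.measurableSet
  have hoff : ∀ y, y ∉ T → ray (fun z => KK k r (z - a) - KK k r (z - a₀)) y = 0 := by
    intro y hy
    unfold ray
    rw [intervalIntegral.integral_congr (g := fun _ => 0), intervalIntegral.integral_zero]
    intro s hs
    rw [uIcc_of_le (by norm_num)] at hs
    have h1 : (4 + 4 * d) * r < ‖s • y - a₀‖ := by
      by_contra hc
      exact hy ⟨s, hs, not_lt.1 hc⟩
    have h2 : ‖s • y - a₀‖ ≤ ‖s • y - a‖ + ‖a - a₀‖ := norm_sub_le_norm_sub_add_norm_sub _ _ _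
    have h3 : d * e ≤ d * (4 * r) := mul_le_mul_of_nonneg_left her hd0
    have h4 : 0 ≤ d * r := by positivity
    simp only []
    rw [KK_supp h hr (y := s • y - a) (by nlinarith), KK_supp h hr (y := s • y - a₀) (by nlinarith)]
    simp
  have e1 : Psi k 1 r a - Psi k 1 r a₀ =
      ∫ y, T.indicator k y * ray (fun z => KK k r (z - a) - KK k r (z - a₀)) y := by
    unfold Psi
    rw [← integral_sub (nK.mul n1).integrable (nK.mul n0).integrable]
    simp only [← mul_sub]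
    rw [KK_pair h (n1.sub n0)]
    congr 1
    ext y
    by_cases hy : y ∈ T
    · rw [indicator_of_mem hy]
    · rw [hoff y hy, mul_zero, mul_zero]
  have e2 : ∫ y, T.indicator k y ^ 2 ≤ B * r ^ (d - 1) := by
    have h1 : ∫ y, T.indicator k y ^ 2 ≤ ∫ y, T.indicator (fun _ => (1 : ℝ)) y := by
      refine integral_mono (h.nice.indicator hTm).sq.integrable
        (nice_indicator hTm hTc.isBounded 1).integrable fun y => ?_
      by_cases hy : y ∈ T
      · simp only [indicator_of_mem hy]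
        exact (sq_le_one_iff_abs_le_one _).2 (h.bdd y)
      · simp [indicator_of_notMem hy]
    refine h1.trans ?_
    rw [integral_indicator hTm, setIntegral_const, smul_eq_mul, mul_one]
    have h2 := tube_le hd a₀ (ρ := (4 + 4 * d) * r) (by positivity)
    have h3 : volume.real T ≤ 2 * (‖a₀‖ + (4 + 4 * d) * r) * (2 * ((4 + 4 * d) * r)) ^ (d - 1) :=
      ENNReal.toReal_le_of_le_ofReal (by positivity) h2
    refine h3.trans ?_
    rw [hB, ← mul_assoc 2 (4 + 4 * (d : ℝ)) r, mul_pow, ← mul_assoc]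
    have h4 : ‖a₀‖ + (4 + 4 * d) * r ≤ 12 + 8 * d := by nlinarith
    gcongr
  have e3 := hray k h r e a a₀ hr he ha
  have hg := gam_nonneg k a₀ e
  rw [e1]
  refine ((h.nice.indicator hTm).cs (ray_nice (n1.sub n0))).trans ?_
  calc _ ≤ √(B * r ^ (d - 1)) * √(C * (r ^ d)⁻¹ * Gam k a₀ e) := by gcongr
    _ = _ := by
      rw [← Real.sqrt_mul (by positivity), ← Real.sqrt_mul (by positivity)]
      congr 1
      obtain ⟨n, rfl⟩ : ∃ n, d = n + 1 := ⟨d - 1, by omega⟩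
      rw [Nat.add_sub_cancel, pow_succ]
      field_simp

theorem psi_diff (hd : 1 ≤ d) : ∃ C : ℝ, 0 < C ∧ ∀ k : E d → ℝ, IsKer k →
    ∀ (l r e : ℝ) (a a₀ : E d), 0 < r → r ≤ l → 0 < e → e ≤ 4 * r → ‖a₀‖ ≤ (8 + 4 * d) * l →
    ‖a - a₀‖ ≤ d * e → |Psi k l r a - Psi k l r a₀| ≤ C * (l ^ d)⁻¹ * √(l * Gam k a₀ e / r) := by
  obtain ⟨C, hC, hone⟩ := psi_diff_one hd
  refine ⟨C, hC, fun k h l r e a a₀ hr hrl he her ha₀ ha => ?_⟩
  have hl : 0 < l := hr.trans_le hrl
  have h1 := hone k h (r / l) (e / l) (l⁻¹ • a) (l⁻¹ • a₀) (by positivity)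
    ((div_le_one hl).2 hrl) (by positivity)
    (by rw [← mul_div_assoc]; gcongr)
    (by rw [norm_smul, Real.norm_of_nonneg (by positivity), inv_mul_le_iff₀ hl, mul_comm]
        exact ha₀)
    (by rw [← smul_sub, norm_smul, Real.norm_of_nonneg (by positivity), ← mul_div_assoc,
          div_eq_inv_mul]
        gcongr)
  rw [psi_gam_scale k hl] at h1
  rw [psi_scale k hl r a, psi_scale k hl r a₀, ← mul_sub, abs_mul, abs_of_nonneg (by positivity)]
  have e1 : Gam k a₀ e / (r / l) = l * Gam k a₀ e / r := by field_simp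
  rw [e1] at h1
  calc _ ≤ (l ^ d)⁻¹ * (C * √(l * Gam k a₀ e / r)) := by gcongr
    _ = _ := by ring

end Pool.Agent.MP_418f02_an

end

section

open MeasureTheory Set
open scoped ENNReal RealInnerProductSpace

namespace Pool.Agent.MP_418f02_an

variable {d : ℕ}

/-- pairing of a mean zero atom with a function that is nearly constant on the cube -/
theorem seeger_atom {P : Finset (Cb d)} {b : Cb d → E d → ℝ} {c : ℝ} (h : Atoms P b c)
    {Q : Cb d} (hQ : Q ∈ P) {F : E d → ℝ} (hF : Nice F) {v M : ℝ} (hM : 0 ≤ M)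
    (hb : ∀ a ∈ cube Q, |F a - v| ≤ M) : |∫ a, b Q a * F a| ≤ M * (c * sz d Q.1) := by
  have hn := h.nice Q hQ
  have h1 : ∫ a, b Q a * F a = ∫ a, b Q a * (F a - v) := by
    have e : (fun a => b Q a * (F a - v)) = fun a => b Q a * F a - v * b Q a := by
      funext a; ring
    rw [e, integral_sub (hn.mul hF).integrable (hn.const_mul v).integrable, integral_const_mul,
      h.zero Q hQ]
    ring
  rw [h1]
  calc |∫ a, b Q a * (F a - v)| ≤ ∫ a, M * |b Q a| := by
        rw [← Real.norm_eq_abs]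
        refine norm_integral_le_of_norm_le (hn.abs.const_mul M).integrable
          (Filter.Eventually.of_forall fun a => ?_)
        rw [Real.norm_eq_abs, abs_mul]
        by_cases ha : a ∈ cube Q
        · rw [mul_comm]
          exact mul_le_mul_of_nonneg_right (hb a ha) (abs_nonneg _)
        · simp [h.supp Q hQ a ha]
    _ = M * ∫ a, |b Q a| := integral_const_mul _ _
    _ ≤ M * (c * sz d Q.1) := mul_le_mul_of_nonneg_left (h.mass Q hQ) hM

theorem seeger_sqrt (s : ℕ) (q : ℤ) {l g : ℝ} (hl : 0 < l)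
    (hg : g ≤ (5 / 4) ^ s * 2 ^ q / l) : √(l * g / 2 ^ (q + s - 2)) ≤ 2 * (4 / 5) ^ s := by
  have hq : (0 : ℝ) < 2 ^ q := by positivity
  have e : (2 : ℝ) ^ (q + s - 2) = 2 ^ q * 2 ^ s / 4 := by
    rw [zpow_sub₀ (by norm_num), zpow_add₀ (by norm_num), zpow_natCast]
    norm_num
  have h1 : l * g ≤ (5 / 4) ^ s * 2 ^ q := by
    rw [le_div_iff₀ hl] at hg
    linarith
  have h2 : ((5 : ℝ) / 4) ^ s ≤ ((4 / 5) ^ s) ^ 2 * 2 ^ s := by
    rw [← pow_mul, mul_comm s 2, pow_mul, ← mul_pow]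
    exact pow_le_pow_left₀ (by norm_num) (by norm_num) s
  rw [Real.sqrt_le_left (by positivity), e, div_le_iff₀ (by positivity)]
  calc l * g ≤ (5 / 4) ^ s * 2 ^ q := h1
    _ ≤ (((4 / 5) ^ s) ^ 2 * 2 ^ s) * 2 ^ q := mul_le_mul_of_nonneg_right h2 hq.le
    _ = (2 * (4 / 5) ^ s) ^ 2 * (2 ^ q * 2 ^ s / 4) := by ring

open scoped Classical in
theorem seeger_sum_le {P : Finset (Cb d)} (h : Dj P) {S : Set (E d)} {v : ℝ} (hv : 0 ≤ v)
    (hS : volume S ≤ ENNReal.ofReal v) (p : Cb d → Prop) [DecidablePred p] {α : ℝ} (hα : 0 ≤ α) :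
    ∑ Q ∈ P with p Q, (if cube Q ⊆ S then α else 0) * sz d Q.1 ≤ α * v := by
  have h1 : ∑ Q ∈ P with p Q, (if cube Q ⊆ S then α else 0) * sz d Q.1 =
      α * ∑ Q ∈ (P.filter p).filter fun Q => cube Q ⊆ S, sz d Q.1 := by
    rw [Finset.mul_sum, Finset.sum_filter (s := P.filter p)]
    refine Finset.sum_congr rfl fun Q _ => ?_
    split_ifs <;> simp
  rw [h1]
  refine mul_le_mul_of_nonneg_left ?_ hα
  refine (h.subset ((Finset.filter_subset _ _).trans (Finset.filter_subset _ _))).sum_le hv hS ?_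
  intro Q hQ
  exact (Finset.mem_filter.1 hQ).2

theorem see_key (hd : 1 ≤ d) : ∃ C : ℝ, 0 < C ∧ ∀ k : E d → ℝ, IsKer k →
    ∀ (P : Finset (Cb d)) (b : Cb d → E d → ℝ) (c : ℝ), 0 ≤ c → Atoms P b c →
    ∀ (s : ℕ) (j : ℤ) (x : E d), ∑ Q ∈ P with Q.1 + s ≤ j,
      |∫ a, b Q a * Psi k (2 ^ (j - 2)) (2 ^ (Q.1 + s - 2)) (a - x)| ≤ C * c * (4 / 5) ^ s := by
  classical
  obtain ⟨C₁, hC₁, H₁⟩ := gam_bad hd
  obtain ⟨C₂, hC₂, H₂⟩ := psi_diff hd
  refine ⟨8 ^ d * C₁ + 2 * C₂ * (2 * (8 + 4 * d)) ^ d, by positivity, ?_⟩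
  intro k hk P b c hc hA s j x
  obtain ⟨m, hm⟩ : ∃ m : ℤ, ∀ Q ∈ P, m ≤ Q.1 := by
    obtain ⟨m, hm⟩ := (P.finite_toSet.image Prod.fst).bddBelow
    exact ⟨m, fun Q hQ => hm ⟨Q, hQ, rfl⟩⟩
  obtain ⟨l, hl⟩ : ∃ l : ℝ, l = 2 ^ (j - 2) := ⟨_, rfl⟩
  have hl0 : 0 < l := by rw [hl]; positivity
  have hl4 : (2 : ℝ) ^ j = 4 * l := by
    rw [hl, zpow_sub₀ (by norm_num)]
    norm_num
    ring
  rw [← hl]
  have ht : (0 : ℝ) < (5 / 4) ^ s := by positivity
  obtain ⟨B, hB⟩ : ∃ B : Set (E d), B = {a : E d | ‖a‖ ≤ (8 + 4 * d) * l ∧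
      ∃ e, (2 : ℝ) ^ m ≤ e ∧ (5 / 4) ^ s * e / l < Gam k a e} := ⟨_, rfl⟩
  have hBv : volume B ≤ ENNReal.ofReal (C₁ * l ^ d / (5 / 4) ^ s) := by
    rw [hB]
    exact H₁ k hk l _ _ hl0 ht (by positivity)
  have hS₁ : volume ((fun a => a - x) ⁻¹' B) ≤ ENNReal.ofReal (C₁ * l ^ d / (5 / 4) ^ s) := by
    simp_rw [sub_eq_add_neg]
    rw [measure_preimage_add_right]
    exact hBv
  have hR : (0 : ℝ) ≤ (8 + 4 * d) * l := by positivity
  have hS₂ := volume_norm_le x hR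
  have hα : (0 : ℝ) ≤ 8 ^ d * (l ^ d)⁻¹ := by positivity
  have hβ : (0 : ℝ) ≤ C₂ * (l ^ d)⁻¹ * (2 * (4 / 5) ^ s) := by positivity
  have key : ∀ Q ∈ P.filter fun Q => Q.1 + s ≤ j,
      |∫ a, b Q a * Psi k l (2 ^ (Q.1 + s - 2)) (a - x)| ≤
        c * ((if cube Q ⊆ (fun a => a - x) ⁻¹' B then 8 ^ d * (l ^ d)⁻¹ else 0) * sz d Q.1) +
        c * ((if cube Q ⊆ {y : E d | ‖y - x‖ ≤ (8 + 4 * d) * l} then
          C₂ * (l ^ d)⁻¹ * (2 * (4 / 5) ^ s) else 0) * sz d Q.1) := by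
    intro Q hQ
    obtain ⟨hQP, hQj⟩ := Finset.mem_filter.1 hQ
    have hr : (0 : ℝ) < 2 ^ (Q.1 + s - 2) := by positivity
    have hrl : (2 : ℝ) ^ (Q.1 + s - 2) ≤ l := by
      rw [hl]
      exact zpow_le_zpow_right₀ (by norm_num) (by omega)
    have hN : Nice fun a => Psi k l (2 ^ (Q.1 + s - 2)) (a - x) := (psi_nice hk hr hrl).shift x
    have hsz := (sz_pos (d := d) Q.1).le
    have n₁ : 0 ≤ c * ((if cube Q ⊆ (fun a => a - x) ⁻¹' B then 8 ^ d * (l ^ d)⁻¹ else 0) *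
        sz d Q.1) := by
      refine mul_nonneg hc (mul_nonneg ?_ hsz)
      split_ifs
      · exact hα
      · exact le_rfl
    have n₂ : 0 ≤ c * ((if cube Q ⊆ {y : E d | ‖y - x‖ ≤ (8 + 4 * d) * l} then
        C₂ * (l ^ d)⁻¹ * (2 * (4 / 5) ^ s) else 0) * sz d Q.1) := by
      refine mul_nonneg hc (mul_nonneg ?_ hsz)
      split_ifs
      · exact hβ
      · exact le_rfl
    by_cases h₀ : ∀ a ∈ cube Q, 8 * l < ‖a - x‖
    · have := seeger_atom hA hQP hN (v := 0) (M := 0) le_rfl fun a ha => by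
        rw [psi_supp hk hr hrl (h₀ a ha)]
        simp
      linarith
    by_cases h₁ : cube Q ⊆ (fun a => a - x) ⁻¹' B
    · have := seeger_atom hA hQP hN (v := 0) hα fun a _ => by
        rw [sub_zero]
        exact psi_le hk hl0 hr _
      rw [if_pos h₁]
      linarith
    push Not at h₀
    obtain ⟨a₁, ha₁, ha₁x⟩ := h₀
    have he : (2 : ℝ) ^ Q.1 ≤ 4 * l := by
      rw [← hl4]
      exact zpow_le_zpow_right₀ (by norm_num) (by omega)
    have h₂ : cube Q ⊆ {y : E d | ‖y - x‖ ≤ (8 + 4 * d) * l} := by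
      intro a ha
      have u₁ := norm_sub_le_of_cube ha ha₁
      have u₂ : ‖a - x‖ ≤ ‖a - a₁‖ + ‖a₁ - x‖ := norm_sub_le_norm_sub_add_norm_sub _ _ _
      have u₃ : (d : ℝ) * 2 ^ Q.1 ≤ d * (4 * l) := mul_le_mul_of_nonneg_left he (by positivity)
      show ‖a - x‖ ≤ (8 + 4 * d) * l
      linarith
    obtain ⟨a₀, ha₀, ha₀B⟩ := Set.not_subset.1 h₁
    have ha₀x : ‖a₀ - x‖ ≤ (8 + 4 * d) * l := h₂ ha₀
    have hg : Gam k (a₀ - x) (2 ^ Q.1) ≤ (5 / 4) ^ s * 2 ^ Q.1 / l := by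
      by_contra hcon
      apply ha₀B
      rw [hB]
      exact ⟨ha₀x, 2 ^ Q.1, zpow_le_zpow_right₀ (by norm_num) (hm Q hQP), lt_of_not_ge hcon⟩
    have her : (2 : ℝ) ^ Q.1 ≤ 4 * 2 ^ (Q.1 + s - 2) := by
      have e : (4 : ℝ) * 2 ^ (Q.1 + s - 2) = 2 ^ (Q.1 + s) := by
        rw [zpow_sub₀ (by norm_num)]
        norm_num
        ring
      rw [e]
      exact zpow_le_zpow_right₀ (by norm_num) (by omega)
    have := seeger_atom hA hQP hN (v := Psi k l (2 ^ (Q.1 + s - 2)) (a₀ - x)) hβ fun a ha => by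
      refine (H₂ k hk l _ (2 ^ Q.1) (a - x) (a₀ - x) hr hrl (by positivity) her ha₀x ?_).trans ?_
      · rw [sub_sub_sub_cancel_right]
        exact norm_sub_le_of_cube ha ha₀
      · exact mul_le_mul_of_nonneg_left (seeger_sqrt s Q.1 hl0 hg) (by positivity)
    rw [if_pos h₂]
    linarith
  refine (Finset.sum_le_sum key).trans ?_
  rw [Finset.sum_add_distrib, ← Finset.mul_sum, ← Finset.mul_sum]
  have b₁ := seeger_sum_le hA.dj (by positivity) hS₁ (fun Q => Q.1 + s ≤ j) hα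
  have b₂ := seeger_sum_le hA.dj (by positivity) hS₂ (fun Q => Q.1 + s ≤ j) hβ
  have e₁ : 8 ^ d * (l ^ d)⁻¹ * (C₁ * l ^ d / (5 / 4) ^ s) = 8 ^ d * C₁ * (4 / 5) ^ s := by
    have : ((4 : ℝ) / 5) ^ s = ((5 / 4) ^ s)⁻¹ := by
      rw [← inv_pow]
      norm_num
    rw [this]
    field_simp
  have e₂ : C₂ * (l ^ d)⁻¹ * (2 * (4 / 5) ^ s) * (2 * ((8 + 4 * d) * l)) ^ d =
      2 * C₂ * (2 * (8 + 4 * d)) ^ d * (4 / 5) ^ s := by
    rw [← mul_assoc 2 _ l, mul_pow _ l]
    field_simp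
  rw [e₁] at b₁
  rw [e₂] at b₂
  have c₁ := mul_le_mul_of_nonneg_left b₁ hc
  have c₂ := mul_le_mul_of_nonneg_left b₂ hc
  linarith

theorem seeger_meas {g F : E d → ℝ} (hg : Measurable g) (hF : Measurable F) :
    Measurable fun x => ∫ a, g a * F (a - x) := by
  have : Measurable fun p : E d × E d => g p.2 * F (p.2 - p.1) :=
    (hg.comp measurable_snd).mul (hF.comp (measurable_snd.sub measurable_fst))
  exact (this.stronglyMeasurable.integral_prod_right' (ν := volume)).measurable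

theorem seeger_symm {ι : Type} (P : Finset ι) (v : ι → ℤ) (J : ι → ι → ℝ)
    (hJ : ∀ a b, J a b = J b a) :
    ∑ a ∈ P, ∑ b ∈ P, J a b ≤ 2 * ∑ a ∈ P, ∑ b ∈ P with v b ≤ v a, |J a b| := by
  have h1 : ∑ a ∈ P, ∑ b ∈ P with v b ≤ v a, |J a b| =
      ∑ a ∈ P, ∑ b ∈ P, if v b ≤ v a then |J a b| else 0 :=
    Finset.sum_congr rfl fun a _ => Finset.sum_filter _ _
  have h2 : ∑ a ∈ P, ∑ b ∈ P, (if v b ≤ v a then |J a b| else 0) =
      ∑ a ∈ P, ∑ b ∈ P, if v a ≤ v b then |J a b| else 0 := by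
    rw [Finset.sum_comm]
    exact Finset.sum_congr rfl fun a _ => Finset.sum_congr rfl fun b _ => by rw [hJ b a]
  rw [two_mul, h1]
  nth_rewrite 2 [h2]
  rw [← Finset.sum_add_distrib]
  refine Finset.sum_le_sum fun a _ => ?_
  rw [← Finset.sum_add_distrib]
  refine Finset.sum_le_sum fun b _ => ?_
  have := le_abs_self (J a b)
  have := abs_nonneg (J a b)
  split_ifs with u w w
  · linarith
  · linarith
  · linarith
  · omega

theorem seeger (hd : 1 ≤ d) : ∃ C : ℝ, 0 < C ∧ ∀ k : E d → ℝ, IsKer k →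
    ∀ (P : Finset (Cb d)) (b : Cb d → E d → ℝ) (c : ℝ), 0 ≤ c → Atoms P b c → ∀ s : ℕ,
    ∫ x, (∑ Q ∈ P, cv k (Q.1 + s) (b Q) x) ^ 2 ≤ C * c ^ 2 * (4 / 5) ^ s * ∑ Q ∈ P, sz d Q.1 := by
  obtain ⟨C, hC, H⟩ := see_key hd
  refine ⟨2 * C, by positivity, ?_⟩
  intro k hk P b c hc hA s
  have hu : ∀ Q ∈ P, Nice (cv k (Q.1 + s) (b Q)) := fun Q hQ => cv_nice hk (hA.nice Q hQ) _
  have h1 : ∫ x, (∑ Q ∈ P, cv k (Q.1 + s) (b Q) x) ^ 2 =
      ∑ Q ∈ P, ∑ R ∈ P, ∫ x, cv k (Q.1 + s) (b Q) x * cv k (R.1 + s) (b R) x := by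
    simp_rw [pow_two, Finset.sum_mul_sum]
    rw [integral_finsetSum _ fun Q hQ =>
      integrable_finsetSum _ fun R hR => ((hu Q hQ).mul (hu R hR)).integrable]
    exact Finset.sum_congr rfl fun Q hQ =>
      integral_finsetSum _ fun R hR => ((hu Q hQ).mul (hu R hR)).integrable
  rw [h1]
  refine (seeger_symm P Prod.fst _ fun Q R => by simp_rw [mul_comm]).trans ?_
  have hK : 0 ≤ C * c * (4 / 5) ^ s := by positivity
  have key : ∀ Q ∈ P, ∑ R ∈ P with R.1 ≤ Q.1,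
      |∫ x, cv k (Q.1 + s) (b Q) x * cv k (R.1 + s) (b R) x| ≤
        C * c * (4 / 5) ^ s * (c * sz d Q.1) := by
    intro Q hQ
    have hn := hA.nice Q hQ
    have hf : P.filter (fun R => R.1 ≤ Q.1) = P.filter fun R => R.1 + s ≤ Q.1 + s :=
      Finset.filter_congr fun R _ => by omega
    have H' := fun x => H k hk P b c hc hA s (Q.1 + s) x
    rw [← hf] at H'
    have hI : ∀ R ∈ P.filter (fun R => R.1 ≤ Q.1), Integrable fun x => |b Q x| *
        |∫ a, b R a * Psi k (2 ^ (Q.1 + s - 2)) (2 ^ (R.1 + s - 2)) (a - x)| := by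
      intro R hR
      obtain ⟨hRP, hRQ⟩ := Finset.mem_filter.1 hR
      have hP : Nice (Psi k (2 ^ (Q.1 + s - 2)) (2 ^ (R.1 + s - 2))) :=
        psi_nice hk (by positivity) (zpow_le_zpow_right₀ (by norm_num) (by omega))
      refine hn.abs.integrable.mul_bdd (c := C * c * (4 / 5) ^ s)
        (seeger_meas (hA.nice R hRP).meas hP.meas).abs.aestronglyMeasurable
        (Filter.Eventually.of_forall fun x => ?_)
      rw [Real.norm_eq_abs, abs_abs]
      refine le_trans ?_ (H' x)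
      exact Finset.single_le_sum (f := fun R : Cb d =>
        |∫ a, b R a * Psi k (2 ^ (Q.1 + s - 2)) (2 ^ (R.1 + s - 2)) (a - x)|)
        (fun _ _ => abs_nonneg _) hR
    calc ∑ R ∈ P with R.1 ≤ Q.1, |∫ x, cv k (Q.1 + s) (b Q) x * cv k (R.1 + s) (b R) x|
        ≤ ∑ R ∈ P with R.1 ≤ Q.1, ∫ x, |b Q x| *
          |∫ a, b R a * Psi k (2 ^ (Q.1 + s - 2)) (2 ^ (R.1 + s - 2)) (a - x)| := by
          refine Finset.sum_le_sum fun R hR => ?_
          rw [cv_inner hk hn (hA.nice R (Finset.mem_filter.1 hR).1)]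
          refine abs_integral_le_integral_abs.trans (le_of_eq ?_)
          simp_rw [abs_mul]
      _ = ∫ x, ∑ R ∈ P with R.1 ≤ Q.1, |b Q x| *
          |∫ a, b R a * Psi k (2 ^ (Q.1 + s - 2)) (2 ^ (R.1 + s - 2)) (a - x)| :=
          (integral_finsetSum _ hI).symm
      _ ≤ ∫ x, C * c * (4 / 5) ^ s * |b Q x| := by
          refine integral_mono (integrable_finsetSum _ hI) (hn.abs.const_mul _).integrable
            fun x => ?_
          simp only
          rw [← Finset.mul_sum, mul_comm]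
          exact mul_le_mul_of_nonneg_right (H' x) (abs_nonneg _)
      _ = C * c * (4 / 5) ^ s * ∫ x, |b Q x| := integral_const_mul _ _
      _ ≤ _ := mul_le_mul_of_nonneg_left (hA.mass Q hQ) hK
  calc 2 * ∑ Q ∈ P, ∑ R ∈ P with R.1 ≤ Q.1,
        |∫ x, cv k (Q.1 + s) (b Q) x * cv k (R.1 + s) (b R) x|
      ≤ 2 * ∑ Q ∈ P, C * c * (4 / 5) ^ s * (c * sz d Q.1) :=
        mul_le_mul_of_nonneg_left (Finset.sum_le_sum key) (by norm_num)
    _ = 2 * C * c ^ 2 * (4 / 5) ^ s * ∑ Q ∈ P, sz d Q.1 := by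
        rw [← Finset.mul_sum, ← Finset.mul_sum]
        ring

theorem seeger_pair (hd : 1 ≤ d) : ∃ C : ℝ, 0 < C ∧ ∀ k : E d → ℝ, IsKer k →
    ∀ (P : Finset (Cb d)) (b : Cb d → E d → ℝ) (c : ℝ), 0 ≤ c → Atoms P b c → ∀ s : ℕ,
    ∀ h : E d → ℝ, Nice h → |∑ Q ∈ P, ∫ x, h x * cv k (Q.1 + s) (b Q) x| ≤
      C * c * (9 / 10) ^ s * √(∫ x, h x ^ 2) * √(∑ Q ∈ P, sz d Q.1) := by
  obtain ⟨C, hC, H⟩ := seeger hd
  refine ⟨√C, Real.sqrt_pos.2 hC, ?_⟩
  intro k hk P b c hc hA s h hh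
  have hu : ∀ Q ∈ P, Nice (cv k (Q.1 + s) (b Q)) := fun Q hQ => cv_nice hk (hA.nice Q hQ) _
  have h1 : ∑ Q ∈ P, ∫ x, h x * cv k (Q.1 + s) (b Q) x =
      ∫ x, h x * ∑ Q ∈ P, cv k (Q.1 + s) (b Q) x := by
    simp_rw [Finset.mul_sum]
    exact (integral_finsetSum _ fun Q hQ => (hh.mul (hu Q hQ)).integrable).symm
  have hS : 0 ≤ ∑ Q ∈ P, sz d Q.1 := Finset.sum_nonneg fun Q _ => (sz_pos _).le
  have h2 : √(∫ x, (∑ Q ∈ P, cv k (Q.1 + s) (b Q) x) ^ 2) ≤
      √C * c * (9 / 10) ^ s * √(∑ Q ∈ P, sz d Q.1) := by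
    rw [Real.sqrt_le_left (by positivity)]
    refine (H k hk P b c hc hA s).trans ?_
    have e : (√C * c * (9 / 10) ^ s * √(∑ Q ∈ P, sz d Q.1)) ^ 2 =
        C * c ^ 2 * ((9 / 10) ^ s) ^ 2 * ∑ Q ∈ P, sz d Q.1 := by
      rw [mul_pow, mul_pow, mul_pow, Real.sq_sqrt hC.le, Real.sq_sqrt hS]
    have h3 : ((4 : ℝ) / 5) ^ s ≤ ((9 / 10) ^ s) ^ 2 := by
      rw [← pow_mul, mul_comm s 2, pow_mul]
      exact pow_le_pow_left₀ (by norm_num) (by norm_num) s
    rw [e]
    exact mul_le_mul_of_nonneg_right (mul_le_mul_of_nonneg_left h3 (by positivity)) hS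
  rw [h1]
  refine (hh.cs (nice_sum hu)).trans ?_
  calc √(∫ x, h x ^ 2) * √(∫ x, (∑ Q ∈ P, cv k (Q.1 + s) (b Q) x) ^ 2)
      ≤ √(∫ x, h x ^ 2) * (√C * c * (9 / 10) ^ s * √(∑ Q ∈ P, sz d Q.1)) :=
        mul_le_mul_of_nonneg_left h2 (Real.sqrt_nonneg _)
    _ = _ := by ring

end Pool.Agent.MP_418f02_an

end

section

open MeasureTheory Set
open scoped ENNReal RealInnerProductSpace

namespace Pool.Agent.MP_418f02_an

variable {d : ℕ}

lemma step_real_cube (c : Cb d) : volume.real (cube c) = sz d c.1 := by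
  rw [Measure.real, volume_cube, ENNReal.toReal_ofReal (sz_pos _).le]

lemma step_bdd_cube (c : Cb d) : Bornology.IsBounded (cube c) :=
  (isBounded_big c).subset (cube_subset_big c)

/-- the atom attached to a set of positive measure on which `T` is large -/
lemma step_atom {T : E d → ℝ} (hT : Nice T) (R : Cb d) (A : ℝ)
    (h : 0 < volume {y ∈ cube R | A < T y}) :
    ∃ μ : E d → ℝ, Nice μ ∧ (∀ x, x ∉ cube R → μ x = 0) ∧ ∫ x, μ x = 0 ∧
      ∫ x, |μ x| ≤ 2 * sz d R.1 ∧ A * sz d R.1 ≤ (∫ x in cube R, T x) + ∫ x, T x * μ x := by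
  set S : Set (E d) := {y ∈ cube R | A < T y} with hS
  have hsub : S ⊆ cube R := fun y hy => hy.1
  have hm : MeasurableSet S := (measurableSet_cube R).inter (measurableSet_lt measurable_const hT.meas)
  have hfin : volume S ≠ ∞ := by
    refine ne_top_of_le_ne_top ?_ (measure_mono hsub)
    rw [volume_cube]; exact ENNReal.ofReal_ne_top
  have hv : 0 < volume.real S := ENNReal.toReal_pos h.ne' hfin
  have hz := sz_pos (d := d) R.1
  have n1 : Nice (S.indicator fun _ => sz d R.1 / volume.real S) :=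
    nice_indicator hm ((step_bdd_cube R).subset hsub) _
  have n2 : Nice ((cube R).indicator fun _ => (1 : ℝ)) :=
    nice_indicator (measurableSet_cube R) (step_bdd_cube R) _
  have i1 : ∫ x, S.indicator (fun _ => sz d R.1 / volume.real S) x = sz d R.1 := by
    rw [integral_indicator_const _ hm, smul_eq_mul]; field_simp
  have i2 : ∫ x, (cube R).indicator (fun _ => (1 : ℝ)) x = sz d R.1 := by
    rw [integral_indicator_const _ (measurableSet_cube R), smul_eq_mul, step_real_cube, mul_one]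
  refine ⟨fun x => S.indicator (fun _ => sz d R.1 / volume.real S) x -
    (cube R).indicator (fun _ => (1 : ℝ)) x, n1.sub n2, ?_, ?_, ?_, ?_⟩
  · intro x hx
    beta_reduce
    rw [indicator_of_notMem (fun h => hx (hsub h)), indicator_of_notMem hx, sub_zero]
  · rw [integral_sub n1.integrable n2.integrable, i1, i2, sub_self]
  · calc _ ≤ ∫ x, (S.indicator (fun _ => sz d R.1 / volume.real S) x +
          (cube R).indicator (fun _ => (1 : ℝ)) x) := by
          refine integral_mono (n1.sub n2).abs.integrable (n1.add n2).integrable fun x => ?_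
          have a1 : 0 ≤ S.indicator (fun _ => sz d R.1 / volume.real S) x :=
            indicator_nonneg (fun _ _ => by positivity) x
          have a2 : 0 ≤ (cube R).indicator (fun _ => (1 : ℝ)) x :=
            indicator_nonneg (fun _ _ => by positivity) x
          exact abs_le.2 ⟨by linarith, by linarith⟩
      _ = 2 * sz d R.1 := by rw [integral_add n1.integrable n2.integrable, i1, i2]; ring
  · simp only [mul_sub]
    rw [integral_sub (hT.mul n1).integrable (hT.mul n2).integrable]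
    have e1 : ∫ x, T x * (cube R).indicator (fun _ => (1 : ℝ)) x = ∫ x in cube R, T x := by
      rw [← integral_indicator (measurableSet_cube R)]
      congr 1; funext x
      by_cases hx : x ∈ cube R <;> simp [hx]
    have e2 : ∫ x, T x * S.indicator (fun _ => sz d R.1 / volume.real S) x =
        (∫ x in S, T x) * (sz d R.1 / volume.real S) := by
      rw [← integral_indicator hm, ← integral_mul_const]
      congr 1; funext x
      by_cases hx : x ∈ S <;> simp [hx]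
    have e3 : A * volume.real S ≤ ∫ x in S, T x := by
      have := setIntegral_mono_on (μ := volume) (f := fun _ => A) (g := T) (s := S)
        (integrableOn_const hfin) hT.integrable.integrableOn hm fun x hx => hx.2.le
      rwa [setIntegral_const, smul_eq_mul, mul_comm] at this
    rw [e1, e2]
    have : A * sz d R.1 = A * volume.real S * (sz d R.1 / volume.real S) := by field_simp
    have := mul_le_mul_of_nonneg_right e3 (by positivity : 0 ≤ sz d R.1 / volume.real S)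
    linarith

lemma step_atom' {T : E d → ℝ} (hT : Nice T) (R : Cb d) (A : ℝ)
    (h : 0 < volume {y ∈ cube R | A < |T y|}) :
    ∃ (σ : ℝ) (μ : E d → ℝ), |σ| ≤ 1 ∧ Nice μ ∧ (∀ x, x ∉ cube R → μ x = 0) ∧ ∫ x, μ x = 0 ∧
      ∫ x, |μ x| ≤ 2 * sz d R.1 ∧
      A * sz d R.1 ≤ σ * (∫ x in cube R, T x) + ∫ x, T x * μ x := by
  by_cases h1 : 0 < volume {y ∈ cube R | A < T y}
  · obtain ⟨μ, a, b, c, e, f⟩ := step_atom hT R A h1
    exact ⟨1, μ, by simp, a, b, c, e, by simpa using f⟩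
  · have h2 : 0 < volume {y ∈ cube R | A < -1 * T y} := by
      by_contra h2
      rw [not_lt, nonpos_iff_eq_zero] at h1 h2
      refine h.ne' (measure_mono_null (fun y hy => ?_) (measure_union_null h1 h2))
      rcases lt_abs.1 hy.2 with h3 | h3
      · exact Or.inl ⟨hy.1, h3⟩
      · exact Or.inr ⟨hy.1, by simpa using h3⟩
    obtain ⟨μ, a, b, c, e, f⟩ := step_atom (hT.const_mul (-1)) R A h2
    refine ⟨-1, fun x => -1 * μ x, by simp, a.const_mul _, fun x hx => by simp [b x hx], ?_, ?_, ?_⟩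
    · rw [integral_const_mul, c, mul_zero]
    · simpa using e
    · rw [integral_const_mul] at f
      simpa using f

lemma step_reindex (f : ℤ → ℝ) (a b : ℤ) (L U : ℕ) (hU : b ≤ a + U) :
    ∑ j ∈ Finset.Icc (a + L) b, f j =
      ∑ u ∈ (Finset.Icc L U).filter (fun u : ℕ => a + (u : ℤ) ≤ b), f (a + (u : ℕ)) := by
  symm
  refine Finset.sum_bij (fun (u : ℕ) _ => a + (u : ℤ)) ?_ ?_ ?_ (fun _ _ => rfl)
  · intro u hu
    simp only [Finset.mem_filter, Finset.mem_Icc] at hu ⊢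
    omega
  · intro u _ v _ h
    omega
  · intro j hj
    simp only [Finset.mem_filter, Finset.mem_Icc] at hj ⊢
    exact ⟨(j - a).toNat, by omega, by omega⟩

lemma step_geom (L U : ℕ) : ∑ u ∈ Finset.Icc L U, (9 / 10 : ℝ) ^ u ≤ 10 * (9 / 10) ^ L := by
  rw [← Finset.Ico_add_one_right_eq_Icc]
  have := geom_sum_Ico_le_of_lt_one (x := (9 / 10 : ℝ)) (m := L) (n := U + 1) (by norm_num)
    (by norm_num)
  refine this.trans (le_of_eq ?_)
  ring

lemma step_sq {g : E d → ℝ} (hg : Nice g) {Λ : ℝ} (hΛ : ∀ x, |g x| ≤ Λ) (c : Cb d) :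
    √(∫ x, (big c).indicator g x ^ 2) ≤ Λ * √(3 ^ d) * √(sz d c.1) := by
  have h0 : 0 ≤ Λ := (abs_nonneg _).trans (hΛ 0)
  have hz := sz_pos (d := d) c.1
  have : ∫ x, (big c).indicator g x ^ 2 ≤ Λ ^ 2 * (3 ^ d * sz d c.1) := by
    calc _ ≤ ∫ x, (big c).indicator (fun _ => Λ ^ 2) x := by
          refine integral_mono (hg.indicator (measurableSet_big c)).sq.integrable
            (nice_indicator (measurableSet_big c) (isBounded_big c) _).integrable fun x => ?_
          by_cases hx : x ∈ big c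
          · simp only [indicator_of_mem hx]
            rw [← sq_abs]
            exact pow_le_pow_left₀ (abs_nonneg _) (hΛ x) 2
          · simp [hx]
      _ = _ := by
          rw [integral_indicator_const _ (measurableSet_big c), smul_eq_mul, Measure.real,
            volume_big, ENNReal.toReal_ofReal (by positivity), mul_comm]
  refine (Real.sqrt_le_sqrt this).trans (le_of_eq ?_)
  rw [Real.sqrt_mul (by positivity), Real.sqrt_mul (by positivity), Real.sqrt_sq h0, mul_assoc]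

lemma step_pair {k g μ : E d → ℝ} (hk : IsKer k) (hg : Nice g) (hμ : Nice μ) {c₀ : Cb d}
    (hs : ∀ x, x ∉ cube c₀ → μ x = 0) (a : ℤ) :
    ∫ x, TT k a c₀.1 g x * μ x =
      ∑ j ∈ Finset.Icc a c₀.1, ∫ y, (big c₀).indicator g y * cv (rf k) j μ y := by
  have hg' := hg.indicator (measurableSet_big c₀)
  simp only [TT, ps, Finset.sum_mul]
  rw [integral_finsetSum _ fun j _ => ((cv_nice hk hg j).mul hμ).integrable]
  refine Finset.sum_congr rfl fun j hj => ?_
  rw [← cv_dual hk hg' hμ]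
  congr 1; funext x
  by_cases hx : x ∈ cube c₀
  · congr 1
    refine cv_congr hk fun y hy => ?_
    rw [indicator_of_mem (big_subset_big (Finset.mem_Icc.1 hj).2 hx hy)]
  · simp [hs x hx]

theorem osc_step (hd : 1 ≤ d) : ∃ C : ℝ, 0 < C ∧ ∀ k g : E d → ℝ, IsKer k → Nice g →
    ∀ Λ : ℝ, (∀ x, |g x| ≤ Λ) → ∀ (c₀ : Cb d) (F : Finset (Cb d)) (L : ℕ) (A : ℝ), Dj F →
    (∀ R ∈ F, R.1 + L ≤ c₀.1) → (∀ R ∈ F, cube R ⊆ cube c₀) →
    (∀ R ∈ F, 0 < volume {y ∈ cube R | A < |TT k (R.1 + L) c₀.1 g y|}) →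
    ∃ σ : Cb d → ℝ, (∀ R, |σ R| ≤ 1) ∧ A * ∑ R ∈ F, sz d R.1 ≤
      ∑ R ∈ F, σ R * (∫ x in cube R, TT k (R.1 + L) c₀.1 g x) +
        C * Λ * (9 / 10) ^ L * √(sz d c₀.1) * √(∑ R ∈ F, sz d R.1) := by
  obtain ⟨C, hC, hS⟩ := seeger_pair hd
  refine ⟨C * 2 * √(3 ^ d) * 10, by positivity, ?_⟩
  intro k g hk hg Λ hΛ c₀ F L A hF _ hsub hpos
  have h0 : 0 ≤ Λ := (abs_nonneg _).trans (hΛ 0)
  have key : ∀ R : Cb d, ∃ (σ : ℝ) (μ : E d → ℝ), |σ| ≤ 1 ∧ (R ∈ F → Nice μ ∧
      (∀ x, x ∉ cube R → μ x = 0) ∧ ∫ x, μ x = 0 ∧ ∫ x, |μ x| ≤ 2 * sz d R.1 ∧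
      A * sz d R.1 ≤ σ * (∫ x in cube R, TT k (R.1 + L) c₀.1 g x) +
        ∫ x, TT k (R.1 + L) c₀.1 g x * μ x) := by
    intro R
    by_cases hR : R ∈ F
    · obtain ⟨σ, μ, a, b⟩ := step_atom' (TT_nice hk hg _ _) R A (hpos R hR)
      exact ⟨σ, μ, a, fun _ => b⟩
    · exact ⟨0, 0, by simp, fun h => absurd h hR⟩
  choose σ μ hσ hμ using key
  refine ⟨σ, hσ, ?_⟩
  have hA : Atoms F μ 2 := ⟨hF, fun Q h => (hμ Q h).1, fun Q h => (hμ Q h).2.1,
    fun Q h => (hμ Q h).2.2.1, fun Q h => (hμ Q h).2.2.2.1⟩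
  obtain ⟨U, hU⟩ : ∃ U : ℕ, ∀ R ∈ F, c₀.1 ≤ R.1 + U := by
    refine ⟨F.sup fun R => (c₀.1 - R.1).toNat, fun R hR => ?_⟩
    have := Finset.le_sup (f := fun R : Cb d => (c₀.1 - R.1).toNat) hR
    omega
  have hg' := hg.indicator (measurableSet_big c₀)
  have main : ∑ R ∈ F, ∫ x, TT k (R.1 + L) c₀.1 g x * μ R x ≤
      C * 2 * √(3 ^ d) * 10 * Λ * (9 / 10) ^ L * √(sz d c₀.1) * √(∑ R ∈ F, sz d R.1) := by
    have e : ∑ R ∈ F, ∫ x, TT k (R.1 + L) c₀.1 g x * μ R x = ∑ u ∈ Finset.Icc L U,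
        ∑ R ∈ F with R.1 + u ≤ c₀.1,
          ∫ y, (big c₀).indicator g y * cv (rf k) (R.1 + u) (μ R) y := by
      simp only [Finset.sum_filter]
      rw [Finset.sum_comm]
      refine Finset.sum_congr rfl fun R hR => ?_
      rw [step_pair hk hg (hμ R hR).1 (fun x hx => (hμ R hR).2.1 x fun h => hx (hsub R hR h)),
        step_reindex _ _ _ L U (hU R hR), Finset.sum_filter]
    rw [e]
    calc _ ≤ ∑ u ∈ Finset.Icc L U, C * 2 * (9 / 10) ^ u * (Λ * √(3 ^ d) * √(sz d c₀.1)) *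
          √(∑ R ∈ F, sz d R.1) := by
          refine Finset.sum_le_sum fun u _ => ?_
          refine (le_abs_self _).trans ((hS _ hk.rf _ μ 2 (by norm_num)
            (hA.subset (Finset.filter_subset _ _)) u _ hg').trans ?_)
          have a1 := step_sq hg hΛ c₀
          have a2 : ∑ R ∈ F with R.1 + u ≤ c₀.1, sz d R.1 ≤ ∑ R ∈ F, sz d R.1 :=
            Finset.sum_le_sum_of_subset_of_nonneg (Finset.filter_subset _ _)
              fun R _ _ => (sz_pos _).le
          gcongr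
      _ = (∑ u ∈ Finset.Icc L U, (9 / 10 : ℝ) ^ u) * (C * 2 * (Λ * √(3 ^ d) * √(sz d c₀.1)) *
          √(∑ R ∈ F, sz d R.1)) := by
          rw [Finset.sum_mul]
          exact Finset.sum_congr rfl fun u _ => by ring
      _ ≤ (10 * (9 / 10) ^ L) * (C * 2 * (Λ * √(3 ^ d) * √(sz d c₀.1)) *
          √(∑ R ∈ F, sz d R.1)) :=
          mul_le_mul_of_nonneg_right (step_geom L U) (by positivity)
      _ = _ := by ring
  calc A * ∑ R ∈ F, sz d R.1 = ∑ R ∈ F, A * sz d R.1 := Finset.mul_sum _ _ _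
    _ ≤ ∑ R ∈ F, (σ R * (∫ x in cube R, TT k (R.1 + L) c₀.1 g x) +
        ∫ x, TT k (R.1 + L) c₀.1 g x * μ R x) :=
        Finset.sum_le_sum fun R hR => (hμ R hR).2.2.2.2
    _ ≤ _ := by rw [Finset.sum_add_distrib]; linarith

end Pool.Agent.MP_418f02_an

end

section

open MeasureTheory Set
open scoped ENNReal RealInnerProductSpace

namespace Pool.Agent.MP_418f02_an

variable {d : ℕ}

theorem bdry_geom_eq (r : ℤ) (n : ℕ) :
    ∑ j ∈ Finset.Ico (r - n) r, (2 : ℝ) ^ (j - r) = 1 - 2 ^ (-(n : ℤ)) := by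
  induction n with
  | zero => simp
  | succ n ih =>
    have : Finset.Ico (r - (n + 1 : ℕ)) r = insert (r - (n + 1 : ℕ)) (Finset.Ico (r - n) r) := by
      ext j
      simp only [Finset.mem_Ico, Finset.mem_insert]
      push_cast
      omega
    rw [this, Finset.sum_insert (by simp only [Finset.mem_Ico]; push_cast; omega), ih]
    have e1 : r - ((n + 1 : ℕ) : ℤ) - r = -(n : ℤ) + -1 := by push_cast; ring
    have e2 : -((n + 1 : ℕ) : ℤ) = -(n : ℤ) + -1 := by push_cast; ring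
    rw [e1, e2, zpow_add₀ two_ne_zero, zpow_neg_one]
    ring

theorem bdry_geom (a r : ℤ) : ∑ j ∈ Finset.Ico a r, (2 : ℝ) ^ (j - r) ≤ 1 := by
  have h1 : Finset.Ico a r ⊆ Finset.Ico (r - ((r - a).toNat : ℕ)) r := by
    intro j
    simp only [Finset.mem_Ico]
    omega
  refine (Finset.sum_le_sum_of_subset_of_nonneg h1 fun j _ _ => by positivity).trans ?_
  rw [bdry_geom_eq]
  have : (0 : ℝ) < 2 ^ (-(((r - a).toNat : ℕ) : ℤ)) := by positivity
  linarith

theorem bdry_bounded (c : Cb d) : Bornology.IsBounded (cube c) :=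
  (isBounded_big c).subset (cube_subset_big c)

theorem bdry_real (c : Cb d) : volume.real (cube c) = sz d c.1 := by
  rw [Measure.real, volume_cube, ENNReal.toReal_ofReal (sz_pos _).le]

theorem bdry_near {k H : E d → ℝ} (hk : IsKer k) (hH : Nice H) {c : ℝ} (hc : 0 ≤ c) {j : ℤ}
    (hm : ∀ Q : Cb d, Q.1 = j → ∫ x in cube Q, |H x| ≤ c * sz d j) (R : Cb d) :
    |∫ x in cube R, cv k j H x| ≤ 12 ^ d * c * sz d R.1 := by
  have h1 : ∀ x, |cv k j H x| ≤ 12 ^ d * c := fun x => by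
    refine (cv_le hk hH j x).trans ?_
    have h2 := LM.integral_le (k := j) (lm_big (cb j x))
      (by rw [volume_big]; exact ENNReal.ofReal_ne_top) hH.integrable hc hm
    have hs := sz_pos (d := d) j
    rw [volume_big, ENNReal.toReal_ofReal (by change 0 ≤ 3 ^ d * sz d j; positivity)] at h2
    calc 4 ^ d / sz d j * ∫ y in big (cb j x), |H y| ≤ 4 ^ d / sz d j * (c * (3 ^ d * sz d j)) :=
          mul_le_mul_of_nonneg_left h2 (by positivity)
      _ = 12 ^ d * c := by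
          rw [show (12 : ℝ) = 4 * 3 by norm_num, mul_pow]
          field_simp
  have h3 := norm_setIntegral_le_of_norm_le_const (μ := volume) (s := cube R) (f := cv k j H)
    (C := 12 ^ d * c) (by rw [volume_cube]; exact ENNReal.ofReal_lt_top) fun x _ => h1 x
  rwa [bdry_real] at h3

theorem bdry_far {k H : E d → ℝ} (hk : IsKer k) (hH : Nice H) {c : ℝ} (hc : 0 ≤ c) {j : ℤ}
    (hm : ∀ Q : Cb d, Q.1 = j → ∫ x in cube Q, |H x| ≤ c * sz d j) (R : Cb d) {v : ℝ}
    (hv : 0 ≤ v) (hb : volume (bd j R) ≤ ENNReal.ofReal v) :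
    |∫ x in cube R, cv k j H x| ≤ 8 ^ d * (c * v) := by
  have hI : Nice ((cube R).indicator fun _ => (1 : ℝ)) :=
    nice_indicator (measurableSet_cube R) (bdry_bounded R) 1
  have e1 : ∫ x in cube R, cv k j H x = ∫ x, cv k j H x * (cube R).indicator (fun _ => 1) x := by
    rw [← integral_indicator (measurableSet_cube R)]
    congr 1
    ext x
    by_cases hx : x ∈ cube R <;> simp [hx]
  have hmb : MeasurableSet (bd j R) := (lm_bd j R).meas
  rw [e1, cv_dual hk hH hI]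
  have h2 := LM.integral_le (k := j) (lm_bd j R) (ne_top_of_le_ne_top ENNReal.ofReal_ne_top hb)
    hH.integrable hc hm
  have h3 : (volume (bd j R)).toReal ≤ v := ENNReal.toReal_le_of_le_ofReal hv hb
  calc |∫ y, H y * cv (rf k) j ((cube R).indicator fun _ => 1) y|
      ≤ ∫ y, |H y * cv (rf k) j ((cube R).indicator fun _ => 1) y| := abs_integral_le_integral_abs
    _ ≤ ∫ y, (bd j R).indicator (fun y => 8 ^ d * |H y|) y := by
        refine integral_mono (hH.mul (cv_nice hk.rf hI j)).abs.integrable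
          ((hH.abs.const_mul _).indicator hmb).integrable fun y => ?_
        have h4 := mul_le_mul_of_nonneg_left (cv_ind hk.rf j R y) (abs_nonneg (H y))
        rw [← abs_mul] at h4
        refine h4.trans (le_of_eq ?_)
        by_cases hy : y ∈ bd j R <;> simp [hy, mul_comm]
    _ = 8 ^ d * ∫ y in bd j R, |H y| := by rw [integral_indicator hmb, integral_const_mul]
    _ ≤ 8 ^ d * (c * v) :=
        mul_le_mul_of_nonneg_left (h2.trans (mul_le_mul_of_nonneg_left h3 hc)) (by positivity)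

theorem bdry : ∃ C : ℝ, 0 < C ∧ ∀ k : E d → ℝ, IsKer k → ∀ (H : ℤ → E d → ℝ) (c : ℝ),
    (∀ j, Nice (H j)) → 0 ≤ c → (∀ Q : Cb d, ∫ x in cube Q, |H Q.1 x| ≤ c * sz d Q.1) →
    ∀ (R : Cb d) (a : ℤ) (L : ℕ),
    |∑ j ∈ Finset.Ico a (R.1 + L), ∫ x in cube R, cv k j (H j) x| ≤ C * c * (L + 1) * sz d R.1 := by
  obtain ⟨C, hC, hb⟩ := volume_bd (d := d)
  refine ⟨8 ^ d * C + 12 ^ d, by positivity, fun k hk H c hH hc hm R a L => ?_⟩
  have hm' : ∀ j, ∀ Q : Cb d, Q.1 = j → ∫ x in cube Q, |H j x| ≤ c * sz d j := by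
    rintro j Q rfl
    exact hm Q
  have hs := sz_pos (d := d) R.1
  refine (Finset.abs_sum_le_sum_abs _ _).trans ?_
  have hsub : Finset.Ico a (R.1 + L) ⊆ Finset.Ico a R.1 ∪ Finset.Ico R.1 (R.1 + L) := by
    intro j
    simp only [Finset.mem_Ico, Finset.mem_union]
    omega
  refine (Finset.sum_le_sum_of_subset_of_nonneg hsub fun j _ _ => abs_nonneg _).trans ?_
  rw [Finset.sum_union (Finset.Ico_disjoint_Ico_consecutive _ _ _)]
  have h1 : ∑ j ∈ Finset.Ico a R.1, |∫ x in cube R, cv k j (H j) x| ≤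
      8 ^ d * C * c * sz d R.1 := by
    calc _ ≤ ∑ j ∈ Finset.Ico a R.1, 8 ^ d * C * c * sz d R.1 * 2 ^ (j - R.1) := by
          refine Finset.sum_le_sum fun j hj => ?_
          refine (bdry_far hk (hH j) hc (hm' j) R (by positivity)
            (hb j R (Finset.mem_Ico.1 hj).2.le)).trans (le_of_eq ?_)
          ring
      _ ≤ 8 ^ d * C * c * sz d R.1 := by
          rw [← Finset.mul_sum]
          exact mul_le_of_le_one_right (by positivity) (bdry_geom _ _)
  have h2 : ∑ j ∈ Finset.Ico R.1 (R.1 + L), |∫ x in cube R, cv k j (H j) x| ≤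
      L * (12 ^ d * c * sz d R.1) := by
    refine (Finset.sum_le_card_nsmul _ _ _ fun j _ => bdry_near hk (hH j) hc (hm' j) R).trans ?_
    simp
  have h3 : (0 : ℝ) ≤ 8 ^ d * C * c * sz d R.1 * L := by positivity
  have h4 : (0 : ℝ) ≤ 12 ^ d * c * sz d R.1 := by positivity
  nlinarith

theorem split_sum {φ : ℤ → E d → ℝ} (hφ : ∀ j, Nice (φ j)) (F : Finset (Cb d))
    (σ : Cb d → ℝ) {j₀ b : ℤ} {L : ℕ} (h0 : ∀ R ∈ F, j₀ ≤ R.1 + L) (h1 : ∀ R ∈ F, R.1 + L ≤ b) :
    ∑ R ∈ F, σ R * (∫ x in cube R, ps φ (R.1 + L) b x) =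
      (∫ x, (∑ R ∈ F, (cube R).indicator (fun _ => σ R) x) * ps φ j₀ b x) -
        ∑ R ∈ F, σ R * ∑ j ∈ Finset.Ico j₀ (R.1 + L), ∫ x in cube R, φ j x := by
  simp only [Finset.sum_mul]
  rw [integral_finsetSum _ fun R _ =>
    ((nice_indicator (measurableSet_cube R) (bdry_bounded R) (σ R)).mul
      (ps_nice hφ j₀ b)).integrable, ← Finset.sum_sub_distrib]
  refine Finset.sum_congr rfl fun R hR => ?_
  have e1 : ∫ x, (cube R).indicator (fun _ => σ R) x * ps φ j₀ b x =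
      σ R * ∫ x in cube R, ps φ j₀ b x := by
    rw [← integral_const_mul, ← integral_indicator (measurableSet_cube R)]
    congr 1
    ext x
    by_cases hx : x ∈ cube R <;> simp [hx]
  have e2 : ∀ x, ps φ j₀ b x = ∑ j ∈ Finset.Ico j₀ (R.1 + L), φ j x + ps φ (R.1 + L) b x := by
    intro x
    have a0 := h0 R hR
    have a1 := h1 R hR
    rw [ps, ps, ← Finset.sum_union]
    · congr 1
      ext j
      simp only [Finset.mem_Ico, Finset.mem_union, Finset.mem_Icc]
      omega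
    · rw [Finset.disjoint_left]
      intro j
      simp only [Finset.mem_Ico, Finset.mem_Icc]
      omega
  rw [e1]
  simp only [e2]
  rw [integral_add (nice_sum fun j _ => hφ j).integrable.integrableOn
    (ps_nice hφ _ _).integrable.integrableOn,
    integral_finsetSum _ fun j _ => (hφ j).integrable.integrableOn]
  ring

theorem far_sum (hd : 1 ≤ d) : ∃ C : ℝ, 0 < C ∧ ∀ k : E d → ℝ, IsKer k →
    ∀ (P : Finset (Cb d)) (b : Cb d → E d → ℝ), Atoms P b 1 → ∀ (s₀ : ℕ) (c₀ : Cb d) (j₀ : ℤ)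
    (ψ : E d → ℝ), Nice ψ → (∀ x, |ψ x| ≤ 1) → (∀ x, x ∉ cube c₀ → ψ x = 0) →
    |∫ x, ψ x * ps (fun j => cv k j (Bl P b (j - s₀))) j₀ c₀.1 x| ≤
      C * (9 / 10) ^ s₀ * sz d c₀.1 := by
  classical
  obtain ⟨C, hC, hs⟩ := seeger_pair hd
  refine ⟨9 * 3 ^ d * C, by positivity, fun k hk P b hP s₀ c₀ j₀ ψ hψ h1 h0 => ?_⟩
  have hz := sz_pos (d := d) c₀.1
  set T : ℤ → Cb d → ℝ := fun j Q => ∫ x, ψ x * cv k j (b Q) x with hT
  have e1 : ∫ x, ψ x * ps (fun j => cv k j (Bl P b (j - s₀))) j₀ c₀.1 x =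
      ∑ j ∈ Finset.Icc j₀ c₀.1, ∑ Q ∈ P with Q.1 < j - s₀, T j Q := by
    simp only [ps, Finset.mul_sum]
    rw [integral_finsetSum _ fun j _ => (hψ.mul (cv_nice hk (hP.nice_Bl _) j)).integrable]
    refine Finset.sum_congr rfl fun j _ => ?_
    have hn : ∀ Q ∈ P.filter fun Q => Q.1 < j - s₀, Nice (b Q) := fun Q hQ =>
      hP.nice Q (Finset.mem_filter.1 hQ).1
    rw [← integral_finsetSum _ fun Q hQ => (hψ.mul (cv_nice hk (hn Q hQ) j)).integrable]
    congr 1
    ext x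
    rw [← Finset.mul_sum, ← cv_sum hk hn]
    rfl
  have e0 : ∀ j, j ≤ c₀.1 → ∀ Q ∈ P, Q.1 ≤ c₀.1 → ¬ cube Q ⊆ big c₀ → T j Q = 0 := by
    intro j hj Q hQ hQ1 hQ2
    have : ∀ x, ψ x * cv k j (b Q) x = 0 := fun x => by
      by_cases hx : x ∈ cube c₀
      · have : cv k j (b Q) x = cv k j (fun _ => 0) x := cv_congr hk fun y hy =>
          hP.supp Q hQ y fun hyQ =>
            hQ2 ((lm_big c₀).cube_subset hQ1 hyQ (big_subset_big hj hx hy))
        rw [this]
        simp [cv]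
      · rw [h0 x hx, zero_mul]
    simp [hT, this]
  set S : ℕ := P.sup fun Q => (c₀.1 - Q.1).toNat + 1 with hS
  have e2 : ∑ j ∈ Finset.Icc j₀ c₀.1, ∑ Q ∈ P with Q.1 < j - s₀, T j Q =
      ∑ s ∈ Finset.Ico (s₀ + 1) S,
        ∑ Q ∈ P with cube Q ⊆ big c₀ ∧ j₀ ≤ Q.1 + s ∧ Q.1 + s ≤ c₀.1, T (Q.1 + s) Q := by
    simp only [Finset.sum_filter]
    rw [Finset.sum_comm, Finset.sum_comm (s := Finset.Ico (s₀ + 1) S)]
    refine Finset.sum_congr rfl fun Q hQ => ?_
    by_cases hQ2 : cube Q ⊆ big c₀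
    · have hle : (c₀.1 - Q.1).toNat + 1 ≤ S :=
        Finset.le_sup (f := fun Q : Cb d => (c₀.1 - Q.1).toNat + 1) hQ
      rw [← Finset.sum_filter, ← Finset.sum_filter]
      refine Finset.sum_nbij' (fun j => (j - Q.1).toNat) (fun s => Q.1 + s) ?_ ?_ ?_ ?_ ?_
      · intro j
        simp only [Finset.mem_filter, Finset.mem_Icc, Finset.mem_Ico, hQ2, true_and]
        omega
      · intro s
        simp only [Finset.mem_filter, Finset.mem_Icc, Finset.mem_Ico, hQ2, true_and]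
        omega
      · intro j
        simp only [Finset.mem_filter, Finset.mem_Icc]
        omega
      · intro s _
        simp
      · intro j hj
        simp only [Finset.mem_filter, Finset.mem_Icc] at hj
        congr 1
        omega
    · simp only [hQ2, false_and, if_false, Finset.sum_const_zero]
      refine Finset.sum_eq_zero fun j hj => ?_
      have hj' := (Finset.mem_Icc.1 hj).2
      split_ifs with h
      · exact e0 j hj' Q hQ (by omega) hQ2
      · rfl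
  have hv : (0 : ℝ) ≤ 3 ^ d * sz d c₀.1 := by positivity
  have hψ2 : ∫ x, ψ x ^ 2 ≤ 3 ^ d * sz d c₀.1 := by
    have hI := nice_indicator (measurableSet_big c₀) (isBounded_big c₀) (1 : ℝ)
    refine (integral_mono hψ.sq.integrable hI.integrable fun x => ?_).trans ?_
    · by_cases hx : x ∈ cube c₀
      · rw [indicator_of_mem (cube_subset_big c₀ hx)]
        exact (sq_le_one_iff_abs_le_one _).2 (h1 x)
      · simp only [h0 x hx]
        exact (le_of_eq (by norm_num)).trans (indicator_nonneg (fun _ _ => zero_le_one) x)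
    · rw [integral_indicator (measurableSet_big c₀), setIntegral_const, Measure.real, volume_big,
        ENNReal.toReal_ofReal hv, smul_eq_mul, mul_one]
  have hterm : ∀ s : ℕ,
      |∑ Q ∈ P with cube Q ⊆ big c₀ ∧ j₀ ≤ Q.1 + s ∧ Q.1 + s ≤ c₀.1, T (Q.1 + s) Q| ≤
        C * (3 ^ d * sz d c₀.1) * (9 / 10) ^ s := fun s => by
    have hA := hP.subset (Finset.filter_subset
      (fun Q => cube Q ⊆ big c₀ ∧ j₀ ≤ Q.1 + s ∧ Q.1 + s ≤ c₀.1) P)
    refine (hs k hk _ b 1 zero_le_one hA s ψ hψ).trans ?_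
    have h2 := hA.dj.sum_le hv (volume_big c₀).le fun Q hQ => (Finset.mem_filter.1 hQ).2.1
    calc _ ≤ C * 1 * (9 / 10) ^ s * √(3 ^ d * sz d c₀.1) * √(3 ^ d * sz d c₀.1) := by
          gcongr
      _ = C * (3 ^ d * sz d c₀.1) * (9 / 10) ^ s := by
          rw [mul_assoc _ (√_), Real.mul_self_sqrt hv]
          ring
  rw [e1, e2]
  refine (Finset.abs_sum_le_sum_abs _ _).trans
    ((Finset.sum_le_sum fun s _ => hterm s).trans ?_)
  rw [← Finset.mul_sum]
  refine (mul_le_mul_of_nonneg_left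
    (geom_sum_Ico_le_of_lt_one (by norm_num) (by norm_num)) (by positivity)).trans (le_of_eq ?_)
  rw [pow_succ]
  ring

end Pool.Agent.MP_418f02_an

end

section

open MeasureTheory Set
open scoped ENNReal RealInnerProductSpace

namespace Pool.Agent.MP_418f02_an

variable {d : ℕ}

lemma l2_ee_norm (t : ℝ) : ‖ee t‖ = 1 := by
  unfold ee
  exact Complex.norm_exp_ofReal_mul_I _

lemma l2_ee_cont : Continuous ee := by
  unfold ee
  fun_prop

lemma l2_ee_sub (t : ℝ) : ‖ee t - 1‖ ≤ 7 * |t| := by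
  unfold ee
  rw [mul_comm _ Complex.I]
  refine Real.norm_exp_I_mul_ofReal_sub_one_le.trans ?_
  rw [Real.norm_eq_abs, abs_mul, abs_mul, abs_of_pos Real.pi_pos]
  have h1 : |(-2 : ℝ)| = 2 := by norm_num
  rw [h1]
  have h2 := Real.pi_lt_d2
  have h3 := abs_nonneg t
  nlinarith

lemma l2_int_ee {f : E d → ℝ} (h : Nice f) (ξ : E d) :
    Integrable fun y : E d => ee ⟪y, ξ⟫ * (f y : ℂ) := by
  have hf : Integrable fun y : E d => (f y : ℂ) := h.integrable.ofReal
  refine hf.bdd_mul (c := 1) ?_ (Filter.Eventually.of_forall fun y => (l2_ee_norm _).le)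
  exact (l2_ee_cont.comp (by fun_prop)).aestronglyMeasurable

theorem mult_low : ∃ C : ℝ, 0 < C ∧ ∀ k : E d → ℝ, IsKer k → ∀ ξ : E d,
    ‖FT (KK k 1) ξ‖ ≤ C * ‖ξ‖ := by
  refine ⟨28 * 8 ^ d, by positivity, fun k hk ξ => ?_⟩
  have hn := KK_nice hk one_pos
  have hf : Integrable fun y : E d => (KK k 1 y : ℂ) := hn.integrable.ofReal
  have h0 : ∫ y, (KK k 1 y : ℂ) = 0 := by
    rw [integral_complex_ofReal, KK_zero hk one_pos]; simp
  have h1 : FT (KK k 1) ξ = ∫ y, (ee ⟪y, ξ⟫ * (KK k 1 y : ℂ) - (KK k 1 y : ℂ)) := by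
    rw [integral_sub (l2_int_ee hn ξ) hf, h0, sub_zero, FT_apply]
  rw [h1]
  have hb : Integrable fun y : E d => 28 * ‖ξ‖ * |KK k 1 y| := hn.abs.integrable.const_mul _
  refine (norm_integral_le_of_norm_le hb (Filter.Eventually.of_forall fun y => ?_)).trans ?_
  · by_cases hy : 4 * 1 < ‖y‖
    · simp [KK_supp hk one_pos hy]
    · have e : ee ⟪y, ξ⟫ * (KK k 1 y : ℂ) - (KK k 1 y : ℂ) = (ee ⟪y, ξ⟫ - 1) * (KK k 1 y : ℂ) := by
        ring
      rw [e, norm_mul, Complex.norm_real, Real.norm_eq_abs]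
      refine mul_le_mul_of_nonneg_right ((l2_ee_sub _).trans ?_) (abs_nonneg _)
      have h2 := abs_real_inner_le_norm y ξ
      have h3 : ‖y‖ * ‖ξ‖ ≤ 4 * ‖ξ‖ := mul_le_mul_of_nonneg_right (by linarith) (norm_nonneg _)
      linarith
  · rw [integral_const_mul]
    have := KK_l1 hk one_pos
    calc 28 * ‖ξ‖ * ∫ y, |KK k 1 y| ≤ 28 * ‖ξ‖ * 8 ^ d := by gcongr
      _ = 28 * 8 ^ d * ‖ξ‖ := by ring

lemma l2_osc (t : ℝ) : ‖∫ s in (1 : ℝ)..2, ee (s * t) / s‖ ≤ 4 * (1 + 2 * |t|)⁻¹ := by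
  have hsub : ∫ s in (1 : ℝ)..2, ee (s * t) / s =
      ∫ u in (1 / 2 : ℝ)..1, ((u : ℂ))⁻¹ * ee (2 * t * u) := by
    have h := intervalIntegral.integral_comp_mul_left (a := 1 / 2) (b := 1)
      (fun s : ℝ => ee (s * t) / s) (c := 2) two_ne_zero
    have e1 : (2 : ℝ) * (1 / 2) = 1 := by norm_num
    rw [e1, mul_one] at h
    have h2 : ∫ u in (1 / 2 : ℝ)..1, ((u : ℂ))⁻¹ * ee (2 * t * u) =
        2 * ∫ x in (1 / 2 : ℝ)..1, ee (2 * x * t) / ((2 * x : ℝ) : ℂ) := by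
      rw [← intervalIntegral.integral_const_mul]
      refine intervalIntegral.integral_congr fun u _ => ?_
      have e : 2 * t * u = 2 * u * t := by ring
      simp only [e]
      push_cast
      by_cases hu : (u : ℂ) = 0
      · simp [hu]
      · field_simp
    rw [h2, h, Complex.real_smul]
    push_cast
    ring
  rw [hsub]
  have hpos : ∀ u ∈ Icc (1 / 2 : ℝ) 1, (u : ℂ) ≠ 0 := fun u hu => by
    have : (0 : ℝ) < u := by linarith [hu.1]
    exact_mod_cast this.ne'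
  have key := osc_parts (φ := fun u : ℝ => ((u : ℂ))⁻¹) (φ' := fun u : ℝ => -((u : ℂ) ^ 2)⁻¹)
    (β := 2) (fun u hu => ?_) ?_ (fun u hu => ?_) ?_ (2 * t)
  · rw [abs_mul, abs_two] at key
    linarith
  · exact (hasDerivAt_inv (hpos u hu)).comp_ofReal
  · refine ContinuousOn.neg (ContinuousOn.inv₀ (by fun_prop) fun u hu => ?_)
    exact pow_ne_zero _ (hpos u hu)
  · have h1 : (0 : ℝ) < u := by linarith [hu.1]
    rw [norm_inv, Complex.norm_real, Real.norm_eq_abs, abs_of_pos h1]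
    rw [inv_le_comm₀ h1 two_pos]
    linarith [hu.1]
  · have hle : ‖∫ u in (1 / 2 : ℝ)..1, ‖-((u : ℂ) ^ 2)⁻¹‖‖ ≤ 4 * |(1 : ℝ) - 1 / 2| := by
      refine intervalIntegral.norm_integral_le_of_norm_le_const fun u hu => ?_
      rw [uIoc_of_le (by norm_num)] at hu
      have h1 : (0 : ℝ) < u := by linarith [hu.1]
      rw [norm_norm, norm_neg, norm_inv, norm_pow, Complex.norm_real, Real.norm_eq_abs,
        abs_of_pos h1, inv_le_comm₀ (by positivity) (by norm_num)]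
      nlinarith [hu.1]
    have := (le_abs_self _).trans hle
    norm_num at this ⊢
    linarith

lemma l2_swap {k : E d → ℝ} (hk : IsKer k) (ξ : E d) :
    FT (KK k 1) ξ = ∫ y, (k y : ℂ) * ∫ s in (1 : ℝ)..2, ee (s * ⟪y, ξ⟫) / s := by
  rw [FT_KK hk one_pos]
  have h1 : ∀ s : ℝ, FT k ((1 * s) • ξ) / s = ∫ y, (k y : ℂ) * (ee (s * ⟪y, ξ⟫) / s) := by
    intro s
    rw [FT_apply, ← integral_div]
    refine integral_congr_ae (Filter.Eventually.of_forall fun y => ?_)
    simp only [one_mul, real_inner_smul_right]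
    ring
  simp only [h1]
  rw [intervalIntegral_integral_swap]
  · simp only [intervalIntegral.integral_const_mul]
  · rw [uIoc_of_le (by norm_num)]
    have hki : Integrable (fun p : ℝ × E d => |k p.2|)
        ((volume.restrict (Ioc (1 : ℝ) 2)).prod volume) := by
      have := (integrable_const (μ := volume.restrict (Ioc (1 : ℝ) 2)) (1 : ℝ)).mul_prod
        hk.nice.abs.integrable
      simpa using this
    refine hki.mono' ?_ ?_
    · have hm := hk.meas
      have he := l2_ee_cont.measurable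
      refine Measurable.aestronglyMeasurable ?_
      unfold Function.uncurry
      fun_prop
    · rw [Measure.ae_prod_iff_ae_ae]
      · filter_upwards [ae_restrict_mem measurableSet_Ioc] with s hs
        refine Filter.Eventually.of_forall fun y => ?_
        simp only [Function.uncurry, norm_mul, norm_div, l2_ee_norm, Complex.norm_real,
          Real.norm_eq_abs]
        have h2 : (0 : ℝ) < s := by linarith [hs.1]
        rw [abs_of_pos h2]
        have h3 : 1 / s ≤ 1 := by rw [div_le_one h2]; exact hs.1.le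
        nlinarith [abs_nonneg (k y)]
      · have hm := hk.meas
        have he := l2_ee_cont.measurable
        refine measurableSet_le ?_ ?_
        · unfold Function.uncurry
          fun_prop
        · fun_prop

theorem mult_high : ∃ C : ℝ, 0 < C ∧ ∀ k : E d → ℝ, IsKer k → ∀ ξ : E d, ξ ≠ 0 →
    ‖FT (KK k 1) ξ‖ ≤ C / √‖ξ‖ := by
  refine ⟨8 * 4 ^ (d - 1) + 2 * 4 ^ d, by positivity, fun k hk ξ hξ => ?_⟩
  have hn : 0 < ‖ξ‖ := norm_pos_iff.mpr hξ
  set r := √‖ξ‖ with hr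
  have hr0 : 0 < r := Real.sqrt_pos.mpr hn
  have hrr : r * r = ‖ξ‖ := Real.mul_self_sqrt hn.le
  set u : E d := ‖ξ‖⁻¹ • ξ with hu
  have hu1 : ‖u‖ = 1 := by
    rw [hu, norm_smul, norm_inv, norm_norm, inv_mul_cancel₀ hn.ne']
  have hin : ∀ y : E d, |⟪y, ξ⟫| = ‖ξ‖ * |⟪y, u⟫| := by
    intro y
    rw [hu, real_inner_smul_right, abs_mul, abs_inv, abs_norm, ← mul_assoc,
      mul_inv_cancel₀ hn.ne', one_mul]
  set S : Set (E d) := {y | ‖y‖ ≤ 2 ∧ |⟪y, u⟫| ≤ r⁻¹} with hS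
  set B : Set (E d) := {y | ‖y - 0‖ ≤ 2} with hB
  have mS : MeasurableSet S := by
    have a1 : MeasurableSet {y : E d | ‖y‖ ≤ 2} := measurableSet_le (by fun_prop) (by fun_prop)
    have a2 : MeasurableSet {y : E d | |⟪y, u⟫| ≤ r⁻¹} :=
      measurableSet_le (by fun_prop) (by fun_prop)
    exact a1.inter a2
  have mB : MeasurableSet B := measurableSet_le (by fun_prop) (by fun_prop)
  have vS := slab_le hu1 (ρ := r⁻¹) (R := 2) (by positivity) (by norm_num)
  have vB := volume_norm_le (0 : E d) (R := 2) (by norm_num)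
  have iS : Integrable (S.indicator fun _ => (4 : ℝ)) :=
    (integrable_indicator_iff mS).mpr (integrableOn_const (vS.trans_lt ENNReal.ofReal_lt_top).ne)
  have iB : Integrable (B.indicator fun _ => (2 / r : ℝ)) :=
    (integrable_indicator_iff mB).mpr (integrableOn_const (vB.trans_lt ENNReal.ofReal_lt_top).ne)
  rw [l2_swap hk]
  refine (norm_integral_le_of_norm_le (iS.add iB) (Filter.Eventually.of_forall fun y => ?_)).trans ?_
  · have p1 : 0 ≤ S.indicator (fun _ => (4 : ℝ)) y := indicator_nonneg (fun _ _ => by norm_num) _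
    have p2 : 0 ≤ B.indicator (fun _ => (2 / r : ℝ)) y :=
      indicator_nonneg (fun _ _ => by positivity) _
    simp only [Pi.add_apply]
    by_cases hy : 2 < ‖y‖
    · simp only [hk.supp y hy, Complex.ofReal_zero, zero_mul, norm_zero]
      linarith
    · have hy2 : ‖y‖ ≤ 2 := not_lt.mp hy
      have hb : ‖(k y : ℂ) * ∫ s in (1 : ℝ)..2, ee (s * ⟪y, ξ⟫) / s‖ ≤
          4 * (1 + 2 * |⟪y, ξ⟫|)⁻¹ := by
        rw [norm_mul, Complex.norm_real, Real.norm_eq_abs]
        have := mul_le_mul (hk.bdd y) (l2_osc ⟪y, ξ⟫) (norm_nonneg _) zero_le_one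
        linarith
      refine hb.trans ?_
      have ha := abs_nonneg ⟪y, ξ⟫
      by_cases hs : |⟪y, u⟫| ≤ r⁻¹
      · have : y ∈ S := ⟨hy2, hs⟩
        rw [indicator_of_mem this]
        have h4 : (1 + 2 * |⟪y, ξ⟫|)⁻¹ ≤ 1 := inv_le_one_of_one_le₀ (by linarith)
        linarith
      · have : y ∈ B := by simpa [hB] using hy2
        rw [indicator_of_mem this]
        have h5 : r ≤ |⟪y, ξ⟫| := by
          rw [hin, ← hrr]
          have h6 : r * r * r⁻¹ ≤ r * r * |⟪y, u⟫| :=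
            mul_le_mul_of_nonneg_left (not_le.mp hs).le (by positivity)
          have h7 : r * r * r⁻¹ = r := by field_simp
          linarith
        have h8 : (1 + 2 * |⟪y, ξ⟫|)⁻¹ ≤ (2 * r)⁻¹ := inv_anti₀ (by positivity) (by linarith)
        have h9 : 4 * (2 * r)⁻¹ = 2 / r := by field_simp; norm_num
        linarith
  · simp only [Pi.add_apply]
    rw [integral_add iS iB, integral_indicator_const _ mS, integral_indicator_const _ mB]
    have wS : volume.real S ≤ 2 * r⁻¹ * (2 * 2) ^ (d - 1) :=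
      ENNReal.toReal_le_of_le_ofReal (by positivity) vS
    have wB : volume.real B ≤ (2 * 2) ^ d := ENNReal.toReal_le_of_le_ofReal (by positivity) vB
    simp only [smul_eq_mul]
    have e4 : (2 * 2 : ℝ) = 4 := by norm_num
    rw [e4] at wS wB
    calc volume.real S * 4 + volume.real B * (2 / r)
        ≤ 2 * r⁻¹ * 4 ^ (d - 1) * 4 + 4 ^ d * (2 / r) := by gcongr
      _ = (8 * 4 ^ (d - 1) + 2 * 4 ^ d) / r := by field_simp; ring

lemma l2_scale {k : E d → ℝ} (hk : IsKer k) {l : ℝ} (hl : 0 < l) (ξ : E d) :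
    FT (KK k l) ξ = FT (KK k 1) (l • ξ) := by
  rw [FT_KK hk hl, FT_KK hk one_pos]
  refine intervalIntegral.integral_congr fun s _ => ?_
  simp only [one_mul, smul_smul, mul_comm s l]

lemma l2_tel (F : ℤ → ℝ) {M : ℝ} (h0 : ∀ j, 0 ≤ F j) (h1 : ∀ j, F j ≤ M) (a b : ℤ) :
    ∑ j ∈ Finset.Icc a b, (F j - F (j + 1)) ≤ M := by
  by_cases hab : b < a
  · rw [Finset.Icc_eq_empty (not_le.mpr hab), Finset.sum_empty]
    exact (h0 0).trans (h1 0)
  · have key : ∀ c, a ≤ c → ∑ j ∈ Finset.Icc a c, (F j - F (j + 1)) = F a - F (c + 1) := by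
      intro c hc
      induction c, hc using Int.leInduction with
      | base => simp
      | succ c hc ih =>
        have e : Finset.Icc a (c + 1) = insert (c + 1) (Finset.Icc a c) := by
          ext x; simp only [Finset.mem_Icc, Finset.mem_insert]; omega
        rw [e, Finset.sum_insert (by simp), ih]
        ring
    rw [key b (not_lt.mp hab)]
    linarith [h0 (b + 1), h1 a]

lemma l2_cmp {x z C : ℝ} (hx : 0 < x) (hC : 0 < C) (h1 : z ≤ C * x) (h2 : z ≤ C / √x) :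
    z ≤ 6 * C * ((1 + √x)⁻¹ - (1 + √(4 * x))⁻¹) := by
  have e4 : √(4 * x) = 2 * √x := by
    rw [Real.sqrt_mul (by norm_num), show (4 : ℝ) = 2 ^ 2 by norm_num, Real.sqrt_sq (by norm_num)]
  rw [e4]
  have ht : 0 < √x := Real.sqrt_pos.mpr hx
  have htt : √x * √x = x := Real.mul_self_sqrt hx.le
  generalize √x = t at *
  have e : (1 + t)⁻¹ - (1 + 2 * t)⁻¹ = t / ((1 + t) * (1 + 2 * t)) := by
    field_simp; ring
  rw [e]
  by_cases h : t ≤ 1
  · refine h1.trans ?_
    have h3 : x ≤ 6 * (t / ((1 + t) * (1 + 2 * t))) := by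
      rw [← mul_div_assoc, le_div_iff₀ (by positivity), ← htt]
      have h4 : (1 + t) * (1 + 2 * t) ≤ 6 := by nlinarith
      have h5 : t * t ≤ t := by nlinarith
      calc t * t * ((1 + t) * (1 + 2 * t)) ≤ t * 6 := by gcongr
        _ = 6 * t := by ring
    nlinarith
  · refine h2.trans ?_
    have h3 : 1 / t ≤ 6 * (t / ((1 + t) * (1 + 2 * t))) := by
      rw [← mul_div_assoc, div_le_div_iff₀ ht (by positivity)]
      nlinarith
    have h4 : C / t = C * (1 / t) := by ring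
    rw [h4]
    nlinarith

lemma l2_mult : ∃ C : ℝ, 0 < C ∧ ∀ k : E d → ℝ, IsKer k → ∀ (a b : ℤ) (ξ : E d),
    ‖∑ j ∈ Finset.Icc a b, FT (KK k (2 ^ (j - 2))) ξ‖ ≤ C := by
  obtain ⟨C₁, p₁, h₁⟩ := mult_low (d := d)
  obtain ⟨C₂, p₂, h₂⟩ := mult_high (d := d)
  refine ⟨6 * (C₁ + C₂) * 2, by positivity, fun k hk a b ξ => ?_⟩
  refine (norm_sum_le _ _).trans ?_
  have hsc : ∀ j : ℤ, FT (KK k (2 ^ (j - 2))) ξ = FT (KK k 1) (((2 : ℝ) ^ (j - 2)) • ξ) :=
    fun j => l2_scale hk (by positivity) ξ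
  simp only [hsc]
  by_cases hξ : ξ = 0
  · have : ‖FT (KK k 1) (0 : E d)‖ = 0 :=
      le_antisymm (by simpa using h₁ k hk 0) (norm_nonneg _)
    simp only [hξ, smul_zero, this, Finset.sum_const_zero]
    positivity
  have hn : 0 < ‖ξ‖ := norm_pos_iff.mpr hξ
  set G : ℤ → ℝ := fun j => (1 + √((2 : ℝ) ^ (j - 2) * ‖ξ‖))⁻¹ with hG
  have G0 : ∀ j, 0 ≤ G j := fun j => by positivity
  have G1 : ∀ j, G j ≤ 1 := fun j =>
    inv_le_one_of_one_le₀ (by linarith [Real.sqrt_nonneg ((2 : ℝ) ^ (j - 2) * ‖ξ‖)])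
  have tel := l2_tel (fun j => G j + G (j + 1)) (M := 2) (fun j => add_nonneg (G0 _) (G0 _))
    (fun j => by linarith [G1 j, G1 (j + 1)]) a b
  refine le_trans ?_ (mul_le_mul_of_nonneg_left tel (by positivity))
  rw [Finset.mul_sum]
  refine Finset.sum_le_sum fun j _ => ?_
  have hp : (0 : ℝ) < 2 ^ (j - 2) := by positivity
  have hnorm : ‖((2 : ℝ) ^ (j - 2)) • ξ‖ = 2 ^ (j - 2) * ‖ξ‖ := by
    rw [norm_smul, Real.norm_eq_abs, abs_of_pos hp]
  have q₁ := h₁ k hk (((2 : ℝ) ^ (j - 2)) • ξ)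
  have q₂ := h₂ k hk (((2 : ℝ) ^ (j - 2)) • ξ) (smul_ne_zero hp.ne' hξ)
  rw [hnorm] at q₁ q₂
  have hx : 0 < (2 : ℝ) ^ (j - 2) * ‖ξ‖ := by positivity
  have c := l2_cmp (C := C₁ + C₂) hx (by positivity) (q₁.trans (by nlinarith))
    (q₂.trans (by gcongr; linarith))
  have e : (4 : ℝ) * (2 ^ (j - 2) * ‖ξ‖) = 2 ^ (j + 1 + 1 - 2) * ‖ξ‖ := by
    rw [show j + 1 + 1 - 2 = (j - 2) + 2 by ring, zpow_add₀ two_ne_zero]
    norm_num
    ring
  rw [e] at c
  refine c.trans (le_of_eq ?_)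
  simp only [hG]
  ring

theorem l2_bound : ∃ C : ℝ, 0 < C ∧ ∀ k g : E d → ℝ, IsKer k → Nice g → ∀ a b : ℤ,
    ∫ x, TT k a b g x ^ 2 ≤ C * ∫ x, g x ^ 2 := by
  obtain ⟨C, p, h⟩ := l2_mult (d := d)
  refine ⟨C ^ 2, by positivity, fun k g hk hg a b => ?_⟩
  obtain ⟨i₁, e₁⟩ := planch (TT_nice hk hg a b)
  obtain ⟨i₂, e₂⟩ := planch hg
  rw [← e₁, ← e₂, ← integral_const_mul]
  refine integral_mono i₁ (i₂.const_mul _) fun ξ => ?_
  have e : FT (TT k a b g) ξ = (∑ j ∈ Finset.Icc a b, FT (KK k (2 ^ (j - 2))) ξ) * FT g ξ := by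
    have := FT_sum (s := Finset.Icc a b) (g := fun j => cv k j g) (fun j _ => cv_nice hk hg j) ξ
    rw [Finset.sum_mul]
    simp only [← FT_cv hk hg]
    exact this
  simp only [e, norm_mul, mul_pow]
  gcongr
  exact h k hk a b ξ

end Pool.Agent.MP_418f02_an

end

section

open MeasureTheory Set
open scoped ENNReal RealInnerProductSpace

namespace Pool.Agent.MP_418f02_an

variable {d : ℕ}

theorem run1_isBounded_cube (c : Cb d) : Bornology.IsBounded (cube c) :=
  (isBounded_big c).subset (cube_subset_big c)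

theorem run1_real_cube (c : Cb d) : (volume : Measure (E d)).real (cube c) = sz d c.1 := by
  rw [Measure.real, volume_cube, ENNReal.toReal_ofReal (sz_pos _).le]

theorem run1_real_big (c : Cb d) :
    (volume : Measure (E d)).real (big c) = 3 ^ d * sz d c.1 := by
  rw [Measure.real, volume_big, ENNReal.toReal_ofReal (by have := sz_pos (d := d) c.1; positivity)]

theorem run1_set_le {γ : E d → ℝ} (hγ : Nice γ) (h1 : ∀ x, |γ x| ≤ 1) {S : Set (E d)}
    (hS : volume S ≠ ∞) : ∫ x in S, |γ x| ≤ (volume : Measure (E d)).real S := by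
  have h2 : ∫ x in S, |γ x| ≤ ∫ _x in S, (1 : ℝ) := by
    refine integral_mono hγ.abs.integrable.integrableOn ?_ h1
    exact integrableOn_const hS
  simpa using h2

theorem run1_cv_le {k γ : E d → ℝ} (hk : IsKer k) (hγ : Nice γ) (h1 : ∀ x, |γ x| ≤ 1) (j : ℤ)
    (x : E d) : |cv k j γ x| ≤ 12 ^ d := by
  have h2 := cv_le hk hγ j x
  have h3 := run1_set_le hγ h1 (S := big (cb j x)) (by rw [volume_big]; exact ENNReal.ofReal_ne_top)
  rw [run1_real_big] at h3
  have h4 : 0 < sz d j := sz_pos j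
  have h5 : (cb j x).1 = j := rfl
  rw [h5] at h3
  calc |cv k j γ x| ≤ 4 ^ d / sz d j * (3 ^ d * sz d j) :=
        h2.trans (mul_le_mul_of_nonneg_left h3 (by positivity))
    _ = 12 ^ d := by
        rw [show (12 : ℝ) = 4 * 3 by norm_num, mul_pow]
        field_simp

theorem run1_psi_nice (F : Finset (Cb d)) (σ : Cb d → ℝ) :
    Nice fun x => ∑ R ∈ F, (cube R).indicator (fun _ => σ R) x :=
  nice_sum fun R _ => nice_indicator (measurableSet_cube R) (run1_isBounded_cube R) (σ R)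

theorem run1_psi_sq {F : Finset (Cb d)} (hF : Dj F) {σ : Cb d → ℝ} (hσ : ∀ R, |σ R| ≤ 1) :
    ∫ x, (∑ R ∈ F, (cube R).indicator (fun _ => σ R) x) ^ 2 ≤ ∑ R ∈ F, sz d R.1 := by
  have h1 : ∫ x, (∑ R ∈ F, (cube R).indicator (fun _ => σ R) x) ^ 2 ≤
      ∫ x, ∑ R ∈ F, (cube R).indicator (fun _ => (1 : ℝ)) x := by
    refine integral_mono (run1_psi_nice F σ).sq.integrable
      (run1_psi_nice F fun _ => 1).integrable fun x => ?_
    dsimp only
    by_cases hx : ∃ R ∈ F, x ∈ cube R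
    · obtain ⟨R, hR, hxR⟩ := hx
      have hn : ∀ R' ∈ F, R' ≠ R → x ∉ cube R' := fun R' hR' hne hx' =>
        Set.disjoint_left.1 (hF (Finset.mem_coe.2 hR') (Finset.mem_coe.2 hR) hne) hx' hxR
      rw [Finset.sum_eq_single_of_mem R hR fun R' hR' hne => indicator_of_notMem (hn R' hR' hne) _,
        Finset.sum_eq_single_of_mem R hR fun R' hR' hne => indicator_of_notMem (hn R' hR' hne) _,
        indicator_of_mem hxR, indicator_of_mem hxR]
      have := hσ R
      rw [← sq_abs]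
      nlinarith [abs_nonneg (σ R)]
    · push Not at hx
      rw [Finset.sum_eq_zero fun R hR => indicator_of_notMem (hx R hR) _,
        Finset.sum_eq_zero fun R hR => indicator_of_notMem (hx R hR) _]
      simp
  refine h1.trans (le_of_eq ?_)
  rw [integral_finsetSum _ fun R _ =>
    (nice_indicator (measurableSet_cube R) (run1_isBounded_cube R) 1).integrable]
  refine Finset.sum_congr rfl fun R _ => ?_
  rw [integral_indicator (measurableSet_cube R)]
  simp [run1_real_cube]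

theorem run1_ind_sq {γ : E d → ℝ} (hγ : Nice γ) (h1 : ∀ x, |γ x| ≤ 1) (c : Cb d) :
    ∫ x, ((big c).indicator γ x) ^ 2 ≤ 3 ^ d * sz d c.1 := by
  have h2 : ∫ x, ((big c).indicator γ x) ^ 2 ≤ ∫ x, (big c).indicator (fun _ => (1 : ℝ)) x := by
    refine integral_mono (hγ.indicator (measurableSet_big c)).sq.integrable
      (nice_indicator (measurableSet_big c) (isBounded_big c) 1).integrable fun x => ?_
    dsimp only
    by_cases hx : x ∈ big c
    · rw [indicator_of_mem hx, indicator_of_mem hx, ← sq_abs]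
      nlinarith [abs_nonneg (γ x), h1 x]
    · rw [indicator_of_notMem hx, indicator_of_notMem hx]
      simp
  refine h2.trans (le_of_eq ?_)
  rw [integral_indicator (measurableSet_big c)]
  simp [run1_real_big]

theorem run1_main {k γ : E d → ℝ} (hk : IsKer k) (hγ : Nice γ) (h1 : ∀ x, |γ x| ≤ 1) {Cl : ℝ}
    (hCl : 0 < Cl) (hl : ∀ g : E d → ℝ, Nice g → ∀ a b : ℤ,
      ∫ x, TT k a b g x ^ 2 ≤ Cl * ∫ x, g x ^ 2) {c₀ : Cb d} {F : Finset (Cb d)} (hF : Dj F)
    (hs : ∀ R ∈ F, cube R ⊆ cube c₀) {σ : Cb d → ℝ} (hσ : ∀ R, |σ R| ≤ 1) (j₀ : ℤ) :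
    ∫ x, (∑ R ∈ F, (cube R).indicator (fun _ => σ R) x) * TT k j₀ c₀.1 γ x ≤
      √(Cl * 3 ^ d) * (√(sz d c₀.1) * √(∑ R ∈ F, sz d R.1)) := by
  have hg : Nice ((big c₀).indicator γ) := hγ.indicator (measurableSet_big c₀)
  have e1 : ∀ x, (∑ R ∈ F, (cube R).indicator (fun _ => σ R) x) * TT k j₀ c₀.1 γ x =
      (∑ R ∈ F, (cube R).indicator (fun _ => σ R) x) *
        TT k j₀ c₀.1 ((big c₀).indicator γ) x := by
    intro x
    by_cases hx : x ∈ cube c₀
    · congr 1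
      unfold TT ps
      refine Finset.sum_congr rfl fun j hj => cv_congr hk fun y hy => ?_
      rw [indicator_of_mem (big_subset_big (Finset.mem_Icc.1 hj).2 hx hy)]
    · rw [Finset.sum_eq_zero fun R hR => indicator_of_notMem (fun h => hx (hs R hR h)) _]
      simp
  simp_rw [e1]
  refine (le_abs_self _).trans (((run1_psi_nice F σ).cs (TT_nice hk hg j₀ c₀.1)).trans ?_)
  have h2 : √(∫ x, (∑ R ∈ F, (cube R).indicator (fun _ => σ R) x) ^ 2) ≤
      √(∑ R ∈ F, sz d R.1) := Real.sqrt_le_sqrt (run1_psi_sq hF hσ)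
  have h3 : √(∫ x, TT k j₀ c₀.1 ((big c₀).indicator γ) x ^ 2) ≤
      √(Cl * 3 ^ d) * √(sz d c₀.1) := by
    rw [← Real.sqrt_mul (by positivity)]
    refine Real.sqrt_le_sqrt ((hl _ hg _ _).trans ?_)
    rw [mul_assoc]
    exact mul_le_mul_of_nonneg_left (run1_ind_sq hγ h1 c₀) hCl.le
  calc _ ≤ √(∑ R ∈ F, sz d R.1) * (√(Cl * 3 ^ d) * √(sz d c₀.1)) :=
        mul_le_mul h2 h3 (Real.sqrt_nonneg _) (Real.sqrt_nonneg _)
    _ = _ := by ring

theorem run1_alg {C v z : ℝ} (hC : 0 < C) (hv : 0 ≤ v) (hz : 0 ≤ z)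
    (h : 2 * C * v ≤ C * (√z * √v)) : v ≤ Real.exp (-1) * z := by
  have h1 : 2 * v ≤ √z * √v := by
    have : C * (2 * v) ≤ C * (√z * √v) := by linarith
    exact le_of_mul_le_mul_left this hC
  have h2 := Real.mul_self_sqrt hv
  have h3 := Real.mul_self_sqrt hz
  have h4 : v ≤ z / 4 := by nlinarith [sq_nonneg (√z - 2 * √v), sq_nonneg (√z - 4 * √v)]
  have h5 : (1 : ℝ) / 4 ≤ Real.exp (-1) := by
    rw [Real.exp_neg, one_div]
    exact inv_anti₀ (Real.exp_pos 1) (by linarith [Real.exp_one_lt_d9])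
  nlinarith

theorem run1 (hd : 1 ≤ d) : ∃ C : ℝ, 0 < C ∧ ∀ k γ : E d → ℝ, IsKer k → Nice γ →
    (∀ x, |γ x| ≤ 1) → ∀ G : ℤ → Set (E d), Stop G → ∀ (W : Cb d) (j₀ : ℤ) (m : ℝ), 1 ≤ m →
    Mom (TG k G j₀ W.1 γ) W m (C * m) := by
  obtain ⟨Co, hCo, ho⟩ := osc_step hd
  obtain ⟨Cb', hCb, hb⟩ := bdry (d := d)
  obtain ⟨Cl, hCl, hl⟩ := l2_bound (d := d)
  set C1 : ℝ := √(Cl * 3 ^ d) + Co with hC1
  have hC1p : 0 < C1 := by positivity
  set A : ℝ := 2 * Cb' + 2 * C1 with hA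
  have hAp : 0 < A := by positivity
  refine ⟨24 * (A + 12 ^ d), by positivity, fun k γ hk hγ h1 G hG W j₀ m hm => ?_⟩
  have hstep : OneStep (fun j => cv k j γ) j₀ 1 A (Real.exp (-1)) W := by
    intro c₀ _ _ F hF
    have hv : 0 ≤ ∑ R ∈ F, sz d R.1 := Finset.sum_nonneg fun R _ => (sz_pos _).le
    have hz : 0 ≤ sz d c₀.1 := (sz_pos _).le
    obtain ⟨σ, hσ, h2⟩ := ho k γ hk hγ 1 h1 c₀ F 1 A hF.dj hF.up hF.sub hF.pos
    have h3 := split_sum (φ := fun j => cv k j γ) (fun j => cv_nice hk hγ j) F σ hF.low hF.up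
    have h4 := run1_main hk hγ h1 hCl (fun g hg => hl k g hk hg) hF.dj hF.sub hσ j₀
    have h5 : -∑ R ∈ F, σ R * ∑ j ∈ Finset.Ico j₀ (R.1 + (1 : ℕ)), ∫ x in cube R, cv k j γ x ≤
        2 * Cb' * ∑ R ∈ F, sz d R.1 := by
      rw [← Finset.sum_neg_distrib, Finset.mul_sum]
      refine Finset.sum_le_sum fun R _ => (neg_le_abs _).trans ?_
      have h6 := hb k hk (fun _ => γ) 1 (fun _ => hγ) zero_le_one (fun Q => by
        have := run1_set_le hγ h1 (S := cube Q) (by rw [volume_cube]; exact ENNReal.ofReal_ne_top)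
        rw [run1_real_cube] at this
        simpa using this) R j₀ 1
      rw [abs_mul]
      calc _ ≤ 1 * (Cb' * 1 * (((1 : ℕ) : ℝ) + 1) * sz d R.1) :=
            mul_le_mul (hσ R) h6 (abs_nonneg _) zero_le_one
        _ = _ := by push_cast; ring
    have h7 : Co * 1 * (9 / 10) ^ 1 * √(sz d c₀.1) * √(∑ R ∈ F, sz d R.1) ≤
        Co * (√(sz d c₀.1) * √(∑ R ∈ F, sz d R.1)) := by
      have : 0 ≤ Co * (√(sz d c₀.1) * √(∑ R ∈ F, sz d R.1)) := by positivity
      nlinarith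
    refine run1_alg hC1p hv hz ?_
    unfold TT at h2 h4
    rw [h3] at h2
    rw [hA] at h2
    rw [hC1] at h2 ⊢
    rw [sub_eq_add_neg] at h2
    have h8 := h2.trans (add_le_add (add_le_add h4 h5) h7)
    linarith
  have hm' := jn_mom (φ := fun j => cv k j γ) (C₀ := 12 ^ d) (m := m) (Y := TG k G j₀ W.1 γ)
    le_rfl hAp.le le_rfl (by positivity) hm (fun j _ _ x _ => run1_cv_le hk hγ h1 j x) hstep
    (fun x _ => by
      obtain ⟨a, ha, e⟩ := TG_eq_TT k γ hG j₀ W.1 x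
      exact ⟨a, ha, le_of_eq (by rw [e]; rfl)⟩)
  refine hm'.mono (by linarith) (by positivity) ?_ fun x _ => le_rfl
  have : 0 < A + 12 ^ d := by positivity
  push_cast
  nlinarith

end Pool.Agent.MP_418f02_an

end

section

open MeasureTheory Set
open scoped ENNReal RealInnerProductSpace

namespace Pool.Agent.MP_418f02_an

variable {d : ℕ}

theorem run3_pow (n : ℕ) {t : ℝ} (h : 10 * t ≤ n) : (9 / 10 : ℝ) ^ n ≤ Real.exp (-t) := by
  have h1 : (9 / 10 : ℝ) ≤ Real.exp (-(1 / 10)) := by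
    have := Real.add_one_le_exp (-(1 / 10) : ℝ)
    linarith
  calc (9 / 10 : ℝ) ^ n ≤ Real.exp (-(1 / 10)) ^ n := pow_le_pow_left₀ (by norm_num) h1 n
    _ = Real.exp (n * -(1 / 10)) := (Real.exp_nat_mul _ _).symm
    _ ≤ Real.exp (-t) := Real.exp_le_exp.2 (by linarith)

theorem run3_psi_nice (F : Finset (Cb d)) (σ : Cb d → ℝ) :
    Nice fun x => ∑ R ∈ F, (cube R).indicator (fun _ => σ R) x :=
  nice_sum fun R _ => nice_indicator (measurableSet_cube R)
    ((isBounded_big R).subset (cube_subset_big R)) _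

theorem run3_psi_le {F : Finset (Cb d)} (hF : Dj F) {σ : Cb d → ℝ} (hσ : ∀ R, |σ R| ≤ 1)
    (x : E d) : |∑ R ∈ F, (cube R).indicator (fun _ => σ R) x| ≤ 1 := by
  by_cases h : ∃ R ∈ F, x ∈ cube R
  · obtain ⟨R, hR, hx⟩ := h
    rw [Finset.sum_eq_single R]
    · rw [indicator_of_mem hx]; exact hσ R
    · intro R' hR' hne
      apply indicator_of_notMem
      intro hx'
      exact Set.disjoint_left.1 (hF (Finset.mem_coe.2 hR') (Finset.mem_coe.2 hR) hne) hx' hx
    · intro h; exact absurd hR h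
  · push Not at h
    rw [Finset.sum_eq_zero fun R hR => indicator_of_notMem (h R hR) _]
    simp

/-- the part of the sum that comes from atoms of nearby level -/
theorem run3_near : ∃ C : ℝ, 0 < C ∧ ∀ k : E d → ℝ, IsKer k →
    ∀ (P : Finset (Cb d)) (b : Cb d → E d → ℝ), Atoms P b 1 → ∀ (s₀ L : ℕ) (c₀ : Cb d) (j₀ : ℤ)
    (F : Finset (Cb d)) (σ : Cb d → ℝ) (l : ℝ), 1 ≤ l → Dj F → (∀ R ∈ F, j₀ ≤ R.1 + L) →
    (∀ R ∈ F, cube R ⊆ cube c₀) → (∀ R, |σ R| ≤ 1) →
    Real.exp (-l) * sz d c₀.1 < ∑ R ∈ F, sz d R.1 →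
    ∑ R ∈ F, σ R * (∫ x in cube R,
      ps (fun j => cv k j (Bw P b (j - s₀) j)) (R.1 + L) c₀.1 x) ≤
      C * (s₀ + 1) * l * ∑ R ∈ F, sz d R.1 := by
  obtain ⟨C, hC, h2⟩ := run2 (d := d)
  refine ⟨3 * C, by positivity, ?_⟩
  intro k hk P b hP s₀ L c₀ j₀ F σ l hl hF hlow hsub hσ hv
  set v := ∑ R ∈ F, sz d R.1 with hvdef
  have hz := sz_pos (d := d) c₀.1
  have hv0 : 0 < v := lt_trans (by positivity) hv
  set Y := ps (fun j x => |cv k j (Bw P b (j - s₀) j) x|) j₀ c₀.1 with hY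
  have hn : ∀ j : ℤ, Nice (cv k j (Bw P b (j - s₀) j)) := fun j => cv_nice hk (hP.nice_Bw _ _) j
  have hYn : Nice Y := ps_nice (fun j => (hn j).abs) _ _
  have h3 := (h2 k hk P b hP s₀ c₀ j₀ l hl).holder hYn hl (by positivity)
    (F := ⋃ R ∈ F, cube R) (Finset.measurableSet_biUnion _ fun R _ => measurableSet_cube R)
    (iUnion₂_subset hsub) hv0 hF.sum_sz.symm
  rw [integral_biUnion_finset F (fun R _ => measurableSet_cube R) hF
    (fun R _ => hYn.abs.integrable.integrableOn)] at h3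
  have h4 : (sz d c₀.1 / v) ^ (1 / l) ≤ 3 := by
    have h5 : sz d c₀.1 / v ≤ Real.exp l := by
      rw [div_le_iff₀ hv0]
      have h6 : Real.exp l * Real.exp (-l) = 1 := by rw [← Real.exp_add]; simp
      calc sz d c₀.1 = Real.exp l * (Real.exp (-l) * sz d c₀.1) := by rw [← mul_assoc, h6, one_mul]
        _ ≤ Real.exp l * v := mul_le_mul_of_nonneg_left hv.le (Real.exp_pos _).le
    calc (sz d c₀.1 / v) ^ (1 / l) ≤ Real.exp l ^ (1 / l) :=
          Real.rpow_le_rpow (by positivity) h5 (by positivity)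
      _ = Real.exp 1 := by
          rw [← Real.exp_mul]; congr 1; field_simp
      _ ≤ 3 := by have := Real.exp_one_lt_d9; linarith
  calc _ ≤ ∑ R ∈ F, ∫ x in cube R, |Y x| := by
        refine Finset.sum_le_sum fun R hR => ?_
        refine (le_abs_self _).trans ?_
        rw [abs_mul]
        refine (mul_le_of_le_one_left (abs_nonneg _) (hσ R)).trans ?_
        refine (abs_integral_le_integral_abs).trans ?_
        refine integral_mono (ps_nice hn _ _).abs.integrable.integrableOn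
          hYn.abs.integrable.integrableOn fun x => ?_
        refine le_trans ?_ (le_abs_self _)
        refine (Finset.abs_sum_le_sum_abs _ _).trans ?_
        exact Finset.sum_le_sum_of_subset_of_nonneg
          (Finset.Icc_subset_Icc_left (hlow R hR)) fun _ _ _ => abs_nonneg _
    _ ≤ C * (s₀ + 1) * l * v * (sz d c₀.1 / v) ^ (1 / l) := h3
    _ ≤ C * (s₀ + 1) * l * v * 3 := mul_le_mul_of_nonneg_left h4 (by positivity)
    _ = 3 * C * (s₀ + 1) * l * v := by ring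

/-- the part of the sum that comes from small atoms -/
theorem run3_far (hd : 1 ≤ d) : ∃ C : ℝ, 0 < C ∧ ∀ k : E d → ℝ, IsKer k →
    ∀ (P : Finset (Cb d)) (b : Cb d → E d → ℝ), Atoms P b 1 → ∀ (s₀ L : ℕ) (c₀ : Cb d) (j₀ : ℤ)
    (F : Finset (Cb d)) (σ : Cb d → ℝ), Dj F → (∀ R ∈ F, j₀ ≤ R.1 + L) →
    (∀ R ∈ F, R.1 + L ≤ c₀.1) → (∀ R ∈ F, cube R ⊆ cube c₀) → (∀ R, |σ R| ≤ 1) →
    ∑ R ∈ F, σ R * (∫ x in cube R,
      ps (fun j => cv k j (Bl P b (j - s₀))) (R.1 + L) c₀.1 x) ≤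
      C * (9 / 10) ^ s₀ * sz d c₀.1 + C * (L + 1) * ∑ R ∈ F, sz d R.1 := by
  obtain ⟨C₁, hC₁, h1⟩ := far_sum hd
  obtain ⟨C₂, hC₂, h2⟩ := bdry (d := d)
  refine ⟨C₁ + C₂, by positivity, ?_⟩
  intro k hk P b hP s₀ L c₀ j₀ F σ hF hlow hup hsub hσ
  have hz := sz_pos (d := d) c₀.1
  have hv : 0 ≤ ∑ R ∈ F, sz d R.1 := Finset.sum_nonneg fun R _ => (sz_pos _).le
  rw [split_sum (fun j => cv_nice hk (hP.nice_Bl _) j) F σ hlow hup]
  have h3 := h1 k hk P b hP s₀ c₀ j₀ _ (run3_psi_nice F σ) (run3_psi_le hF hσ) fun x hx =>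
    Finset.sum_eq_zero fun R hR => indicator_of_notMem (fun h => hx (hsub R hR h)) _
  have h4 : |∑ R ∈ F, σ R * ∑ j ∈ Finset.Ico j₀ (R.1 + L),
      ∫ x in cube R, cv k j (Bl P b (j - s₀)) x| ≤ C₂ * (L + 1) * ∑ R ∈ F, sz d R.1 := by
    refine (Finset.abs_sum_le_sum_abs _ _).trans ?_
    rw [Finset.mul_sum]
    refine Finset.sum_le_sum fun R _ => ?_
    rw [abs_mul]
    refine (mul_le_of_le_one_left (abs_nonneg _) (hσ R)).trans ?_
    have := h2 k hk (fun j => Bl P b (j - s₀)) 1 (fun j => hP.nice_Bl _) zero_le_one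
      (fun Q => hP.mass_Bl zero_le_one (by simp)) R j₀ L
    rwa [mul_one] at this
  have h5 := (le_abs_self _).trans h3
  have h6 := (neg_le_abs _).trans h4
  have h7 : 0 ≤ C₂ * (9 / 10) ^ s₀ * sz d c₀.1 := by positivity
  have h8 : 0 ≤ C₁ * (L + 1) * ∑ R ∈ F, sz d R.1 := by positivity
  nlinarith

theorem run3_step (hd : 1 ≤ d) : ∃ C : ℝ, 0 < C ∧ ∀ k : E d → ℝ, IsKer k →
    ∀ (P : Finset (Cb d)) (b : Cb d → E d → ℝ), Atoms P b 1 → ∀ D : ℝ, 1 ≤ D →
    (∀ Q ∈ P, ∀ x, |b Q x| ≤ Real.exp D) → ∀ G : ℤ → Set (E d), Stop G →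
    ∀ (W : Cb d) (j₀ : ℤ), (∀ j, j₀ ≤ j → j ≤ W.1 → ∀ x ∈ cube W, x ∈ G j → ∀ Q ∈ P,
      (cube Q ∩ big (cb j x)).Nonempty → Q.1 < j) →
    OneStep (fun j => (G j).indicator (cv k j fun x => ∑ Q ∈ P, b Q x)) j₀ ⌈20 * D⌉₊ (C * D)
      (Real.exp (-√D)) W := by
  obtain ⟨C₁, hC₁, h1⟩ := osc_step hd
  obtain ⟨C₂, hC₂, h2⟩ := run3_near (d := d)
  obtain ⟨C₃, hC₃, h3⟩ := run3_far hd
  refine ⟨C₁ + 12 * C₂ + 23 * C₃ + 1, by positivity, ?_⟩
  intro k hk P b hP D hD hb G hG W j₀ H c₀ hc₀ hcW F hF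
  by_contra hv
  push Not at hv
  set L := ⌈20 * D⌉₊ with hL
  set s₀ := ⌈10 * √D⌉₊ with hs₀
  set B : E d → ℝ := fun x => ∑ Q ∈ P, b Q x with hB
  have hBn : Nice B := nice_sum hP.nice
  have hz := sz_pos (d := d) c₀.1
  have hr1 : 1 ≤ √D := Real.one_le_sqrt.2 hD
  have hr2 : √D * √D = D := Real.mul_self_sqrt (by linarith)
  have hr3 : √D ≤ D := by nlinarith
  have hG' : ∀ R ∈ F, ∀ j, R.1 + L ≤ j → cube R ⊆ G j := fun R hR j hj => by
    obtain ⟨y, hy, hy'⟩ := hF.ne R hR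
    have hy2 : y ∈ G (R.1 + L) := by
      by_contra h
      exact hy' (indicator_of_notMem h _)
    exact ((hG.lm _).cube_subset (by simp) hy hy2).trans (hG.mono _ _ hj)
  have e1 : ∀ R ∈ F, ∀ y ∈ cube R, ps (fun j => (G j).indicator (cv k j B)) (R.1 + L) c₀.1 y =
      TT k (R.1 + L) c₀.1 B y := fun R hR y hy =>
    Finset.sum_congr rfl fun j hj => indicator_of_mem (hG' R hR j (Finset.mem_Icc.1 hj).1 hy) _
  have e2 : ∀ R ∈ F, ∀ y ∈ cube R, TT k (R.1 + L) c₀.1 B y =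
      ps (fun j => cv k j (Bw P b (j - s₀) j)) (R.1 + L) c₀.1 y +
        ps (fun j => cv k j (Bl P b (j - s₀))) (R.1 + L) c₀.1 y := fun R hR y hy => by
    unfold TT ps
    rw [← Finset.sum_add_distrib]
    refine Finset.sum_congr rfl fun j hj => ?_
    obtain ⟨hj1, hj2⟩ := Finset.mem_Icc.1 hj
    beta_reduce
    rw [hP.cv_eq_Bl hk (H j ((hF.low R hR).trans hj1) (hj2.trans hc₀) y (hcW (hF.sub R hR hy))
      (hG' R hR j hj1 hy)), ← cv_add hk (hP.nice_Bw _ _) (hP.nice_Bl _)]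
    congr 1
    funext x
    exact Bl_split P b (by simp) x
  obtain ⟨σ, hσ, h4⟩ := h1 k B hk hBn (Real.exp D) (hP.abs_sum_le (Real.exp_pos D).le hb) c₀ F L
    ((C₁ + 12 * C₂ + 23 * C₃ + 1) * D) hF.dj hF.up hF.sub fun R hR => by
      refine lt_of_lt_of_eq (hF.pos R hR) ?_
      congr 1
      ext y
      constructor
      · rintro ⟨hy, h⟩
        exact ⟨hy, by rwa [← e1 R hR y hy]⟩
      · rintro ⟨hy, h⟩
        exact ⟨hy, by rwa [e1 R hR y hy]⟩
  have h5 := h2 k hk P b hP s₀ L c₀ j₀ F σ (√D) hr1 hF.dj hF.low hF.sub hσ hv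
  have h6 := h3 k hk P b hP s₀ L c₀ j₀ F σ hF.dj hF.low hF.up hF.sub hσ
  have e3 : ∑ R ∈ F, σ R * (∫ x in cube R, TT k (R.1 + L) c₀.1 B x) =
      ∑ R ∈ F, σ R * (∫ x in cube R,
        ps (fun j => cv k j (Bw P b (j - s₀) j)) (R.1 + L) c₀.1 x) +
      ∑ R ∈ F, σ R * (∫ x in cube R,
        ps (fun j => cv k j (Bl P b (j - s₀))) (R.1 + L) c₀.1 x) := by
    rw [← Finset.sum_add_distrib]
    refine Finset.sum_congr rfl fun R hR => ?_
    rw [← mul_add, ← integral_add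
      (ps_nice (fun j => cv_nice hk (hP.nice_Bw _ _) j) _ _).integrable.integrableOn
      (ps_nice (fun j => cv_nice hk (hP.nice_Bl _) j) _ _).integrable.integrableOn,
      setIntegral_congr_fun (measurableSet_cube R) (e2 R hR)]
  rw [e3] at h4
  set v := ∑ R ∈ F, sz d R.1 with hvdef
  have hv0 : 0 < v := lt_trans (by positivity) hv
  have hvz : v ≤ sz d c₀.1 := hF.dj.sum_le hz.le (volume_cube c₀).le hF.sub
  have hL1 : (L : ℝ) + 1 ≤ 22 * D := by
    have := Nat.ceil_lt_add_one (show (0 : ℝ) ≤ 20 * D by linarith)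
    linarith
  have hs1 : (s₀ : ℝ) + 1 ≤ 12 * √D := by
    have := Nat.ceil_lt_add_one (show (0 : ℝ) ≤ 10 * √D by linarith)
    linarith
  have p1 : (9 / 10 : ℝ) ^ s₀ ≤ Real.exp (-√D) := run3_pow _ (Nat.le_ceil _)
  have p2 : Real.exp D * (9 / 10 : ℝ) ^ L ≤ Real.exp (-√D) := by
    have : (9 / 10 : ℝ) ^ L ≤ Real.exp (-(2 * D)) :=
      run3_pow _ (le_trans (by linarith) (Nat.le_ceil (20 * D)))
    calc _ ≤ Real.exp D * Real.exp (-(2 * D)) :=
          mul_le_mul_of_nonneg_left this (Real.exp_pos _).le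
      _ = Real.exp (-D) := by rw [← Real.exp_add]; congr 1; ring
      _ ≤ _ := Real.exp_le_exp.2 (by linarith)
  have p3 : √(sz d c₀.1) * √v ≤ sz d c₀.1 := by
    calc _ ≤ √(sz d c₀.1) * √(sz d c₀.1) :=
          mul_le_mul_of_nonneg_left (Real.sqrt_le_sqrt hvz) (Real.sqrt_nonneg _)
      _ = _ := Real.mul_self_sqrt hz.le
  have hDv : v ≤ D * v := le_mul_of_one_le_left hv0.le hD
  have q1 : C₁ * Real.exp D * (9 / 10) ^ L * √(sz d c₀.1) * √v ≤ C₁ * (D * v) := by
    calc _ = C₁ * ((Real.exp D * (9 / 10) ^ L) * (√(sz d c₀.1) * √v)) := by ring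
      _ ≤ C₁ * (Real.exp (-√D) * sz d c₀.1) := by gcongr
      _ ≤ C₁ * (D * v) := mul_le_mul_of_nonneg_left (hv.le.trans hDv) hC₁.le
  have q2 : C₂ * (s₀ + 1) * √D * v ≤ 12 * C₂ * (D * v) := by
    calc _ ≤ C₂ * (12 * √D) * √D * v := by gcongr
      _ = 12 * C₂ * ((√D * √D) * v) := by ring
      _ = _ := by rw [hr2]
  have q3 : C₃ * (9 / 10) ^ s₀ * sz d c₀.1 ≤ C₃ * (D * v) := by
    calc _ = C₃ * ((9 / 10) ^ s₀ * sz d c₀.1) := by ring
      _ ≤ C₃ * (Real.exp (-√D) * sz d c₀.1) := by gcongr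
      _ ≤ C₃ * (D * v) := mul_le_mul_of_nonneg_left (hv.le.trans hDv) hC₃.le
  have q4 : C₃ * (L + 1) * v ≤ 22 * C₃ * (D * v) := by
    calc _ ≤ C₃ * (22 * D) * v := by gcongr
      _ = _ := by ring
  have q5 : 0 < D * v := by positivity
  nlinarith

theorem run3 (hd : 1 ≤ d) : ∃ C : ℝ, 0 < C ∧ ∀ k : E d → ℝ, IsKer k →
    ∀ (P : Finset (Cb d)) (b : Cb d → E d → ℝ), Atoms P b 1 → ∀ D : ℝ, 1 ≤ D →
    (∀ Q ∈ P, ∀ x, |b Q x| ≤ Real.exp D) → ∀ G : ℤ → Set (E d), Stop G →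
    ∀ (W : Cb d) (j₀ : ℤ), (∀ j, j₀ ≤ j → j ≤ W.1 → ∀ x ∈ cube W, x ∈ G j → ∀ Q ∈ P,
      (cube Q ∩ big (cb j x)).Nonempty → Q.1 < j) → ∀ m : ℝ, 1 ≤ m →
    Mom (TG k G j₀ W.1 fun x => ∑ Q ∈ P, b Q x) W m (C * (D + m * √D)) := by
  obtain ⟨C, hC, h⟩ := run3_step hd
  refine ⟨12 * (C + 12 ^ d * 21), by positivity, ?_⟩
  intro k hk P b hP D hD hb G hG W j₀ H m hm
  have hr1 : 1 ≤ √D := Real.one_le_sqrt.2 hD
  have hr2 : √D * √D = D := Real.mul_self_sqrt (by linarith)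
  have hL0 : 1 ≤ ⌈20 * D⌉₊ := Nat.one_le_ceil_iff.2 (by linarith)
  have hL1 : (⌈20 * D⌉₊ : ℝ) ≤ 21 * D := by
    have := Nat.ceil_lt_add_one (show (0 : ℝ) ≤ 20 * D by linarith)
    linarith
  have h1 := jn_mom (C₀ := 12 ^ d) (m := m) hL0 (by positivity) hr1 (by positivity) hm
    (fun j h0 h1 x hx => by
      by_cases hx' : x ∈ G j
      · rw [indicator_of_mem hx', hP.cv_eq_Bl hk (H j h0 h1 x hx hx')]
        have := hP.cv_Bl_le zero_le_one hk (le_refl j) x
        rwa [mul_one] at this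
      · rw [indicator_of_notMem hx', abs_zero]
        positivity)
    (h k hk P b hP D hD hb G hG W j₀ H)
    (Y := TG k G j₀ W.1 fun x => ∑ Q ∈ P, b Q x) fun x _ => ⟨j₀, le_rfl, le_rfl⟩
  refine h1.mono (by linarith) (by positivity) ?_ fun x _ => le_rfl
  have e1 : D * (1 + m / √D) = D + m * √D := by
    have : √D ≠ 0 := by positivity
    field_simp
    linear_combination (-m) * hr2
  calc 12 * (C * D + 12 ^ d * (⌈20 * D⌉₊ : ℝ)) * (1 + m / √D)
      ≤ 12 * (C * D + 12 ^ d * (21 * D)) * (1 + m / √D) := by gcongr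
    _ = 12 * (C + 12 ^ d * 21) * (D * (1 + m / √D)) := by ring
    _ = _ := by rw [e1]

end Pool.Agent.MP_418f02_an

end

section

open MeasureTheory Set
open scoped ENNReal RealInnerProductSpace

namespace Pool.Agent.MP_418f02_an

variable {d : ℕ}

theorem single_real (c : Cb d) : volume.real (cube c) = sz d c.1 := by
  rw [Measure.real, volume_cube, ENNReal.toReal_ofReal (sz_pos _).le]

theorem single_const (c : Cb d) (a : ℝ) : Nice ((cube c).indicator fun _ => a) :=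
  nice_indicator (measurableSet_cube c) ((isBounded_big c).subset (cube_subset_big c)) a

theorem single_sum {P : Finset (Cb d)} (h : Dj P) (f : Cb d → E d → ℝ) {Q : Cb d} (hQ : Q ∈ P)
    {x : E d} (hx : x ∈ cube Q) : ∑ R ∈ P, (cube R).indicator (f R) x = f Q x := by
  rw [Finset.sum_eq_single_of_mem Q hQ, indicator_of_mem hx]
  intro R hR hne
  exact indicator_of_notMem (fun hR' => Set.disjoint_left.1 (h hR hQ hne) hR' hx) _

theorem single_abs {P : Finset (Cb d)} (h : Dj P) (a : Cb d → ℝ) (ha : ∀ Q ∈ P, |a Q| ≤ 1)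
    (x : E d) : |∑ R ∈ P, (cube R).indicator (fun _ => a R) x| ≤ 1 := by
  by_cases hx : ∃ Q ∈ P, x ∈ cube Q
  · obtain ⟨Q, hQ, hx⟩ := hx
    rw [single_sum h (fun R _ => a R) hQ hx]
    exact ha Q hQ
  · rw [Finset.sum_eq_zero fun R hR => indicator_of_notMem (fun h' => hx ⟨R, hR, h'⟩) _]
    simp

theorem single_mean {g : E d → ℝ} {Q : Cb d} {M : ℝ}
    (h : ∫ x in cube Q, |g x| ≤ M * sz d Q.1) : |(∫ x in cube Q, g x) / sz d Q.1| ≤ M := by
  rw [abs_div, abs_of_pos (sz_pos _), div_le_iff₀ (sz_pos _)]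
  exact abs_integral_le_integral_abs.trans h

theorem single_atoms {g : E d → ℝ} (hg : Nice g) {P : Finset (Cb d)} (hP : Dj P) {M : ℝ}
    (hM : 0 < M) (h : ∀ Q ∈ P, ∫ x in cube Q, |g x| ≤ M * sz d Q.1) :
    Atoms P (fun Q => (cube Q).indicator
      fun x => (2 * M)⁻¹ * (g x - (∫ y in cube Q, g y) / sz d Q.1)) 1 := by
  have hfin : ∀ Q : Cb d, volume (cube Q) ≠ ∞ := fun Q => by
    rw [volume_cube]; exact ENNReal.ofReal_ne_top
  refine ⟨hP, fun Q _ => ?_, fun Q _ x hx => indicator_of_notMem hx _, fun Q _ => ?_,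
    fun Q hQ => ?_⟩
  · have h1 := ((hg.indicator (measurableSet_cube Q)).sub
      (single_const Q ((∫ y in cube Q, g y) / sz d Q.1))).const_mul (2 * M)⁻¹
    convert h1 using 1
    ext x
    by_cases hx : x ∈ cube Q <;> simp [hx]
  · rw [integral_indicator (measurableSet_cube Q), integral_const_mul,
      integral_sub hg.integrable.integrableOn (integrableOn_const (hfin Q)), setIntegral_const,
      single_real, smul_eq_mul, mul_div_cancel₀ _ (sz_pos _).ne', sub_self, mul_zero]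
  · have h1 : (fun x => |(cube Q).indicator
        (fun x => (2 * M)⁻¹ * (g x - (∫ y in cube Q, g y) / sz d Q.1)) x|) =
        (cube Q).indicator
          fun x => |(2 * M)⁻¹ * (g x - (∫ y in cube Q, g y) / sz d Q.1)| := by
      ext x
      by_cases hx : x ∈ cube Q <;> simp [hx]
    have h2 : IntegrableOn (fun x => |g x|) (cube Q) := hg.abs.integrable.integrableOn
    have h3 : IntegrableOn (fun _ => M) (cube Q) := integrableOn_const (hfin Q)
    rw [h1, integral_indicator (measurableSet_cube Q)]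
    calc _ ≤ ∫ x in cube Q, (2 * M)⁻¹ * (|g x| + M) := by
          refine integral_mono_of_nonneg (Filter.Eventually.of_forall fun x => abs_nonneg _)
            ((h2.add h3).const_mul _) (Filter.Eventually.of_forall fun x => ?_)
          have h4 := single_mean (h Q hQ)
          have h5 := abs_sub (g x) ((∫ y in cube Q, g y) / sz d Q.1)
          simp only
          rw [abs_mul, abs_of_pos (by positivity : 0 < (2 * M)⁻¹)]
          exact mul_le_mul_of_nonneg_left (by linarith) (by positivity)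
      _ = (2 * M)⁻¹ * ((∫ x in cube Q, |g x|) + M * sz d Q.1) := by
          rw [integral_const_mul, integral_add h2 h3, setIntegral_const, single_real, smul_eq_mul,
            mul_comm (sz d Q.1) M]
      _ ≤ (2 * M)⁻¹ * (M * sz d Q.1 + M * sz d Q.1) := by
          have := h Q hQ
          gcongr
      _ = 1 * sz d Q.1 := by field_simp; ring

theorem single (hd : 1 ≤ d) : ∃ C : ℝ, 0 < C ∧ ∀ k g : E d → ℝ, IsKer k → Nice g →
    ∀ G : ℤ → Set (E d), Stop G → ∀ (W : Cb d) (j₀ : ℤ) (μ D : ℝ), 0 < μ → 1 ≤ D →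
    (∀ x, |g x| ≤ μ * Real.exp D) → (∀ j, j₀ ≤ j → j ≤ W.1 → ∀ x ∈ cube W, x ∈ G j →
      ∫ y in big (cb j x), |g y| ≤ μ * (3 ^ d * sz d j)) → ∀ m : ℝ, 1 ≤ m →
    Mom (TG k G j₀ W.1 g) W m (C * μ * (D + m * √D)) := by
  obtain ⟨C₁, hC₁, r1⟩ := run1 hd
  obtain ⟨C₃, hC₃, r3⟩ := run3 hd
  refine ⟨6 ^ d * (C₁ + 2 * C₃), by positivity, ?_⟩
  intro k g hk hg G hG W j₀ μ D hμ hD hgb hav m hm
  by_cases hx : j₀ ≤ W.1 ∧ ∃ x ∈ cube W, x ∈ G W.1
  swap
  · refine mom_zero (by linarith) fun x hxW => ?_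
    unfold TG ps
    refine Finset.sum_eq_zero fun j hj => ?_
    rw [Finset.mem_Icc] at hj
    exact indicator_of_notMem (fun h => hx ⟨hj.1.trans hj.2, x, hxW, hG.mono _ _ hj.2 h⟩) _
  obtain ⟨hj, x₀, hx₀, hx₀G⟩ := hx
  have hW := hav W.1 hj le_rfl x₀ hx₀ hx₀G
  rw [cb_eq_of_mem hx₀] at hW
  obtain ⟨P, hP, hPW, hPm, hPl⟩ := cz hg hj hμ hW
  have h6 : (1 : ℝ) ≤ 6 ^ d := one_le_pow₀ (by norm_num)
  set M : ℝ := 6 ^ d * μ with hMdef
  have hM : 0 < M := by positivity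
  have hμM : μ ≤ M := le_mul_of_one_le_left hμ.le h6
  have hA := single_atoms hg hP hM hPm
  set a : Cb d → ℝ := fun Q => (∫ y in cube Q, g y) / sz d Q.1 with hadef
  have ha : ∀ Q ∈ P, |a Q| ≤ M := fun Q hQ => single_mean (hPm Q hQ)
  set b : Cb d → E d → ℝ := fun Q => (cube Q).indicator fun x => (2 * M)⁻¹ * (g x - a Q)
    with hbdef
  set γ : E d → ℝ := fun x => ∑ R ∈ P, (cube R).indicator (fun _ => a R / M) x with hγdef
  have hγn : Nice γ := nice_sum fun R _ => single_const R _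
  have hbn : Nice fun x => ∑ Q ∈ P, b Q x := nice_sum hA.nice
  have hγ1 : ∀ x, |γ x| ≤ 1 := single_abs hP _ fun Q hQ => by
    rw [abs_div, abs_of_pos hM, div_le_one hM]; exact ha Q hQ
  have he : 1 ≤ Real.exp D := Real.one_le_exp (by linarith)
  have hbb : ∀ Q ∈ P, ∀ x, |b Q x| ≤ Real.exp D := by
    intro Q hQ x
    by_cases hx : x ∈ cube Q
    · simp only [hbdef, indicator_of_mem hx]
      rw [abs_mul, abs_of_pos (by positivity : 0 < (2 * M)⁻¹), inv_mul_le_iff₀ (by positivity)]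
      have h1 := abs_sub (g x) (a Q)
      have h2 := hgb x
      have h3 := ha Q hQ
      have h4 : μ * Real.exp D ≤ M * Real.exp D := by gcongr
      have h5 : M ≤ M * Real.exp D := le_mul_of_one_le_right hM.le he
      linarith
    · simp only [hbdef, indicator_of_notMem hx, abs_zero]
      linarith
  have hcomp : ∀ j, j₀ ≤ j → j ≤ W.1 → ∀ x ∈ cube W, x ∈ G j → ∀ Q ∈ P,
      (cube Q ∩ big (cb j x)).Nonempty → Q.1 < j := by
    intro j hj₀ _ x hxW hxG Q hQ ⟨y, hyQ, hy⟩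
    by_contra hlt
    have hle : j ≤ Q.1 := not_lt.1 hlt
    have h1 := hav Q.1 (hj₀.trans hle) (hPl Q hQ).1.le x hxW (hG.mono _ _ hle hxG)
    have h2 : cube Q ⊆ big (cb Q.1 x) :=
      (lm_big (cb Q.1 x)).cube_subset le_rfl hyQ (big_mono hle x hy)
    have h3 : ∫ y in cube Q, |g y| ≤ ∫ y in big (cb Q.1 x), |g y| :=
      setIntegral_mono_set hg.abs.integrable.integrableOn
        (Filter.Eventually.of_forall fun x => abs_nonneg _) h2.eventuallyLE
    have h4 := (hPl Q hQ).2 (hj₀.trans hle)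
    linarith
  have m1 := (r1 k γ hk hγn hγ1 G hG W j₀ m hm).const_mul (by linarith) (by positivity) hM.le
  have hs : 1 ≤ √D := Real.one_le_sqrt.2 hD
  have hpos : 0 ≤ D + m * √D := by positivity
  have m3 := (r3 k hk P b hA D hD hbb G hG W j₀ hcomp m hm).const_mul (by linarith)
    (by positivity) (by positivity : 0 ≤ 2 * M)
  have m4 := m1.add m3 ((TG_nice hk hγn hG _ _).const_mul M).meas
    ((TG_nice hk hbn hG _ _).const_mul (2 * M)).meas hm (by positivity) (by positivity)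
  refine m4.mono (by linarith) (by positivity) ?_ fun x hx => le_of_eq ?_
  · have h1 : m ≤ D + m * √D := by
      have := le_mul_of_one_le_right (by linarith : 0 ≤ m) hs
      linarith
    calc M * (C₁ * m) + 2 * M * (C₃ * (D + m * √D))
        ≤ M * (C₁ * (D + m * √D)) + 2 * M * (C₃ * (D + m * √D)) := by gcongr
      _ = 6 ^ d * (C₁ + 2 * C₃) * μ * (D + m * √D) := by rw [hMdef]; ring
  · rw [← TG_const_mul, ← TG_const_mul, ← TG_add hk (hγn.const_mul M) (hbn.const_mul (2 * M))]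
    congr 1
    refine TG_congr hk G j₀ hx fun y hy => ?_
    rw [hPW] at hy
    simp only [mem_iUnion] at hy
    obtain ⟨Q, hQ, hyQ⟩ := hy
    simp only [hγdef, hbdef]
    rw [single_sum hP (fun R _ => a R / M) hQ hyQ,
      single_sum hP (fun R x => (2 * M)⁻¹ * (g x - a R)) hQ hyQ]
    field_simp
    ring

end Pool.Agent.MP_418f02_an

end

section

open MeasureTheory Set
open scoped ENNReal RealInnerProductSpace

namespace Pool.Agent.MP_418f02_an

variable {d : ℕ}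

/-- the level sets of the height decomposition -/
def levSet (g : E d → ℝ) (μ N : ℝ) (i : ℕ) : Set (E d) :=
  {y | (i = 0 ∨ μ * Real.exp (i * N) < |g y|) ∧ |g y| ≤ μ * Real.exp ((i + 1) * N)}

theorem lev_meas {g : E d → ℝ} (hg : Measurable g) (μ N : ℝ) (i : ℕ) :
    MeasurableSet (levSet g μ N i) :=
  ((MeasurableSet.const _).union (measurableSet_lt measurable_const hg.abs)).inter
    (measurableSet_le hg.abs measurable_const)

theorem lev_sum (g : E d → ℝ) {μ N : ℝ} (hμ : 0 < μ) (hN : 1 ≤ N) (I : ℕ) (y : E d) :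
    ∑ i ∈ Finset.range (I + 1), (levSet g μ N i).indicator g y =
      if |g y| ≤ μ * Real.exp ((I + 1) * N) then g y else 0 := by
  induction I with
  | zero => simp [levSet, indicator]
  | succ I ih =>
    rw [Finset.sum_range_succ, ih]
    have hle : μ * Real.exp ((I + 1) * N) ≤ μ * Real.exp ((((I + 1 : ℕ) : ℝ) + 1) * N) := by
      refine mul_le_mul_of_nonneg_left (Real.exp_le_exp.2 ?_) hμ.le
      push_cast
      nlinarith
    by_cases h : |g y| ≤ μ * Real.exp ((I + 1) * N)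
    · rw [if_pos h, if_pos (le_trans h hle), indicator_of_notMem, add_zero]
      rintro ⟨h1 | h1, -⟩
      · omega
      · push_cast at h1
        linarith
    · rw [if_neg h, zero_add]
      by_cases h2 : |g y| ≤ μ * Real.exp ((((I + 1 : ℕ) : ℝ) + 1) * N)
      · rw [if_pos h2, indicator_of_mem]
        refine ⟨Or.inr ?_, h2⟩
        push_cast
        exact not_le.1 h
      · rw [if_neg h2, indicator_of_notMem]
        exact fun h3 => h2 h3.2

theorem lev_high {μ N r t : ℝ} (hμ : 0 < μ) (hN : 1 ≤ N) (hr : 1 + 1 / N ≤ r) (i : ℕ)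
    (h : μ * Real.exp (i * N) < t) : t ≤ Real.exp (-i) * μ ^ (1 - r) * t ^ r := by
  have hN0 : 0 < N := lt_of_lt_of_le one_pos hN
  have ht : 0 < t := lt_trans (by positivity) h
  have hr1 : 1 ≤ N * (r - 1) := by
    have : 1 / N ≤ r - 1 := by linarith
    rw [div_le_iff₀ hN0] at this
    linarith
  have hr0 : 0 ≤ r - 1 := by
    have : 0 < 1 / N := by positivity
    linarith
  have h1 : (μ * Real.exp (i * N)) ^ (r - 1) ≤ t ^ (r - 1) :=
    Real.rpow_le_rpow (by positivity) h.le hr0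
  rw [Real.mul_rpow hμ.le (Real.exp_pos _).le, ← Real.exp_mul] at h1
  have h2 : Real.exp i ≤ Real.exp (i * N * (r - 1)) := by
    refine Real.exp_le_exp.2 ?_
    have : (0 : ℝ) ≤ i := Nat.cast_nonneg i
    nlinarith
  have h3 : μ ^ (r - 1) * Real.exp i ≤ t ^ (r - 1) :=
    le_trans (mul_le_mul_of_nonneg_left h2 (by positivity)) h1
  have e1 : t ^ r = t ^ (r - 1) * t := by
    rw [← Real.rpow_add_one ht.ne', sub_add_cancel]
  have e2 : Real.exp (-i) * μ ^ (1 - r) * (μ ^ (r - 1) * Real.exp i) = 1 := by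
    rw [mul_assoc, ← mul_assoc (μ ^ (1 - r)), ← Real.rpow_add hμ]
    simp [← Real.exp_add]
  calc t = Real.exp (-i) * μ ^ (1 - r) * (μ ^ (r - 1) * Real.exp i * t) := by
        rw [← mul_assoc, e2, one_mul]
    _ ≤ Real.exp (-i) * μ ^ (1 - r) * t ^ r := by
        rw [e1]
        exact mul_le_mul_of_nonneg_left (mul_le_mul_of_nonneg_right h3 ht.le) (by positivity)

theorem lev_pt (g : E d → ℝ) {μ N r : ℝ} (hμ : 0 < μ) (hN : 1 ≤ N) (hr : 1 + 1 / N ≤ r) (i : ℕ)
    (y : E d) : |(levSet g μ N i).indicator g y| ≤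
      Real.exp (-i) * μ + Real.exp (-i) * μ ^ (1 - r) * |g y| ^ r := by
  have h0 : 0 ≤ Real.exp (-i) * μ ^ (1 - r) * |g y| ^ r := by positivity
  have h1 : 0 ≤ Real.exp (-i) * μ := by positivity
  by_cases hy : y ∈ levSet g μ N i
  · rw [indicator_of_mem hy]
    by_cases h : μ * Real.exp (i * N) < |g y|
    · have := lev_high hμ hN hr i h
      linarith
    · have hi : i = 0 := hy.1.resolve_right h
      subst hi
      simp only [Nat.cast_zero, zero_mul, Real.exp_zero, mul_one, neg_zero, one_mul, not_lt]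
        at h h0 ⊢
      linarith
  · rw [indicator_of_notMem hy, abs_zero]
    linarith

theorem lev_int {g : E d → ℝ} (hg : Nice g) {μ N r : ℝ} (hμ : 0 < μ) (hN : 1 ≤ N)
    (hr : 1 + 1 / N ≤ r) (i : ℕ) {j : ℤ} {x : E d}
    (h : av j (fun y => ENNReal.ofReal |g y| ^ r) x ≤ ENNReal.ofReal μ ^ r) :
    ∫ y in big (cb j x), |(levSet g μ N i).indicator g y| ≤
      2 * μ * Real.exp (-i) * (3 ^ d * sz d j) := by
  have hV : 0 < 3 ^ d * sz d j := mul_pos (by positivity) (sz_pos j)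
  have hr0 : 0 ≤ r := by
    have : 0 < 1 / N := by positivity
    linarith
  unfold av at h
  rw [ENNReal.div_le_iff (by simpa using hV) ENNReal.ofReal_ne_top] at h
  have hp := (hg.indicator (lev_meas hg.meas μ N i)).abs
  rw [integral_eq_lintegral_of_nonneg_ae (Filter.Eventually.of_forall fun y => abs_nonneg _)
    hp.meas.aestronglyMeasurable]
  refine ENNReal.toReal_le_of_le_ofReal (by positivity) ?_
  have h1 : ∀ y, ENNReal.ofReal |(levSet g μ N i).indicator g y| ≤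
      ENNReal.ofReal (Real.exp (-i) * μ) +
        ENNReal.ofReal (Real.exp (-i) * μ ^ (1 - r)) * ENNReal.ofReal |g y| ^ r := fun y => by
    rw [ENNReal.ofReal_rpow_of_nonneg (abs_nonneg _) hr0, ← ENNReal.ofReal_mul (by positivity),
      ← ENNReal.ofReal_add (by positivity) (by positivity)]
    exact ENNReal.ofReal_le_ofReal (lev_pt g hμ hN hr i y)
  refine le_trans (lintegral_mono h1) ?_
  rw [lintegral_add_left measurable_const, lintegral_const_mul' _ _ ENNReal.ofReal_ne_top,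
    setLIntegral_const, volume_big]
  refine le_trans (add_le_add le_rfl (mul_le_mul_right h _)) (le_of_eq ?_)
  rw [ENNReal.ofReal_rpow_of_pos hμ, ← ENNReal.ofReal_mul (by positivity),
    ← ENNReal.ofReal_mul (by positivity), ← ENNReal.ofReal_mul (by positivity),
    ← ENNReal.ofReal_add (by simpa [cb] using (by positivity)) (by positivity)]
  congr 1
  have e : μ ^ (1 - r) * μ ^ r = μ := by
    rw [← Real.rpow_add hμ]
    simp
  simp only [cb]
  calc _ = Real.exp (-i) * μ * (3 ^ d * sz d j) +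
        Real.exp (-i) * (μ ^ (1 - r) * μ ^ r) * (3 ^ d * sz d j) := by ring
    _ = _ := by rw [e]; ring

theorem lev_geom (I : ℕ) : ∑ i ∈ Finset.range I, (2 * (i : ℝ) + 1) * Real.exp (-i) ≤ 6 := by
  have h1 : ∀ I : ℕ, ∑ i ∈ Finset.range I, (2 * (i : ℝ) + 1) * (1 / 2) ^ i =
      6 - (4 * I + 6) * (1 / 2) ^ I := fun I => by
    induction I with
    | zero => simp
    | succ I ih =>
      rw [Finset.sum_range_succ, ih]
      push_cast
      ring
  have h2 : Real.exp (-1) ≤ 1 / 2 := by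
    rw [Real.exp_neg, one_div]
    refine inv_anti₀ (by norm_num) ?_
    have := Real.add_one_le_exp 1
    linarith
  have h3 : ∀ i : ℕ, Real.exp (-i) ≤ (1 / 2) ^ i := fun i => by
    rw [show -(i : ℝ) = i * (-1) by ring, Real.exp_nat_mul]
    exact pow_le_pow_left₀ (Real.exp_pos _).le h2 i
  refine le_trans (Finset.sum_le_sum fun i _ =>
    mul_le_mul_of_nonneg_left (h3 i) (by positivity)) ?_
  rw [h1]
  have : (0 : ℝ) ≤ (4 * I + 6) * (1 / 2) ^ I := by positivity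
  linarith

theorem single_r (hd : 1 ≤ d) : ∃ C : ℝ, 0 < C ∧ ∀ k g : E d → ℝ, IsKer k → Nice g →
    ∀ G : ℤ → Set (E d), Stop G → ∀ (W : Cb d) (j₀ : ℤ) (μ N r : ℝ), 0 < μ → 1 ≤ N →
    1 + 1 / N ≤ r → (∀ j, j₀ ≤ j → j ≤ W.1 → ∀ x ∈ cube W, x ∈ G j →
      av j (fun y => ENNReal.ofReal |g y| ^ r) x ≤ ENNReal.ofReal μ ^ r) → ∀ m : ℝ, 1 ≤ m →
    Mom (TG k G j₀ W.1 g) W m (C * μ * (N + m * √N)) := by
  obtain ⟨C, hC, H⟩ := single hd
  refine ⟨12 * C, by positivity, fun k g hk hg G hG W j₀ μ N r hμ hN hr hav m hm => ?_⟩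
  obtain ⟨M, hM⟩ := hg.bdd
  obtain ⟨I, hI⟩ := exists_nat_ge (M / μ)
  have hN0 : 0 < N := lt_of_lt_of_le one_pos hN
  have hm0 : 0 ≤ m := le_trans zero_le_one hm
  have hI0 : (0 : ℝ) ≤ I := Nat.cast_nonneg I
  have hIM : M ≤ μ * Real.exp ((I + 1) * N) := by
    rw [div_le_iff₀ hμ] at hI
    have := Real.add_one_le_exp ((I + 1) * N)
    have h2 : (I : ℝ) ≤ Real.exp ((I + 1) * N) := by nlinarith
    nlinarith
  have hp : ∀ i, Nice ((levSet g μ N i).indicator g) := fun i =>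
    hg.indicator (lev_meas hg.meas μ N i)
  have hsum : g = fun y => ∑ i ∈ Finset.range (I + 1), (levSet g μ N i).indicator g y := by
    funext y
    rw [lev_sum g hμ hN, if_pos (le_trans (hM y) hIM)]
  have hpiece : ∀ i : ℕ, Mom (TG k G j₀ W.1 ((levSet g μ N i).indicator g)) W m
      (C * (2 * μ * Real.exp (-i)) * ((2 * i + 1) * N + m * √((2 * i + 1) * N))) := fun i => by
    have hi0 : (0 : ℝ) ≤ i := Nat.cast_nonneg i
    refine H k _ hk (hp i) G hG W j₀ _ _ (by positivity) (by nlinarith) (fun x => ?_)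
      (fun j h1 h2 x hx hxG => lev_int hg hμ hN hr i (hav j h1 h2 x hx hxG)) m hm
    have h1 : μ * Real.exp ((i + 1) * N) ≤
        2 * μ * Real.exp (-i) * Real.exp ((2 * i + 1) * N) := by
      rw [mul_assoc (2 * μ), ← Real.exp_add]
      refine mul_le_mul (by linarith) (Real.exp_le_exp.2 ?_) (Real.exp_pos _).le (by positivity)
      nlinarith
    by_cases hx : x ∈ levSet g μ N i
    · rw [indicator_of_mem hx]
      exact le_trans hx.2 h1
    · rw [indicator_of_notMem hx, abs_zero]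
      positivity
  have hall := mom_sum (s := Finset.range (I + 1)) (fun i _ => hpiece i)
    (fun i _ => (TG_nice hk (hp i) hG _ _).meas) hm (fun i _ => by positivity)
  refine hall.mono hm0 (Finset.sum_nonneg fun i _ => by positivity) ?_ (fun x _ => ?_)
  · have h1 : ∀ i ∈ Finset.range (I + 1),
        C * (2 * μ * Real.exp (-i)) * ((2 * i + 1) * N + m * √((2 * i + 1) * N)) ≤
          2 * C * μ * (N + m * √N) * ((2 * (i : ℝ) + 1) * Real.exp (-i)) := fun i _ => by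
      have hi0 : (0 : ℝ) ≤ i := Nat.cast_nonneg i
      have h2 : √((2 * i + 1) * N) ≤ (2 * i + 1) * √N := by
        rw [Real.sqrt_mul (by positivity)]
        refine mul_le_mul_of_nonneg_right ?_ (Real.sqrt_nonneg _)
        rw [Real.sqrt_le_left (by positivity)]
        nlinarith
      have h3 : (2 * i + 1) * N + m * √((2 * i + 1) * N) ≤ (2 * i + 1) * (N + m * √N) := by
        have := mul_le_mul_of_nonneg_left h2 hm0
        nlinarith
      refine le_trans (mul_le_mul_of_nonneg_left h3 (by positivity)) (le_of_eq ?_)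
      ring
    refine le_trans (Finset.sum_le_sum h1) ?_
    rw [← Finset.mul_sum]
    refine le_trans (mul_le_mul_of_nonneg_left (lev_geom _) (by positivity)) (le_of_eq ?_)
    ring
  · rw [← TG_sum hk (fun i _ => hp i), ← hsum]

end Pool.Agent.MP_418f02_an

end

section

open MeasureTheory Set
open scoped ENNReal RealInnerProductSpace

namespace Pool.Agent.MP_418f02_an

variable {d : ℕ}

/-- the points where the maximal function drops below `t` just above level `κ` -/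
def glue1S (b : ℤ) (F : E d → ℝ≥0∞) (t : ℝ≥0∞) (κ : ℤ) : Set (E d) :=
  {x | t < mx κ b F x ∧ mx (κ + 1) b F x ≤ t}

lemma glue1_lm (b : ℤ) (F : E d → ℝ≥0∞) (t : ℝ≥0∞) (κ : ℤ) : LM κ (glue1S b F t κ) := by
  intro x y e hx
  refine ⟨?_, ?_⟩
  · rw [← mx_congr b F e]; exact hx.1
  · rw [← mx_congr b F (ix_mono (by omega : κ ≤ κ + 1) e)]; exact hx.2

lemma glue1_dj (a b : ℤ) (F : E d → ℝ≥0∞) (t : ℝ≥0∞) :
    (Finset.Icc a b : Set ℤ).PairwiseDisjoint (glue1S b F t) := by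
  intro i _ j _ hij
  refine Set.disjoint_left.2 fun x hi hj => ?_
  rcases lt_or_gt_of_ne hij with h | h
  · exact absurd (hj.1.trans_le ((mx_anti (by omega : i + 1 ≤ j) b F x).trans hi.2)) (lt_irrefl _)
  · exact absurd (hi.1.trans_le ((mx_anti (by omega : j + 1 ≤ i) b F x).trans hj.2)) (lt_irrefl _)

lemma glue1_union (a b : ℤ) (F : E d → ℝ≥0∞) (t : ℝ≥0∞) :
    {x | t < mx a b F x} = ⋃ κ ∈ Finset.Icc a b, glue1S b F t κ := by
  classical
  ext x
  simp only [mem_ofPred_eq, mem_iUnion, Finset.mem_Icc, exists_prop]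
  constructor
  · intro hx
    have hab : a ≤ b := by
      by_contra hab
      exact absurd (mx_le_iff.2 fun j h1 h2 => absurd (h1.trans h2) hab) (not_le.2 hx)
    obtain ⟨κ, hκ, hmax⟩ := Finset.exists_max_image
      ((Finset.Icc a b).filter fun j => t < mx j b F x) id
      ⟨a, by simp [hab, hx]⟩
    simp only [Finset.mem_filter, Finset.mem_Icc, id] at hκ hmax
    refine ⟨κ, hκ.1, hκ.2, ?_⟩
    by_contra hc
    rcases le_or_gt (κ + 1) b with h | h
    · have := hmax (κ + 1) ⟨⟨by omega, h⟩, not_le.1 hc⟩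
      omega
    · exact hc (mx_le_iff.2 fun j h1 h2 => by omega)
  · rintro ⟨κ, hκ, hx⟩
    exact hx.1.trans_le (mx_anti hκ.1 b F x)

lemma glue1_off (k g : E d → ℝ) (a b : ℤ) (F : E d → ℝ≥0∞) {t u : ℝ≥0∞} (htu : t ≤ u) {x : E d}
    (hx : mx a b F x ≤ t) :
    TG k (fun j => {x | mx j b F x ≤ u}) a b g x - TG k (fun j => {x | mx j b F x ≤ t}) a b g x
      = 0 := by
  unfold TG ps
  beta_reduce
  rw [← Finset.sum_sub_distrib]
  refine Finset.sum_eq_zero fun j hj => ?_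
  have h1 : mx j b F x ≤ t := (mx_anti (Finset.mem_Icc.1 hj).1 b F x).trans hx
  rw [indicator_of_mem (show x ∈ {x | mx j b F x ≤ u} from h1.trans htu),
    indicator_of_mem (show x ∈ {x | mx j b F x ≤ t} from h1), sub_self]

lemma glue1_on (k g : E d → ℝ) {a b κ : ℤ} (hκ : κ ≤ b) (F : E d → ℝ≥0∞) {t u : ℝ≥0∞}
    (htu : t ≤ u) {x : E d} (hx : x ∈ glue1S b F t κ) :
    TG k (fun j => {x | mx j b F x ≤ u}) a b g x - TG k (fun j => {x | mx j b F x ≤ t}) a b g x
      = TG k (fun j => {x | mx j b F x ≤ u}) a κ g x := by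
  unfold TG ps
  beta_reduce
  rw [← Finset.sum_sub_distrib]
  symm
  refine Finset.sum_subset_zero_on_sdiff (Finset.Icc_subset_Icc_right hκ) ?_ ?_
  · intro j hj
    simp only [Finset.mem_sdiff, Finset.mem_Icc] at hj
    have h1 : mx j b F x ≤ t := (mx_anti (by omega : κ + 1 ≤ j) b F x).trans hx.2
    rw [indicator_of_mem (show x ∈ {x | mx j b F x ≤ u} from h1.trans htu),
      indicator_of_mem (show x ∈ {x | mx j b F x ≤ t} from h1), sub_self]
  · intro j hj
    have h1 : t < mx j b F x := hx.1.trans_le (mx_anti (Finset.mem_Icc.1 hj).2 b F x)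
    rw [indicator_of_notMem (show x ∉ {x | mx j b F x ≤ t} from not_le.2 h1), sub_zero]

theorem glue_lev (hd : 1 ≤ d) : ∃ C : ℝ, 0 < C ∧ ∀ k g : E d → ℝ, IsKer k → Nice g →
    ∀ (a b : ℤ) (μ N r m M : ℝ) (V : E d → ℝ≥0∞) (t : ℝ≥0∞), 0 < μ → 1 ≤ N → 1 + 1 / N ≤ r →
    1 ≤ m → 0 ≤ M → Flat V a b M → t ≤ ENNReal.ofReal μ ^ r →
    ∫⁻ x, ENNReal.ofReal
      |TG k (fun j => {x | mx j b (fun y => ENNReal.ofReal |g y| ^ r) x ≤ ENNReal.ofReal μ ^ r})
          a b g x -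
        TG k (fun j => {x | mx j b (fun y => ENNReal.ofReal |g y| ^ r) x ≤ t}) a b g x| ^ m * V x ≤
      ENNReal.ofReal ((C * μ * (N + m * √N)) ^ m * M) *
        ∫⁻ x in {x | t < mx a b (fun y => ENNReal.ofReal |g y| ^ r) x}, V x := by
  obtain ⟨C, hC, hS⟩ := single_r hd
  refine ⟨C, hC, ?_⟩
  intro k g hk hg a b μ N r m M V t hμ hN hr hm hM hV ht
  set F : E d → ℝ≥0∞ := fun y => ENNReal.ofReal |g y| ^ r with hF
  set u : ℝ≥0∞ := ENNReal.ofReal μ ^ r with hu
  set B : ℝ := C * μ * (N + m * √N) with hB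
  have hB0 : 0 ≤ B := by positivity
  set H : E d → ℝ≥0∞ := fun x => ENNReal.ofReal
    |TG k (fun j => {x | mx j b F x ≤ u}) a b g x -
      TG k (fun j => {x | mx j b F x ≤ t}) a b g x| ^ m * V x with hH
  have hU : MeasurableSet {x | t < mx a b F x} :=
    measurableSet_lt measurable_const (mx_meas a b F)
  have h1 : ∫⁻ x, H x = ∫⁻ x in {x | t < mx a b F x}, H x := by
    rw [← lintegral_indicator hU]
    congr 1; funext x
    by_cases hx : x ∈ {x | t < mx a b F x}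
    · rw [indicator_of_mem hx]
    · rw [indicator_of_notMem hx, hH]
      simp only [glue1_off k g a b F ht (not_lt.1 hx), abs_zero, ENNReal.ofReal_zero]
      rw [ENNReal.zero_rpow_of_pos (by linarith), zero_mul]
  rw [h1, glue1_union, lintegral_biUnion_finset (glue1_dj a b F t)
    (fun κ _ => (glue1_lm b F t κ).meas), lintegral_biUnion_finset (glue1_dj a b F t)
    (fun κ _ => (glue1_lm b F t κ).meas), Finset.mul_sum]
  refine Finset.sum_le_sum fun κ hκ => ?_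
  obtain ⟨hκa, hκb⟩ := Finset.mem_Icc.1 hκ
  rw [← lintegral_const_mul' _ _ ENNReal.ofReal_ne_top]
  refine (glue1_lm b F t κ).lintegral_le fun W hW hWS => ?_
  subst hW
  obtain ⟨β, hβ, hβV⟩ := hV W hκa hκb
  have hst := stop_mx b F u
  have hmom := hS k g hk hg _ hst W a μ N r hμ hN hr
    (fun j _ hj x _ hx => (av_le_mx le_rfl (hj.trans hκb) F x).trans hx) m hm
  have hme : Measurable fun x => ENNReal.ofReal
      |TG k (fun j => {x | mx j b F x ≤ u}) a W.1 g x| ^ m :=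
    ((TG_nice hk hg hst a W.1).meas.abs.ennreal_ofReal).pow_const m
  calc ∫⁻ x in cube W, H x
      ≤ ∫⁻ x in cube W, ENNReal.ofReal
          |TG k (fun j => {x | mx j b F x ≤ u}) a W.1 g x| ^ m * β := by
        refine setLIntegral_mono' (measurableSet_cube W) fun x hx => ?_
        rw [hH]
        simp only [glue1_on k g hκb F ht (hWS hx)]
        exact mul_le_mul_right (hβ x hx) _
    _ ≤ ENNReal.ofReal (B ^ m * sz d W.1) * β := by
        rw [lintegral_mul_const _ hme]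
        exact mul_le_mul_left hmom _
    _ = ENNReal.ofReal (B ^ m) * (β * ENNReal.ofReal (sz d W.1)) := by
        rw [ENNReal.ofReal_mul (by positivity)]; ring
    _ ≤ ENNReal.ofReal (B ^ m) * (ENNReal.ofReal M * ∫⁻ x in cube W, V x) :=
        mul_le_mul_right hβV _
    _ = ∫⁻ x in cube W, ENNReal.ofReal (B ^ m * M) * V x := by
        rw [lintegral_const_mul' _ _ ENNReal.ofReal_ne_top, ENNReal.ofReal_mul (by positivity),
          mul_assoc]

end Pool.Agent.MP_418f02_an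

end

section

open MeasureTheory Set
open scoped ENNReal RealInnerProductSpace

namespace Pool.Agent.MP_418f02_an

variable {d : ℕ}

theorem glue_mx_meas (j b : ℤ) (F : E d → ℝ≥0∞) : Measurable (mx j b F) := by
  refine measurable_of_ix (k := j) fun x y e => ?_
  unfold mx
  refine iSup_congr fun i => iSup_congr fun hi => ?_
  have h := ix_mono (Finset.mem_Icc.1 hi).1 e
  unfold av cb
  rw [h]

theorem glue_av_le {F : E d → ℝ≥0∞} {c : ℝ≥0∞} (h : ∀ y, F y ≤ c) (j : ℤ) (x : E d) :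
    av j F x ≤ c := by
  unfold av
  refine ENNReal.div_le_of_le_mul ?_
  calc ∫⁻ y in big (cb j x), F y ≤ ∫⁻ _ in big (cb j x), c := lintegral_mono fun y => h y
    _ = c * ENNReal.ofReal (3 ^ d * sz d j) := by
      rw [setLIntegral_const, volume_big]; rfl

theorem glue_mx_ne_top {g : E d → ℝ} (hg : Nice g) {r : ℝ} (hr : 0 < r) (j b : ℤ) (x : E d) :
    mx j b (fun y => ENNReal.ofReal |g y| ^ r) x ≠ ∞ := by
  obtain ⟨K, hK⟩ := hg.bdd
  have h : mx j b (fun y => ENNReal.ofReal |g y| ^ r) x ≤ ENNReal.ofReal K ^ r := by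
    unfold mx
    refine iSup₂_le fun i _ => glue_av_le (fun y => ?_) i x
    exact ENNReal.rpow_le_rpow (ENNReal.ofReal_le_ofReal (hK y)) hr.le
  exact ne_top_of_le_ne_top (ENNReal.rpow_ne_top_of_nonneg hr.le ENNReal.ofReal_ne_top) h

theorem glue_mx_anti {a j b : ℤ} (h : a ≤ j) (F : E d → ℝ≥0∞) (x : E d) :
    mx j b F x ≤ mx a b F x := by
  unfold mx
  refine iSup₂_le fun i hi => ?_
  have hi' : i ∈ Finset.Icc a b :=
    Finset.mem_Icc.2 ⟨h.trans (Finset.mem_Icc.1 hi).1, (Finset.mem_Icc.1 hi).2⟩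
  exact le_iSup₂ (f := fun i (_ : i ∈ Finset.Icc a b) => av i F x) i hi'

theorem glue_av_le_mx {j b : ℤ} (h : j ≤ b) (F : E d → ℝ≥0∞) (x : E d) :
    av j F x ≤ mx j b F x :=
  le_iSup₂ (f := fun i (_ : i ∈ Finset.Icc j b) => av i F x) j (Finset.mem_Icc.2 ⟨le_rfl, h⟩)

theorem glue_cv_zero {k g : E d → ℝ} (hk : IsKer k) (hg : Nice g) {r : ℝ} (hr : 0 < r) {j : ℤ}
    {x : E d} (h : av j (fun y => ENNReal.ofReal |g y| ^ r) x = 0) : cv k j g x = 0 := by
  unfold av at h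
  rw [ENNReal.div_eq_zero_iff] at h
  rcases h with h | h
  swap
  · exact absurd h ENNReal.ofReal_ne_top
  have hm : Measurable fun y => ENNReal.ofReal |g y| ^ r :=
    (ENNReal.measurable_ofReal.comp (continuous_abs.measurable.comp hg.meas)).pow_const r
  rw [lintegral_eq_zero_iff hm] at h
  have h0 : ∫ y in big (cb j x), |g y| = 0 := by
    refine integral_eq_zero_of_ae ?_
    filter_upwards [h] with y hy
    simp only [Pi.zero_apply] at hy ⊢
    rw [ENNReal.rpow_eq_zero_iff_of_pos hr, ENNReal.ofReal_eq_zero] at hy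
    exact le_antisymm hy (abs_nonneg _)
  have := cv_le hk hg j x
  rw [h0, mul_zero] at this
  exact abs_nonpos_iff.1 this

theorem glue_le_iff {u : ℝ≥0∞} (hu : u ≠ ∞) {r s : ℝ} (hr : 0 < r) (hs : 0 ≤ s) :
    u ≤ ENNReal.ofReal s ^ r ↔ u.toReal ^ (1 / r) ≤ s := by
  rw [ENNReal.ofReal_rpow_of_nonneg hs hr.le, ENNReal.le_ofReal_iff_toReal_le hu (by positivity),
    one_div, Real.rpow_inv_le_iff_of_pos ENNReal.toReal_nonneg hs hr]

theorem glue_pow_eq {u : ℝ≥0∞} (hu : u ≠ ∞) {r q : ℝ} (hr : 0 < r) (hq : 0 ≤ q) :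
    u ^ (q / r) = ENNReal.ofReal ((u.toReal ^ (1 / r)) ^ q) := by
  rw [← Real.rpow_mul ENNReal.toReal_nonneg, ← ENNReal.ofReal_rpow_of_nonneg ENNReal.toReal_nonneg
    (by positivity), ENNReal.ofReal_toReal hu]
  congr 1
  ring

/-- the real inequality behind the pointwise bound -/
theorem glue_real {τ q A P : ℝ} (hτ : 0 < τ) (hq : 1 ≤ q) (hA : 0 ≤ A) (hP : 0 < P)
    (hPA : P ≤ 2 * A) (z : ℕ → ℝ) (L : ℕ) :
    |∑ i ∈ Finset.range L, z i| ^ q ≤ (11 * τ) ^ q * (A ^ q +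
      ∑ i ∈ Finset.range L, (P / 2 ^ i * (|z i| / (P / 2 ^ i * τ)) ^ 2) ^ q) := by
  have hq0 : 0 < q := by linarith
  set S := ∑ i ∈ Finset.range L, (P / 2 ^ i * (|z i| / (P / 2 ^ i * τ)) ^ 2) ^ q with hS
  have hS0 : 0 ≤ S := Finset.sum_nonneg fun i _ => by positivity
  set B := S ^ q⁻¹ with hB
  have hB0 : 0 ≤ B := by positivity
  have hBq : B ^ q = S := by rw [hB, Real.rpow_inv_rpow hS0 hq0.ne']
  have hterm : ∀ i ∈ Finset.range L, P / 2 ^ i * (|z i| / (P / 2 ^ i * τ)) ^ 2 ≤ B := by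
    intro i hi
    rw [hB, Real.le_rpow_inv_iff_of_pos (by positivity) hS0 hq0]
    exact Finset.single_le_sum (f := fun i => (P / 2 ^ i * (|z i| / (P / 2 ^ i * τ)) ^ 2) ^ q)
      (fun i _ => by positivity) hi
  have hz : ∀ i ∈ Finset.range L, |z i| ≤ τ * (P * (3 / 4) ^ i + B * (2 / 3) ^ i) := by
    intro i hi
    have h1 := hterm i hi
    set Y := |z i| / (P / 2 ^ i * τ) with hY
    have hY0 : 0 ≤ Y := by positivity
    have e : |z i| = τ * (P / 2 ^ i * Y) := by rw [hY]; field_simp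
    have hu : (0 : ℝ) < (3 / 2) ^ i := by positivity
    have hinv : ((2 : ℝ) / 3) ^ i = ((3 / 2) ^ i)⁻¹ := by rw [← inv_pow]; norm_num
    have hYle : Y ≤ (3 / 2) ^ i + (2 / 3) ^ i * Y ^ 2 := by
      rw [hinv]
      set u : ℝ := (3 / 2) ^ i
      rcases le_total Y u with h | h
      · have : 0 ≤ u⁻¹ * Y ^ 2 := by positivity
        linarith
      · have : Y ≤ u⁻¹ * Y ^ 2 := by
          rw [le_inv_mul_iff₀ hu]; nlinarith
        linarith
    have h34 : P / 2 ^ i * (3 / 2) ^ i = P * (3 / 4) ^ i := by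
      rw [div_eq_mul_inv, ← inv_pow, mul_assoc, ← mul_pow]; norm_num
    rw [e]
    refine mul_le_mul_of_nonneg_left ?_ hτ.le
    calc P / 2 ^ i * Y ≤ P / 2 ^ i * ((3 / 2) ^ i + (2 / 3) ^ i * Y ^ 2) := by gcongr
      _ = P * (3 / 4) ^ i + (P / 2 ^ i * Y ^ 2) * (2 / 3) ^ i := by rw [← h34]; ring
      _ ≤ _ := by gcongr
  have g1 : ∑ i ∈ Finset.range L, ((3 : ℝ) / 4) ^ i ≤ 4 := by
    have := Summable.sum_le_tsum (Finset.range L) (fun i _ => by positivity)
      (summable_geometric_of_lt_one (r := (3 : ℝ) / 4) (by norm_num) (by norm_num))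
    rw [tsum_geometric_of_lt_one (by norm_num) (by norm_num)] at this
    linarith [show (1 - (3 : ℝ) / 4)⁻¹ = 4 by norm_num]
  have g2 : ∑ i ∈ Finset.range L, ((2 : ℝ) / 3) ^ i ≤ 3 := by
    have := Summable.sum_le_tsum (Finset.range L) (fun i _ => by positivity)
      (summable_geometric_of_lt_one (r := (2 : ℝ) / 3) (by norm_num) (by norm_num))
    rw [tsum_geometric_of_lt_one (by norm_num) (by norm_num)] at this
    linarith [show (1 - (2 : ℝ) / 3)⁻¹ = 3 by norm_num]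
  have hsum : |∑ i ∈ Finset.range L, z i| ≤ 11 * τ * max A B := by
    calc |∑ i ∈ Finset.range L, z i| ≤ ∑ i ∈ Finset.range L, |z i| := Finset.abs_sum_le_sum_abs _ _
      _ ≤ ∑ i ∈ Finset.range L, τ * (P * (3 / 4) ^ i + B * (2 / 3) ^ i) := Finset.sum_le_sum hz
      _ = τ * (P * ∑ i ∈ Finset.range L, ((3 : ℝ) / 4) ^ i +
          B * ∑ i ∈ Finset.range L, ((2 : ℝ) / 3) ^ i) := by
        rw [← Finset.mul_sum, Finset.sum_add_distrib, ← Finset.mul_sum, ← Finset.mul_sum]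
      _ ≤ τ * (P * 4 + B * 3) := by gcongr
      _ ≤ τ * (11 * max A B) := by
        refine mul_le_mul_of_nonneg_left ?_ hτ.le
        linarith [le_max_left A B, le_max_right A B]
      _ = _ := by ring
  calc |∑ i ∈ Finset.range L, z i| ^ q ≤ (11 * τ * max A B) ^ q :=
        Real.rpow_le_rpow (abs_nonneg _) hsum hq0.le
    _ = (11 * τ) ^ q * (max A B) ^ q := Real.mul_rpow (by positivity) (by positivity)
    _ ≤ (11 * τ) ^ q * (A ^ q + S) := by
        refine mul_le_mul_of_nonneg_left ?_ (by positivity)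
        rcases le_total A B with h | h
        · rw [max_eq_right h, hBq]; have : 0 ≤ A ^ q := by positivity
          linarith
        · rw [max_eq_left h]; linarith

/-- the truncations along the level sets of the maximal function -/
noncomputable def glueT (k g : E d → ℝ) (a b : ℤ) (r : ℝ) (n : ℤ) : E d → ℝ :=
  TG k (fun j => {x | mx j b (fun y => ENNReal.ofReal |g y| ^ r) x ≤
    ENNReal.ofReal ((2 : ℝ) ^ n) ^ r}) a b g

theorem glueT_meas {k g : E d → ℝ} (hk : IsKer k) (hg : Nice g) (a b : ℤ) (r : ℝ) (n : ℤ) :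
    Measurable (glueT k g a b r n) := by
  unfold glueT TG ps
  refine Finset.measurable_fun_sum _ fun j _ => ?_
  exact (cv_nice hk hg j).meas.indicator (measurableSet_le (glue_mx_meas j b _) measurable_const)

theorem glueT_low {k g : E d → ℝ} (hk : IsKer k) (hg : Nice g) (a b : ℤ) {r : ℝ} (hr : 0 < r)
    (x : E d) : ∀ᶠ n in Filter.atBot, glueT k g a b r n x = 0 := by
  have h : ∀ᶠ n : ℤ in Filter.atBot, ∀ j ∈ Finset.Icc a b,
      ({x | mx j b (fun y => ENNReal.ofReal |g y| ^ r) x ≤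
        ENNReal.ofReal ((2 : ℝ) ^ n) ^ r} : Set (E d)).indicator (cv k j g) x = 0 := by
    rw [Filter.eventually_all_finset]
    intro j hj
    by_cases h0 : av j (fun y => ENNReal.ofReal |g y| ^ r) x = 0
    · refine Filter.Eventually.of_forall fun n => ?_
      rw [Set.indicator_apply_eq_zero]
      exact fun _ => glue_cv_zero hk hg hr h0
    · have hu := glue_mx_ne_top hg hr j b x
      have hpos : mx j b (fun y => ENNReal.ofReal |g y| ^ r) x ≠ 0 := fun e =>
        h0 (le_zero_iff.1 (e ▸ glue_av_le_mx (Finset.mem_Icc.1 hj).2 _ x))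
      have hw : 0 < (mx j b (fun y => ENNReal.ofReal |g y| ^ r) x).toReal ^ (1 / r) :=
        Real.rpow_pos_of_pos (ENNReal.toReal_pos hpos hu) _
      obtain ⟨m, hm, -⟩ := exists_mem_Ioc_zpow hw (one_lt_two (α := ℝ))
      filter_upwards [Filter.eventually_le_atBot m] with n hn
      refine Set.indicator_of_notMem ?_ _
      simp only [Set.mem_ofPred_eq]
      rw [glue_le_iff hu hr (by positivity), not_le]
      exact (zpow_le_zpow_right₀ one_le_two hn).trans_lt hm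
  filter_upwards [h] with n hn
  exact Finset.sum_eq_zero hn

theorem glueT_high (k g : E d → ℝ) (a b : ℤ) (r : ℝ) {n : ℤ} {x : E d}
    (h : mx a b (fun y => ENNReal.ofReal |g y| ^ r) x ≤ ENNReal.ofReal ((2 : ℝ) ^ n) ^ r) :
    glueT k g a b r n x = TT k a b g x := by
  unfold glueT TG TT ps
  refine Finset.sum_congr rfl fun j hj => ?_
  exact Set.indicator_of_mem (by exact (glue_mx_anti (Finset.mem_Icc.1 hj).1 _ x).trans h) _

theorem glue_point {k g : E d → ℝ} (hk : IsKer k) (hg : Nice g) (a b : ℤ) {r q τ : ℝ} (hr : 0 < r)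
    (hq : 1 ≤ q) (hτ : 0 < τ) (x : E d) :
    ENNReal.ofReal |TT k a b g x| ^ q ≤ ENNReal.ofReal ((11 * τ) ^ q) *
      (mx a b (fun y => ENNReal.ofReal |g y| ^ r) x ^ (q / r) +
        ∑' n : ℤ, ENNReal.ofReal (((2 : ℝ) ^ n / ((2 : ℝ) ^ n * τ) ^ 2) ^ q) *
          ENNReal.ofReal |glueT k g a b r n x - glueT k g a b r (n - 1) x| ^ (2 * q)) := by
  have hq0 : 0 < q := by linarith
  have hu := glue_mx_ne_top hg hr a b x
  obtain ⟨n₀, hn₀⟩ := Filter.eventually_atBot.1 (glueT_low hk hg a b hr x)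
  by_cases h0 : mx a b (fun y => ENNReal.ofReal |g y| ^ r) x = 0
  · have : TT k a b g x = 0 := by
      rw [← glueT_high k g a b r (n := n₀) (by rw [h0]; exact bot_le)]
      exact hn₀ n₀ le_rfl
    rw [this, abs_zero, ENNReal.ofReal_zero, ENNReal.zero_rpow_of_pos hq0]
    exact bot_le
  set A := (mx a b (fun y => ENNReal.ofReal |g y| ^ r) x).toReal ^ (1 / r) with hA
  have hw : 0 < A := Real.rpow_pos_of_pos (ENNReal.toReal_pos h0 hu) _
  obtain ⟨m, hm1, hm2⟩ := exists_mem_Ioc_zpow hw (one_lt_two (α := ℝ))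
  have hT : glueT k g a b r (m + 1) x = TT k a b g x :=
    glueT_high k g a b r ((glue_le_iff hu hr (by positivity)).2 hm2)
  set L := (m + 1 - n₀).toNat with hL
  have hlow : glueT k g a b r (m + 1 - (L : ℕ)) x = 0 := hn₀ _ (by omega)
  have tel := Finset.sum_range_sub' (fun i : ℕ => glueT k g a b r (m + 1 - i) x) L
  simp only [Nat.cast_zero, sub_zero, hlow, hT] at tel
  have hP : (0 : ℝ) < 2 ^ (m + 1) := by positivity
  have hPA : (2 : ℝ) ^ (m + 1) ≤ 2 * A := by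
    rw [zpow_add_one₀ two_ne_zero]; linarith
  have key := glue_real hτ hq hw.le hP hPA (fun i : ℕ => glueT k g a b r (m + 1 - i) x -
    glueT k g a b r (m + 1 - ((i + 1 : ℕ) : ℤ)) x) L
  rw [tel] at key
  rw [ENNReal.ofReal_rpow_of_nonneg (abs_nonneg _) hq0.le, glue_pow_eq hu hr hq0.le, ← hA]
  refine (ENNReal.ofReal_le_ofReal key).trans ?_
  rw [ENNReal.ofReal_mul (by positivity), ENNReal.ofReal_add (by positivity)
    (Finset.sum_nonneg fun i _ => by positivity)]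
  gcongr
  rw [ENNReal.ofReal_sum_of_nonneg fun i _ => by positivity]
  have hinj : Function.Injective fun i : ℕ => m + 1 - (i : ℤ) := fun i j h => by
    simp only at h; omega
  refine le_trans ?_ (ENNReal.tsum_comp_le_tsum_of_injective hinj _)
  refine le_trans (Finset.sum_le_sum fun i _ => le_of_eq ?_) (ENNReal.sum_le_tsum (Finset.range L))
  have e1 : (2 : ℝ) ^ (m + 1) / 2 ^ i = 2 ^ (m + 1 - (i : ℤ)) := by
    rw [zpow_sub₀ two_ne_zero, zpow_natCast]
  have e2 : m + 1 - ((i + 1 : ℕ) : ℤ) = m + 1 - (i : ℤ) - 1 := by push_cast; ring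
  rw [e1, e2, ENNReal.ofReal_rpow_of_nonneg (abs_nonneg _) (by positivity),
    ← ENNReal.ofReal_mul (by positivity), Real.rpow_mul (abs_nonneg _), Real.rpow_two,
    ← Real.mul_rpow (by positivity) (by positivity)]
  congr 2
  rw [div_pow]
  ring

theorem glue_tail {A q : ℝ} (hA : 0 ≤ A) (hq : 1 ≤ q) :
    ∑' n : ℤ, (if (2 : ℝ) ^ (n - 1) < A then ENNReal.ofReal (((2 : ℝ) ^ n) ^ q) else 0) ≤
      ENNReal.ofReal (2 * 2 ^ q * A ^ q) := by
  have hq0 : 0 < q := by linarith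
  rcases hA.eq_or_lt with h | hw
  · subst h
    have : ∀ n : ℤ, ¬ (2 : ℝ) ^ (n - 1) < 0 := fun n => not_lt.2 (by positivity)
    simp [this]
  obtain ⟨m, hm1, hm2⟩ := exists_mem_Ioc_zpow hw (one_lt_two (α := ℝ))
  have hinj : Function.Injective fun i : ℕ => m + 1 - (i : ℤ) := fun i j h => by
    simp only at h; omega
  rw [← hinj.tsum_eq]
  swap
  · intro n hn
    have hn' : (2 : ℝ) ^ (n - 1) < A := by
      by_contra h
      exact hn (if_neg h)
    have : n - 1 < m + 1 := (zpow_lt_zpow_iff_right₀ one_lt_two).1 (hn'.trans_le hm2)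
    exact ⟨(m + 1 - n).toNat, by simp only; omega⟩
  have hPA : (2 : ℝ) ^ (m + 1) ≤ 2 * A := by
    rw [zpow_add_one₀ two_ne_zero]; linarith
  calc _ ≤ ∑' i : ℕ, ENNReal.ofReal ((2 * A) ^ q) * (2⁻¹ : ℝ≥0∞) ^ i := by
        refine ENNReal.tsum_le_tsum fun i => ?_
        split_ifs
        swap
        · exact bot_le
        have e : (2⁻¹ : ℝ≥0∞) ^ i = ENNReal.ofReal ((2⁻¹ : ℝ) ^ i) := by
          rw [ENNReal.ofReal_pow (by norm_num), ENNReal.ofReal_inv_of_pos two_pos]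
          simp
        rw [e, ← ENNReal.ofReal_mul (by positivity)]
        refine ENNReal.ofReal_le_ofReal ?_
        have e1 : (2 : ℝ) ^ (m + 1 - (i : ℤ)) = 2 ^ (m + 1) * (2⁻¹) ^ i := by
          rw [zpow_sub₀ two_ne_zero, zpow_natCast, inv_pow, div_eq_mul_inv]
        rw [e1, Real.mul_rpow (by positivity) (by positivity)]
        refine mul_le_mul (Real.rpow_le_rpow (by positivity) hPA hq0.le) ?_ (by positivity)
          (by positivity)
        exact Real.rpow_le_self_of_le_one (by positivity)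
          (pow_le_one₀ (by norm_num) (by norm_num)) hq
    _ = ENNReal.ofReal ((2 * A) ^ q) * 2 := by
        rw [ENNReal.tsum_mul_left, ENNReal.tsum_geometric, ENNReal.one_sub_inv_two, inv_inv]
    _ = _ := by
        rw [Real.mul_rpow (by norm_num) hA, mul_assoc 2, ENNReal.ofReal_mul (p := 2) (by norm_num),
          mul_comm]
        simp

theorem glue (hd : 1 ≤ d) : ∃ C : ℝ, 0 < C ∧ ∀ k g : E d → ℝ, IsKer k → Nice g →
    ∀ (a b : ℤ) (N r q M : ℝ) (V : E d → ℝ≥0∞), 1 ≤ N → 1 + 1 / N ≤ r → 1 ≤ q → 1 ≤ M →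
    Measurable V → Flat V a b (M ^ q) →
    ∫⁻ x, ENNReal.ofReal |TT k a b g x| ^ q * V x ≤
      ENNReal.ofReal ((C * M * (N + q * √N)) ^ q) *
        ∫⁻ x, mx a b (fun y => ENNReal.ofReal |g y| ^ r) x ^ (q / r) * V x := by
  obtain ⟨C, hC, H⟩ := glue_lev hd
  refine ⟨176 * C, by positivity, fun k g hk hg a b N r q M V hN hr hq hM hV hF => ?_⟩
  have hN0 : 0 < N := by linarith
  have hq0 : 0 < q := by linarith
  have hM0 : 0 < M := by linarith
  have hr0 : 0 < r := by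
    have : 0 < 1 / N := by positivity
    linarith
  set τ := C * (N + 2 * q * √N) with hτ
  have hτ0 : 0 < τ := by positivity
  set F : E d → ℝ≥0∞ := fun y => ENNReal.ofReal |g y| ^ r with hFdef
  set I := ∫⁻ x, mx a b F x ^ (q / r) * V x with hI
  have hmx := glue_mx_meas a b F
  have hZ : ∀ n : ℤ, Measurable fun x =>
      ENNReal.ofReal |glueT k g a b r n x - glueT k g a b r (n - 1) x| ^ (2 * q) := fun n =>
    (ENNReal.measurable_ofReal.comp (continuous_abs.measurable.comp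
      ((glueT_meas hk hg a b r n).sub (glueT_meas hk hg a b r (n - 1))))).pow_const _
  have hS : ∀ n : ℤ, MeasurableSet {x | ENNReal.ofReal ((2 : ℝ) ^ (n - 1)) ^ r < mx a b F x} :=
    fun n => measurableSet_lt measurable_const hmx
  have lev : ∀ n : ℤ, ∫⁻ x, ENNReal.ofReal (((2 : ℝ) ^ n / ((2 : ℝ) ^ n * τ) ^ 2) ^ q) *
      ENNReal.ofReal |glueT k g a b r n x - glueT k g a b r (n - 1) x| ^ (2 * q) * V x ≤
      ENNReal.ofReal (M ^ q) * ∫⁻ x, (if (2 : ℝ) ^ (n - 1) < (mx a b F x).toReal ^ (1 / r) then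
        ENNReal.ofReal (((2 : ℝ) ^ n) ^ q) else 0) * V x := by
    intro n
    have h := H k g hk hg a b (2 ^ n) N r (2 * q) (M ^ q) V (ENNReal.ofReal ((2 : ℝ) ^ (n - 1)) ^ r)
      (by positivity) hN hr (by linarith) (by positivity) hF
      (ENNReal.rpow_le_rpow (ENNReal.ofReal_le_ofReal
        (zpow_le_zpow_right₀ one_le_two (by omega))) hr0.le)
    have e : ∫⁻ x, (if (2 : ℝ) ^ (n - 1) < (mx a b F x).toReal ^ (1 / r) then
        ENNReal.ofReal (((2 : ℝ) ^ n) ^ q) else 0) * V x = ENNReal.ofReal (((2 : ℝ) ^ n) ^ q) *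
        ∫⁻ x in {x | ENNReal.ofReal ((2 : ℝ) ^ (n - 1)) ^ r < mx a b F x}, V x := by
      rw [← lintegral_const_mul _ hV, ← lintegral_indicator (hS n)]
      refine lintegral_congr fun x => ?_
      have hiff := glue_le_iff (glue_mx_ne_top hg hr0 a b x) hr0
        (s := (2 : ℝ) ^ (n - 1)) (by positivity)
      by_cases hx : (2 : ℝ) ^ (n - 1) < (mx a b F x).toReal ^ (1 / r)
      · rw [if_pos hx, Set.indicator_of_mem]
        exact not_le.1 fun h' => absurd (hiff.1 h') (not_le.2 hx)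
      · rw [if_neg hx, zero_mul, Set.indicator_of_notMem]
        exact fun h' => absurd (hiff.2 (not_lt.1 hx)) (not_le.2 h')
    simp_rw [mul_assoc (ENNReal.ofReal (((2 : ℝ) ^ n / ((2 : ℝ) ^ n * τ) ^ 2) ^ q))]
    rw [lintegral_const_mul' _ _ ENNReal.ofReal_ne_top, e]
    refine (mul_le_mul_right h _).trans (le_of_eq ?_)
    rw [← mul_assoc, ← mul_assoc (ENNReal.ofReal (M ^ q)), ← ENNReal.ofReal_mul (by positivity),
      ← ENNReal.ofReal_mul (by positivity)]
    congr 2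
    have e3 : C * 2 ^ n * (N + 2 * q * √N) = 2 ^ n * τ := by rw [hτ]; ring
    rw [e3, Real.rpow_mul (by positivity), Real.rpow_two, ← mul_assoc,
      ← Real.mul_rpow (by positivity) (by positivity), div_mul_cancel₀ _ (by positivity), mul_comm]
  have hif : ∀ n : ℤ, Measurable fun x => (if (2 : ℝ) ^ (n - 1) < (mx a b F x).toReal ^ (1 / r) then
      ENNReal.ofReal (((2 : ℝ) ^ n) ^ q) else 0) * V x := fun n =>
    (Measurable.ite (measurableSet_lt measurable_const (hmx.ennreal_toReal.pow_const _))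
      measurable_const measurable_const).mul hV
  have tail : ∑' n : ℤ, ∫⁻ x, (if (2 : ℝ) ^ (n - 1) < (mx a b F x).toReal ^ (1 / r) then
      ENNReal.ofReal (((2 : ℝ) ^ n) ^ q) else 0) * V x ≤ ENNReal.ofReal (2 * 2 ^ q) * I := by
    rw [← lintegral_tsum fun n => (hif n).aemeasurable, hI,
      ← lintegral_const_mul' _ _ ENNReal.ofReal_ne_top]
    refine lintegral_mono fun x => ?_
    simp only
    rw [ENNReal.tsum_mul_right, ← mul_assoc, glue_pow_eq (glue_mx_ne_top hg hr0 a b x) hr0 hq0.le,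
      ← ENNReal.ofReal_mul (by positivity)]
    exact mul_le_mul_left (glue_tail (by positivity) hq) _
  have hconst : (11 * τ) ^ q * (1 + M ^ q * (2 * 2 ^ q)) ≤ (176 * C * M * (N + q * √N)) ^ q := by
    have h1 : 1 ≤ (2 * M) ^ q := Real.one_le_rpow (by linarith) hq0.le
    have h2 : (2 * M) ^ q = 2 ^ q * M ^ q := Real.mul_rpow (by norm_num) hM0.le
    have h3 : (4 : ℝ) ≤ 4 ^ q := Real.self_le_rpow_of_one_le (by norm_num) hq
    have h4 : 1 + M ^ q * (2 * 2 ^ q) ≤ (4 * (2 * M)) ^ q := by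
      rw [Real.mul_rpow (by norm_num) (by positivity)]
      nlinarith
    calc (11 * τ) ^ q * (1 + M ^ q * (2 * 2 ^ q)) ≤ (11 * τ) ^ q * (4 * (2 * M)) ^ q := by gcongr
      _ = (11 * τ * (4 * (2 * M))) ^ q := (Real.mul_rpow (by positivity) (by positivity)).symm
      _ ≤ _ := by
        refine Real.rpow_le_rpow (by positivity) ?_ hq0.le
        have : 0 ≤ C * M * N := by positivity
        rw [hτ]
        nlinarith
  calc ∫⁻ x, ENNReal.ofReal |TT k a b g x| ^ q * V x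
      ≤ ∫⁻ x, ENNReal.ofReal ((11 * τ) ^ q) * (mx a b F x ^ (q / r) * V x +
          ∑' n : ℤ, ENNReal.ofReal (((2 : ℝ) ^ n / ((2 : ℝ) ^ n * τ) ^ 2) ^ q) *
          ENNReal.ofReal |glueT k g a b r n x - glueT k g a b r (n - 1) x| ^ (2 * q) * V x) := by
        refine lintegral_mono fun x => ?_
        simp only
        rw [ENNReal.tsum_mul_right, ← add_mul, ← mul_assoc]
        exact mul_le_mul_left (glue_point hk hg a b hr0 hq hτ0 x) _
    _ = ENNReal.ofReal ((11 * τ) ^ q) * (I +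
          ∑' n : ℤ, ∫⁻ x, ENNReal.ofReal (((2 : ℝ) ^ n / ((2 : ℝ) ^ n * τ) ^ 2) ^ q) *
          ENNReal.ofReal |glueT k g a b r n x - glueT k g a b r (n - 1) x| ^ (2 * q) * V x) := by
        rw [lintegral_const_mul' _ _ ENNReal.ofReal_ne_top,
          lintegral_add_left ((hmx.pow_const _).fun_mul hV),
          lintegral_tsum fun n => (((hZ n).const_mul _).fun_mul hV).aemeasurable]
    _ ≤ ENNReal.ofReal ((11 * τ) ^ q) * (I + ENNReal.ofReal (M ^ q) *
          (ENNReal.ofReal (2 * 2 ^ q) * I)) := by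
        refine mul_le_mul_right (add_le_add_right ?_ _) _
        refine (ENNReal.tsum_le_tsum lev).trans ?_
        rw [ENNReal.tsum_mul_left]
        exact mul_le_mul_right tail _
    _ = ENNReal.ofReal ((11 * τ) ^ q * (1 + M ^ q * (2 * 2 ^ q))) * I := by
        rw [ENNReal.ofReal_mul (p := (11 * τ) ^ q) (by positivity),
          ENNReal.ofReal_add zero_le_one (by positivity),
          ENNReal.ofReal_mul (p := M ^ q) (by positivity), ENNReal.ofReal_one]
        ring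
    _ ≤ _ := mul_le_mul_left (ENNReal.ofReal_le_ofReal hconst) _

end Pool.Agent.MP_418f02_an

end

section

open MeasureTheory Set
open scoped ENNReal RealInnerProductSpace

namespace Pool.Agent.MP_418f02_an

variable {d : ℕ}

theorem wt1_anti {x y : ℝ≥0∞} {s : ℝ} (hs : 0 ≤ s) (h : x ≤ y) : y ^ (-s) ≤ x ^ (-s) := by
  rw [ENNReal.rpow_neg, ENNReal.rpow_neg]
  exact ENNReal.inv_le_inv.2 (ENNReal.rpow_le_rpow h hs)

theorem wt1_intOn {w : E d → ℝ} (h : LocallyIntegrable w volume) {S : Set (E d)}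
    (hS : Bornology.IsBounded S) : IntegrableOn w S volume :=
  (h.integrableOn_isCompact hS.isCompact_closure).mono_set subset_closure

theorem wt1_den_pos (j : ℤ) : (0 : ℝ) < 3 ^ d * sz d j := mul_pos (by positivity) (sz_pos j)

theorem wt1_lint {w : E d → ℝ} {A : ℝ} (h : A1 w A) (c : Cb d) :
    ∫⁻ y in big c, ENNReal.ofReal (w y) = ENNReal.ofReal (∫ y in big c, w y) :=
  (ofReal_integral_eq_lintegral_ofReal (wt1_intOn h.loc (isBounded_big c))
    (Filter.Eventually.of_forall fun y => (h.pos y).le)).symm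

theorem wt1_av_ne_top {w : E d → ℝ} {A : ℝ} (h : A1 w A) (j : ℤ) (x : E d) :
    av j (fun y => ENNReal.ofReal (w y)) x ≠ ∞ := by
  unfold av
  rw [wt1_lint h]
  exact ENNReal.div_ne_top ENNReal.ofReal_ne_top
    (ENNReal.ofReal_pos.2 (wt1_den_pos j)).ne'

theorem wt1_av_pos {w : E d → ℝ} {A : ℝ} (h : A1 w A) (j : ℤ) (x : E d) :
    0 < av j (fun y => ENNReal.ofReal (w y)) x := by
  unfold av
  refine ENNReal.div_pos ?_ ENNReal.ofReal_ne_top
  intro h0
  rw [lintegral_eq_zero_iff (h.meas.ennreal_ofReal)] at h0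
  have h1 : ∀ᵐ y ∂(volume.restrict (big (cb j x))), False := by
    filter_upwards [h0] with y hy
    have := ENNReal.ofReal_pos.2 (h.pos y)
    simp only [Pi.zero_apply] at hy
    exact this.ne' hy
  rw [Filter.eventually_false_iff_eq_bot, ae_eq_bot, Measure.restrict_eq_zero, volume_big] at h1
  exact (ENNReal.ofReal_pos.2 (wt1_den_pos _)).ne' h1

theorem wt1_mx_ne_top {w : E d → ℝ} {A : ℝ} (h : A1 w A) (a b : ℤ) (x : E d) :
    mx a b (fun y => ENNReal.ofReal (w y)) x ≠ ∞ := by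
  have h1 : mx a b (fun y => ENNReal.ofReal (w y)) x ≤
      ∑ j ∈ Finset.Icc a b, av j (fun y => ENNReal.ofReal (w y)) x := by
    rw [mx_le_iff]
    intro j ha hb
    exact Finset.single_le_sum (f := fun j => av j (fun y => ENNReal.ofReal (w y)) x)
      (fun _ _ => zero_le) (Finset.mem_Icc.2 ⟨ha, hb⟩)
  exact ne_top_of_le_ne_top (ENNReal.sum_ne_top.2 fun j _ => wt1_av_ne_top h j x) h1

theorem wt1_bad {F : E d → ℝ≥0∞} {a b : ℤ} {W : Cb d} (hb : W.1 ≤ b) {x0 : E d}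
    (hx0 : x0 ∈ cube W) (h0 : mx W.1 b F x0 ≠ 0) (ht : mx W.1 b F x0 ≠ ∞) :
    volume {x | x ∈ cube W ∧ 2 * 9 ^ d * mx W.1 b F x0 < mx a b F x} ≤
      ENNReal.ofReal (sz d W.1) / 2 := by
  set b0 := mx W.1 b F x0 with hb0
  have hT : (1 : ℝ≥0∞) ≤ 2 * 9 ^ d :=
    one_le_mul_of_one_le_of_one_le (by norm_num) (one_le_pow₀ (by norm_num))
  have hsub : {x | x ∈ cube W ∧ 2 * 9 ^ d * b0 < mx a b F x} ⊆
      {x | 2 * 9 ^ d * b0 < mx a b ((big W).indicator F) x} := by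
    rintro x ⟨hx, hlt⟩
    by_contra hc
    simp only [mem_ofPred_eq, not_lt] at hc
    refine absurd hlt (not_lt.2 ?_)
    rw [mx_le_iff]
    intro j haj hjb
    rcases le_total W.1 j with hj | hj
    · have e : mx W.1 b F x = b0 := mx_congr b F (by
        have h1 : ix W.1 x = W.2 := hx
        have h2 : ix W.1 x0 = W.2 := hx0
        rw [h1, h2])
      calc av j F x ≤ mx W.1 b F x := av_le_mx hj hjb F x
        _ = 1 * b0 := by rw [e, one_mul]
        _ ≤ 2 * 9 ^ d * b0 := by gcongr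
    · have e : av j F x = av j ((big W).indicator F) x := by
        unfold av
        congr 1
        refine setLIntegral_congr_fun (measurableSet_big _) ?_
        intro y hy
        rw [indicator_of_mem (big_subset_big hj hx hy)]
      rw [e]
      exact (av_le_mx haj hjb _ x).trans hc
  have hw := mx_weak a b ((big W).indicator F) (2 * 9 ^ d * b0)
  rw [lintegral_indicator (measurableSet_big W)] at hw
  have hden : ENNReal.ofReal (3 ^ d * sz d W.1) ≠ 0 :=
    (ENNReal.ofReal_pos.2 (wt1_den_pos _)).ne'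
  have hI : ∫⁻ y in big W, F y ≤ b0 * ENNReal.ofReal (3 ^ d * sz d W.1) := by
    have h1 : av W.1 F x0 ≤ b0 := av_le_mx le_rfl hb F x0
    unfold av at h1
    rw [cb_eq_of_mem hx0] at h1
    exact (ENNReal.div_le_iff hden ENNReal.ofReal_ne_top).1 h1
  have h3 : ENNReal.ofReal (3 ^ d * sz d W.1) = 3 ^ d * ENNReal.ofReal (sz d W.1) := by
    rw [ENNReal.ofReal_mul (by positivity), ENNReal.ofReal_pow (by norm_num)]
    norm_num
  have h9 : (9 : ℝ≥0∞) ^ d = 3 ^ d * 3 ^ d := by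
    rw [← mul_pow]; norm_num
  have key : (9 ^ d * b0) * (volume {x | x ∈ cube W ∧ 2 * 9 ^ d * b0 < mx a b F x} * 2) ≤
      (9 ^ d * b0) * ENNReal.ofReal (sz d W.1) := by
    calc (9 ^ d * b0) * (volume {x | x ∈ cube W ∧ 2 * 9 ^ d * b0 < mx a b F x} * 2)
        = 2 * 9 ^ d * b0 * volume {x | x ∈ cube W ∧ 2 * 9 ^ d * b0 < mx a b F x} := by ring
      _ ≤ 2 * 9 ^ d * b0 * volume {x | 2 * 9 ^ d * b0 < mx a b ((big W).indicator F) x} := by
          gcongr
      _ ≤ 3 ^ d * ∫⁻ y in big W, F y := hw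
      _ ≤ 3 ^ d * (b0 * ENNReal.ofReal (3 ^ d * sz d W.1)) := by gcongr
      _ = (9 ^ d * b0) * ENNReal.ofReal (sz d W.1) := by rw [h3, h9]; ring
  have hn0 : (9 : ℝ≥0∞) ^ d * b0 ≠ 0 := mul_ne_zero (pow_ne_zero _ (by norm_num)) h0
  have hnt : (9 : ℝ≥0∞) ^ d * b0 ≠ ∞ :=
    ENNReal.mul_ne_top (ENNReal.pow_ne_top (by norm_num)) ht
  rw [ENNReal.le_div_iff_mul_le (Or.inl (by norm_num)) (Or.inl (by norm_num))]
  exact (ENNReal.mul_le_mul_iff_right hn0 hnt).1 key

theorem flat_mx : ∃ M : ℝ, 1 ≤ M ∧ ∀ (w : E d → ℝ) (A : ℝ), A1 w A → ∀ (a b : ℤ) (q : ℝ), 1 < q →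
    Flat (fun x => mx a b (fun y => ENNReal.ofReal (w y)) x ^ (-(q - 1))) a b (M ^ q) := by
  have h9 : (1 : ℝ) ≤ 9 ^ d := one_le_pow₀ (by norm_num)
  refine ⟨2 * (2 * 9 ^ d), by linarith, ?_⟩
  intro w A h a b q hq W ha hb
  obtain ⟨x0, hx0⟩ := cube_nonempty W
  set F : E d → ℝ≥0∞ := fun y => ENNReal.ofReal (w y) with hF
  set b0 := mx W.1 b F x0 with hb0
  have hs : 0 ≤ q - 1 := by linarith
  have h0 : b0 ≠ 0 := ((wt1_av_pos h W.1 x0).trans_le (av_le_mx le_rfl hb F x0)).ne'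
  have ht : b0 ≠ ∞ := wt1_mx_ne_top h _ _ _
  refine ⟨b0 ^ (-(q - 1)), ?_, ?_⟩
  · intro x hx
    refine wt1_anti hs ?_
    have e : mx W.1 b F x = b0 := mx_congr b F (by
      have h1 : ix W.1 x = W.2 := hx
      have h2 : ix W.1 x0 = W.2 := hx0
      rw [h1, h2])
    rw [← e]
    exact mx_anti ha b F x
  · set T : ℝ≥0∞ := 2 * 9 ^ d with hT
    have hT0 : T ≠ 0 := mul_ne_zero (by norm_num) (pow_ne_zero _ (by norm_num))
    have hTt : T ≠ ∞ := ENNReal.mul_ne_top (by norm_num) (ENNReal.pow_ne_top (by norm_num))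
    have hbad := wt1_bad (a := a) hb hx0 h0 ht
    rw [← hb0, ← hT] at hbad
    set G : Set (E d) := {x | x ∈ cube W ∧ mx a b F x ≤ T * b0} with hG
    have hGm : MeasurableSet G :=
      (measurableSet_cube W).inter (measurableSet_le (mx_meas a b F) measurable_const)
    have hvol : ENNReal.ofReal (sz d W.1) ≤ 2 * volume G := by
      have h1 : ENNReal.ofReal (sz d W.1) ≤ volume G + ENNReal.ofReal (sz d W.1) / 2 := by
        calc ENNReal.ofReal (sz d W.1) = volume (cube W) := (volume_cube W).symm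
          _ ≤ volume (G ∪ {x | x ∈ cube W ∧ T * b0 < mx a b F x}) := by
              refine measure_mono fun x hx => ?_
              rcases le_or_gt (mx a b F x) (T * b0) with h2 | h2
              · exact Or.inl ⟨hx, h2⟩
              · exact Or.inr ⟨hx, h2⟩
          _ ≤ volume G + volume {x | x ∈ cube W ∧ T * b0 < mx a b F x} := measure_union_le _ _
          _ ≤ _ := by gcongr
      have h2 : ENNReal.ofReal (sz d W.1) / 2 ≤ volume G := by
        have hne : ENNReal.ofReal (sz d W.1) / 2 ≠ ∞ :=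
          ENNReal.div_ne_top ENNReal.ofReal_ne_top (by norm_num)
        rw [← ENNReal.add_halves (ENNReal.ofReal (sz d W.1))] at h1
        rw [ENNReal.add_halves] at h1
        have h3 : ENNReal.ofReal (sz d W.1) / 2 + ENNReal.ofReal (sz d W.1) / 2 ≤
            volume G + ENNReal.ofReal (sz d W.1) / 2 := by
          rw [ENNReal.add_halves]; exact h1
        exact (ENNReal.add_le_add_iff_right hne).1 h3
      rw [ENNReal.div_le_iff (by norm_num) (by norm_num)] at h2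
      rwa [mul_comm]
    have hint : (T * b0) ^ (-(q - 1)) * volume G ≤
        ∫⁻ x in cube W, mx a b F x ^ (-(q - 1)) := by
      calc (T * b0) ^ (-(q - 1)) * volume G = ∫⁻ _ in G, (T * b0) ^ (-(q - 1)) := by
            rw [setLIntegral_const]
        _ ≤ ∫⁻ x in G, mx a b F x ^ (-(q - 1)) :=
            setLIntegral_mono' hGm fun x hx => wt1_anti hs hx.2
        _ ≤ _ := lintegral_mono_set fun x hx => hx.1
    have hβ : b0 ^ (-(q - 1)) = T ^ (q - 1) * (T * b0) ^ (-(q - 1)) := by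
      rw [ENNReal.mul_rpow_of_ne_top hTt ht, ← mul_assoc, ← ENNReal.rpow_add _ _ hT0 hTt]
      simp
    have hM : 2 * T ^ (q - 1) ≤ ENNReal.ofReal ((2 * (2 * 9 ^ d)) ^ q) := by
      have e1 : T = ENNReal.ofReal (2 * 9 ^ d) := by
        rw [hT, ENNReal.ofReal_mul (by norm_num), ENNReal.ofReal_pow (by norm_num)]
        norm_num
      have e2 : (2 : ℝ≥0∞) = ENNReal.ofReal 2 := by norm_num
      rw [e1, ENNReal.ofReal_rpow_of_nonneg (by positivity) hs, e2,
        ← ENNReal.ofReal_mul (by norm_num)]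
      refine ENNReal.ofReal_le_ofReal ?_
      rw [Real.mul_rpow (x := 2) (y := 2 * 9 ^ d) (by norm_num) (by positivity)]
      have h1 : (2 : ℝ) ≤ 2 ^ q := by
        calc (2 : ℝ) = 2 ^ (1 : ℝ) := by norm_num
          _ ≤ 2 ^ q := Real.rpow_le_rpow_of_exponent_le (by norm_num) hq.le
      have h2 : ((2 : ℝ) * 9 ^ d) ^ (q - 1) ≤ (2 * 9 ^ d) ^ q :=
        Real.rpow_le_rpow_of_exponent_le (by linarith) (by linarith)
      exact mul_le_mul h1 h2 (by positivity) (by positivity)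
    calc b0 ^ (-(q - 1)) * ENNReal.ofReal (sz d W.1)
        ≤ T ^ (q - 1) * (T * b0) ^ (-(q - 1)) * (2 * volume G) := by rw [hβ]; gcongr
      _ = 2 * T ^ (q - 1) * ((T * b0) ^ (-(q - 1)) * volume G) := by ring
      _ ≤ _ := by gcongr

theorem w_le_mx {w : E d → ℝ} {A : ℝ} (h : A1 w A) (a b : ℤ) {q : ℝ} (hq : 1 < q) :
    ∀ᵐ x, ENNReal.ofReal (w x) ^ (-(q - 1)) ≤
      ENNReal.ofReal (A ^ (q - 1)) * mx a b (fun y => ENNReal.ofReal (w y)) x ^ (-(q - 1)) := by
  have hs : 0 ≤ q - 1 := by linarith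
  have hA : 0 < A := lt_of_lt_of_le one_pos h.one_le
  filter_upwards [ae_all_iff.2 h.le] with x hx
  have h1 : mx a b (fun y => ENNReal.ofReal (w y)) x ≤
      ENNReal.ofReal A * ENNReal.ofReal (w x) := by
    rw [mx_le_iff]
    intro j _ _
    unfold av
    rw [wt1_lint h, ENNReal.div_le_iff (ENNReal.ofReal_pos.2 (wt1_den_pos j)).ne'
      ENNReal.ofReal_ne_top, ← ENNReal.ofReal_mul hA.le,
      ← ENNReal.ofReal_mul (mul_pos hA (h.pos x)).le]
    refine ENNReal.ofReal_le_ofReal ((hx j).trans ?_)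
    have h3 : (1 : ℝ) ≤ 3 ^ d := one_le_pow₀ (by norm_num)
    have h4 : 0 < A * sz d j * w x := mul_pos (mul_pos hA (sz_pos j)) (h.pos x)
    nlinarith
  have hA0 : ENNReal.ofReal A ≠ 0 := (ENNReal.ofReal_pos.2 hA).ne'
  calc ENNReal.ofReal (w x) ^ (-(q - 1))
      = ENNReal.ofReal A ^ (q - 1) *
          (ENNReal.ofReal A * ENNReal.ofReal (w x)) ^ (-(q - 1)) := by
        rw [ENNReal.mul_rpow_of_ne_top ENNReal.ofReal_ne_top ENNReal.ofReal_ne_top, ← mul_assoc,
          ← ENNReal.rpow_add _ _ hA0 ENNReal.ofReal_ne_top]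
        simp
    _ ≤ _ := by
        rw [ENNReal.ofReal_rpow_of_nonneg hA.le hs]
        exact mul_le_mul_right (wt1_anti hs h1) _

theorem a1_of_ball : ∃ C : ℝ, 1 ≤ C ∧ ∀ (w : E d → ℝ) (A : ℝ), LocallyIntegrable w volume →
    (∀ᵐ x, 0 < w x) → (∀ (c : E d) (r : ℝ), 0 < r → ∀ᵐ x : E d,
      x ∈ Metric.ball c r → (⨍ y in Metric.ball c r, w y) ≤ A * w x) →
    1 ≤ A ∧ ∃ w' : E d → ℝ, w' =ᵐ[volume] w ∧ A1 w' (C * A) := by
  have hC : (1 : ℝ) ≤ (2 * (2 * d + 1)) ^ d :=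
    one_le_pow₀ (by have : (0 : ℝ) ≤ d := Nat.cast_nonneg d; linarith)
  refine ⟨(2 * (2 * d + 1)) ^ d, hC, ?_⟩
  intro w A hloc hpos hball
  have hnn : 0 ≤ᵐ[volume] w := by
    filter_upwards [hpos] with x hx using hx.le
  have hA : 1 ≤ A := by
    have hI : IntegrableOn w (Metric.ball (0 : E d) 1) volume :=
      wt1_intOn hloc Metric.isBounded_ball
    have hv0 : volume (Metric.ball (0 : E d) 1) ≠ 0 := (Metric.measure_ball_pos _ _ one_pos).ne'
    have hvt : volume (Metric.ball (0 : E d) 1) ≠ ∞ := measure_ball_lt_top.ne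
    have hp : 0 < ∫ y in Metric.ball (0 : E d) 1, w y := by
      rw [setIntegral_pos_iff_support_of_nonneg_ae (ae_restrict_of_ae hnn) hI]
      have : (Function.support w ∩ Metric.ball (0 : E d) 1 : Set (E d)) =ᵐ[volume]
          Metric.ball (0 : E d) 1 := by
        filter_upwards [hpos] with x hx
        exact propext ⟨fun h => h.2, fun h => ⟨hx.ne', h⟩⟩
      rw [measure_congr this]
      exact pos_iff_ne_zero.2 hv0
    have hle : ∫ _ in Metric.ball (0 : E d) 1, (⨍ y in Metric.ball (0 : E d) 1, w y) ≤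
        ∫ x in Metric.ball (0 : E d) 1, A * w x := by
      refine setIntegral_mono_on_ae (integrableOn_const hvt) (hI.const_mul A)
        measurableSet_ball (hball 0 1 one_pos)
    rw [setIntegral_const, measure_smul_setAverage (h := hvt), integral_const_mul] at hle
    by_contra hc
    push Not at hc
    nlinarith
  refine ⟨hA, ?_⟩
  have hm : AEMeasurable w volume := hloc.aestronglyMeasurable.aemeasurable
  classical
  set w' : E d → ℝ := fun x => if 0 < hm.mk w x then hm.mk w x else 1 with hw'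
  have he : w' =ᵐ[volume] w := by
    filter_upwards [hpos, hm.ae_eq_mk] with x hx hx2
    simp only [hw']
    rw [← hx2, if_pos hx]
  refine ⟨w', he, ?_, ?_, ?_, ?_, ?_⟩
  · exact Measurable.ite (measurableSet_lt measurable_const hm.measurable_mk) hm.measurable_mk
      measurable_const
  · intro x
    simp only [hw']
    split_ifs with h1
    · exact h1
    · exact one_pos
  · exact hloc.congr he.symm
  · exact one_le_mul_of_one_le_of_one_le hC hA
  · intro j
    choose p hp using fun n : Fin d → ℤ => cube_nonempty (d := d) (j, n)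
    set r : ℝ := (2 * d + 1) * 2 ^ j with hr
    have h2j : (0 : ℝ) < 2 ^ j := zpow_pos (by norm_num) j
    have hr0 : 0 < r := by positivity
    filter_upwards [ae_all_iff.2 fun n : Fin d → ℤ => hball (p n) r hr0, he, hpos] with x hx hx2 hx3
    have hsub : big (cb j x) ⊆ Metric.ball (p (ix j x)) r := by
      intro y hy
      have h1 := norm_sub_le_of_big (c := cb j x) (hp (ix j x)) hy
      rw [Metric.mem_ball, dist_comm, dist_eq_norm]
      have e : (cb j x).1 = j := rfl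
      rw [e] at h1
      rw [hr]
      linarith
    have h1 := hx (ix j x) (hsub (cube_subset_big _ (mem_cube_cb j x)))
    have hI : IntegrableOn w (Metric.ball (p (ix j x)) r) volume :=
      wt1_intOn hloc Metric.isBounded_ball
    have hvt : volume (Metric.ball (p (ix j x)) r) ≠ ∞ := measure_ball_lt_top.ne
    have hv : volume.real (Metric.ball (p (ix j x)) r) ≤ (2 * r) ^ d := by
      refine ENNReal.toReal_le_of_le_ofReal (by positivity) ?_
      refine le_trans (measure_mono ?_) (volume_norm_le (p (ix j x)) hr0.le)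
      intro y hy
      rw [Metric.mem_ball, dist_eq_norm] at hy
      exact hy.le
    have hAw : 0 ≤ A * w x := mul_nonneg (by linarith) hx3.le
    calc ∫ y in big (cb j x), w' y = ∫ y in big (cb j x), w y :=
          integral_congr_ae (ae_restrict_of_ae he)
      _ ≤ ∫ y in Metric.ball (p (ix j x)) r, w y :=
          setIntegral_mono_set hI (ae_restrict_of_ae hnn) hsub.eventuallyLE
      _ = volume.real (Metric.ball (p (ix j x)) r) *
            ⨍ y in Metric.ball (p (ix j x)) r, w y := by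
          rw [← smul_eq_mul, measure_smul_setAverage (h := hvt)]
      _ ≤ volume.real (Metric.ball (p (ix j x)) r) * (A * w x) := by
          gcongr
      _ ≤ (2 * r) ^ d * (A * w x) := by gcongr
      _ = (2 * (2 * d + 1)) ^ d * A * sz d j * w' x := by
          rw [hx2, hr, sz, ← mul_assoc 2, mul_pow]; ring

end Pool.Agent.MP_418f02_an

end

section

open MeasureTheory Set
open scoped ENNReal

namespace Pool.Agent.MP_418f02_an

variable {d : ℕ}

theorem wt_bound (hd : 1 ≤ d) : ∃ C : ℝ, 0 < C ∧ ∀ (k g w : E d → ℝ) (A q : ℝ) (a b : ℤ),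
    IsKer k → Nice g → A1 w A → 2 ≤ q →
    ∫⁻ x, ENNReal.ofReal |TT k a b g x| ^ q * ENNReal.ofReal (w x) ^ (-(q - 1)) ≤
      ENNReal.ofReal ((C * (q * (A * √A) + A ^ 2)) ^ q) *
        ∫⁻ x, ENNReal.ofReal |g x| ^ q * ENNReal.ofReal (w x) ^ (-(q - 1)) := by
  obtain ⟨C₁, hC₁, h1⟩ := glue hd
  obtain ⟨M, hM, h2⟩ := flat_mx (d := d)
  obtain ⟨C₂, hC₂, h3⟩ := mx_chain (d := d)
  refine ⟨C₁ * M * C₂ * (C₂ + √C₂), by positivity, fun k g w A q a b hk hg hw hq => ?_⟩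
  obtain ⟨N, r, hN, hNA, hr, h4⟩ := h3 w A q hw hq
  have hA : 0 < A := zero_lt_one.trans_le hw.one_le
  have hq1 : 1 < q := by linarith
  have hV : Measurable fun x => mx a b (fun y => ENNReal.ofReal (w y)) x ^ (-(q - 1)) :=
    (mx_meas _ _ _).pow_const _
  have h5 := h1 k g hk hg a b N r q M _ hN hr hq1.le hM hV (h2 w A hw a b q hq1)
  have h6 : A * (N + q * √N) ≤ (C₂ + √C₂) * (q * (A * √A) + A ^ 2) := by
    have e1 : √N ≤ √C₂ * √A := by
      rw [← Real.sqrt_mul hC₂.le]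
      exact Real.sqrt_le_sqrt hNA
    have e2 : A * (q * √N) ≤ A * (q * (√C₂ * √A)) := by gcongr
    have e3 : A * N ≤ A * (C₂ * A) := by gcongr
    have e4 : 0 ≤ C₂ * (q * (A * √A)) := by positivity
    have e5 : 0 ≤ √C₂ * A ^ 2 := by positivity
    nlinarith
  have h7 : A ^ (q - 1) * ((C₁ * M * (N + q * √N)) ^ q * (C₂ ^ q * A)) ≤
      (C₁ * M * C₂ * (C₂ + √C₂) * (q * (A * √A) + A ^ 2)) ^ q := by
    have e1 : A ^ (q - 1) * A = A ^ q := by
      rw [Real.rpow_sub_one hA.ne', div_mul_cancel₀ _ hA.ne']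
    calc _ = A ^ (q - 1) * A * (C₁ * M * (N + q * √N)) ^ q * C₂ ^ q := by ring
      _ = (A * (C₁ * M * (N + q * √N)) * C₂) ^ q := by
          rw [e1, Real.mul_rpow (by positivity) hC₂.le, Real.mul_rpow hA.le (by positivity)]
      _ ≤ _ := by
          refine Real.rpow_le_rpow (by positivity) ?_ (by positivity)
          calc _ = C₁ * M * C₂ * (A * (N + q * √N)) := by ring
            _ ≤ C₁ * M * C₂ * ((C₂ + √C₂) * (q * (A * √A) + A ^ 2)) := by gcongr
            _ = _ := by ring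
  calc _ ≤ ∫⁻ x, ENNReal.ofReal (A ^ (q - 1)) * (ENNReal.ofReal |TT k a b g x| ^ q *
        mx a b (fun y => ENNReal.ofReal (w y)) x ^ (-(q - 1))) := by
        refine lintegral_mono_ae ((w_le_mx hw a b hq1).mono fun x hx => ?_)
        rw [mul_left_comm]
        exact mul_le_mul_right hx _
    _ = ENNReal.ofReal (A ^ (q - 1)) * ∫⁻ x, ENNReal.ofReal |TT k a b g x| ^ q *
        mx a b (fun y => ENNReal.ofReal (w y)) x ^ (-(q - 1)) :=
        lintegral_const_mul' _ _ ENNReal.ofReal_ne_top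
    _ ≤ ENNReal.ofReal (A ^ (q - 1)) * (ENNReal.ofReal ((C₁ * M * (N + q * √N)) ^ q) *
        (ENNReal.ofReal (C₂ ^ q * A) *
          ∫⁻ x, ENNReal.ofReal |g x| ^ q * ENNReal.ofReal (w x) ^ (-(q - 1)))) :=
        mul_le_mul_right (h5.trans (mul_le_mul_right (h4 g hg.meas a b) _)) _
    _ ≤ _ := by
        rw [← mul_assoc, ← mul_assoc, mul_assoc (ENNReal.ofReal (A ^ (q - 1))),
          ← ENNReal.ofReal_mul (by positivity), ← ENNReal.ofReal_mul (by positivity)]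
        exact mul_le_mul_left (ENNReal.ofReal_le_ofReal h7) _

theorem lp_bound (hd : 1 ≤ d) : ∃ C : ℝ, 0 < C ∧ ∀ (k f w : E d → ℝ) (A p : ℝ) (a b : ℤ),
    IsKer k → Nice f → A1 w A → 1 < p → p ≤ 2 →
    ∫⁻ x, ENNReal.ofReal |TT k a b f x| ^ p * ENNReal.ofReal (w x) ≤
      ENNReal.ofReal ((C * (p / (p - 1) * (A * √A) + A ^ 2)) ^ p) *
        ∫⁻ x, ENNReal.ofReal |f x| ^ p * ENNReal.ofReal (w x) := by
  obtain ⟨C, hC, h⟩ := wt_bound hd
  refine ⟨C, hC, fun k f w A p a b hk hf hw hp hp2 => ?_⟩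
  have hA : 0 < A := zero_lt_one.trans_le hw.one_le
  have h1 : 0 < p - 1 := sub_pos.2 hp
  have hq : 2 ≤ p / (p - 1) := by
    rw [le_div_iff₀ h1]
    linarith
  exact dual_bound hk hw hp (by positivity) a b (fun g hg => h _ g w A _ a b hk.rf hg hw hq) hf

end Pool.Agent.MP_418f02_an

end
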